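import Mathlib

/-!
The first Grigorchuk group acting on the rooted binary tree.
Vertices are finite words over `{0,1}`, written as `List Bool` with `false = 0`, `true = 1`.
-/

namespace Q30.Grig

/-- `a(0w)=1w`, `a(1w)=0w` (and the empty word is fixed). -/
def aFun : List Bool → List Bool
  | [] => []
  | x :: w => (!x) :: w

mutual
/-- `b(0w)=0a(w)`, `b(1w)=1c(w)`. -/
def bFun : List Bool → List Bool
  | [] => []
  | false :: w => false :: aFun w
  | true :: w => true :: cFun w
/-- `c(0w)=0a(w)`, `c(1w)=1d(w)`. -/
def cFun : List Bool → List Bool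
  | [] => []
  | false :: w => false :: aFun w
  | true :: w => true :: dFun w
/-- `d(0w)=0w`, `d(1w)=1b(w)`. -/
def dFun : List Bool → List Bool
  | [] => []
  | false :: w => false :: w
  | true :: w => true :: bFun w
end

theorem aFun_inv : ∀ w, aFun (aFun w) = w
  | [] => rfl
  | x :: w => by simp [aFun]

theorem bcd_inv : ∀ w, bFun (bFun w) = w ∧ cFun (cFun w) = w ∧ dFun (dFun w) = w
  | [] => by simp [bFun, cFun, dFun]
  | false :: w => by simp [bFun, cFun, dFun, aFun_inv]
  | true :: w => by
      have h := bcd_inv w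
      simp [bFun, cFun, dFun, h]

/-- The automorphism `a` as a permutation of the set of vertices. -/
def a : Equiv.Perm (List Bool) := ⟨aFun, aFun, aFun_inv, aFun_inv⟩

/-- The automorphism `b` as a permutation of the set of vertices. -/
def b : Equiv.Perm (List Bool) :=
  ⟨bFun, bFun, fun w => (bcd_inv w).1, fun w => (bcd_inv w).1⟩

/-- The automorphism `c` as a permutation of the set of vertices. -/
def c : Equiv.Perm (List Bool) :=
  ⟨cFun, cFun, fun w => (bcd_inv w).2.1, fun w => (bcd_inv w).2.1⟩

/-- The automorphism `d` as a permutation of the set of vertices. -/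
def d : Equiv.Perm (List Bool) :=
  ⟨dFun, dFun, fun w => (bcd_inv w).2.2, fun w => (bcd_inv w).2.2⟩

/-- The first Grigorchuk group: the group generated by `a,b,c,d`. -/
def Gamma : Subgroup (Equiv.Perm (List Bool)) := Subgroup.closure {a, b, c, d}

theorem klein : ∀ w, bFun (cFun w) = dFun w ∧ cFun (bFun w) = dFun w ∧
    cFun (dFun w) = bFun w ∧ dFun (cFun w) = bFun w ∧
    bFun (dFun w) = cFun w ∧ dFun (bFun w) = cFun w
  | [] => by simp [bFun, cFun, dFun]
  | false :: w => by simp [bFun, cFun, dFun, aFun_inv]
  | true :: w => by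
      have h := klein w
      simp [bFun, cFun, dFun, h]

theorem b_mul_c : b * c = d := Equiv.ext fun w => (klein w).1
theorem c_mul_b : c * b = d := Equiv.ext fun w => (klein w).2.1
theorem c_mul_d : c * d = b := Equiv.ext fun w => (klein w).2.2.1
theorem d_mul_c : d * c = b := Equiv.ext fun w => (klein w).2.2.2.1
theorem b_mul_d : b * d = c := Equiv.ext fun w => (klein w).2.2.2.2.1
theorem d_mul_b : d * b = c := Equiv.ext fun w => (klein w).2.2.2.2.2

theorem a_mul_a : a * a = 1 := Equiv.ext fun w => aFun_inv w
theorem b_mul_b : b * b = 1 := Equiv.ext fun w => (bcd_inv w).1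
theorem c_mul_c : c * c = 1 := Equiv.ext fun w => (bcd_inv w).2.1
theorem d_mul_d : d * d = 1 := Equiv.ext fun w => (bcd_inv w).2.2

end Q30.Grig
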