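import Mathlib
import Pool.Agent.Q30.Grig

namespace Q30.Grig

open Equiv

/-- `h` is the section `g_u` of `g` at the vertex `u`: `g(uw) = g(u) h(w)` for all words `w`. -/
def IsSection (g : Perm (List Bool)) (u : List Bool) (h : Perm (List Bool)) : Prop :=
  ∀ w : List Bool, g (u ++ w) = g u ++ h w

/-- The generating set `{a,b,c,d}`. -/
def gens : Set (Perm (List Bool)) := {a, b, c, d}

/-- The word length of `g` with respect to the generating set `{a,b,c,d}`. -/
noncomputable def len (g : Perm (List Bool)) : ℕ :=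
  sInf {n | ∃ l : List (Perm (List Bool)), l.length = n ∧ (∀ x ∈ l, x ∈ gens) ∧ l.prod = g}

/-- All sections of `g` at vertices of level `n` are among `1,a,b,c,d`. -/
def SectionsShort (g : Perm (List Bool)) (n : ℕ) : Prop :=
  ∀ u : List Bool, u.length = n →
    ∃ h ∈ ({1, a, b, c, d} : Set (Perm (List Bool))), IsSection g u h

/-- The depth of `g`: the least `n ≥ 0` such that all sections of `g` at vertices of level `n`
are among `1,a,b,c,d`. -/
noncomputable def depth (g : Perm (List Bool)) : ℕ := sInf {n | SectionsShort g n}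

/-- The set `{1,a,b,c,d}`. -/
def S5 : Set (Perm (List Bool)) := {1, a, b, c, d}

theorem IsSection.mul {g g' h h' : Perm (List Bool)} {u : List Bool}
    (hh : IsSection h u h') (hg : IsSection g (h u) g') : IsSection (g * h) u (g' * h') := by
  intro w
  rw [Perm.mul_apply, Perm.mul_apply, Perm.mul_apply, hh w, hg]

theorem IsSection.comp {g h k : Perm (List Bool)} {u v : List Bool}
    (hg : IsSection g u h) (hh : IsSection h v k) : IsSection g (u ++ v) k := by
  intro w
  rw [List.append_assoc, hg, hh, hg, List.append_assoc]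

theorem isSection_one (u : List Bool) : IsSection 1 u 1 := fun _ => rfl

theorem a_sec (v : Bool) : IsSection a [v] 1 := fun _ => rfl
theorem a_app (v : Bool) : a [v] = [!v] := rfl
theorem b_sec0 : IsSection b [false] a := fun _ => by
  change bFun _ = bFun _ ++ aFun _
  simp [bFun, aFun]
theorem b_sec1 : IsSection b [true] c := fun _ => by
  change bFun _ = bFun _ ++ cFun _
  simp [bFun, cFun]
theorem c_sec0 : IsSection c [false] a := fun _ => by
  change cFun _ = cFun _ ++ aFun _
  simp [cFun, aFun]
theorem c_sec1 : IsSection c [true] d := fun _ => by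
  change cFun _ = cFun _ ++ dFun _
  simp [cFun, dFun]
theorem d_sec0 : IsSection d [false] 1 := fun _ => by
  change dFun _ = dFun _ ++ _
  simp [dFun]
theorem d_sec1 : IsSection d [true] b := fun _ => by
  change dFun _ = dFun _ ++ bFun _
  simp [bFun, dFun]
theorem b_app (v : Bool) : b [v] = [v] := by
  change bFun _ = _
  cases v <;> simp [bFun, aFun, cFun]
theorem c_app (v : Bool) : c [v] = [v] := by
  change cFun _ = _
  cases v <;> simp [cFun, aFun, dFun]
theorem d_app (v : Bool) : d [v] = [v] := by
  change dFun _ = _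
  cases v <;> simp [dFun, bFun]

theorem one_mem : (1 : Perm (List Bool)) ∈ S5 := by simp [S5]
theorem a_mem : a ∈ S5 := by simp [S5]
theorem b_mem : b ∈ S5 := by simp [S5]
theorem c_mem : c ∈ S5 := by simp [S5]
theorem d_mem : d ∈ S5 := by simp [S5]

theorem nil_app {g : Perm (List Bool)} (hg : g ∈ S5) : g [] = [] := by
  rcases hg with rfl | rfl | rfl | rfl | rfl
  · rfl
  · rfl
  · change bFun _ = _; simp [bFun]
  · change cFun _ = _; simp [cFun]
  · change dFun _ = _; simp [dFun]

theorem one_app {g : Perm (List Bool)} (hg : g ∈ S5) (v : Bool) : ∃ v', g [v] = [v'] := by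
  rcases hg with rfl | rfl | rfl | rfl | rfl
  · exact ⟨v, rfl⟩
  · exact ⟨!v, rfl⟩
  · exact ⟨v, b_app v⟩
  · exact ⟨v, c_app v⟩
  · exact ⟨v, d_app v⟩

theorem sec1 {g : Perm (List Bool)} (hg : g ∈ S5) (v : Bool) :
    ∃ k ∈ S5, IsSection g [v] k := by
  rcases hg with rfl | rfl | rfl | rfl | rfl
  · exact ⟨1, one_mem, isSection_one _⟩
  · exact ⟨1, one_mem, a_sec v⟩
  · cases v
    · exact ⟨a, a_mem, b_sec0⟩
    · exact ⟨c, c_mem, b_sec1⟩
  · cases v
    · exact ⟨a, a_mem, c_sec0⟩
    · exact ⟨d, d_mem, c_sec1⟩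
  · cases v
    · exact ⟨1, one_mem, d_sec0⟩
    · exact ⟨b, b_mem, d_sec1⟩

theorem sec2 {g h : Perm (List Bool)} (hg : g ∈ S5) (hh : h ∈ S5) (v : Bool) :
    ∃ k ∈ S5, IsSection (g * h) [v] k := by
  have key : g * h ∈ S5 ∨ g = a ∨ h = a := by
    rcases hg with rfl | rfl | rfl | rfl | rfl <;> rcases hh with rfl | rfl | rfl | rfl | rfl <;>
      simp [S5, b_mul_c, c_mul_b, c_mul_d, d_mul_c, b_mul_d, d_mul_b, b_mul_b, c_mul_c, d_mul_d]
  rcases key with h1 | rfl | rfl
  · exact sec1 h1 v
  · obtain ⟨k, hk, hk'⟩ := sec1 hh v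
    obtain ⟨v', hv'⟩ := one_app hh v
    refine ⟨k, hk, ?_⟩
    have := hk'.mul (g := a) (g' := 1) (by rw [hv']; exact a_sec v')
    simpa using this
  · obtain ⟨k, hk, hk'⟩ := sec1 hg (!v)
    refine ⟨k, hk, ?_⟩
    have := (a_sec v).mul (g := g) (g' := k) (by rw [a_app]; exact hk')
    simpa using this

open Pointwise

theorem pow_one_app {L : ℕ} : ∀ {g : Perm (List Bool)}, g ∈ S5 ^ L → ∀ v, ∃ v', g [v] = [v'] := by
  induction L with
  | zero =>
    intro g hg v
    rw [pow_zero, Set.mem_one] at hg
    subst hg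
    exact ⟨v, rfl⟩
  | succ L ih =>
    intro g hg v
    rw [pow_succ', Set.mem_mul] at hg
    obtain ⟨s, hs, t, ht, rfl⟩ := hg
    obtain ⟨v', hv'⟩ := ih ht v
    obtain ⟨v'', hv''⟩ := one_app hs v'
    exact ⟨v'', by rw [Perm.mul_apply, hv', hv'']⟩

theorem contract : ∀ (L : ℕ) (g : Perm (List Bool)), g ∈ S5 ^ L → ∀ v : Bool,
    ∃ k ∈ S5 ^ ((L + 1) / 2), IsSection g [v] k
  | 0, g, hg, v => by
      rw [pow_zero, Set.mem_one] at hg
      subst hg
      exact ⟨1, by simp, isSection_one _⟩
  | 1, g, hg, v => by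
      rw [pow_one] at hg
      obtain ⟨k, hk, hk'⟩ := sec1 hg v
      exact ⟨k, by simpa using hk, hk'⟩
  | L + 2, g, hg, v => by
      rw [pow_succ', Set.mem_mul] at hg
      obtain ⟨s, hs, t', ht', rfl⟩ := hg
      rw [pow_succ', Set.mem_mul] at ht'
      obtain ⟨s', hs', t, ht, rfl⟩ := ht'
      obtain ⟨k, hk, hk'⟩ := contract L t ht v
      obtain ⟨v', hv'⟩ := pow_one_app ht v
      obtain ⟨m, hm, hm'⟩ := sec2 hs hs' v'
      refine ⟨m * k, ?_, ?_⟩
      · have : (L + 2 + 1) / 2 = (L + 1) / 2 + 1 := by omega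
        rw [this, pow_succ']
        exact Set.mul_mem_mul hm hk
      · have := hk'.mul (g := s * s') (g' := m) (by rw [hv']; exact hm')
        rwa [mul_assoc] at this

theorem short_of_le : ∀ (n L : ℕ) (g : Perm (List Bool)), g ∈ S5 ^ L → L ≤ 2 ^ n →
    SectionsShort g n
  | 0, L, g, hg, hL => by
      intro u hu
      rw [List.length_eq_zero_iff] at hu
      subst hu
      have : g ∈ S5 := by
        rw [pow_zero] at hL
        interval_cases L
        · rw [pow_zero, Set.mem_one] at hg
          subst hg
          exact one_mem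
        · rwa [pow_one] at hg
      exact ⟨g, this, fun w => by rw [nil_app this]; rfl⟩
  | n + 1, L, g, hg, hL => by
      intro u hu
      match u, hu with
      | v :: u', hu =>
        obtain ⟨k, hk, hk'⟩ := contract L g hg v
        obtain ⟨h, hh, hh'⟩ := short_of_le n ((L + 1) / 2) k hk
          (by rw [pow_succ] at hL; omega) u' (by simpa using hu)
        exact ⟨h, hh, hk'.comp hh'⟩

theorem short_mono {g : Perm (List Bool)} {n : ℕ} (h : SectionsShort g n) :
    SectionsShort g (n + 1) := by
  intro u hu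
  rcases List.eq_nil_or_concat u with rfl | ⟨u', v, rfl⟩
  · simp at hu
  · obtain ⟨k, hk, hk'⟩ := h u' (by simpa using hu)
    obtain ⟨m, hm, hm'⟩ := sec1 hk v
    refine ⟨m, hm, ?_⟩
    have := hk'.comp hm'
    simpa using this

theorem short_mono' {g : Perm (List Bool)} {n m : ℕ} (h : SectionsShort g n) (hnm : n ≤ m) :
    SectionsShort g m := by
  induction hnm with
  | refl => exact h
  | step _ ih => exact short_mono ih

theorem mem_pow_of_list : ∀ (l : List (Perm (List Bool))), (∀ x ∈ l, x ∈ gens) →
    l.prod ∈ S5 ^ l.length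
  | [], _ => by simp
  | x :: l, h => by
      rw [List.prod_cons, List.length_cons, pow_succ']
      refine Set.mul_mem_mul ?_ (mem_pow_of_list l fun y hy => h y (List.mem_cons_of_mem _ hy))
      have := h x List.mem_cons_self
      unfold gens at this
      unfold S5
      exact Set.mem_insert_of_mem _ this

theorem len_set_nonempty {g : Perm (List Bool)} (hg : g ∈ Gamma) :
    {n | ∃ l : List (Perm (List Bool)), l.length = n ∧ (∀ x ∈ l, x ∈ gens) ∧
      l.prod = g}.Nonempty := by
  unfold Gamma at hg
  rw [← Subgroup.mem_toSubmonoid, Subgroup.closure_toSubmonoid] at hg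
  obtain ⟨l, hl, hlg⟩ := Submonoid.exists_list_of_mem_closure hg
  refine ⟨l.length, l, rfl, ?_, hlg⟩
  intro x hx
  rcases hl x hx with h | h
  · exact h
  · rw [Set.mem_inv] at h
    have : x⁻¹ * x⁻¹ = 1 := by
      rcases h with h | h | h | h
      · rw [h, a_mul_a]
      · rw [h, b_mul_b]
      · rw [h, c_mul_c]
      · rw [h, d_mul_d]
    have h2 : x⁻¹ = x := by
      rw [← mul_inv_rev, inv_eq_one] at this
      exact inv_eq_of_mul_eq_one_left this
    rwa [h2] at h

theorem exists_list {g : Perm (List Bool)} (hg : g ∈ Gamma) :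
    ∃ l : List (Perm (List Bool)), l.length = len g ∧ (∀ x ∈ l, x ∈ gens) ∧ l.prod = g :=
  Nat.sInf_mem (len_set_nonempty hg)

theorem mem_pow_len {g : Perm (List Bool)} (hg : g ∈ Gamma) : g ∈ S5 ^ len g := by
  obtain ⟨l, hl, hlg, rfl⟩ := exists_list hg
  rw [← hl]
  exact mem_pow_of_list l hlg

theorem short_clog {g : Perm (List Bool)} (hg : g ∈ Gamma) :
    SectionsShort g (Nat.clog 2 (len g)) :=
  short_of_le _ _ g (mem_pow_len hg) (Nat.le_pow_clog (by norm_num) _)

/-- Upper bound: the depth is at most the ceiling of the binary logarithm of the length. -/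
theorem depth_le {g : Perm (List Bool)} (hg : g ∈ Gamma) : depth g ≤ Nat.clog 2 (len g) :=
  Nat.sInf_le (short_clog hg)

theorem lt_depth {g : Perm (List Bool)} (hg : g ∈ Gamma) {n : ℕ} (h : ¬ SectionsShort g n) :
    n < depth g := by
  by_contra hlt
  exact h (short_mono' (Nat.sInf_mem (s := {n | SectionsShort g n}) ⟨_, short_clog hg⟩)
    (not_lt.mp hlt))

/-! ### the long words -/

/-- The letters `b,c,d`. -/
def let3 : Fin 3 → Perm (List Bool)
  | 0 => b
  | 1 => c
  | 2 => d

/-- The letter whose section at the vertex `1` is the given letter. -/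
def lift3 : Fin 3 → Fin 3
  | 0 => 2
  | 1 => 0
  | 2 => 1

theorem lift3_sec (y : Fin 3) : IsSection (let3 (lift3 y)) [true] (let3 y) := by
  match y with
  | 0 => exact d_sec1
  | 1 => exact b_sec1
  | 2 => exact c_sec1

theorem let3_app (y : Fin 3) (v : Bool) : let3 y [v] = [v] := by
  match y with
  | 0 => exact b_app v
  | 1 => exact c_app v
  | 2 => exact d_app v

/-- The product of the `y a`. -/
def val (l : List (Fin 3)) : Perm (List Bool) := (l.map fun y => let3 y * a).prod

/-- Doubling. -/
def dbl (l : List (Fin 3)) : List (Fin 3) := l.flatMap fun y => [lift3 y, 0]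

theorem dbl_length (l : List (Fin 3)) : (dbl l).length = 2 * l.length := by
  induction l with
  | nil => rfl
  | cons y l ih =>
    have : dbl (y :: l) = lift3 y :: 0 :: dbl l := rfl
    rw [this, List.length_cons, List.length_cons, ih, List.length_cons]
    ring

theorem aba_sec : IsSection (a * let3 0 * a) [true] a := by
  intro w
  rfl

theorem aba_app : (a * let3 0 * a) [true] = [true] := rfl

theorem dbl_sec (l : List (Fin 3)) : IsSection (val (dbl l)) [true] (val l) ∧
    val (dbl l) [true] = [true] := by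
  induction l with
  | nil => exact ⟨fun _ => rfl, rfl⟩
  | cons y l ih =>
    have h1 : val (dbl (y :: l)) = let3 (lift3 y) * (a * let3 0 * a) * val (dbl l) := by
      have : dbl (y :: l) = lift3 y :: 0 :: dbl l := rfl
      rw [this]
      simp only [val, List.map_cons, List.prod_cons, mul_assoc]
    have h2 : val (y :: l) = let3 y * a * val l := by
      simp only [val, List.map_cons, List.prod_cons]
    rw [h1, h2]
    constructor
    · refine ih.1.mul ?_
      rw [ih.2]
      refine aba_sec.mul ?_
      rw [aba_app]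
      exact lift3_sec y
    · rw [Perm.mul_apply, ih.2, Perm.mul_apply, aba_app, let3_app]

theorem gen_mem_Gamma {x : Perm (List Bool)} (hx : x ∈ gens) : x ∈ Gamma :=
  Subgroup.subset_closure hx

theorem let3_mem (y : Fin 3) : let3 y ∈ gens := by
  match y with
  | 0 => simp [let3, gens]
  | 1 => simp [let3, gens]
  | 2 => simp [let3, gens]

theorem val_mem (l : List (Fin 3)) : val l ∈ Gamma := by
  induction l with
  | nil => exact Subgroup.one_mem _
  | cons y l ih =>
    have h2 : val (y :: l) = let3 y * a * val l := by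
      simp only [val, List.map_cons, List.prod_cons]
    rw [h2]
    exact mul_mem (mul_mem (gen_mem_Gamma (let3_mem y)) (gen_mem_Gamma (by simp [gens]))) ih

theorem len_val_le (l : List (Fin 3)) : len (val l) ≤ 2 * l.length := by
  have key : ∀ l : List (Fin 3), ∃ m : List (Perm (List Bool)), m.length = 2 * l.length ∧
      (∀ x ∈ m, x ∈ gens) ∧ m.prod = val l := by
    intro l
    induction l with
    | nil => exact ⟨[], rfl, by simp, rfl⟩
    | cons y l ih =>
      obtain ⟨m, hm, hm', hm''⟩ := ih
      refine ⟨let3 y :: a :: m, ?_, ?_, ?_⟩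
      · simp only [List.length_cons, hm]; ring
      · intro x hx
        rw [List.mem_cons, List.mem_cons] at hx
        rcases hx with rfl | rfl | hx
        · exact let3_mem y
        · simp [gens]
        · exact hm' x hx
      · simp only [List.prod_cons, hm'', val, List.map_cons, mul_assoc]
  exact Nat.sInf_le (key l)

theorem sec_unique {g : Perm (List Bool)} {u : List Bool} {h k : Perm (List Bool)}
    (hh : IsSection g u h) (hk : IsSection g u k) : h = k := by
  ext1 w
  have := (hh w).symm.trans (hk w)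
  exact List.append_cancel_left this

theorem ba_not_mem : val [0] ∉ S5 := by
  have h1 : val [0] [false] = [true] := rfl
  have h2 : val [0] [false, false] = [true, false] := rfl
  have h3 : val [0] [false, false, false] = [true, false, true] := rfl
  intro h
  rcases h with h | h | h | h | h
  · rw [h] at h1
    exact absurd h1 (by decide)
  · rw [h] at h3
    exact absurd h3 (by decide)
  · rw [h, b_app] at h1
    exact absurd h1 (by decide)
  · rw [h, c_app] at h1
    exact absurd h1 (by decide)
  · rw [h, d_app] at h1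
    exact absurd h1 (by decide)

theorem exists_deep : ∀ n : ℕ, ∃ l : List (Fin 3), l.length = 2 ^ n ∧
    ¬ SectionsShort (val l) n
  | 0 => by
      refine ⟨[0], rfl, fun h => ?_⟩
      obtain ⟨k, hk, hk'⟩ := h [] rfl
      have : k = val [0] := sec_unique hk' (fun w => rfl)
      exact ba_not_mem (this ▸ hk)
  | n + 1 => by
      obtain ⟨l, hl, hl'⟩ := exists_deep n
      refine ⟨dbl l, by rw [dbl_length, hl]; ring, fun h => hl' ?_⟩
      intro u hu
      obtain ⟨k, hk, hk'⟩ := h (true :: u) (by simp [hu])
      refine ⟨k, hk, ?_⟩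
      intro w
      have h1 := hk' w
      have h2 := (dbl_sec l).1 (u ++ w)
      have h3 := (dbl_sec l).1 u
      rw [(dbl_sec l).2] at h2 h3
      change val (dbl l) ([true] ++ u ++ w) = _ at h1
      change _ = val (dbl l) ([true] ++ u) ++ _ at h1
      rw [List.append_assoc, h2, h3] at h1
      simpa using h1

theorem exists_deep' (n : ℕ) : ∃ g ∈ Gamma, g ≠ 1 ∧ len g ≤ 2 ^ (n + 1) ∧ n + 1 ≤ depth g := by
  obtain ⟨l, hl, hl'⟩ := exists_deep n
  refine ⟨val l, val_mem l, ?_, ?_, lt_depth (val_mem l) hl'⟩
  · intro h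
    apply hl'
    rw [h]
    exact short_of_le n 0 1 (by simp) (by positivity)
  · have := len_val_le l
    rw [hl] at this
    rw [pow_succ]
    omega

end Q30.Grig
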