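import Mathlib

/-!
# Blow-ups of the Cayley tree of the free group of rank two

Part of the solution of MP_9fd1ce.  The vertices are pairs `(g, σ)`, `g ∈ F₂`, `σ : Bool`; the two
vertices over `g` are joined by an edge of length `c`, and the edge of the Cayley tree from `g` to
`g s` is attached at the sides `att s` and `att s⁻¹`.
-/

namespace Q30.BlowUp

/-- letters -/
abbrev Lt : Type := Fin 2 × Bool

/-- the free group of rank two -/
abbrev F : Type := FreeGroup (Fin 2)

/-- the inverse letter -/
def bar (s : Lt) : Lt := (s.1, !s.2)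

/-- the group element of a letter -/
def lt (s : Lt) : F := FreeGroup.mk [s]

theorem bar_bar (s : Lt) : bar (bar s) = s := by
  simp [bar]

theorem lt_bar (s : Lt) : lt (bar s) = (lt s)⁻¹ := by
  unfold lt bar
  rw [FreeGroup.inv_mk]
  rfl

theorem toWord_lt (s : Lt) : (lt s).toWord = [s] := by
  unfold lt
  rw [FreeGroup.toWord_mk]
  rfl

theorem lt_ne_one (s : Lt) : lt s ≠ 1 := by
  intro h
  have h1 := toWord_lt s
  rw [h, FreeGroup.toWord_one] at h1
  exact absurd h1 (by simp)

/-- multiplication by a letter on the left -/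
theorem cons_cases (s : Lt) (h : F) :
    (lt s * h).toWord = s :: h.toWord ∨ h.toWord = bar s :: (lt s * h).toWord := by
  have e : lt s * h = FreeGroup.mk (s :: h.toWord) := by
    conv_lhs => rw [← FreeGroup.mk_toWord (x := h)]
    unfold lt
    rw [FreeGroup.mul_mk]
    rfl
  rw [e, FreeGroup.toWord_mk, FreeGroup.reduce.cons, FreeGroup.reduce_toWord]
  cases hw : h.toWord with
  | nil => left; rfl
  | cons a l =>
    dsimp only
    split_ifs with h1
    · right
      obtain ⟨h2, h3⟩ := h1
      have : a = bar s := by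
        apply Prod.ext
        · exact h2.symm
        · simp only [bar]; rw [h3]; simp
      rw [this]
    · left; rfl

section

variable (att : Lt → Bool) (lw : Fin 2 → ℝ) (c : ℝ)

/-- the distance formula -/
noncomputable def D : Bool → List Lt → Bool → ℝ
  | σ, [], τ => if σ = τ then 0 else c
  | σ, s :: w, τ => (if σ = att s then 0 else c) + lw s.1 + D (att (bar s)) w τ

/-- the blow-up of the Cayley tree -/
def Gr : SimpleGraph (F × Bool) where
  Adj x y := (x.1 = y.1 ∧ x.2 ≠ y.2) ∨
    ∃ s : Lt, y.1 = x.1 * lt s ∧ x.2 = att s ∧ y.2 = att (bar s)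
  symm := ⟨by
    rintro x y (⟨h1, h2⟩ | ⟨s, h1, h2, h3⟩)
    · exact Or.inl ⟨h1.symm, h2.symm⟩
    · refine Or.inr ⟨bar s, ?_, h3, ?_⟩
      · rw [lt_bar, h1, mul_inv_cancel_right]
      · rw [bar_bar]; exact h2⟩
  loopless := ⟨by
    rintro x (⟨_, h2⟩ | ⟨s, h1, _, _⟩)
    · exact h2 rfl
    · exact lt_ne_one s (mul_eq_left.1 h1.symm)⟩

/-- the length of the edges, as a function of the difference of the ends -/
noncomputable def fl (g : F) : ℝ := if g = 1 then c else (g.toWord.map (fun s => lw s.1)).sum

theorem fl_inv (g : F) : fl lw c g⁻¹ = fl lw c g := by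
  unfold fl
  have e : (g⁻¹.toWord.map (fun s => lw s.1)).sum = (g.toWord.map (fun s => lw s.1)).sum := by
    rw [FreeGroup.toWord_inv]
    unfold FreeGroup.invRev
    rw [List.map_reverse, List.sum_reverse, List.map_map]
    rfl
  by_cases h : g = 1
  · simp [h]
  · rw [if_neg h, if_neg (by simpa using h), e]

theorem fl_one : fl lw c 1 = c := by simp [fl]

theorem fl_lt (s : Lt) : fl lw c (lt s) = lw s.1 := by
  unfold fl
  rw [if_neg (lt_ne_one s), toWord_lt]
  simp

/-- the length of the edges -/
noncomputable def elen : Sym2 (F × Bool) → ℝ :=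
  Sym2.lift ⟨fun x y => fl lw c (x.1⁻¹ * y.1), fun x y => by
    dsimp only
    rw [← fl_inv lw c (x.1⁻¹ * y.1)]; congr 1; group⟩

theorem elen_mk (x y : F × Bool) : elen lw c s(x, y) = fl lw c (x.1⁻¹ * y.1) := rfl

/-- the total length of a walk -/
noncomputable def wlen {x y : F × Bool} (p : (Gr att).Walk x y) : ℝ := (p.edges.map (elen lw c)).sum

theorem wlen_cons {x y z : F × Bool} (h : (Gr att).Adj x y) (p : (Gr att).Walk y z) :
    wlen att lw c (SimpleGraph.Walk.cons h p) = fl lw c (x.1⁻¹ * y.1) + wlen att lw c p := by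
  unfold wlen
  rw [SimpleGraph.Walk.edges_cons, List.map_cons, List.sum_cons, elen_mk]

theorem exists_walk (w : List Lt) : ∀ (g : F) (σ : Bool) (h : F) (τ : Bool),
    h = g * FreeGroup.mk w → ∃ p : (Gr att).Walk (g, σ) (h, τ), wlen att lw c p = D att lw c σ w τ := by
  induction w with
  | nil =>
    intro g σ h τ hh
    have e : h = g := by rw [hh]; exact mul_one g
    subst e
    by_cases hs : σ = τ
    · subst hs
      exact ⟨SimpleGraph.Walk.nil, by simp [wlen, D]⟩
    · have ha : (Gr att).Adj (h, σ) (h, τ) := Or.inl ⟨rfl, hs⟩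
      refine ⟨SimpleGraph.Walk.cons ha SimpleGraph.Walk.nil, ?_⟩
      rw [wlen_cons]
      simp [wlen, D, hs, fl_one]
  | cons s w ih =>
    intro g σ h τ hh
    have hh' : h = (g * lt s) * FreeGroup.mk w := by
      rw [hh, mul_assoc]
      congr 1
    obtain ⟨p, hp⟩ := ih (g * lt s) (att (bar s)) h τ hh'
    have ha : (Gr att).Adj (g, att s) (g * lt s, att (bar s)) := Or.inr ⟨s, rfl, rfl, rfl⟩
    have e1 : fl lw c ((g, att s).1⁻¹ * (g * lt s, att (bar s)).1) = lw s.1 := by
      simp only [inv_mul_cancel_left, fl_lt]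
    by_cases hs : σ = att s
    · subst hs
      refine ⟨SimpleGraph.Walk.cons ha p, ?_⟩
      rw [wlen_cons, hp, e1]
      simp [D]
    · have hb : (Gr att).Adj (g, σ) (g, att s) := Or.inl ⟨rfl, hs⟩
      refine ⟨SimpleGraph.Walk.cons hb (SimpleGraph.Walk.cons ha p), ?_⟩
      rw [wlen_cons, wlen_cons, hp, e1]
      simp only [inv_mul_cancel, fl_one, D, if_neg hs]
      ring

variable (hc : 0 ≤ c) (hl : ∀ i, 0 ≤ lw i)
include hc hl

theorem D_nonneg (w : List Lt) : ∀ σ τ, 0 ≤ D att lw c σ w τ := by
  induction w with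
  | nil => intro σ τ; unfold D; split_ifs <;> linarith
  | cons s w ih =>
    intro σ τ
    unfold D
    have := ih (att (bar s)) τ
    have := hl s.1
    split_ifs <;> linarith

theorem D_le_walk {x y : F × Bool} (p : (Gr att).Walk x y) :
    D att lw c x.2 (x.1⁻¹ * y.1).toWord y.2 ≤ wlen att lw c p := by
  induction p with
  | nil => simp [wlen, D]
  | cons h p ih =>
    rename_i u v w
    rw [wlen_cons]
    rcases h with ⟨h1, h2⟩ | ⟨s, h1, h2, h3⟩
    · rw [h1, inv_mul_cancel, fl_one]
      have key : ∀ l : List Lt, D att lw c u.2 l w.2 ≤ c + D att lw c v.2 l w.2 := by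
        intro l
        cases l with
        | nil => unfold D; split_ifs <;> linarith
        | cons s l => unfold D; split_ifs <;> linarith
      have := key (v.1⁻¹ * w.1).toWord
      linarith
    · have e1 : u.1⁻¹ * v.1 = lt s := by rw [h1, inv_mul_cancel_left]
      have e2 : u.1⁻¹ * w.1 = lt s * (v.1⁻¹ * w.1) := by rw [h1]; group
      rw [e1, fl_lt, e2]
      have hls := hl s.1
      rcases cons_cases s (v.1⁻¹ * w.1) with h4 | h4
      · rw [h4]
        unfold D
        rw [if_pos h2, ← h3]
        linarith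
      · rw [h4] at ih
        rw [D, h3, if_pos rfl, bar_bar, ← h2] at ih
        have e3 : (bar s).1 = s.1 := rfl
        rw [e3] at ih
        linarith

/-- The weighted path distance. -/
theorem iInf_walk (x y : F × Bool) :
    ⨅ p : (Gr att).Walk x y, (p.edges.map (elen lw c)).sum =
      D att lw c x.2 (x.1⁻¹ * y.1).toWord y.2 := by
  obtain ⟨p, hp⟩ := exists_walk att lw c (x.1⁻¹ * y.1).toWord x.1 x.2 y.1 y.2
    (by rw [FreeGroup.mk_toWord, mul_inv_cancel_left])
  have hbdd : BddBelow (Set.range fun p : (Gr att).Walk x y => (p.edges.map (elen lw c)).sum) := by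
    refine ⟨0, ?_⟩
    rintro _ ⟨q, rfl⟩
    exact (D_nonneg att lw c hc hl _ _ _).trans (D_le_walk att lw c hc hl q)
  have : Nonempty ((Gr att).Walk x y) := ⟨p⟩
  apply le_antisymm
  · exact (ciInf_le hbdd p).trans hp.le
  · apply le_ciInf
    intro q
    exact D_le_walk att lw c hc hl q

end

/-! ### The graph is a tree -/

theorem connected (att : Lt → Bool) : (Gr att).Connected := by
  have : Nonempty (F × Bool) := ⟨(1, true)⟩
  refine SimpleGraph.Connected.mk ?_
  intro x y
  obtain ⟨p, -⟩ := exists_walk att (fun _ => 0) 0 (x.1⁻¹ * y.1).toWord x.1 x.2 y.1 y.2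
    (by rw [FreeGroup.mk_toWord, mul_inv_cancel_left])
  exact ⟨p⟩

theorem not_reachable_of_inv {V : Type} (Γ : SimpleGraph V) (e : Sym2 V) (f : V → Prop)
    (hf : ∀ x y, Γ.Adj x y → s(x, y) ≠ e → f x → f y) (x y : V) (hx : f x) (hy : ¬ f y) :
    ¬ (Γ.deleteEdges {e}).Reachable x y := by
  rintro ⟨p⟩
  apply hy
  clear hy
  induction p with
  | nil => exact hx
  | cons h p ih =>
    apply ih
    rw [SimpleGraph.deleteEdges_adj] at h
    exact hf _ _ h.1 (by simpa using h.2) hx

/-- the word of `g` starts with `s` -/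
def St (s : Lt) (g : F) : Prop := g.toWord.head? = some s

theorem St_step (s s' : Lt) (h : F) (hs : St s h) (hs' : ¬ St s (h * lt s')) :
    h = lt s ∧ s' = bar s := by
  -- use inverses: `(h * lt s')⁻¹ = lt (bar s') * h⁻¹`
  have e : (h * lt s')⁻¹ = lt (bar s') * h⁻¹ := by rw [mul_inv_rev, lt_bar]
  have hinv : ∀ g : F, g.toWord = (g⁻¹.toWord.map (fun p => (p.1, !p.2))).reverse := by
    intro g
    conv_lhs => rw [← inv_inv g, FreeGroup.toWord_inv]
    rfl
  have hbar : (fun p : Lt => (p.1, !p.2)) = bar := rfl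
  unfold St at hs hs'
  rcases cons_cases (bar s') h⁻¹ with h1 | h1
  · exfalso
    apply hs'
    rw [hinv, e, h1, hbar, List.map_cons, List.reverse_cons, List.head?_append]
    rw [hinv, hbar] at hs
    rw [hs]
    rfl
  · rw [bar_bar] at h1
    rw [hinv, h1, hbar, List.map_cons, List.reverse_cons, List.head?_append] at hs
    rw [hinv, e, hbar] at hs'
    cases hw : (List.map bar (lt (bar s') * h⁻¹).toWord).reverse with
    | nil =>
      rw [hw] at hs
      simp only [List.head?_nil, List.head?_cons, Option.none_or, Option.some.injEq] at hs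
      have hnil : (lt (bar s') * h⁻¹).toWord = [] := by
        have := congrArg List.length hw
        simpa using this
      have h2 : h⁻¹.toWord = [s'] := by rw [h1, hnil]
      have h3 : h⁻¹ = lt s' := by
        rw [← FreeGroup.mk_toWord (x := h⁻¹), h2]; rfl
      constructor
      · rw [← hs, lt_bar, ← h3, inv_inv]
      · rw [← hs, bar_bar]
    | cons a l =>
      rw [hw] at hs hs'
      exfalso
      apply hs'
      simpa using hs

theorem isAcyclic (att : Lt → Bool) : (Gr att).IsAcyclic := by
  rw [SimpleGraph.isAcyclic_iff_forall_isBridge]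
  intro e he
  induction e using Sym2.ind with
  | _ x y =>
    rw [SimpleGraph.mem_edgeSet] at he
    rw [SimpleGraph.isBridge_iff]
    rcases he with ⟨h1, h2⟩ | ⟨s, h1, h2, h3⟩
    · -- the edge over a vertex
      refine not_reachable_of_inv _ _ (fun z => (z.1 = x.1 ∧ z.2 = x.2) ∨
        ∃ s, St s (x.1⁻¹ * z.1) ∧ att s = x.2) ?_ x y (Or.inl ⟨rfl, rfl⟩) ?_
      · rintro u v (⟨h3, h4⟩ | ⟨s, h3, h4, h5⟩) hne (⟨h6, h7⟩ | ⟨s', h6, h7⟩)
        · exfalso
          apply hne
          have hu : u = x := Prod.ext h6 h7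
          have hv : v = y := by
            apply Prod.ext
            · rw [← h3, h6, h1]
            · have h8 : v.2 ≠ x.2 := by rw [← h7]; exact h4.symm
              cases hx : x.2 <;> cases hy : y.2 <;> cases hv : v.2 <;> simp_all
          rw [hu, hv]
        · right
          exact ⟨s', by rw [← h3]; exact h6, h7⟩
        · right
          refine ⟨s, ?_, by rw [← h7]; exact h4.symm⟩
          unfold St
          rw [h3, h6, inv_mul_cancel_left, toWord_lt]
          rfl
        · -- step from `u` to `v = u s`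
          by_cases hst : St s' (x.1⁻¹ * v.1)
          · exact Or.inr ⟨s', hst, h7⟩
          · rw [h3, ← mul_assoc] at hst
            obtain ⟨h8, h9⟩ := St_step s' s _ h6 hst
            left
            constructor
            · rw [h3, h9, lt_bar, ← h8]; group
            · rw [h5, h9, bar_bar, h7]
      · rintro (⟨h3, h4⟩ | ⟨s, h3, h4⟩)
        · exact h2 h4.symm
        · unfold St at h3
          rw [← h1, inv_mul_cancel, FreeGroup.toWord_one] at h3
          exact absurd h3 (by simp)
    · -- the edge of the letter `s`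
      have hx : x.1⁻¹ * y.1 = lt s := by rw [h1, inv_mul_cancel_left]
      have key := not_reachable_of_inv (Gr att) s(x, y) (fun z => St s (x.1⁻¹ * z.1)) ?_ y x ?_ ?_
      · intro h
        exact key h.symm
      · rintro u v (⟨h4, h5⟩ | ⟨s', h4, h5, h6⟩) hne hu
        · rw [← h4]; exact hu
        · by_contra hv
          rw [h4, ← mul_assoc] at hv
          obtain ⟨h8, h9⟩ := St_step s s' _ hu hv
          apply hne
          have huy : u = y := by
            apply Prod.ext
            · rw [h1, ← h8]; group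
            · rw [h5, h9, h3]
          have hvx : v = x := by
            apply Prod.ext
            · rw [h4, h9, lt_bar, ← h8]; group
            · rw [h6, h9, bar_bar, h2]
          rw [huy, hvx, Sym2.eq_swap]
      · unfold St
        rw [hx, toWord_lt]
        rfl
      · unfold St
        rw [inv_mul_cancel, FreeGroup.toWord_one]
        simp

theorem isTree (att : Lt → Bool) : (Gr att).IsTree := ⟨connected att, isAcyclic att⟩

end Q30.BlowUp
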