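import Mathlib

/-!
# The normalised Outer space `CV₂`: definitions
-/

namespace Q30.CV

/-- A simplicial metric tree with an isometric action of the free group `F₂` by automorphisms. -/
structure MTree where
  /-- the vertices -/
  V : Type
  /-- the tree -/
  Γ : SimpleGraph V
  isTree : Γ.IsTree
  /-- the lengths of the edges -/
  len : Sym2 V → ℝ
  len_pos : ∀ e ∈ Γ.edgeSet, 0 < len e
  [act : MulAction (FreeGroup (Fin 2)) V]
  adj_smul : ∀ (g : FreeGroup (Fin 2)) (x y : V), Γ.Adj x y → Γ.Adj (g • x) (g • y)
  len_smul : ∀ (g : FreeGroup (Fin 2)) (e : Sym2 V), len (e.map (fun x => g • x)) = len e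

attribute [instance] MTree.act

namespace MTree

variable (T : MTree)

/-- The metric of the tree (on its vertices): the total length of the edges of a path; in a tree
the infimum over all walks is attained at the unique path. -/
noncomputable def d (x y : T.V) : ℝ := ⨅ p : T.Γ.Walk x y, (p.edges.map T.len).sum

/-- The translation length of `g`.  (For `g ≠ 1` acting freely the infimum over all points of the
tree is attained exactly on the axis of `g`, which contains vertices; so it is the infimum over
the vertices.) -/
noncomputable def tl (g : FreeGroup (Fin 2)) : ℝ := ⨅ x : T.V, T.d x (g • x)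

/-- The action is free (a free group has no torsion, so no edge is inverted either). -/
def Free : Prop := ∀ (g : FreeGroup (Fin 2)) (x : T.V), g • x = x → g = 1

/-- The action is minimal: every nonempty invariant subtree is the whole tree. -/
def Minimal : Prop :=
  ∀ Y : Set T.V, Y.Nonempty →
    (∀ x ∈ Y, ∀ y ∈ Y, ∀ p : T.Γ.Walk x y, p.IsPath → ∀ z ∈ p.support, z ∈ Y) →
    (∀ g : FreeGroup (Fin 2), ∀ y ∈ Y, g • y ∈ Y) → Y = Set.univ

/-- The quotient graph is finite and the sum of the lengths of its edges is `c`: there is a finite
set of representatives of the orbits of the edges, of total length `c`. -/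
def HasCovolume (c : ℝ) : Prop :=
  ∃ R : Finset (Sym2 T.V), (∀ e ∈ R, e ∈ T.Γ.edgeSet) ∧
    (∀ e ∈ T.Γ.edgeSet, ∃! e' : Sym2 T.V, e' ∈ R ∧
      ∃ g : FreeGroup (Fin 2), e = e'.map (fun x => g • x)) ∧
    ∑ e ∈ R, T.len e = c

/-- The tree represents a point of `CV₂`. -/
def InCV : Prop := T.Free ∧ T.Minimal ∧ T.HasCovolume 1

end MTree

/-- Primitive elements of `F₂`: members of free bases, i.e. images of the first standard generator
under automorphisms. -/
def Primitive (w : FreeGroup (Fin 2)) : Prop :=
  ∃ φ : MulAut (FreeGroup (Fin 2)), φ (FreeGroup.of 0) = w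

end Q30.CV
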