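import Pool.Agent.H528.MCG.Nielsen
import Pool.Agent.Q30.CVDefs

/-!
# Primitive elements of the free group of rank two are conjugate to sign coherent words

Part of the solution of MP_9fd1ce.
-/

namespace Q30.CV

open FreeGroup (of lift)

/-- the free group of rank two -/
abbrev F2 : Type := FreeGroup (Fin 2)

/-- equal up to inversion -/
def E (x y : F2) : Prop := x = y ∨ x = y⁻¹

theorem E.refl (x : F2) : E x x := Or.inl rfl
theorem E.inv_left {x y : F2} (h : E x y) : E x⁻¹ y := by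
  rcases h with h | h
  · exact Or.inr (by rw [h])
  · exact Or.inl (by rw [h, inv_inv])

/-- standard pairs -/
inductive Std (α β : F2) : F2 → F2 → Prop
  | base : Std α β α β
  | l {P Q : F2} : Std α β P Q → Std α β (P * Q) Q
  | r {P Q : F2} : Std α β P Q → Std α β P (P * Q)

/-- the signed generators -/
def sg (i : Fin 2) (ε : Bool) : F2 := if ε then of i else (of i)⁻¹

theorem sg_not (i : Fin 2) (ε : Bool) : sg i (!ε) = (sg i ε)⁻¹ := by
  cases ε <;> simp [sg]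

/-- pairs which are standard up to conjugation, inversions and exchange -/
def Good (u v : F2) : Prop :=
  ∃ (ε δ : Bool) (g P Q : F2), Std (sg 0 ε) (sg 1 δ) P Q ∧
    ((E u (g * P * g⁻¹) ∧ E v (g * Q * g⁻¹)) ∨ (E u (g * Q * g⁻¹) ∧ E v (g * P * g⁻¹)))

theorem Good.swap {u v : F2} (h : Good u v) : Good v u := by
  obtain ⟨ε, δ, g, P, Q, hs, h | h⟩ := h
  · exact ⟨ε, δ, g, P, Q, hs, Or.inr ⟨h.2, h.1⟩⟩
  · exact ⟨ε, δ, g, P, Q, hs, Or.inl ⟨h.2, h.1⟩⟩

theorem Good.inv {u v : F2} (h : Good u v) : Good u⁻¹ v := by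
  obtain ⟨ε, δ, g, P, Q, hs, h | h⟩ := h
  · exact ⟨ε, δ, g, P, Q, hs, Or.inl ⟨h.1.inv_left, h.2⟩⟩
  · exact ⟨ε, δ, g, P, Q, hs, Or.inr ⟨h.1.inv_left, h.2⟩⟩

theorem Good.inv' {u v : F2} (h : Good u v) : Good u v⁻¹ := h.swap.inv.swap

theorem E.conj {x y : F2} (h : E x y) (k : F2) : E (k * x * k⁻¹) (k * y * k⁻¹) := by
  rcases h with h | h
  · exact Or.inl (by rw [h])
  · exact Or.inr (by rw [h]; group)

theorem Good.conj {u v : F2} (h : Good u v) (k : F2) : Good (k * u * k⁻¹) (k * v * k⁻¹) := by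
  obtain ⟨ε, δ, g, P, Q, hs, h⟩ := h
  refine ⟨ε, δ, k * g, P, Q, hs, ?_⟩
  have e : ∀ x : F2, k * g * x * (k * g)⁻¹ = k * (g * x * g⁻¹) * k⁻¹ := by intro x; group
  rw [e, e]
  rcases h with h | h
  · exact Or.inl ⟨h.1.conj k, h.2.conj k⟩
  · exact Or.inr ⟨h.1.conj k, h.2.conj k⟩

theorem Good.of_std {ε δ : Bool} {P Q : F2} (h : Std (sg 0 ε) (sg 1 δ) P Q) : Good P Q :=
  ⟨ε, δ, 1, P, Q, h, Or.inl ⟨by simp [E], by simp [E]⟩⟩

/-- `Good` after conjugation -/
theorem Good.of_conj {u v : F2} (k : F2) (h : Good (k * u * k⁻¹) (k * v * k⁻¹)) : Good u v := by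
  have := h.conj k⁻¹
  have e : ∀ x : F2, k⁻¹ * (k * x * k⁻¹) * k⁻¹⁻¹ = x := by intro x; group
  rwa [e, e] at this

theorem K1 {ε δ : Bool} {P Q : F2} (h : Std (sg 0 ε) (sg 1 δ) P Q) : Good (P * Q⁻¹) Q := by
  cases h with
  | base =>
    have h1 : Std (sg 0 ε) (sg 1 (!δ)) (sg 0 ε * sg 1 (!δ)) (sg 1 (!δ)) := Std.l Std.base
    have h2 := (Good.of_std h1).inv'
    rw [sg_not, inv_inv] at h2
    exact h2
  | l h =>
    rw [mul_inv_cancel_right]
    exact Good.of_std h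
  | r h =>
    rename_i Q'
    -- `(P (P Q')⁻¹, P Q')` is conjugate by `P Q'` to `(Q'⁻¹, P Q')`
    have h1 := ((Good.of_std (Std.l h)).swap.inv).conj (P * Q')
    have e1 : P * Q' * Q'⁻¹ * (P * Q')⁻¹ = P * (P * Q')⁻¹ := by group
    have e2 : P * Q' * (P * Q') * (P * Q')⁻¹ = P * Q' := by group
    rwa [e1, e2] at h1

theorem K2 {ε δ : Bool} {P Q : F2} (h : Std (sg 0 ε) (sg 1 δ) P Q) : Good (P * Q⁻¹) P := by
  cases h with
  | base =>
    have h1 : Std (sg 0 ε) (sg 1 (!δ)) (sg 0 ε) (sg 0 ε * sg 1 (!δ)) := Std.r Std.base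
    have h2 := (Good.of_std h1).swap
    rw [sg_not] at h2
    exact h2
  | l h =>
    rw [mul_inv_cancel_right]
    exact Good.of_std (Std.r h)
  | r h =>
    rename_i Q'
    have h1 := ((Good.of_std h).swap.inv).conj P
    have e1 : P * Q'⁻¹ * P⁻¹ = P * (P * Q')⁻¹ := by group
    have e2 : P * P * P⁻¹ = P := by group
    rwa [e1, e2] at h1

theorem Good.mul {u v : F2} (h : Good u v) : Good (u * v) v := by
  obtain ⟨ε, δ, g, P, Q, hs, h⟩ := h
  apply Good.of_conj g⁻¹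
  have e0 : g⁻¹ * (u * v) * g⁻¹⁻¹ = (g⁻¹ * u * g⁻¹⁻¹) * (g⁻¹ * v * g⁻¹⁻¹) := by group
  rw [e0]
  have ec : ∀ x y : F2, E x (g * y * g⁻¹) → E (g⁻¹ * x * g⁻¹⁻¹) y := by
    intro x y h
    have := h.conj g⁻¹
    have e : g⁻¹ * (g * y * g⁻¹) * g⁻¹⁻¹ = y := by group
    rwa [e] at this
  set u' := g⁻¹ * u * g⁻¹⁻¹
  set v' := g⁻¹ * v * g⁻¹⁻¹
  rcases h with ⟨h1, h2⟩ | ⟨h1, h2⟩
  · rcases ec _ _ h1 with h3 | h3 <;> rcases ec _ _ h2 with h4 | h4 <;>
      rw [show u' = _ from h3, show v' = _ from h4]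
    · exact Good.of_std (Std.l hs)
    · exact (K1 hs).inv'
    · have h5 := (K1 hs).conj Q⁻¹
      have e1 : Q⁻¹ * (P * Q⁻¹) * Q⁻¹⁻¹ = (P⁻¹ * Q)⁻¹ := by group
      have e2 : Q⁻¹ * Q * Q⁻¹⁻¹ = Q := by group
      rw [e1, e2] at h5
      simpa using h5.inv
    · have h5 := ((Good.of_std (Std.l hs)).conj Q)
      have e1 : Q * (P * Q) * Q⁻¹ = (P⁻¹ * Q⁻¹)⁻¹ := by group
      have e2 : Q * Q * Q⁻¹ = Q := by group
      rw [e1, e2] at h5
      simpa using h5.inv.inv'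
  · rcases ec _ _ h1 with h3 | h3 <;> rcases ec _ _ h2 with h4 | h4 <;>
      rw [show u' = _ from h3, show v' = _ from h4]
    · have h5 := ((Good.of_std (Std.r hs)).swap.conj P⁻¹)
      have e1 : P⁻¹ * (P * Q) * P⁻¹⁻¹ = Q * P := by group
      have e2 : P⁻¹ * P * P⁻¹⁻¹ = P := by group
      rwa [e1, e2] at h5
    · have h5 := (K2 hs).inv.inv'
      have e1 : (P * Q⁻¹)⁻¹ = Q * P⁻¹ := by group
      rwa [e1] at h5
    · have h5 := (K2 hs).conj P⁻¹
      have e1 : P⁻¹ * (P * Q⁻¹) * P⁻¹⁻¹ = Q⁻¹ * P := by group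
      have e2 : P⁻¹ * P * P⁻¹⁻¹ = P := by group
      rwa [e1, e2] at h5
    · have h5 := (Good.of_std (Std.r hs)).swap.inv.inv'
      have e1 : (P * Q)⁻¹ = Q⁻¹ * P⁻¹ := by group
      rwa [e1] at h5

/-- the exchange of the generators -/
noncomputable def swapA : MulAut F2 := FreeGroup.freeGroupCongr (Equiv.swap 0 1)

/-- automorphisms from two mutually inverse endomorphisms -/
def mkAut (u v u' v' : F2)
    (h0 : lift ![u, v] u' = of 0) (h1 : lift ![u, v] v' = of 1)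
    (h2 : lift ![u', v'] u = of 0) (h3 : lift ![u', v'] v = of 1) : MulAut F2 :=
  MonoidHom.toMulEquiv (lift ![u, v]) (lift ![u', v'])
    (by ext i; fin_cases i <;> simp [h2, h3])
    (by ext i; fin_cases i <;> simp [h0, h1])

theorem mkAut_of0 (u v u' v' : F2) (h0 h1 h2 h3) : mkAut u v u' v' h0 h1 h2 h3 (of 0) = u := by
  change lift ![u, v] (of 0) = u
  simp

theorem mkAut_of1 (u v u' v' : F2) (h0 h1 h2 h3) : mkAut u v u' v' h0 h1 h2 h3 (of 1) = v := by
  change lift ![u, v] (of 1) = v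
  simp

/-- exchange -/
def aS : MulAut F2 := mkAut (of 1) (of 0) (of 1) (of 0) (by simp) (by simp) (by simp) (by simp)
/-- inversion of the first generator -/
def aE : MulAut F2 :=
  mkAut (of 0)⁻¹ (of 1) (of 0)⁻¹ (of 1) (by simp) (by simp) (by simp) (by simp)
/-- Nielsen move -/
def aM : MulAut F2 :=
  mkAut (of 0 * of 1) (of 1) (of 0 * (of 1)⁻¹) (of 1) (by simp) (by simp) (by simp) (by simp)

/-- every basis is good -/
theorem good_all (φ : MulAut F2) : Good (φ (of 0)) (φ (of 1)) := by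
  set S : Set (MulAut F2) := {aS, aE, aM} ∪ Set.range (fun g => MulAut.conj g) with hS
  have htop : Subgroup.closure S = ⊤ := by
    apply Pool.Agent.H528.Nielsen.nielsen (Subgroup.closure S) (σ := aS) (ε := aE) (μ := aM)
      (Subgroup.subset_closure (Or.inl (by simp))) (Subgroup.subset_closure (Or.inl (by simp)))
      (Subgroup.subset_closure (Or.inl (by simp)))
      (fun g => Subgroup.subset_closure (Or.inr ⟨g, rfl⟩))
      (mkAut_of0 _ _ _ _ _ _ _ _) (mkAut_of1 _ _ _ _ _ _ _ _)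
      (mkAut_of0 _ _ _ _ _ _ _ _) (mkAut_of1 _ _ _ _ _ _ _ _)
      (mkAut_of0 _ _ _ _ _ _ _ _) (mkAut_of1 _ _ _ _ _ _ _ _)
  have hmem : φ ∈ Subgroup.closure S := by rw [htop]; exact Subgroup.mem_top _
  have hS0 : aS (of 0) = of 1 := mkAut_of0 _ _ _ _ _ _ _ _
  have hS1 : aS (of 1) = of 0 := mkAut_of1 _ _ _ _ _ _ _ _
  have hE0 : aE (of 0) = (of 0)⁻¹ := mkAut_of0 _ _ _ _ _ _ _ _
  have hE1 : aE (of 1) = of 1 := mkAut_of1 _ _ _ _ _ _ _ _
  have hM0 : aM (of 0) = of 0 * of 1 := mkAut_of0 _ _ _ _ _ _ _ _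
  have hM1 : aM (of 1) = of 1 := mkAut_of1 _ _ _ _ _ _ _ _
  have hS0' : aS⁻¹ (of 0) = of 1 := by
    rw [MulAut.inv_apply, MulEquiv.symm_apply_eq, hS1]
  have hS1' : aS⁻¹ (of 1) = of 0 := by
    rw [MulAut.inv_apply, MulEquiv.symm_apply_eq, hS0]
  have hE0' : aE⁻¹ (of 0) = (of 0)⁻¹ := by
    rw [MulAut.inv_apply, MulEquiv.symm_apply_eq, map_inv, hE0, inv_inv]
  have hE1' : aE⁻¹ (of 1) = of 1 := by
    rw [MulAut.inv_apply, MulEquiv.symm_apply_eq, hE1]
  have hM1' : aM⁻¹ (of 1) = of 1 := by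
    rw [MulAut.inv_apply, MulEquiv.symm_apply_eq, hM1]
  have hM0' : aM⁻¹ (of 0) = of 0 * (of 1)⁻¹ := by
    rw [MulAut.inv_apply, MulEquiv.symm_apply_eq, map_mul, map_inv, hM0, hM1]
    group
  induction hmem using Subgroup.closure_induction_right with
  | one => exact Good.of_std (ε := true) (δ := true) Std.base
  | mul_right x _ y hy ih =>
    rw [MulAut.mul_apply, MulAut.mul_apply]
    rcases hy with hy | ⟨g, rfl⟩
    · have hy' : y = aS ∨ y = aE ∨ y = aM := by simpa using hy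
      rcases hy' with rfl | rfl | rfl
      · rw [hS0, hS1]; exact ih.swap
      · rw [hE0, hE1, map_inv]; exact ih.inv
      · rw [hM0, hM1, map_mul]; exact ih.mul
    · simp only [MulAut.conj_apply, map_mul, map_inv]
      exact ih.conj (x g)
  | mul_inv_cancel x _ y hy ih =>
    rw [MulAut.mul_apply, MulAut.mul_apply]
    rcases hy with hy | ⟨g, rfl⟩
    · have hy' : y = aS ∨ y = aE ∨ y = aM := by simpa using hy
      rcases hy' with rfl | rfl | rfl
      · rw [hS0', hS1']; exact ih.swap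
      · rw [hE0', hE1', map_inv]; exact ih.inv
      · rw [hM0', hM1', map_mul, map_inv]
        simpa using (ih.inv'.mul).inv'
    · simp only [← map_inv, MulAut.conj_apply, map_mul]
      have := ih.conj (x g⁻¹)
      simpa using this

/-! ### Abelianisation -/

/-- exponent sum -/
noncomputable def ex (i : Fin 2) : F2 →* Multiplicative ℤ :=
  lift (fun j => Multiplicative.ofAdd (if j = i then 1 else 0))

/-- exponent sum as an integer -/
noncomputable def n (i : Fin 2) (g : F2) : ℤ := (ex i g).toAdd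

theorem n_mul (i : Fin 2) (g h : F2) : n i (g * h) = n i g + n i h := by
  unfold n; rw [map_mul]; rfl

theorem n_inv (i : Fin 2) (g : F2) : n i g⁻¹ = - n i g := by
  unfold n; rw [map_inv]; rfl

theorem n_one (i : Fin 2) : n i 1 = 0 := by unfold n; rw [map_one]; rfl

theorem n_of (i j : Fin 2) : n i (of j) = if j = i then 1 else 0 := by
  unfold n ex; simp

theorem n_conj (i : Fin 2) (g h : F2) : n i (g * h * g⁻¹) = n i h := by
  rw [n_mul, n_mul, n_inv]; ring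

/-- sign coherent elements -/
def Mon (ε δ : Bool) : Submonoid F2 := Submonoid.closure {sg 0 ε, sg 1 δ}

theorem Std.mem {ε δ : Bool} {P Q : F2} (h : Std (sg 0 ε) (sg 1 δ) P Q) :
    P ∈ Mon ε δ ∧ Q ∈ Mon ε δ := by
  induction h with
  | base => exact ⟨Submonoid.subset_closure (by simp), Submonoid.subset_closure (by simp)⟩
  | l _ ih => exact ⟨(Mon ε δ).mul_mem ih.1 ih.2, ih.2⟩
  | r _ ih => exact ⟨ih.1, (Mon ε δ).mul_mem ih.1 ih.2⟩

theorem Std.det {ε δ : Bool} {P Q : F2} (h : Std (sg 0 ε) (sg 1 δ) P Q) :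
    n 0 P * n 1 Q - n 1 P * n 0 Q ≠ 0 := by
  induction h with
  | base => cases ε <;> cases δ <;> simp [sg, n_inv, n_of]
  | l _ ih => rw [n_mul, n_mul]; ring_nf at ih ⊢; exact ih
  | r _ ih => rw [n_mul, n_mul]; ring_nf at ih ⊢; exact ih

/-- signs of the exponent sums -/
theorem Mon_sign (ε δ : Bool) (x : F2) (hx : x ∈ Mon ε δ) :
    (ε = true → 0 ≤ n 0 x) ∧ (ε = false → n 0 x ≤ 0) ∧
    (δ = true → 0 ≤ n 1 x) ∧ (δ = false → n 1 x ≤ 0) := by
  unfold Mon at hx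
  induction hx using Submonoid.closure_induction with
  | mem x hx =>
    rcases hx with rfl | hx
    · cases ε <;> simp [sg, n_inv, n_of]
    · rw [Set.mem_singleton_iff] at hx
      subst hx
      cases δ <;> simp [sg, n_inv, n_of]
  | one => simp [n_one]
  | mul x y _ _ ihx ihy =>
    rw [n_mul, n_mul]
    obtain ⟨a1, a2, a3, a4⟩ := ihx
    obtain ⟨b1, b2, b3, b4⟩ := ihy
    exact ⟨fun h => add_nonneg (a1 h) (b1 h), fun h => add_nonpos (a2 h) (b2 h),
      fun h => add_nonneg (a3 h) (b3 h), fun h => add_nonpos (a4 h) (b4 h)⟩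

/-- positive words -/
def pos (l : List (Fin 2)) : F2 := FreeGroup.mk (l.map (fun i => (i, true)))

theorem pos_append (l m : List (Fin 2)) : pos (l ++ m) = pos l * pos m := by
  unfold pos
  rw [List.map_append, FreeGroup.mul_mk]

theorem exists_pos (x : F2) (hx : x ∈ Mon true true) : ∃ l, x = pos l := by
  unfold Mon at hx
  induction hx using Submonoid.closure_induction with
  | mem x hx =>
    rcases hx with rfl | hx
    · exact ⟨[0], rfl⟩
    · rw [Set.mem_singleton_iff] at hx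
      subst hx
      exact ⟨[1], rfl⟩
  | one => exact ⟨[], rfl⟩
  | mul x y _ _ ihx ihy =>
    obtain ⟨l, rfl⟩ := ihx
    obtain ⟨m, rfl⟩ := ihy
    exact ⟨l ++ m, (pos_append l m).symm⟩

theorem inv_mem (x : F2) (hx : x ∈ Mon false false) : x⁻¹ ∈ Mon true true := by
  unfold Mon at hx
  induction hx using Submonoid.closure_induction with
  | mem x hx =>
    rcases hx with rfl | hx
    · exact Submonoid.subset_closure (by simp [sg])
    · rw [Set.mem_singleton_iff] at hx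
      subst hx
      exact Submonoid.subset_closure (by simp [sg])
  | one => rw [inv_one]; exact (Mon true true).one_mem
  | mul x y _ _ ihx ihy => rw [mul_inv_rev]; exact (Mon true true).mul_mem ihy ihx

/-- A primitive element both of whose exponent sums are positive, or both negative, is conjugate
to a positive word or to the inverse of one. -/
theorem primitive_pos (w : F2) (hw : Primitive w)
    (h : (0 < n 0 w ∧ 0 < n 1 w) ∨ (n 0 w < 0 ∧ n 1 w < 0)) :
    ∃ (g : F2) (l : List (Fin 2)), w = g * pos l * g⁻¹ ∨ w = g * (pos l)⁻¹ * g⁻¹ := by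
  obtain ⟨φ, rfl⟩ := hw
  obtain ⟨ε, δ, g, P, Q, hs, hg⟩ := good_all φ
  obtain ⟨X, hX, hE⟩ : ∃ X ∈ Mon ε δ, E (φ (of 0)) (g * X * g⁻¹) := by
    rcases hg with hg | hg
    · exact ⟨P, hs.mem.1, hg.1⟩
    · exact ⟨Q, hs.mem.2, hg.1⟩
  set w := φ (of 0) with hw
  have hn : ∀ i, n i w = n i X ∨ n i w = - n i X := by
    intro i
    rcases hE with h1 | h1
    · left; rw [h1, n_conj]
    · right; rw [h1, n_inv, n_conj]
  obtain ⟨s1, s2, s3, s4⟩ := Mon_sign ε δ X hX
  have hε : ε = δ := by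
    have hprod : 0 < n 0 w * n 1 w := by
      rcases h with ⟨a, b⟩ | ⟨a, b⟩
      · exact mul_pos a b
      · exact mul_pos_of_neg_of_neg a b
    have hprod2 : n 0 w * n 1 w = n 0 X * n 1 X := by
      rcases hE with h1 | h1
      · rw [h1, n_conj, n_conj]
      · rw [h1, n_inv, n_inv, n_conj, n_conj]; ring
    rw [hprod2] at hprod
    cases hε : ε <;> cases hδ : δ
    · rfl
    · exfalso
      have := mul_nonpos_of_nonpos_of_nonneg (s2 hε) (s3 hδ)
      omega
    · exfalso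
      have := mul_nonpos_of_nonneg_of_nonpos (s1 hε) (s4 hδ)
      omega
    · rfl
  subst hε
  cases ε
  · obtain ⟨l, hl⟩ := exists_pos _ (inv_mem X hX)
    have hXl : X = (pos l)⁻¹ := by rw [← hl, inv_inv]
    refine ⟨g, l, ?_⟩
    rcases hE with h1 | h1
    · right; rw [h1, hXl]
    · left; rw [h1, hXl]; group
  · obtain ⟨l, hl⟩ := exists_pos _ hX
    refine ⟨g, l, ?_⟩
    rcases hE with h1 | h1
    · left; rw [h1, hl]
    · right; rw [h1, hl]; group

theorem primitive_ne (w : F2) (hw : Primitive w) : ¬ (n 0 w = 0 ∧ n 1 w = 0) := by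
  obtain ⟨φ, rfl⟩ := hw
  obtain ⟨ε, δ, g, P, Q, hs, hg⟩ := good_all φ
  have hdet := hs.det
  have key : ∀ u X : F2, E u (g * X * g⁻¹) → (n 0 u = 0 ∧ n 1 u = 0) → n 0 X = 0 ∧ n 1 X = 0 := by
    intro u X hE hu
    rcases hE with h1 | h1
    · rw [h1, n_conj, n_conj] at hu; exact hu
    · rw [h1, n_inv, n_inv, n_conj, n_conj] at hu; exact ⟨by omega, by omega⟩
  intro h0
  rcases hg with hg | hg
  · obtain ⟨a, b⟩ := key _ _ hg.1 h0
    apply hdet; rw [a, b]; ring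
  · obtain ⟨a, b⟩ := key _ _ hg.1 h0
    apply hdet; rw [a, b]; ring

/-- the Fibonacci automorphism `a ↦ ab, b ↦ a` -/
def fib : MulAut F2 :=
  mkAut (of 0 * of 1) (of 0) (of 1) ((of 1)⁻¹ * of 0) (by simp) (by simp) (by simp) (by simp)

theorem n_fib (g : F2) : n 0 (fib g) = n 0 g + n 1 g ∧ n 1 (fib g) = n 0 g := by
  have h0 : fib (of 0) = of 0 * of 1 := mkAut_of0 _ _ _ _ _ _ _ _
  have h1 : fib (of 1) = of 0 := mkAut_of1 _ _ _ _ _ _ _ _
  induction g using FreeGroup.induction_on with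
  | C1 => simp [n_one]
  | of i =>
    fin_cases i
    · change n 0 (fib (of 0)) = n 0 (of 0) + n 1 (of 0) ∧ n 1 (fib (of 0)) = n 0 (of 0)
      rw [h0]; simp [n_mul, n_of]
    · change n 0 (fib (of 1)) = n 0 (of 1) + n 1 (of 1) ∧ n 1 (fib (of 1)) = n 0 (of 1)
      rw [h1]; simp [n_of]
  | inv_of i ih =>
    change n 0 (fib (of i)) = n 0 (of i) + n 1 (of i) ∧ n 1 (fib (of i)) = n 0 (of i) at ih
    rw [map_inv, n_inv, n_inv, n_inv, n_inv]
    omega
  | mul x y hx hy =>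
    rw [map_mul, n_mul, n_mul, n_mul, n_mul]
    omega

theorem n_fib_pow (g : F2) (N : ℕ) :
    n 0 ((fib ^ (N + 1)) g) = n 0 ((fib ^ N) g) + n 1 ((fib ^ N) g) ∧
    n 1 ((fib ^ (N + 1)) g) = n 0 ((fib ^ N) g) := by
  rw [pow_succ', MulAut.mul_apply]
  exact n_fib _

/-- orbits of the Fibonacci matrix end up in the open positive or negative quadrant -/
theorem fib_orbit (x : ℕ → ℤ) (y : ℕ → ℤ) (hx : ∀ N, x (N + 1) = x N + y N)
    (hy : ∀ N, y (N + 1) = x N) (h0 : ¬ (x 0 = 0 ∧ y 0 = 0)) :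
    ∃ N0, ∀ N ≥ N0, (0 < x N ∧ 0 < y N) ∨ (x N < 0 ∧ y N < 0) := by
  have hstay : ∀ N0, ((0 < x N0 ∧ 0 < y N0) ∨ (x N0 < 0 ∧ y N0 < 0)) →
      ∀ N ≥ N0, (0 < x N ∧ 0 < y N) ∨ (x N < 0 ∧ y N < 0) := by
    intro N0 h N hN
    induction N, hN using Nat.le_induction with
    | base => exact h
    | succ N _ ih => rw [hx, hy]; omega
  have hne : ∀ N, ¬ (x N = 0 ∧ y N = 0) := by
    intro N
    induction N with
    | zero => exact h0
    | succ N ih => rw [hx, hy]; omega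
  have key : ∀ m : ℕ, ∀ N, (x N).natAbs + (y N).natAbs ≤ m →
      ∃ N0, (0 < x N0 ∧ 0 < y N0) ∨ (x N0 < 0 ∧ y N0 < 0) := by
    intro m
    induction m with
    | zero => intro N h; exact absurd (⟨by omega, by omega⟩ : x N = 0 ∧ y N = 0) (hne N)
    | succ m ih =>
      intro N h
      have hN := hne N
      have e1 := hx N
      have e2 := hy N
      have e3 := hx (N + 1)
      have e4 := hy (N + 1)
      have e5 := hx (N + 1 + 1)
      have e6 := hy (N + 1 + 1)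
      by_cases h1 : (0 < x N ∧ 0 < y N) ∨ (x N < 0 ∧ y N < 0)
      · exact ⟨N, h1⟩
      · by_cases h2 : (0 < x (N + 1) ∧ 0 < y (N + 1)) ∨ (x (N + 1) < 0 ∧ y (N + 1) < 0)
        · exact ⟨N + 1, h2⟩
        · by_cases h3 : (0 < x (N + 1 + 1) ∧ 0 < y (N + 1 + 1)) ∨
            (x (N + 1 + 1) < 0 ∧ y (N + 1 + 1) < 0)
          · exact ⟨_, h3⟩
          · exact ih (N + 1) (by omega)
  obtain ⟨N0, h⟩ := key _ 0 le_rfl
  exact ⟨N0, hstay N0 h⟩

theorem Primitive.map {w : F2} (hw : Primitive w) (ψ : MulAut F2) : Primitive (ψ w) := by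
  obtain ⟨φ, rfl⟩ := hw
  exact ⟨ψ * φ, rfl⟩

/-- For finitely many primitive elements there is an automorphism which maps all of them to
conjugates of positive words or of inverses of positive words. -/
theorem common_positive (S : Set F2) (hS : S.Finite) (hp : ∀ w ∈ S, Primitive w) :
    ∃ ψ : MulAut F2, ∀ w ∈ S, ∃ (g : F2) (l : List (Fin 2)),
      ψ w = g * pos l * g⁻¹ ∨ ψ w = g * (pos l)⁻¹ * g⁻¹ := by
  have h1 : ∀ w ∈ S, ∃ N0 : ℕ, ∀ N ≥ N0, ∃ (g : F2) (l : List (Fin 2)),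
      (fib ^ N) w = g * pos l * g⁻¹ ∨ (fib ^ N) w = g * (pos l)⁻¹ * g⁻¹ := by
    intro w hw
    obtain ⟨N0, h⟩ := fib_orbit (fun N => n 0 ((fib ^ N) w)) (fun N => n 1 ((fib ^ N) w))
      (fun N => (n_fib_pow w N).1) (fun N => (n_fib_pow w N).2)
      (by simpa using primitive_ne w (hp w hw))
    exact ⟨N0, fun N hN => primitive_pos _ ((hp w hw).map _) (h N hN)⟩
  choose! N0 hN0 using h1
  obtain ⟨B, hB⟩ := (hS.image N0).bddAbove
  exact ⟨fib ^ B, fun w hw => hN0 w hw B (hB ⟨w, hw, rfl⟩)⟩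

/-- the automorphism `a ↦ a, b ↦ ab` -/
def tau : MulAut F2 :=
  mkAut (of 0) (of 0 * of 1) (of 0) ((of 0)⁻¹ * of 1) (by simp) (by simp) (by simp) (by simp)

end Q30.CV
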