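import Pool.Agent.Q30.BlowUp
import Pool.Agent.Q30.CVDefs

/-!
# Theta and dumbbell trees

Part of the solution of MP_9fd1ce.
-/

namespace Q30.CV

open Q30.BlowUp

/-- letter types of edges -/
theorem fl_zpow_pos (lw : Fin 2 → ℝ) (c : ℝ) (hc : 0 < c) (hl : ∀ i, 0 < lw i) (g : F) :
    0 < fl lw c g := by
  unfold fl
  split_ifs with h
  · exact hc
  · have hne : g.toWord ≠ [] := by
      intro h1
      exact h (FreeGroup.toWord_eq_nil_iff.1 h1)
    obtain ⟨a, l, hal⟩ := List.exists_cons_of_ne_nil hne
    rw [hal, List.map_cons, List.sum_cons]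
    have h1 : 0 ≤ (l.map (fun s : Lt => lw s.1)).sum := by
      apply List.sum_nonneg
      intro x hx
      rw [List.mem_map] at hx
      obtain ⟨p, _, rfl⟩ := hx
      exact (hl _).le
    linarith [hl a.1]

/-- The blow-up tree, with the action twisted by an automorphism. -/
noncomputable def bt (att : Lt → Bool) (lw : Fin 2 → ℝ) (c : ℝ) (hc : 0 < c)
    (hl : ∀ i, 0 < lw i) (θ : MulAut F) : MTree :=
  letI : MulAction F (F × Bool) :=
    { smul := fun g x => (θ g * x.1, x.2)
      one_smul := fun x => by
        change (θ 1 * x.1, x.2) = x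
        rw [map_one, one_mul]
      mul_smul := fun g h x => by
        change (θ (g * h) * x.1, x.2) = (θ g * (θ h * x.1), x.2)
        rw [map_mul, mul_assoc] }
  { V := F × Bool
    Γ := Gr att
    isTree := isTree att
    len := elen lw c
    len_pos := by
      intro e _
      induction e using Sym2.ind with
      | _ x y => exact fl_zpow_pos lw c hc hl _
    adj_smul := by
      rintro g x y (⟨h1, h2⟩ | ⟨s, h1, h2, h3⟩)
      · exact Or.inl ⟨by change θ g * x.1 = θ g * y.1; rw [h1], h2⟩
      · refine Or.inr ⟨s, ?_, h2, h3⟩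
        change θ g * y.1 = θ g * x.1 * lt s
        rw [h1, mul_assoc]
    len_smul := by
      intro g e
      induction e using Sym2.ind with
      | _ x y =>
        change fl lw c ((θ g * x.1)⁻¹ * (θ g * y.1)) = fl lw c (x.1⁻¹ * y.1)
        congr 1
        group }

section

variable (att : Lt → Bool) (lw : Fin 2 → ℝ) (c : ℝ) (hc : 0 < c) (hl : ∀ i, 0 < lw i)
  (θ : MulAut F)

theorem bt_d (x y : F × Bool) :
    (bt att lw c hc hl θ).d x y = D att lw c x.2 (x.1⁻¹ * y.1).toWord y.2 :=
  iInf_walk att lw c hc.le (fun i => (hl i).le) x y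

theorem bt_free : (bt att lw c hc hl θ).Free := by
  intro g x h
  have h1 : θ g * (x : F × Bool).1 = (x : F × Bool).1 := congrArg Prod.fst h
  have h2 : θ g = 1 := mul_eq_right.1 h1
  exact θ.injective (by rw [h2, map_one])

/-- minimality from the existence of crossing paths -/
theorem bt_minimal (hcross : ∀ σ : Bool, ∃ (h k : F) (p : (Gr att).Walk (1, σ) (h, σ)),
    p.IsPath ∧ (k, !σ) ∈ p.support) : (bt att lw c hc hl θ).Minimal := by
  intro Y hY hconv hinv
  obtain ⟨x, hx⟩ := hY
  have htrans : ∀ (σ : Bool) (g : F), ((g, σ) : F × Bool) ∈ Y → ∀ h : F, ((h, σ) : F × Bool) ∈ Y := by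
    intro σ g hg h
    have h1 := hinv (θ.symm (h * g⁻¹)) _ hg
    have h2 : ((θ (θ.symm (h * g⁻¹)) * g, σ) : F × Bool) = (h, σ) := by
      rw [MulEquiv.apply_symm_apply, inv_mul_cancel_right]
    have h3 : ((θ (θ.symm (h * g⁻¹)) * g, σ) : F × Bool) ∈ Y := h1
    rwa [h2] at h3
  have hside : ∀ σ : Bool, (∃ g : F, ((g, σ) : F × Bool) ∈ Y) → ∃ g : F, ((g, !σ) : F × Bool) ∈ Y := by
    rintro σ ⟨g, hg⟩
    obtain ⟨h, k, p, hp, hk⟩ := hcross σ
    exact ⟨k, hconv _ (htrans σ g hg 1) _ (htrans σ g hg h) p hp _ hk⟩
  rw [Set.eq_univ_iff_forall]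
  rintro ⟨h, τ⟩
  have h1 : ∃ g : F, ((g, τ) : F × Bool) ∈ Y := by
    have hx' : ∃ g : F, ((g, (x : F × Bool).2) : F × Bool) ∈ Y := ⟨(x : F × Bool).1, hx⟩
    by_cases hτ : (x : F × Bool).2 = τ
    · rwa [hτ] at hx'
    · have h2 := hside _ hx'
      have h3 : (!(x : F × Bool).2) = τ := by
        cases hh : (x : F × Bool).2 <;> cases τ <;> simp_all
      rwa [h3] at h2
  obtain ⟨g, hg⟩ := h1
  exact htrans τ g hg h

/-- representatives of the orbits of edges -/
def e0 : Sym2 (F × Bool) := s((1, true), (1, false))

/-- representatives of the orbits of edges -/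
def ei (i : Fin 2) : Sym2 (F × Bool) := s((1, att (i, true)), (lt (i, true), att (bar (i, true))))

theorem elen_e0 : elen lw c e0 = c := by
  unfold e0
  rw [elen_mk]
  simp [fl_one]

theorem elen_ei (i : Fin 2) : elen lw c (ei att i) = lw i := by
  unfold ei
  rw [elen_mk]
  simp only [inv_one, one_mul, fl_lt]

theorem bt_covolume : (bt att lw c hc hl θ).HasCovolume (c + lw 0 + lw 1) := by
  classical
  -- an auxiliary invariant of the edges
  let ty : Sym2 (F × Bool) → ℝ := elen ![1, 2] 3
  have ty0 : ty e0 = 3 := elen_e0 _ _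
  have tyi : ∀ i, ty (ei att i) = (![1, 2] : Fin 2 → ℝ) i := fun i => elen_ei att _ _ i
  have tya : ty (ei att 0) = 1 := by rw [tyi]; rfl
  have tyb : ty (ei att 1) = 2 := by rw [tyi]; rfl
  have tysmul : ∀ (g : F) (e : Sym2 (F × Bool)),
      ty (e.map (fun x => ((θ g * x.1, x.2) : F × Bool))) = ty e := by
    intro g e
    induction e using Sym2.ind with
    | _ x y =>
      change fl _ _ ((θ g * x.1)⁻¹ * (θ g * y.1)) = fl _ _ (x.1⁻¹ * y.1)
      congr 1
      group
  have n0a : (e0 : Sym2 (F × Bool)) ≠ ei att 0 := by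
    intro h; have := congrArg ty h; rw [ty0, tya] at this; norm_num at this
  have n0b : (e0 : Sym2 (F × Bool)) ≠ ei att 1 := by
    intro h; have := congrArg ty h; rw [ty0, tyb] at this; norm_num at this
  have nab : ei att 0 ≠ ei att 1 := by
    intro h; have := congrArg ty h; rw [tya, tyb] at this; norm_num at this
  let R : Finset (Sym2 (F × Bool)) := {e0, ei att 0, ei att 1}
  have hR : ∀ e : Sym2 (F × Bool), e ∈ R ↔ e = e0 ∨ e = ei att 0 ∨ e = ei att 1 := by
    intro e; simp [R]
  refine ⟨R, ?_, ?_, ?_⟩
  · intro e he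
    have he' : e = e0 ∨ e = ei att 0 ∨ e = ei att 1 := (hR e).1 he
    rcases he' with rfl | rfl | rfl
    · exact Or.inl ⟨rfl, by simp⟩
    · exact Or.inr ⟨(0, true), by simp, rfl, rfl⟩
    · exact Or.inr ⟨(1, true), by simp, rfl, rfl⟩
  · intro e he
    have hex : ∃ e' : Sym2 (F × Bool), e' ∈ R ∧
        ∃ g : F, e = e'.map (fun x => ((θ g * x.1, x.2) : F × Bool)) := by
      induction e using Sym2.ind with
      | _ x y =>
        have he' : (Gr att).Adj x y := he
        rcases he' with ⟨h1, h2⟩ | ⟨s, h1, h2, h3⟩
        · refine ⟨e0, by simp [R], θ.symm x.1, ?_⟩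
          unfold e0
          rw [Sym2.map_mk]
          simp only [MulEquiv.apply_symm_apply, mul_one]
          have hx2 : (x.2 = true ∧ y.2 = false) ∨ (x.2 = false ∧ y.2 = true) := by
            cases hx : x.2 <;> cases hy : y.2 <;> simp_all
          rcases hx2 with ⟨h3, h4⟩ | ⟨h3, h4⟩
          · have e1 : x = (x.1, true) := Prod.ext rfl h3
            have e2 : y = (x.1, false) := Prod.ext h1.symm h4
            rw [e2]
            conv_lhs => rw [e1]
            rfl
          · have e1 : x = (x.1, false) := Prod.ext rfl h3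
            have e2 : y = (x.1, true) := Prod.ext h1.symm h4
            rw [e2, Sym2.eq_swap]
            conv_rhs => rw [Sym2.eq_swap]
            rw [Sym2.eq_swap]
            conv_lhs => rw [e1]
            rfl
        · obtain ⟨i, b⟩ := s
          have hi : ei att i ∈ R := by
            fin_cases i <;> simp [R]
          cases b
          · -- negative letter
            refine ⟨ei att i, hi, θ.symm y.1, ?_⟩
            unfold ei
            rw [Sym2.map_mk]
            simp only [MulEquiv.apply_symm_apply, mul_one]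
            have e1 : x = (y.1 * lt (i, true), att (bar (i, true))) := by
              apply Prod.ext
              · have : lt (i, false) = (lt (i, true))⁻¹ := lt_bar (i, true)
                rw [h1, this, inv_mul_cancel_right]
              · exact h2
            have e2 : y = (y.1, att (i, true)) := Prod.ext rfl h3
            rw [e1, Sym2.eq_swap]
            conv_lhs => rw [e2]
            rfl
          · refine ⟨ei att i, hi, θ.symm x.1, ?_⟩
            unfold ei
            rw [Sym2.map_mk]
            simp only [MulEquiv.apply_symm_apply, mul_one]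
            have e1 : x = (x.1, att (i, true)) := Prod.ext rfl h2
            have e2 : y = (x.1 * lt (i, true), att (bar (i, true))) := Prod.ext h1 h3
            rw [e2]
            conv_lhs => rw [e1]
            rfl
    obtain ⟨e', he', g, hg⟩ := hex
    refine ⟨e', ⟨he', g, hg⟩, ?_⟩
    rintro e'' ⟨he'', g'', hg''⟩
    have hty : ty e'' = ty e' := by
      have h1 : ty e = ty e' := (congrArg ty hg).trans (tysmul g e')
      have h2 : ty e = ty e'' := (congrArg ty hg'').trans (tysmul g'' e'')
      rw [← h1, ← h2]
    have he1 : e' = e0 ∨ e' = ei att 0 ∨ e' = ei att 1 := (hR e').1 he'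
    have he2 : e'' = e0 ∨ e'' = ei att 0 ∨ e'' = ei att 1 := (hR e'').1 he''
    rcases he1 with rfl | rfl | rfl <;> rcases he2 with rfl | rfl | rfl <;>
      first
      | rfl
      | (exfalso; simp only [ty0, tya, tyb] at hty; norm_num at hty)
  · change ∑ e ∈ R, elen lw c e = c + lw 0 + lw 1
    have h1 : R = insert e0 (insert (ei att 0) {ei att 1}) := rfl
    rw [h1, Finset.sum_insert, Finset.sum_insert, Finset.sum_singleton, elen_e0, elen_ei, elen_ei]
    · ring
    · simpa using nab
    · simp [n0a, n0b]

/-! ### Translation lengths -/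

theorem d_nonneg (x y : F × Bool) : 0 ≤ (bt att lw c hc hl θ).d x y := by
  rw [bt_d]
  exact D_nonneg att lw c hc.le (fun i => (hl i).le) _ _ _

theorem exists_walk_d (x y : F × Bool) : ∃ p : (Gr att).Walk x y,
    wlen att lw c p = (bt att lw c hc hl θ).d x y := by
  rw [bt_d]
  exact exists_walk att lw c (x.1⁻¹ * y.1).toWord x.1 x.2 y.1 y.2
    (by rw [FreeGroup.mk_toWord, mul_inv_cancel_left])

theorem d_triangle (x y z : F × Bool) : (bt att lw c hc hl θ).d x z ≤
    (bt att lw c hc hl θ).d x y + (bt att lw c hc hl θ).d y z := by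
  obtain ⟨p, hp⟩ := exists_walk_d att lw c hc hl θ x y
  obtain ⟨q, hq⟩ := exists_walk_d att lw c hc hl θ y z
  rw [← hp, ← hq, bt_d]
  refine (D_le_walk att lw c hc.le (fun i => (hl i).le) (p.append q)).trans ?_
  unfold wlen
  rw [SimpleGraph.Walk.edges_append, List.map_append, List.sum_append]

theorem d_symm (x y : F × Bool) : (bt att lw c hc hl θ).d x y = (bt att lw c hc hl θ).d y x := by
  have key : ∀ x y : F × Bool, (bt att lw c hc hl θ).d x y ≤ (bt att lw c hc hl θ).d y x := by
    intro x y
    obtain ⟨p, hp⟩ := exists_walk_d att lw c hc hl θ y x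
    rw [← hp, bt_d]
    refine (D_le_walk att lw c hc.le (fun i => (hl i).le) p.reverse).trans ?_
    unfold wlen
    rw [SimpleGraph.Walk.edges_reverse, List.map_reverse, List.sum_reverse]
  exact le_antisymm (key _ _) (key _ _)

theorem d_smul (g : F) (x y : F × Bool) :
    (bt att lw c hc hl θ).d (g * x.1, x.2) (g * y.1, y.2) = (bt att lw c hc hl θ).d x y := by
  rw [bt_d, bt_d]
  dsimp only
  have : (g * x.1)⁻¹ * (g * y.1) = x.1⁻¹ * y.1 := by group
  rw [this]

theorem tl_def (g : F) : (bt att lw c hc hl θ).tl g =
    ⨅ x : F × Bool, (bt att lw c hc hl θ).d x (θ g * x.1, x.2) := rfl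

theorem tl_bdd (g : F) : BddBelow (Set.range fun x : F × Bool =>
    (bt att lw c hc hl θ).d x (g * x.1, x.2)) :=
  ⟨0, by rintro _ ⟨x, rfl⟩; exact d_nonneg att lw c hc hl θ _ _⟩

/-- translation lengths are invariant under conjugation and inversion -/
theorem tl_conj (g h : F) (k : F) (hk : θ g = h * k * h⁻¹) : (bt att lw c hc hl θ).tl g =
    ⨅ x : F × Bool, (bt att lw c hc hl θ).d x (k * x.1, x.2) := by
  rw [tl_def]
  refine Equiv.iInf_congr (Equiv.prodCongr (Equiv.mulLeft h⁻¹) (Equiv.refl Bool)) ?_
  intro x
  rw [hk]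
  have h1 := d_smul att lw c hc hl θ h (h⁻¹ * x.1, x.2) (k * (h⁻¹ * x.1), x.2)
  dsimp only at h1
  rw [mul_inv_cancel_left] at h1
  have h2 : h * k * h⁻¹ * x.1 = h * (k * (h⁻¹ * x.1)) := by group
  rw [h2, h1]
  rfl

theorem tl_inv (k : F) : ⨅ x : F × Bool, (bt att lw c hc hl θ).d x (k⁻¹ * x.1, x.2) =
    ⨅ x : F × Bool, (bt att lw c hc hl θ).d x (k * x.1, x.2) := by
  refine Equiv.iInf_congr (Equiv.prodCongr (Equiv.mulLeft k⁻¹) (Equiv.refl Bool)) ?_
  intro x
  change (bt att lw c hc hl θ).d (k⁻¹ * x.1, x.2) (k * (k⁻¹ * x.1), x.2) = _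
  rw [mul_inv_cancel_left, d_symm]

/-- the translation length of an element all of whose powers have no cancellation -/
theorem tl_eq (k : F) (L : ℝ)
    (hpow : ∀ n : ℕ, (bt att lw c hc hl θ).d (1, true) (k ^ n, true) = n * L) :
    ⨅ x : F × Bool, (bt att lw c hc hl θ).d x (k * x.1, x.2) = L := by
  set d := (bt att lw c hc hl θ).d with hd
  have h1 : d (1, true) (k * 1, true) = L := by
    have := hpow 1
    rw [pow_one] at this
    rw [mul_one, this]
    simp
  apply le_antisymm
  · exact (ciInf_le (tl_bdd att lw c hc hl θ k) (1, true)).trans h1.le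
  · apply le_ciInf
    intro x
    set δ := d x (k * x.1, x.2) with hδ
    set ρ := d (1, true) x with hρ
    have hstep : ∀ n : ℕ, d x (k ^ n * x.1, x.2) ≤ n * δ := by
      intro n
      induction n with
      | zero =>
        have : d x (k ^ 0 * x.1, x.2) = 0 := by
          rw [hd, bt_d]
          simp [D]
        rw [this]
        simp
      | succ n ih =>
        have h2 := d_triangle att lw c hc hl θ x (k ^ n * x.1, x.2) (k ^ (n + 1) * x.1, x.2)
        have h3 := d_smul att lw c hc hl θ (k ^ n) x (k * x.1, x.2)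
        dsimp only at h3
        rw [← mul_assoc, ← pow_succ] at h3
        rw [h3] at h2
        push_cast
        linarith
    have hn : ∀ n : ℕ, (n : ℝ) * L ≤ n * δ + 2 * ρ := by
      intro n
      rw [← hpow n]
      have h2 := d_triangle att lw c hc hl θ (1, true) x (k ^ n, true)
      have h3 := d_triangle att lw c hc hl θ x (k ^ n * x.1, x.2) (k ^ n, true)
      have h4 := d_smul att lw c hc hl θ (k ^ n) x (1, true)
      dsimp only at h4
      rw [mul_one] at h4
      rw [h4, d_symm att lw c hc hl θ x (1, true)] at h3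
      have := hstep n
      linarith
    by_contra hlt
    push Not at hlt
    obtain ⟨n, hn'⟩ := exists_nat_gt (2 * ρ / (L - δ))
    have hpos : 0 < L - δ := by linarith
    rw [div_lt_iff₀ hpos] at hn'
    have := hn n
    nlinarith

end

/-! ### Positive words -/

/-- the blocks `a` and `ab` -/
def blk (t : Bool) : List Lt := if t then [(0, true), (1, true)] else [(0, true)]

/-- the word of a list of blocks -/
def wd (m : List Bool) : List Lt := m.flatMap blk

/-- positive lists are reduced -/
theorem toWord_pos (l : List Lt) (h : ∀ s ∈ l, s.2 = true) : (FreeGroup.mk l).toWord = l := by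
  rw [FreeGroup.toWord_mk]
  induction l with
  | nil => rfl
  | cons s l ih =>
    rw [FreeGroup.reduce.cons, ih (fun t ht => h t (List.mem_cons_of_mem _ ht))]
    cases l with
    | nil => rfl
    | cons t l =>
      dsimp only
      rw [if_neg]
      rintro ⟨_, h2⟩
      have h3 := h s List.mem_cons_self
      have h4 := h t (by simp)
      rw [h3, h4] at h2
      exact absurd h2 (by simp)

theorem wd_pos (m : List Bool) : ∀ s ∈ wd m, s.2 = true := by
  intro s hs
  unfold wd at hs
  rw [List.mem_flatMap] at hs
  obtain ⟨t, _, hs⟩ := hs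
  unfold blk at hs
  cases t <;> simp at hs
  · rw [hs]
  · rcases hs with h | h <;> rw [h]

/-- attaching map of theta graphs -/
def attT (s : Lt) : Bool := s.2

/-- attaching map of dumbbells -/
def attD (s : Lt) : Bool := decide (s.1 = 0)

theorem mk_pow (l : List Lt) (n : ℕ) :
    FreeGroup.mk l ^ n = FreeGroup.mk (List.replicate n l).flatten := by
  induction n with
  | zero => rfl
  | succ n ih =>
    rw [pow_succ', ih, List.replicate_succ, List.flatten_cons, FreeGroup.mul_mk]

theorem wd_pow (m : List Bool) (n : ℕ) :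
    (List.replicate n (wd m)).flatten = wd (List.replicate n m).flatten := by
  induction n with
  | zero => rfl
  | succ n ih =>
    rw [List.replicate_succ, List.flatten_cons, ih, List.replicate_succ, List.flatten_cons]
    unfold wd
    rw [List.flatMap_append]

theorem sum_replicate_flatten (m : List Bool) (κ : Bool → ℝ) (n : ℕ) :
    ((List.replicate n m).flatten.map κ).sum = n * (m.map κ).sum := by
  induction n with
  | zero => simp
  | succ n ih =>
    rw [List.replicate_succ, List.flatten_cons, List.map_append, List.sum_append, ih]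
    push_cast; ring

/-- distances along positive words in the theta tree -/
theorem D_theta (lw : Fin 2 → ℝ) (c : ℝ) (l : List Lt) (h : ∀ s ∈ l, s.2 = true) :
    D attT lw c true l true = (l.map (fun s => lw s.1 + c)).sum ∧
    D attT lw c false l true = c + (l.map (fun s => lw s.1 + c)).sum := by
  induction l with
  | nil => simp [D]
  | cons s l ih =>
    obtain ⟨ih1, ih2⟩ := ih (fun t ht => h t (List.mem_cons_of_mem _ ht))
    have hs : s.2 = true := h s List.mem_cons_self
    have e1 : attT s = true := hs
    have e2 : attT (bar s) = false := by simp [attT, bar, hs]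
    unfold D
    rw [e1, e2, ih2, List.map_cons, List.sum_cons]
    constructor
    · simp; ring
    · simp; ring

/-- distances along block words in the dumbbell tree -/
theorem D_dumb (lw : Fin 2 → ℝ) (c : ℝ) (m : List Bool) :
    D attD lw c true (wd m) true =
      (m.map (fun t => if t then lw 0 + lw 1 + 2 * c else lw 0)).sum ∧
    D attD lw c false (wd m) true =
      c + (m.map (fun t => if t then lw 0 + lw 1 + 2 * c else lw 0)).sum := by
  induction m with
  | nil => simp [D, wd]
  | cons t m ih =>
    obtain ⟨ih1, ih2⟩ := ih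
    have hw : wd (t :: m) = blk t ++ wd m := by simp [wd]
    rw [hw]
    cases t
    · have e : blk false ++ wd m = (0, true) :: wd m := rfl
      rw [e]
      have a1 : attD (0, true) = true := rfl
      have a2 : attD (bar (0, true)) = true := rfl
      constructor
      · rw [D, a1, a2, ih1]; simp
      · rw [D, a1, a2, ih1]; simp; ring
    · have e : blk true ++ wd m = (0, true) :: (1, true) :: wd m := rfl
      rw [e]
      have a1 : attD (0, true) = true := rfl
      have a2 : attD (bar (0, true)) = true := rfl
      have a3 : attD (1, true) = false := rfl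
      have a4 : attD (bar (1, true)) = false := rfl
      constructor
      · rw [D, a1, a2, D, a3, a4, ih2]; simp; ring
      · rw [D, a1, a2, D, a3, a4, ih2]; simp; ring

theorem sum_wd (κ : Lt → ℝ) (m : List Bool) : ((wd m).map κ).sum =
    (m.map (fun t => if t then κ (0, true) + κ (1, true) else κ (0, true))).sum := by
  induction m with
  | nil => rfl
  | cons t m ih =>
    have hw : wd (t :: m) = blk t ++ wd m := by simp [wd]
    rw [hw, List.map_append, List.sum_append, ih]
    cases t <;> simp [blk]

end Q30.CV
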