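import Mathlib

/-!
Cactus groups and their action on triples of strands.
-/

set_option linter.style.haveILetI false

namespace Q30.Cactus

/-- The index set of the generators of `J_n`: pairs of integers `(p,q)` with `1 ≤ p < q ≤ n`. -/
abbrev Gen (n : ℕ) : Type := {e : ℤ × ℤ // 1 ≤ e.1 ∧ e.1 < e.2 ∧ e.2 ≤ (n : ℤ)}

/-- The interval `[p,q]` of a generator. -/
def interval {n : ℕ} (e : Gen n) : Set ℤ := Set.Icc e.1.1 e.1.2

/-- The defining relators of the cactus group `J_n`: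
* `s_{p,q}² = 1`;
* `s_{p,q} s_{m,r} = s_{m,r} s_{p,q}` if `[p,q]` and `[m,r]` are disjoint;
* `s_{p,q} s_{m,r} = s_{p+q-r,p+q-m} s_{p,q}` if `[m,r] ⊆ [p,q]`. -/
def rels (n : ℕ) : Set (FreeGroup (Gen n)) :=
  {w | ∃ e : Gen n, w = FreeGroup.of e * FreeGroup.of e} ∪
  {w | ∃ e f : Gen n, Disjoint (interval e) (interval f) ∧
    w = FreeGroup.of e * FreeGroup.of f * (FreeGroup.of f * FreeGroup.of e)⁻¹} ∪
  {w | ∃ e f g : Gen n, interval f ⊆ interval e ∧
    g.1 = (e.1.1 + e.1.2 - f.1.2, e.1.1 + e.1.2 - f.1.1) ∧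
    w = FreeGroup.of e * FreeGroup.of f * (FreeGroup.of g * FreeGroup.of e)⁻¹}

/-- The cactus group `J_n`. -/
abbrev J (n : ℕ) : Type := PresentedGroup (rels n)

/-- The generator `s_{p,q}` of `J_n`. -/
def s {n : ℕ} (e : Gen n) : J n := PresentedGroup.of e

/-! ### the action -/

/-- A triple of positions with an integer. -/
@[ext] structure Om where
  /-- first position -/
  i : ℤ
  /-- second position -/
  j : ℤ
  /-- third position -/
  k : ℤ
  /-- the state -/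
  x : ℤ
  hij : i < j
  hjk : j < k

/-- The relation describing the action of `s_{p,q}`. -/
def F (p q : ℤ) (v w : Om) : Prop :=
  (p ≤ v.i ∧ v.k ≤ q ∧ w.i = p + q - v.k ∧ w.j = p + q - v.j ∧ w.k = p + q - v.i ∧
    w.x = 1 - v.x) ∨
  (p ≤ v.i ∧ v.j ≤ q ∧ q < v.k ∧ w.i = p + q - v.j ∧ w.j = p + q - v.i ∧ w.k = v.k ∧
    w.x = -v.x) ∨
  (v.i < p ∧ p ≤ v.j ∧ v.k ≤ q ∧ w.i = v.i ∧ w.j = p + q - v.k ∧ w.k = p + q - v.j ∧
    w.x = 2 - v.x) ∨
  (p ≤ v.i ∧ v.i ≤ q ∧ q < v.j ∧ w.i = p + q - v.i ∧ w.j = v.j ∧ w.k = v.k ∧ w.x = v.x) ∨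
  (v.i < p ∧ p ≤ v.j ∧ v.j ≤ q ∧ q < v.k ∧ w.i = v.i ∧ w.j = p + q - v.j ∧ w.k = v.k ∧
    w.x = v.x) ∨
  (v.j < p ∧ p ≤ v.k ∧ v.k ≤ q ∧ w.i = v.i ∧ w.j = v.j ∧ w.k = p + q - v.k ∧ w.x = v.x) ∨
  ((v.k < p ∨ (v.j < p ∧ q < v.k) ∨ (v.i < p ∧ q < v.j) ∨ q < v.i) ∧ w.i = v.i ∧ w.j = v.j ∧
    w.k = v.k ∧ w.x = v.x)

theorem F_exists (p q : ℤ) (v : Om) : ∃ w, F p q v w := by
  obtain ⟨i, j, k, x, hij, hjk⟩ := v
  by_cases h1 : p ≤ i
  · by_cases h2 : k ≤ q
    · exact ⟨⟨p + q - k, p + q - j, p + q - i, 1 - x, by omega, by omega⟩,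
        Or.inl ⟨h1, h2, rfl, rfl, rfl, rfl⟩⟩
    · by_cases h3 : j ≤ q
      · exact ⟨⟨p + q - j, p + q - i, k, -x, by omega, by omega⟩,
          Or.inr (Or.inl ⟨h1, h3, by simpa using h2, rfl, rfl, rfl, rfl⟩)⟩
      · by_cases h4 : i ≤ q
        · exact ⟨⟨p + q - i, j, k, x, by omega, by omega⟩,
            Or.inr (Or.inr (Or.inr (Or.inl ⟨h1, h4, by simpa using h3, rfl, rfl, rfl, rfl⟩)))⟩
        · exact ⟨⟨i, j, k, x, by omega, by omega⟩,
            Or.inr (Or.inr (Or.inr (Or.inr (Or.inr (Or.inr ⟨by simp only; omega, rfl, rfl, rfl,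
              rfl⟩)))))⟩
  · by_cases h2 : p ≤ j
    · by_cases h3 : k ≤ q
      · exact ⟨⟨i, p + q - k, p + q - j, 2 - x, by omega, by omega⟩,
          Or.inr (Or.inr (Or.inl ⟨by simpa using h1, h2, h3, rfl, rfl, rfl, rfl⟩))⟩
      · by_cases h4 : j ≤ q
        · exact ⟨⟨i, p + q - j, k, x, by omega, by omega⟩,
            Or.inr (Or.inr (Or.inr (Or.inr (Or.inl ⟨by simpa using h1, h2, h4,
              by simpa using h3, rfl, rfl, rfl, rfl⟩))))⟩
        · exact ⟨⟨i, j, k, x, by omega, by omega⟩,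
            Or.inr (Or.inr (Or.inr (Or.inr (Or.inr (Or.inr ⟨by simp only; omega, rfl, rfl, rfl,
              rfl⟩)))))⟩
    · by_cases h3 : p ≤ k ∧ k ≤ q
      · exact ⟨⟨i, j, p + q - k, x, by omega, by omega⟩,
          Or.inr (Or.inr (Or.inr (Or.inr (Or.inr (Or.inl ⟨by simpa using h2, h3.1, h3.2,
            rfl, rfl, rfl, rfl⟩)))))⟩
      · exact ⟨⟨i, j, k, x, by omega, by omega⟩,
          Or.inr (Or.inr (Or.inr (Or.inr (Or.inr (Or.inr ⟨by simp only; omega, rfl, rfl, rfl,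
            rfl⟩)))))⟩

theorem F_unique {p q : ℤ} {v w w' : Om} (h : F p q v w) (h' : F p q v w') : w = w' := by
  unfold F at h h'
  have h1 := v.hij
  have h2 := v.hjk
  have : w.i = w'.i ∧ w.j = w'.j ∧ w.k = w'.k ∧ w.x = w'.x := by
    rcases h with h | h | h | h | h | h | h <;> rcases h' with h' | h' | h' | h' | h' | h' | h' <;>
      omega
  exact Om.ext this.1 this.2.1 this.2.2.1 this.2.2.2

theorem F_symm {p q : ℤ} {v w : Om} (h : F p q v w) : F p q w v := by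
  unfold F at h ⊢
  have h1 := v.hij
  have h2 := v.hjk
  rcases h with h | h | h | h | h | h | h
  · left; omega
  · right; left; omega
  · right; right; left; omega
  · right; right; right; left; omega
  · right; right; right; right; left; omega
  · right; right; right; right; right; left; omega
  · right; right; right; right; right; right; omega

set_option maxHeartbeats 4000000 in
theorem F_disjoint {p q m r : ℤ} (hd : q < m) {v w u w' u' : Om}
    (h1 : F m r v w) (h2 : F p q w u) (h3 : F p q v w') (h4 : F m r w' u') : u = u' := by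
  have a1 := v.hij
  have a2 := v.hjk
  have key : u.i = u'.i ∧ u.j = u'.j ∧ u.k = u'.k ∧ u.x = u'.x := by
    unfold F at h1 h2 h3 h4
    rcases h1 with h1 | h1 | h1 | h1 | h1 | h1 | h1 <;>
      rcases h2 with h2 | h2 | h2 | h2 | h2 | h2 | h2 <;>
      first
      | (exfalso; omega)
      | (rcases h3 with h3 | h3 | h3 | h3 | h3 | h3 | h3 <;>
          first
          | (exfalso; omega)
          | (rcases h4 with h4 | h4 | h4 | h4 | h4 | h4 | h4 <;> omega))
  exact Om.ext key.1 key.2.1 key.2.2.1 key.2.2.2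

set_option maxHeartbeats 4000000 in
theorem F_nested {p q m r : ℤ} (hd : p ≤ m) (hd' : m < r) (hd'' : r ≤ q) {v w u w' u' : Om}
    (h1 : F m r v w) (h2 : F p q w u) (h3 : F p q v w')
    (h4 : F (p + q - r) (p + q - m) w' u') : u = u' := by
  have a1 := v.hij
  have a2 := v.hjk
  have key : u.i = u'.i ∧ u.j = u'.j ∧ u.k = u'.k ∧ u.x = u'.x := by
    unfold F at h1 h2 h3 h4
    rcases h1 with h1 | h1 | h1 | h1 | h1 | h1 | h1 <;>
      rcases h2 with h2 | h2 | h2 | h2 | h2 | h2 | h2 <;>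
      first
      | (exfalso; omega)
      | (rcases h3 with h3 | h3 | h3 | h3 | h3 | h3 | h3 <;>
          first
          | (exfalso; omega)
          | (rcases h4 with h4 | h4 | h4 | h4 | h4 | h4 | h4 <;> omega))
  exact Om.ext key.1 key.2.1 key.2.2.1 key.2.2.2

end Q30.Cactus
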