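import Mathlib
import Pool.Agent.Q30.Cactus

/-!
Free abelian subgroups of cactus groups.
-/

set_option linter.style.haveILetI false

namespace Q30.Cactus

/-- The map `s_{p,q}`. -/
noncomputable def fmap (p q : ℤ) (v : Om) : Om := (F_exists p q v).choose

theorem fmap_spec (p q : ℤ) (v : Om) : F p q v (fmap p q v) := (F_exists p q v).choose_spec

theorem fmap_eq {p q : ℤ} {v w : Om} (h : F p q v w) : fmap p q v = w :=
  F_unique (fmap_spec p q v) h

theorem fmap_invol (p q : ℤ) (v : Om) : fmap p q (fmap p q v) = v :=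
  fmap_eq (F_symm (fmap_spec p q v))

/-- The permutation `s_{p,q}`. -/
noncomputable def fperm (p q : ℤ) : Equiv.Perm Om :=
  ⟨fmap p q, fmap p q, fmap_invol p q, fmap_invol p q⟩

theorem fperm_apply (p q : ℤ) (v : Om) : fperm p q v = fmap p q v := rfl

theorem fperm_rels (n : ℕ) : ∀ r ∈ rels n,
    FreeGroup.lift (fun e : Gen n => fperm e.1.1 e.1.2) r = 1 := by
  rintro r ((⟨e, rfl⟩ | ⟨e, f, hd, rfl⟩) | ⟨e, f, g, hd, hg, rfl⟩)
  · rw [map_mul, FreeGroup.lift_apply_of]
    ext1 v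
    exact fmap_invol _ _ v
  · rw [map_mul, map_inv, mul_inv_eq_one, map_mul, map_mul]
    simp only [FreeGroup.lift_apply_of]
    have hlt : e.1.2 < f.1.1 ∨ f.1.2 < e.1.1 := by
      by_contra hcon
      push Not at hcon
      have h1 : max e.1.1 f.1.1 ∈ interval e := by
        have := e.2; have := f.2
        refine ⟨le_max_left _ _, max_le (by omega) (by omega)⟩
      have h2 : max e.1.1 f.1.1 ∈ interval f := by
        have := e.2; have := f.2
        refine ⟨le_max_right _ _, max_le (by omega) (by omega)⟩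
      exact Set.disjoint_left.mp hd h1 h2
    ext1 v
    rw [Equiv.Perm.mul_apply, Equiv.Perm.mul_apply]
    rcases hlt with hlt | hlt
    · exact F_disjoint hlt (fmap_spec _ _ v) (fmap_spec _ _ _) (fmap_spec _ _ v)
        (fmap_spec _ _ _)
    · exact (F_disjoint hlt (fmap_spec _ _ v) (fmap_spec _ _ _) (fmap_spec _ _ v)
        (fmap_spec _ _ _)).symm
  · rw [map_mul, map_inv, mul_inv_eq_one, map_mul, map_mul]
    simp only [FreeGroup.lift_apply_of]
    have hf := f.2
    have h1 : e.1.1 ≤ f.1.1 := (hd (⟨le_rfl, by omega⟩ : f.1.1 ∈ interval f)).1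
    have h2 : f.1.2 ≤ e.1.2 := (hd (⟨by omega, le_rfl⟩ : f.1.2 ∈ interval f)).2
    rw [hg]
    ext1 v
    rw [Equiv.Perm.mul_apply, Equiv.Perm.mul_apply]
    exact F_nested h1 (by omega) h2 (fmap_spec _ _ v) (fmap_spec _ _ _) (fmap_spec _ _ v)
      (fmap_spec _ _ _)

/-- The action of `J_n` on triples of positions with an integer. -/
noncomputable def act (n : ℕ) : J n →* Equiv.Perm Om := PresentedGroup.toGroup (fperm_rels n)

theorem act_s {n : ℕ} (e : Gen n) : act n (s e) = fperm e.1.1 e.1.2 :=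
  PresentedGroup.toGroup.of (fperm_rels n)

/-! ### relations in the group -/

theorem s_sq {n : ℕ} (e : Gen n) : s e * s e = 1 := by
  have : (PresentedGroup.mk (rels n)) (FreeGroup.of e * FreeGroup.of e) = 1 :=
    PresentedGroup.one_of_mem (Or.inl (Or.inl ⟨e, rfl⟩))
  rwa [map_mul] at this

theorem s_disj {n : ℕ} (e f : Gen n) (h : e.1.2 < f.1.1) : s e * s f = s f * s e := by
  have : (PresentedGroup.mk (rels n)) (FreeGroup.of e * FreeGroup.of f *
      (FreeGroup.of f * FreeGroup.of e)⁻¹) = 1 := by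
    refine PresentedGroup.one_of_mem (Or.inl (Or.inr ⟨e, f, ?_, rfl⟩))
    rw [Set.disjoint_left]
    intro a ha hb
    have h1 := ha.2
    have h2 := hb.1
    omega
  rw [map_mul, map_inv, mul_inv_eq_one, map_mul, map_mul] at this
  exact this

theorem s_nest {n : ℕ} (e f g : Gen n) (h1 : e.1.1 ≤ f.1.1) (h2 : f.1.2 ≤ e.1.2)
    (h3 : g.1.1 = e.1.1 + e.1.2 - f.1.2) (h4 : g.1.2 = e.1.1 + e.1.2 - f.1.1) :
    s e * s f = s g * s e := by
  have : (PresentedGroup.mk (rels n)) (FreeGroup.of e * FreeGroup.of f *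
      (FreeGroup.of g * FreeGroup.of e)⁻¹) = 1 := by
    refine PresentedGroup.one_of_mem (Or.inr ⟨e, f, g, ?_, Prod.ext h3 h4, rfl⟩)
    exact Set.Icc_subset_Icc h1 h2
  rw [map_mul, map_inv, mul_inv_eq_one, map_mul, map_mul] at this
  exact this

/-! ### the elements -/

/-- The generator `s_{p,q}`, with the index bounds as explicit hypotheses. -/
def S {n : ℕ} (p q : ℤ) (h : 1 ≤ p ∧ p < q ∧ q ≤ (n : ℤ)) : J n := s ⟨(p, q), h⟩

/-- The element `w_b = s_{1,b+1} s_{2,b+2} s_{1,b+2} s_{b+1,b+2}`. -/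
def w {n : ℕ} (b : ℕ) (hb : 1 ≤ b ∧ b + 2 ≤ n) : J n :=
  S 1 (b + 1) (by omega) * S 2 (b + 2) (by omega) * S 1 (b + 2) (by omega) *
    S (b + 1) (b + 2) (by omega)

theorem chain {G : Type} [Group G] {A B C D X Y Z W : G} (e1 : D * X = X * D)
    (e2 : C * X = Y * C) (e3 : B * Y = Z * B) (e4 : A * Z = W * A) :
    A * B * C * D * X = W * (A * B * C * D) := by
  rw [mul_assoc (A * B * C), e1, ← mul_assoc (A * B * C), mul_assoc (A * B) C X, e2,
    ← mul_assoc (A * B), mul_assoc A B Y, e3, ← mul_assoc A, e4]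
  simp only [mul_assoc]

theorem w_conj {n : ℕ} (b : ℕ) (hb : 1 ≤ b ∧ b + 2 ≤ n) (m r : ℤ) (h : 1 ≤ m ∧ m < r ∧ r ≤ b) :
    w (n := n) b hb * S m r (by omega) =
      S (b + 1 - r) (b + 1 - m) (by omega) * w b hb := by
  have e1 : S (n := n) (b + 1) (b + 2) (by omega) * S m r (by omega) =
      S m r (by omega) * S (b + 1) (b + 2) (by omega) :=
    (s_disj _ _ (by simp only; omega)).symm
  have e2 : S (n := n) 1 (b + 2) (by omega) * S m r (by omega) =
      S (b + 3 - r) (b + 3 - m) (by omega) * S 1 (b + 2) (by omega) :=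
    s_nest _ _ _ (by simp only; omega) (by simp only; omega) (by simp only; omega)
      (by simp only; omega)
  have e3 : S (n := n) 2 (b + 2) (by omega) * S (b + 3 - r) (b + 3 - m) (by omega) =
      S (m + 1) (r + 1) (by omega) * S 2 (b + 2) (by omega) :=
    s_nest _ _ _ (by simp only; omega) (by simp only; omega) (by simp only; omega)
      (by simp only; omega)
  have e4 : S (n := n) 1 (b + 1) (by omega) * S (m + 1) (r + 1) (by omega) =
      S (b + 1 - r) (b + 1 - m) (by omega) * S 1 (b + 1) (by omega) :=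
    s_nest _ _ _ (by simp only; omega) (by simp only; omega) (by simp only; omega)
      (by simp only; omega)
  unfold w
  exact chain e1 e2 e3 e4

/-- The square of `w_b` commutes with every `s_{m,r}`, `[m,r] ⊆ [1,b]`. -/
theorem w_sq_comm {n : ℕ} (b : ℕ) (hb : 1 ≤ b ∧ b + 2 ≤ n) (m r : ℤ)
    (h : 1 ≤ m ∧ m < r ∧ r ≤ b) :
    Commute (w (n := n) b hb * w b hb) (S m r (by omega)) := by
  have h1 := w_conj b hb m r h
  have h2 := w_conj b hb (b + 1 - r) (b + 1 - m) (by omega)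
  have h3 : S (n := n) (b + 1 - (b + 1 - m)) (b + 1 - (b + 1 - r)) (by omega) =
      S m r (by omega) := by
    unfold S
    congr 1
    apply Subtype.ext
    exact Prod.ext (by simp only; omega) (by simp only; omega)
  rw [h3] at h2
  change w b hb * w b hb * S m r _ = S m r _ * (w b hb * w b hb)
  rw [mul_assoc, h1, ← mul_assoc, h2, mul_assoc]

theorem w_sq_comm' {n : ℕ} {b c : ℕ} (hc : 1 ≤ c ∧ c + 2 ≤ n) (hb : 1 ≤ b ∧ b + 2 ≤ n)
    (hcb : c + 2 ≤ b) :
    Commute (w (n := n) b hb * w b hb) (w (n := n) c hc * w c hc) := by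
  have key : Commute (w (n := n) b hb * w b hb) (w (n := n) c hc) := by
    unfold w
    exact (((w_sq_comm b hb _ _ (by omega)).mul_right (w_sq_comm b hb _ _ (by omega))).mul_right
      (w_sq_comm b hb _ _ (by omega))).mul_right (w_sq_comm b hb _ _ (by omega))
  exact key.mul_right key

/-! ### the action of `w_b²` -/

theorem act_S {n : ℕ} (p q : ℤ) (h : 1 ≤ p ∧ p < q ∧ q ≤ (n : ℤ)) {v u : Om} (hF : F p q v u) :
    act n (S p q h) v = u := by
  unfold S
  rw [act_s, fperm_apply]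
  exact fmap_eq hF

/-- The triple `(1, c+1, c+2)` with state `x`. -/
def T (c : ℕ) (hc : 1 ≤ c) (x : ℤ) : Om := ⟨1, c + 1, c + 2, x, by omega, by omega⟩

/-- The triple `(c, c+1, c+2)` with state `x`. -/
def T' (c : ℕ) (x : ℤ) : Om := ⟨c, c + 1, c + 2, x, by omega, by omega⟩

theorem act_w {n : ℕ} (b : ℕ) (hb : 1 ≤ b ∧ b + 2 ≤ n) {v u1 u2 u3 u4 : Om}
    (h1 : F (b + 1) (b + 2) v u1) (h2 : F 1 (b + 2) u1 u2) (h3 : F 2 (b + 2) u2 u3)
    (h4 : F 1 (b + 1) u3 u4) : act n (w b hb) v = u4 := by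
  unfold w
  rw [map_mul, map_mul, map_mul, Equiv.Perm.mul_apply, Equiv.Perm.mul_apply,
    Equiv.Perm.mul_apply, act_S _ _ _ h1, act_S _ _ _ h2, act_S _ _ _ h3, act_S _ _ _ h4]

theorem F1 {p q : ℤ} {v w : Om} (h : p ≤ v.i ∧ v.k ≤ q ∧ w.i = p + q - v.k ∧
    w.j = p + q - v.j ∧ w.k = p + q - v.i ∧ w.x = 1 - v.x) : F p q v w := Or.inl h

theorem F2 {p q : ℤ} {v w : Om} (h : p ≤ v.i ∧ v.j ≤ q ∧ q < v.k ∧ w.i = p + q - v.j ∧
    w.j = p + q - v.i ∧ w.k = v.k ∧ w.x = -v.x) : F p q v w := Or.inr (Or.inl h)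

theorem F3 {p q : ℤ} {v w : Om} (h : v.i < p ∧ p ≤ v.j ∧ v.k ≤ q ∧ w.i = v.i ∧
    w.j = p + q - v.k ∧ w.k = p + q - v.j ∧ w.x = 2 - v.x) : F p q v w :=
  Or.inr (Or.inr (Or.inl h))

theorem F4 {p q : ℤ} {v w : Om} (h : p ≤ v.i ∧ v.i ≤ q ∧ q < v.j ∧ w.i = p + q - v.i ∧
    w.j = v.j ∧ w.k = v.k ∧ w.x = v.x) : F p q v w := Or.inr (Or.inr (Or.inr (Or.inl h)))

theorem F7 {p q : ℤ} {v : Om} (h : v.k < p ∨ (v.i < p ∧ q < v.j)) : F p q v v := by
  refine Or.inr (Or.inr (Or.inr (Or.inr (Or.inr (Or.inr ⟨?_, rfl, rfl, rfl, rfl⟩)))))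
  have := v.hjk
  rcases h with h | h
  · exact Or.inl h
  · exact Or.inr (Or.inr (Or.inl h))

theorem act_w_self {n : ℕ} (b : ℕ) (hb : 1 ≤ b ∧ b + 2 ≤ n) (x : ℤ) :
    act n (w b hb * w b hb) (T b hb.1 x) = T b hb.1 (x - 6) := by
  have h1 : act n (w b hb) (T b hb.1 x) = T' b (x - 3) :=
    act_w b hb (u1 := ⟨1, b + 1, b + 2, 2 - x, by omega, by omega⟩)
      (u2 := ⟨1, 2, b + 2, x - 1, by omega, by omega⟩)
      (u3 := ⟨1, 2, b + 2, 3 - x, by omega, by omega⟩)
      (F3 (by dsimp only [T]; omega)) (F1 (by dsimp only; omega))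
      (F3 (by dsimp only; omega)) (F2 (by dsimp only [T']; omega))
  have h2 : act n (w b hb) (T' b (x - 3)) = T b hb.1 (x - 6) :=
    act_w b hb (u1 := ⟨b, b + 1, b + 2, 5 - x, by omega, by omega⟩)
      (u2 := ⟨1, 2, 3, x - 4, by omega, by omega⟩)
      (u3 := ⟨1, b + 1, b + 2, 6 - x, by omega, by omega⟩)
      (F3 (by dsimp only [T']; omega)) (F1 (by dsimp only; omega))
      (F3 (by dsimp only; omega)) (F2 (by dsimp only [T]; omega))
  rw [map_mul, Equiv.Perm.mul_apply, h1, h2]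

theorem act_w_big {n : ℕ} (b : ℕ) (hb : 1 ≤ b ∧ b + 2 ≤ n) (c : ℕ) (hc : 1 ≤ c)
    (hcb : c + 2 ≤ b) (x : ℤ) :
    act n (w b hb * w b hb) (T c hc x) = T c hc x := by
  have h1 : act n (w b hb) (T c hc x) =
      ⟨b - c - 1, b - c, b, 1 - x, by omega, by omega⟩ :=
    act_w b hb (u1 := T c hc x)
      (u2 := ⟨b + 1 - c, b + 2 - c, b + 2, 1 - x, by omega, by omega⟩)
      (u3 := ⟨2, c + 2, c + 3, x, by omega, by omega⟩)
      (F7 (by dsimp only [T]; omega)) (F1 (by dsimp only [T]; omega))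
      (F1 (by dsimp only; omega)) (F1 (by dsimp only; omega))
  have h2 : act n (w b hb) ⟨b - c - 1, b - c, b, 1 - x, by omega, by omega⟩ = T c hc x :=
    act_w b hb (u1 := ⟨b - c - 1, b - c, b, 1 - x, by omega, by omega⟩)
      (u2 := ⟨3, c + 3, c + 4, x, by omega, by omega⟩)
      (u3 := ⟨b - c, b + 1 - c, b + 1, 1 - x, by omega, by omega⟩)
      (F7 (by dsimp only; omega)) (F1 (by dsimp only; omega))
      (F1 (by dsimp only; omega)) (F1 (by dsimp only [T]; omega))
  rw [map_mul, Equiv.Perm.mul_apply, h1, h2]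

theorem act_w_small {n : ℕ} (b : ℕ) (hb : 1 ≤ b ∧ b + 2 ≤ n) (c : ℕ) (hc : 1 ≤ c)
    (hcb : b + 2 ≤ c) (x : ℤ) :
    act n (w b hb * w b hb) (T c hc x) = T c hc x := by
  have h1 : act n (w b hb) (T c hc x) = ⟨b, c + 1, c + 2, x, by omega, by omega⟩ :=
    act_w b hb (u1 := T c hc x)
      (u2 := ⟨b + 2, c + 1, c + 2, x, by omega, by omega⟩)
      (u3 := ⟨2, c + 1, c + 2, x, by omega, by omega⟩)
      (F7 (by dsimp only [T]; omega)) (F4 (by dsimp only [T]; omega))
      (F4 (by dsimp only; omega)) (F4 (by dsimp only; omega))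
  have h2 : act n (w b hb) ⟨b, c + 1, c + 2, x, by omega, by omega⟩ = T c hc x :=
    act_w b hb (u1 := ⟨b, c + 1, c + 2, x, by omega, by omega⟩)
      (u2 := ⟨3, c + 1, c + 2, x, by omega, by omega⟩)
      (u3 := ⟨b + 1, c + 1, c + 2, x, by omega, by omega⟩)
      (F7 (by dsimp only; omega)) (F4 (by dsimp only; omega))
      (F4 (by dsimp only; omega)) (F4 (by dsimp only [T]; omega))
  rw [map_mul, Equiv.Perm.mul_apply, h1, h2]

/-! ### free abelian subgroups -/

/-- `g` translates the state of the triple `T c` by `t`. -/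
def Tr {n : ℕ} (c : ℕ) (hc : 1 ≤ c) (g : J n) (t : ℤ) : Prop :=
  ∀ x : ℤ, act n g (T c hc x) = T c hc (x + t)

theorem Tr.one {n : ℕ} (c : ℕ) (hc : 1 ≤ c) : Tr c hc (1 : J n) 0 := by
  intro x
  rw [map_one, add_zero]
  rfl

theorem Tr.mul {n : ℕ} {c : ℕ} {hc : 1 ≤ c} {g g' : J n} {t t' : ℤ} (h : Tr c hc g t)
    (h' : Tr c hc g' t') : Tr c hc (g * g') (t + t') := by
  intro x
  rw [map_mul, Equiv.Perm.mul_apply, h', h]
  congr 1
  ring

theorem Tr.inv {n : ℕ} {c : ℕ} {hc : 1 ≤ c} {g : J n} {t : ℤ} (h : Tr c hc g t) :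
    Tr c hc g⁻¹ (-t) := by
  intro x
  rw [map_inv, Equiv.Perm.inv_eq_iff_eq, h]
  congr 1
  ring

theorem Tr.pow {n : ℕ} {c : ℕ} {hc : 1 ≤ c} {g : J n} {t : ℤ} (h : Tr c hc g t) (m : ℕ) :
    Tr c hc (g ^ m) (m * t) := by
  induction m with
  | zero => simpa using Tr.one c hc
  | succ m ih =>
    rw [pow_succ]
    have := ih.mul h
    convert this using 1
    push_cast
    ring

theorem Tr.zpow {n : ℕ} {c : ℕ} {hc : 1 ≤ c} {g : J n} {t : ℤ} (h : Tr c hc g t) (m : ℤ) :
    Tr c hc (g ^ m) (m * t) := by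
  cases m with
  | ofNat m =>
    rw [Int.ofNat_eq_natCast, zpow_natCast]
    exact h.pow m
  | negSucc m =>
    rw [zpow_negSucc]
    have := (h.pow (m + 1)).inv
    convert this using 1
    rw [Int.negSucc_eq]
    push_cast
    ring

/-- The commuting elements. -/
def y (n k : ℕ) (h : 2 * k + 1 ≤ n) (i : Fin k) : J n :=
  w (2 * i + 1) ⟨by omega, by omega⟩ * w (2 * i + 1) ⟨by omega, by omega⟩

theorem y_comm (n k : ℕ) (h : 2 * k + 1 ≤ n) (i j : Fin k) :
    y n k h i * y n k h j = y n k h j * y n k h i := by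
  rcases lt_trichotomy i.1 j.1 with hij | hij | hij
  · exact (w_sq_comm' (n := n) ⟨by omega, by omega⟩ ⟨by omega, by omega⟩ (by omega)).symm
  · have : i = j := Fin.ext hij
    rw [this]
  · exact w_sq_comm' (n := n) ⟨by omega, by omega⟩ ⟨by omega, by omega⟩ (by omega)

theorem y_Tr (n k : ℕ) (h : 2 * k + 1 ≤ n) (i j : Fin k) :
    Tr (2 * i.1 + 1) (by omega) (y n k h j) (if j = i then -6 else 0) := by
  intro x
  by_cases hij : j = i
  · subst hij
    rw [if_pos rfl]
    exact act_w_self (2 * j.1 + 1) ⟨by omega, by omega⟩ x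
  · rw [if_neg hij, add_zero]
    have hne : j.1 ≠ i.1 := fun h => hij (Fin.ext h)
    rcases lt_or_gt_of_ne hne with hlt | hlt
    · exact act_w_small (2 * j.1 + 1) ⟨by omega, by omega⟩ _ _ (by omega) x
    · exact act_w_big (2 * j.1 + 1) ⟨by omega, by omega⟩ _ _ (by omega) x

/-- `J_n` contains a copy of `ℤ^k` if `2k+1 ≤ n`. -/
theorem exists_injective (n k : ℕ) (h : 2 * k + 1 ≤ n) :
    ∃ f : Multiplicative (Fin k → ℤ) →* J n, Function.Injective f := by
  have hcomm : ∀ a ∈ Set.range (y n k h), ∀ b ∈ Set.range (y n k h), a * b = b * a := by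
    rintro _ ⟨i, rfl⟩ _ ⟨j, rfl⟩
    exact y_comm n k h i j
  letI : CommGroup (Subgroup.closure (Set.range (y n k h))) :=
    Subgroup.closureCommGroupOfComm hcomm
  let y' : Fin k → Subgroup.closure (Set.range (y n k h)) := fun i => ⟨y n k h i, Subgroup.subset_closure ⟨i, rfl⟩⟩
  let f : Multiplicative (Fin k → ℤ) →* J n :=
    { toFun := fun e => ((∏ i, y' i ^ (Multiplicative.toAdd e i) : Subgroup.closure (Set.range (y n k h))) : J n)
      map_one' := by
        change ((∏ i, y' i ^ (0 : ℤ) : Subgroup.closure (Set.range (y n k h))) : J n) = 1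
        simp
      map_mul' := fun e e' => by
        change ((∏ i, y' i ^ (Multiplicative.toAdd e i + Multiplicative.toAdd e' i) : Subgroup.closure (Set.range (y n k h))) : J n) = _
        rw [← Subgroup.coe_mul, ← Finset.prod_mul_distrib]
        congr 1
        apply Finset.prod_congr rfl
        intro i _
        rw [zpow_add] }
  refine ⟨f, ?_⟩
  rw [injective_iff_map_eq_one]
  intro e he
  have key : ∀ (i : Fin k) (s : Finset (Fin k)),
      Tr (2 * i.1 + 1) (by omega) (((∏ j ∈ s, y' j ^ (Multiplicative.toAdd e j) : Subgroup.closure (Set.range (y n k h)))) : J n)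
        (∑ j ∈ s, Multiplicative.toAdd e j * (if j = i then -6 else 0)) := by
    intro i s
    induction s using Finset.induction_on with
    | empty => simpa using Tr.one _ _
    | insert a s ha ih =>
      rw [Finset.prod_insert ha, Finset.sum_insert ha, Subgroup.coe_mul]
      refine Tr.mul ?_ ih
      exact (y_Tr n k h i a).zpow _
  apply Multiplicative.toAdd.injective
  funext i
  have h1 := key i Finset.univ
  change Tr _ _ (f e) _ at h1
  rw [he] at h1
  have h2 := h1 0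
  rw [map_one, zero_add] at h2
  have h3 := congrArg Om.x h2
  rw [Equiv.Perm.one_apply] at h3
  change (0 : ℤ) = ∑ j : Fin k, Multiplicative.toAdd e j * (if j = i then -6 else 0) at h3
  rw [Finset.sum_eq_single i (by intro j _ hj; rw [if_neg hj, mul_zero])
    (by intro hi; exact absurd (Finset.mem_univ i) hi), if_pos rfl] at h3
  change Multiplicative.toAdd e i = 0
  omega

end Q30.Cactus
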