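import Pool.Agent.Helper548.HB.RealZ
import Pool.Agent.Helper548.HB.P_lim_eq_iff

/-!
# Groups with a contracting element and the Cayley graphs of their confining sets

Part of the solution of MP_d5cca6.
-/

namespace Q30.Foc

open Pool.Agent.Helper548.HB

/-- A group with a height function `κ` and a norm `ν` which is dilated by the element `t`. -/
structure Dil (G : Type) [Group G] where
  /-- the height -/
  κ : G → ℤ
  κ_mul : ∀ g h, κ (g * h) = κ g + κ h
  /-- the norm -/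
  ν : G → ℝ
  ν_nonneg : ∀ g, 0 ≤ ν g
  ν_mul : ∀ g h, ν (g * h) ≤ ν g + 4 ^ (κ g) * ν h
  ν_inv : ∀ g, ν g⁻¹ ≤ 4 ^ (- κ g) * ν g
  /-- the dilating element -/
  t : G
  κ_t : κ t = 1
  ν_t : ν t = 0

namespace Dil

variable {G : Type} [Group G] (D : Dil G)

theorem κ_one : D.κ 1 = 0 := by
  have := D.κ_mul 1 1
  rw [mul_one] at this
  omega

theorem κ_inv (g : G) : D.κ g⁻¹ = - D.κ g := by
  have := D.κ_mul g g⁻¹
  rw [mul_inv_cancel, κ_one] at this
  omega

theorem κ_pow (g : G) (n : ℕ) : D.κ (g ^ n) = n * D.κ g := by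
  induction n with
  | zero => simp [κ_one]
  | succ n ih => rw [pow_succ, κ_mul, ih]; push_cast; ring

theorem κ_zpow (g : G) (n : ℤ) : D.κ (g ^ n) = n * D.κ g := by
  cases n with
  | ofNat n => simpa using D.κ_pow g n
  | negSucc n =>
    rw [zpow_negSucc, κ_inv, κ_pow, Int.negSucc_eq]; push_cast; ring

theorem ν_tinv : D.ν D.t⁻¹ = 0 := by
  have h := D.ν_inv D.t
  rw [D.ν_t, mul_zero] at h
  exact le_antisymm h (D.ν_nonneg _)

theorem ν_one : D.ν 1 = 0 := by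
  have h := D.ν_mul D.t D.t⁻¹
  rw [mul_inv_cancel, D.ν_t, D.ν_tinv, mul_zero, add_zero] at h
  exact le_antisymm h (D.ν_nonneg _)

theorem ν_tpow (n : ℕ) : D.ν (D.t ^ n) = 0 := by
  induction n with
  | zero => simp [ν_one]
  | succ n ih =>
    have h := D.ν_mul (D.t ^ n) D.t
    rw [← pow_succ, ih, D.ν_t, mul_zero, add_zero] at h
    exact le_antisymm h (D.ν_nonneg _)

theorem ν_tipow (n : ℕ) : D.ν (D.t⁻¹ ^ n) = 0 := by
  induction n with
  | zero => simp [ν_one]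
  | succ n ih =>
    have h := D.ν_mul (D.t⁻¹ ^ n) D.t⁻¹
    rw [← pow_succ, ih, D.ν_tinv, mul_zero, add_zero] at h
    exact le_antisymm h (D.ν_nonneg _)

theorem ν_inv_eq (g : G) : D.ν g⁻¹ = 4 ^ (- D.κ g) * D.ν g := by
  apply le_antisymm (D.ν_inv g)
  have h := D.ν_inv g⁻¹
  rw [inv_inv, κ_inv, neg_neg] at h
  calc (4 : ℝ) ^ (- D.κ g) * D.ν g ≤ 4 ^ (- D.κ g) * (4 ^ (D.κ g) * D.ν g⁻¹) := by
        apply mul_le_mul_of_nonneg_left h (by positivity)
    _ = D.ν g⁻¹ := by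
        rw [← mul_assoc, ← zpow_add₀ (by norm_num)]
        simp

/-- the generating set: confining set and `t` -/
def gens : Set G := {s | (D.κ s = 0 ∧ D.ν s ≤ 1) ∨ s = D.t ∨ s = D.t⁻¹}

theorem gens_inv {s : G} (h : s ∈ D.gens) : s⁻¹ ∈ D.gens := by
  rcases h with ⟨h1, h2⟩ | h | h
  · left
    refine ⟨by rw [κ_inv, h1]; rfl, ?_⟩
    rw [ν_inv_eq, h1]
    simpa using h2
  · right; right; rw [h]
  · right; left; rw [h, inv_inv]

/-- the Cayley graph of the generating set -/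
def Γ : SimpleGraph G where
  Adj x y := x ≠ y ∧ x⁻¹ * y ∈ D.gens
  symm := ⟨fun x y h => ⟨h.1.symm, by
    have := D.gens_inv h.2
    rwa [mul_inv_rev, inv_inv] at this⟩⟩
  loopless := ⟨fun _ h => h.1 rfl⟩

theorem adj_smul (g x y : G) : D.Γ.Adj (g • x) (g • y) ↔ D.Γ.Adj x y := by
  change (g * x ≠ g * y ∧ (g * x)⁻¹ * (g * y) ∈ D.gens) ↔ (x ≠ y ∧ x⁻¹ * y ∈ D.gens)
  rw [mul_inv_rev, mul_assoc, inv_mul_cancel_left, Ne, mul_right_inj]

/-- there is a walk of length at most `n` -/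
def WL (n : ℕ) (x y : G) : Prop := ∃ p : D.Γ.Walk x y, p.length ≤ n

theorem WL_zero (x : G) : D.WL 0 x x := ⟨SimpleGraph.Walk.nil, le_rfl⟩

theorem WL_trans {m n : ℕ} {x y z : G} (h1 : D.WL m x y) (h2 : D.WL n y z) :
    D.WL (m + n) x z := by
  obtain ⟨p, hp⟩ := h1
  obtain ⟨q, hq⟩ := h2
  exact ⟨p.append q, by rw [SimpleGraph.Walk.length_append]; omega⟩

theorem WL_step (x s : G) (h : s ∈ D.gens) : D.WL 1 x (x * s) := by
  by_cases h1 : x = x * s
  · rw [← h1]; exact ⟨SimpleGraph.Walk.nil, by simp⟩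
  · have : D.Γ.Adj x (x * s) := ⟨h1, by rwa [inv_mul_cancel_left]⟩
    exact ⟨this.toWalk, le_rfl⟩

theorem WL_pow (x s : G) (h : s ∈ D.gens) (n : ℕ) : D.WL n x (x * s ^ n) := by
  induction n with
  | zero => simpa using D.WL_zero x
  | succ n ih =>
    have := D.WL_trans ih (D.WL_step (x * s ^ n) s h)
    rwa [mul_assoc, ← pow_succ] at this

theorem t_mem : D.t ∈ D.gens := Or.inr (Or.inl rfl)
theorem tinv_mem : D.t⁻¹ ∈ D.gens := Or.inr (Or.inr rfl)

theorem WL_main (x g : G) (m j : ℕ) (hj : (j : ℤ) = m - D.κ g) (hν : D.ν g ≤ 4 ^ m) :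
    D.WL (m + 1 + j) x (x * g) := by
  set q : G := D.t⁻¹ ^ m * g * D.t ^ j with hq
  have hκ : D.κ q = 0 := by
    rw [hq, κ_mul, κ_mul, κ_pow, κ_pow, κ_inv, D.κ_t]
    omega
  have hνq : D.ν q ≤ 1 := by
    have h1 := D.ν_mul (D.t⁻¹ ^ m * g) (D.t ^ j)
    rw [ν_tpow, mul_zero, add_zero] at h1
    have h2 := D.ν_mul (D.t⁻¹ ^ m) g
    rw [ν_tipow, zero_add, κ_pow, κ_inv, D.κ_t] at h2
    have h3 : (4 : ℝ) ^ ((m : ℤ) * -1) * D.ν g ≤ 4 ^ ((m : ℤ) * -1) * 4 ^ m :=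
      mul_le_mul_of_nonneg_left hν (by positivity)
    have h4 : (4 : ℝ) ^ ((m : ℤ) * -1) * 4 ^ m = 1 := by
      rw [← zpow_natCast, ← zpow_add₀ (by norm_num)]
      simp
    linarith
  have hg : x * g = x * D.t ^ m * q * D.t⁻¹ ^ j := by
    rw [hq]
    simp only [inv_pow, mul_assoc, mul_inv_cancel_left, mul_inv_cancel, mul_one]
  rw [hg]
  exact D.WL_trans (D.WL_trans (D.WL_pow x _ D.t_mem m) (D.WL_step _ q (Or.inl ⟨hκ, hνq⟩)))
    (D.WL_pow _ _ D.tinv_mem j)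

theorem exists_WL (x y : G) : ∃ n, D.WL n x y := by
  obtain ⟨m, hm⟩ := pow_unbounded_of_one_lt (D.ν (x⁻¹ * y)) (by norm_num : (1 : ℝ) < 4)
  set M : ℕ := max m (D.κ (x⁻¹ * y)).toNat with hM
  have h1 : D.ν (x⁻¹ * y) ≤ 4 ^ M :=
    hm.le.trans (pow_le_pow_right₀ (by norm_num) (le_max_left _ _))
  have h2 : D.κ (x⁻¹ * y) ≤ M := by
    have := Int.self_le_toNat (D.κ (x⁻¹ * y))
    have h3 : ((D.κ (x⁻¹ * y)).toNat : ℤ) ≤ M := by exact_mod_cast le_max_right _ _
    omega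
  have h := D.WL_main x (x⁻¹ * y) M (M - D.κ (x⁻¹ * y)).toNat
    (Int.toNat_of_nonneg (by omega)) h1
  rw [mul_inv_cancel_left] at h
  exact ⟨_, h⟩

theorem connected : D.Γ.Connected := by
  have : Nonempty G := ⟨1⟩
  refine SimpleGraph.Connected.mk ?_
  intro x y
  obtain ⟨n, p, -⟩ := D.exists_WL x y
  exact ⟨p⟩

theorem dist_le {n : ℕ} {x y : G} (h : D.WL n x y) : D.Γ.dist x y ≤ n := by
  obtain ⟨p, hp⟩ := h
  exact (SimpleGraph.dist_le p).trans hp

theorem walk_bound {x y : G} (p : D.Γ.Walk x y) :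
    |D.κ (x⁻¹ * y)| ≤ p.length ∧ D.ν (x⁻¹ * y) ≤ 2 ^ ((p.length : ℤ) + D.κ (x⁻¹ * y)) := by
  induction p with
  | nil =>
    rename_i u
    rw [inv_mul_cancel, κ_one, ν_one]
    simp
  | cons hadj p ih =>
    rename_i u v w
    have hs := hadj.2
    set s := u⁻¹ * v with hs'
    set g := v⁻¹ * w with hg'
    have hsg : u⁻¹ * w = s * g := by rw [hs', hg']; group
    obtain ⟨ih1, ih2⟩ := ih
    rw [hsg, κ_mul, SimpleGraph.Walk.length_cons]
    have h0 := D.ν_mul s g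
    have hn : 0 ≤ (p.length : ℤ) + D.κ g := by
      have := abs_le.1 ih1
      omega
    rcases hs with ⟨h1, h2⟩ | h1 | h1
    · constructor
      · rw [h1, zero_add]; push_cast; omega
      · rw [h1] at h0
        simp only [zpow_zero, one_mul] at h0
        rw [h1, zero_add]
        have h3 : (1 : ℝ) ≤ 2 ^ ((p.length : ℤ) + D.κ g) := one_le_zpow₀ (by norm_num) hn
        have h4 : (2 : ℝ) ^ (((p.length + 1 : ℕ) : ℤ) + D.κ g) =
            2 * 2 ^ ((p.length : ℤ) + D.κ g) := by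
          rw [show (((p.length + 1 : ℕ) : ℤ) + D.κ g) = 1 + ((p.length : ℤ) + D.κ g) by
            push_cast; ring, zpow_add₀ (by norm_num)]
          norm_num
        rw [h4]
        linarith
    · rw [h1] at h0 ⊢
      rw [D.κ_t] at h0 ⊢
      rw [D.ν_t] at h0
      constructor
      · have := abs_le.1 ih1
        rw [abs_le]; push_cast; omega
      · have h4 : (2 : ℝ) ^ (((p.length + 1 : ℕ) : ℤ) + (1 + D.κ g)) =
            4 * 2 ^ ((p.length : ℤ) + D.κ g) := by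
          rw [show (((p.length + 1 : ℕ) : ℤ) + (1 + D.κ g)) = 2 + ((p.length : ℤ) + D.κ g) by
            push_cast; ring, zpow_add₀ (by norm_num)]
          norm_num
        rw [h4]
        simp only [zpow_one] at h0
        linarith
    · rw [h1] at h0 ⊢
      rw [κ_inv, D.κ_t] at h0 ⊢
      rw [D.ν_tinv] at h0
      constructor
      · have := abs_le.1 ih1
        rw [abs_le]; push_cast; omega
      · have h4 : (2 : ℝ) ^ (((p.length + 1 : ℕ) : ℤ) + (-1 + D.κ g)) =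
            2 ^ ((p.length : ℤ) + D.κ g) := by
          congr 1
          push_cast; ring
        rw [h4]
        have h5 : (4 : ℝ) ^ (-1 : ℤ) * D.ν g ≤ 1 * D.ν g := by
          apply mul_le_mul_of_nonneg_right _ (D.ν_nonneg _)
          norm_num
        rw [zero_add] at h0
        rw [one_mul] at h5
        exact h0.trans (h5.trans ih2)

theorem dist_bound (x y : G) :
    |D.κ (x⁻¹ * y)| ≤ D.Γ.dist x y ∧
      D.ν (x⁻¹ * y) ≤ 2 ^ ((D.Γ.dist x y : ℤ) + D.κ (x⁻¹ * y)) := by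
  obtain ⟨p, hp⟩ := D.connected.exists_walk_length_eq_dist x y
  rw [← hp]
  exact D.walk_bound p

/-- the exponential of the distance formula -/
noncomputable def F (x y : G) : ℝ :=
  4 ^ (D.κ x) * D.ν (x⁻¹ * y) + 4 ^ (D.κ x) + 4 ^ (D.κ y)

theorem F_pos (x y : G) : 0 < D.F x y := by
  unfold F
  have := D.ν_nonneg (x⁻¹ * y)
  positivity

theorem F_symm (x y : G) : D.F x y = D.F y x := by
  unfold F
  have h : x⁻¹ * y = (y⁻¹ * x)⁻¹ := by group
  rw [h, ν_inv_eq, ← mul_assoc, ← zpow_add₀ (by norm_num), κ_mul, κ_inv]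
  have h2 : D.κ x + -(-D.κ y + D.κ x) = D.κ y := by ring
  rw [h2]
  ring

theorem F_triangle (x y z : G) : D.F x z ≤ D.F x y + D.F y z := by
  unfold F
  have h : x⁻¹ * z = (x⁻¹ * y) * (y⁻¹ * z) := by group
  have h1 := D.ν_mul (x⁻¹ * y) (y⁻¹ * z)
  rw [← h, κ_mul, κ_inv] at h1
  have h2 : (4 : ℝ) ^ (D.κ x) * D.ν (x⁻¹ * z) ≤ 4 ^ (D.κ x) * (D.ν (x⁻¹ * y) +
      4 ^ (-D.κ x + D.κ y) * D.ν (y⁻¹ * z)) := mul_le_mul_of_nonneg_left h1 (by positivity)
  have h3 : (4 : ℝ) ^ (D.κ x) * (D.ν (x⁻¹ * y) + 4 ^ (-D.κ x + D.κ y) * D.ν (y⁻¹ * z))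
      = 4 ^ (D.κ x) * D.ν (x⁻¹ * y) + 4 ^ (D.κ y) * D.ν (y⁻¹ * z) := by
    rw [mul_add, ← mul_assoc, ← zpow_add₀ (by norm_num)]
    congr 3
    ring_nf
  have h4 : (0 : ℝ) < 4 ^ (D.κ y) := by positivity
  linarith

/-- the logarithm of `F` -/
noncomputable def L (x y : G) : ℝ := Real.logb 2 (D.F x y)

theorem L_symm (x y : G) : D.L x y = D.L y x := by unfold L; rw [F_symm]

theorem L_triangle (x y z : G) : D.L x z ≤ max (D.L x y) (D.L y z) + 1 := by
  have key : ∀ a b c : ℝ, 0 < a → 0 < b → 0 < c → a ≤ b + c →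
      Real.logb 2 a ≤ max (Real.logb 2 b) (Real.logb 2 c) + 1 := by
    intro a b c ha hb hc h
    have h1 : ∀ u v : ℝ, 0 < u → 0 < v → u ≤ v → a ≤ u + v →
        Real.logb 2 a ≤ Real.logb 2 v + 1 := by
      intro u v hu hv huv hauv
      have h2 : Real.logb 2 (2 * v) = 1 + Real.logb 2 v := by
        rw [Real.logb_mul (by norm_num) hv.ne']
        simp
      rw [add_comm, ← h2]
      exact Real.logb_le_logb_of_le (by norm_num) ha (by linarith)
    rcases le_total b c with hbc | hbc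
    · exact (h1 b c hb hc hbc h).trans (by linarith [le_max_right (Real.logb 2 b) (Real.logb 2 c)])
    · exact (h1 c b hc hb hbc (by linarith)).trans
        (by linarith [le_max_left (Real.logb 2 b) (Real.logb 2 c)])
  exact key _ _ _ (D.F_pos _ _) (D.F_pos _ _) (D.F_pos _ _) (D.F_triangle x y z)

theorem logb_four_zpow (k : ℤ) : Real.logb 2 ((4 : ℝ) ^ k) = 2 * k := by
  rw [show (4 : ℝ) = 2 ^ (2 : ℤ) by norm_num, ← zpow_mul, ← Real.rpow_intCast,
    Real.logb_rpow (by norm_num) (by norm_num)]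
  push_cast; ring

theorem L_le (x y : G) : D.L x y - D.κ x - D.κ y ≤ D.Γ.dist x y + 2 := by
  obtain ⟨h1, h2⟩ := D.dist_bound x y
  set n := D.Γ.dist x y with hn
  set g := x⁻¹ * y with hg
  have hκ : D.κ g = D.κ y - D.κ x := by rw [hg, κ_mul, κ_inv]; ring
  have habs := abs_le.1 h1
  have e1 : D.F x y ≤ 2 ^ ((n : ℤ) + 2 + D.κ x + D.κ y) := by
    unfold F
    rw [← hg]
    have e2 : (4 : ℝ) ^ (D.κ x) * D.ν g ≤ 2 ^ ((n : ℤ) + D.κ x + D.κ y) := by
      calc (4 : ℝ) ^ (D.κ x) * D.ν g ≤ 4 ^ (D.κ x) * 2 ^ ((n : ℤ) + D.κ g) :=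
            mul_le_mul_of_nonneg_left h2 (by positivity)
        _ = 2 ^ ((n : ℤ) + D.κ x + D.κ y) := by
            rw [show (4 : ℝ) = 2 ^ (2 : ℤ) by norm_num, ← zpow_mul, ← zpow_add₀ (by norm_num)]
            congr 1
            rw [hκ]; ring
    have e3 : (4 : ℝ) ^ (D.κ x) ≤ 2 ^ ((n : ℤ) + D.κ x + D.κ y) := by
      rw [show (4 : ℝ) = 2 ^ (2 : ℤ) by norm_num, ← zpow_mul]
      apply zpow_le_zpow_right₀ (by norm_num)
      omega
    have e4 : (4 : ℝ) ^ (D.κ y) ≤ 2 ^ ((n : ℤ) + D.κ x + D.κ y) := by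
      rw [show (4 : ℝ) = 2 ^ (2 : ℤ) by norm_num, ← zpow_mul]
      apply zpow_le_zpow_right₀ (by norm_num)
      omega
    have e5 : (2 : ℝ) ^ ((n : ℤ) + 2 + D.κ x + D.κ y) = 4 * 2 ^ ((n : ℤ) + D.κ x + D.κ y) := by
      rw [show (n : ℤ) + 2 + D.κ x + D.κ y = 2 + ((n : ℤ) + D.κ x + D.κ y) by ring,
        zpow_add₀ (by norm_num)]
      norm_num
    have e6 : (0 : ℝ) < 2 ^ ((n : ℤ) + D.κ x + D.κ y) := by positivity
    linarith
  have e7 : D.L x y ≤ ((n : ℤ) + 2 + D.κ x + D.κ y : ℤ) := by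
    unfold L
    rw [Real.logb_le_iff_le_rpow (by norm_num) (D.F_pos _ _), Real.rpow_intCast]
    exact e1
  push_cast at e7
  linarith

theorem le_L (x y : G) : (D.Γ.dist x y : ℝ) ≤ D.L x y - D.κ x - D.κ y + 3 := by
  set g := x⁻¹ * y with hg
  have hκ : D.κ g = D.κ y - D.κ x := by rw [hg, κ_mul, κ_inv]; ring
  set E : ℝ := D.ν g + 1 + 4 ^ (D.κ g) with hE
  have hν := D.ν_nonneg g
  have h4 : (0 : ℝ) < 4 ^ (D.κ g) := by positivity
  have hE1 : 1 ≤ E := by rw [hE]; linarith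
  have hF : D.F x y = 4 ^ (D.κ x) * E := by
    unfold F
    rw [← hg, hE, hκ, mul_add, mul_add, ← zpow_add₀ (by norm_num), mul_one]
    congr 2
    ring
  have hL : D.L x y = 2 * D.κ x + Real.logb 2 E := by
    unfold L
    rw [hF, Real.logb_mul (by positivity) (by linarith), logb_four_zpow]
  set l := Real.logb 2 E with hl
  have hl0 : 0 ≤ l := Real.logb_nonneg (by norm_num) hE1
  set m : ℕ := ⌈l / 2⌉₊ with hm
  have hm1 : l / 2 ≤ m := Nat.le_ceil _
  have hm2 : (m : ℝ) < l / 2 + 1 := Nat.ceil_lt_add_one (by linarith)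
  have hEm : E ≤ 4 ^ m := by
    have h5 : E = 2 ^ l := by
      rw [hl, Real.rpow_logb (by norm_num) (by norm_num) (by linarith)]
    have h6 : (4 : ℝ) ^ m = 2 ^ ((2 * m : ℕ) : ℝ) := by
      rw [Real.rpow_natCast, pow_mul]; norm_num
    rw [h5, h6]
    apply Real.rpow_le_rpow_of_exponent_le (by norm_num)
    push_cast; linarith
  have hκm : D.κ g ≤ m := by
    have h7 : (4 : ℝ) ^ (D.κ g) ≤ 4 ^ (m : ℤ) := by
      rw [zpow_natCast]; linarith
    exact (zpow_le_zpow_iff_right₀ (by norm_num)).1 h7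
  have hw := D.WL_main x g m (m - D.κ g).toNat (Int.toNat_of_nonneg (by omega)) (by linarith)
  rw [hg, mul_inv_cancel_left, ← hg] at hw
  have hd := D.dist_le hw
  have hd2 : (D.Γ.dist x y : ℤ) ≤ m + 1 + (m - D.κ g) := by
    have h8 : (((m - D.κ g).toNat : ℕ) : ℤ) = m - D.κ g := Int.toNat_of_nonneg (by omega)
    have h9 : (D.Γ.dist x y : ℤ) ≤ ((m + 1 + (m - D.κ g).toNat : ℕ) : ℤ) := by exact_mod_cast hd
    push_cast at h9
    omega
  have hd3 : (D.Γ.dist x y : ℝ) ≤ m + 1 + (m - D.κ g) := by exact_mod_cast hd2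
  have hκ' : (D.κ g : ℝ) = D.κ y - D.κ x := by exact_mod_cast hκ
  rw [hL]
  linarith

theorem four (a b c d e f : ℝ) (h1 : a ≤ max c e + 1) (h2 : a ≤ max f d + 1)
    (h3 : b ≤ max c f + 1) (h4 : b ≤ max e d + 1) : a + b ≤ max (c + d) (e + f) + 2 := by
  rcases le_total c e with hce | hce <;> rcases le_total f d with hfd | hfd <;>
  rcases le_total c f with hcf | hcf <;> rcases le_total e d with hed | hed <;>
  simp only [max_eq_left, max_eq_right, hce, hfd, hcf, hed] at h1 h2 h3 h4 <;>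
  rcases le_total (c + d) (e + f) with h | h <;>
  simp only [max_eq_left, max_eq_right, h] <;> linarith

/-- the four point condition for the graph -/
theorem four_dist (o x y z : G) :
    ((D.Γ.dist x y : ℝ) + D.Γ.dist z o) ≤
      max ((D.Γ.dist x z : ℝ) + D.Γ.dist y o) ((D.Γ.dist z y : ℝ) + D.Γ.dist x o) + 12 := by
  have h := four (D.L x y) (D.L z o) (D.L x z) (D.L y o) (D.L z y) (D.L x o)
    (D.L_triangle x z y)
    (by rw [D.L_symm y o]; exact D.L_triangle x o y)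
    (by rw [D.L_symm x z]; exact D.L_triangle z x o)
    (D.L_triangle z y o)
  have a1 := D.le_L x y
  have a2 := D.le_L z o
  have a3 := D.L_le x z
  have a4 := D.L_le y o
  have a5 := D.L_le z y
  have a6 := D.L_le x o
  rcases le_total (D.L x z + D.L y o) (D.L z y + D.L x o) with h5 | h5
  · rw [max_eq_right h5] at h
    refine le_trans ?_ (add_le_add_left (le_max_right _ _) _)
    linarith
  · rw [max_eq_left h5] at h
    refine le_trans ?_ (add_le_add_left (le_max_left _ _) _)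
    linarith

end Dil

end Q30.Foc
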