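import Pool.Agent.Helper548.HB.Core

/-!
# Property (PH) from focal and lineal actions: definitions

The basic notions (geodesic spaces, Gromov products, hyperbolicity, sequences converging to
infinity and the Gromov boundary) are those of the module `Pool.Agent.Helper548.HB.Core`.
-/

namespace Q30.Foc

open Pool.Agent.Helper548.HB

/-- The image of a sequence converging to infinity under an isometry of an action. -/
def seqAct {G : Type} [Group G] {X : Type} [MetricSpace X] [MulAction G X] [IsIsometricSMul G X]
    (g : G) (u : GromovSeq X) : GromovSeq X where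
  seq n := g • u.seq n
  conv := by
    intro o R
    obtain ⟨N, hN⟩ := u.conv (g⁻¹ • o) R
    refine ⟨N, fun m hm n hn => ?_⟩
    have h := hN m hm n hn
    unfold gprod at h ⊢
    have e : ∀ x : X, dist x (g⁻¹ • o) = dist (g • x) o := by
      intro x
      rw [← dist_smul g x, smul_inv_smul]
    rw [e, e, ← dist_smul g (u.seq m)] at h
    exact h

theorem seqAct_equiv {G : Type} [Group G] {X : Type} [MetricSpace X] [MulAction G X]
    [IsIsometricSMul G X] (g : G) (u v : GromovSeq X) (h : u.Equiv v) :
    (seqAct g u).Equiv (seqAct g v) := by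
  intro o R
  obtain ⟨N, hN⟩ := h (g⁻¹ • o) R
  refine ⟨N, fun n hn => ?_⟩
  have h := hN n hn
  unfold gprod at h ⊢
  have e : ∀ x : X, dist x (g⁻¹ • o) = dist (g • x) o := by
    intro x
    rw [← dist_smul g x, smul_inv_smul]
  rw [e, e, ← dist_smul g (u.seq n)] at h
  exact h

/-- The action of a group element on the Gromov boundary. -/
def bdAct {G : Type} [Group G] {X : Type} [MetricSpace X] [MulAction G X] [IsIsometricSMul G X]
    (g : G) : Boundary X → Boundary X :=
  Quot.map (seqAct g) (seqAct_equiv g)

/-- A cobounded isometric action of `G` on a nonempty geodesic Gromov hyperbolic space. -/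
structure HypAction (G : Type) [Group G] where
  /-- the space -/
  X : Type
  [met : MetricSpace X]
  [act : MulAction G X]
  [isom : IsIsometricSMul G X]
  geod : GeodesicSpace X
  hyp : ∃ δ : ℝ, HypC X δ
  cobounded : ∃ (x : X) (R : ℝ), ∀ y : X, ∃ g : G, dist y (g • x) ≤ R

attribute [instance] HypAction.met HypAction.act HypAction.isom

namespace HypAction

variable {G : Type} [Group G] (A : HypAction G)

/-- `g` is loxodromic: `n ↦ gⁿ x` is a quasi-isometric embedding of `ℤ`. -/
def Loxodromic (g : G) : Prop :=
  ∃ (x : A.X) (K C : ℝ), 0 < K ∧ ∀ m n : ℤ,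
    |(m : ℝ) - n| / K - C ≤ dist (g ^ m • x) (g ^ n • x) ∧
    dist (g ^ m • x) (g ^ n • x) ≤ K * |(m : ℝ) - n| + C

/-- The fixed points of `g` in the Gromov boundary. -/
def fixedPoints (g : G) : Set (Boundary A.X) := {ξ | bdAct g ξ = ξ}

/-- The action is lineal: there is a loxodromic element, and all loxodromic elements have the same
fixed points in the boundary. -/
def Lineal : Prop :=
  (∃ g : G, A.Loxodromic g) ∧
    ∀ g h : G, A.Loxodromic g → A.Loxodromic h → A.fixedPoints g = A.fixedPoints h

/-- The action is focal: it is not lineal, there is a loxodromic element, and any two loxodromic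
elements share a common fixed point in the boundary. -/
def Focal : Prop :=
  ¬ A.Lineal ∧ (∃ g : G, A.Loxodromic g) ∧
    ∀ g h : G, A.Loxodromic g → A.Loxodromic h → (A.fixedPoints g ∩ A.fixedPoints h).Nonempty

end HypAction

/-- The diagonal action on the product of the spaces, with the `ℓ¹` metric, is (metrically)
proper: for every bounded subset `B` the set of the elements `g` with `g B ∩ B ≠ ∅` is finite. -/
def ProperDiag {G : Type} [Group G] {n : ℕ} (A : Fin n → HypAction G) : Prop :=
  ∀ (B : Set (∀ i, (A i).X)) (R : ℝ), (∀ x ∈ B, ∀ y ∈ B, ∑ i, dist (x i) (y i) ≤ R) →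
    {g : G | ∃ x ∈ B, (fun i => g • x i) ∈ B}.Finite

/-- Property (PH') from focal and lineal actions. -/
def PH' (G : Type) [Group G] : Prop :=
  ∃ (n : ℕ) (A : Fin n → HypAction G), (∀ i, (A i).Focal ∨ (A i).Lineal) ∧ ProperDiag A

/-- Property (PH) from focal and lineal actions. -/
def PH (G : Type) [Group G] : Prop :=
  ∃ G₀ : Subgroup G, G₀.FiniteIndex ∧ PH' G₀

/-- Amenability of a discrete group: there is a left invariant finitely additive probability
measure defined on all subsets. -/
def Amenable (G : Type) [Group G] : Prop :=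
  ∃ μ : Set G → ℝ, (∀ A, 0 ≤ μ A) ∧ μ Set.univ = 1 ∧
    (∀ A B, Disjoint A B → μ (A ∪ B) = μ A + μ B) ∧ ∀ (g : G) (A), μ ((fun x => g * x) '' A) = μ A

end Q30.Foc
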