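import Pool.Agent.Q30.Foc1
import Pool.Agent.Q30.FocDefs

/-!
# The focal action defined by a dilated norm

Part of the solution of MP_d5cca6.
-/

namespace Q30.Foc

open Pool.Agent.Helper548.HB

section General

variable {X : Type} [MetricSpace X]

theorem gprod_ge (o x y : X) (C : ℝ) (h : dist x y ≤ C) :
    dist x o + dist y o - C ≤ 2 * gprod o x y := by
  unfold gprod; linarith

/-- Sequences at bounded distance define the same boundary point. -/
theorem equiv_of_bounded (u v : GromovSeq X) (C : ℝ) (h : ∀ n, dist (u.seq n) (v.seq n) ≤ C) :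
    u.Equiv v := by
  intro o R
  obtain ⟨N, hN⟩ := u.conv o (R + C)
  refine ⟨N, fun n hn => ?_⟩
  have h1 := hN n hn n hn
  unfold gprod at h1 ⊢
  rw [dist_self] at h1
  have h2 := h n
  have h3 := dist_triangle (u.seq n) (v.seq n) o
  have h4 : 0 ≤ dist (u.seq n) (v.seq n) := dist_nonneg
  linarith

/-- Changing the base point. -/
theorem gprod_base (o o' x y : X) : gprod o' x y - dist o o' ≤ gprod o x y := by
  unfold gprod
  have h1 := dist_triangle x o o'
  have h2 := dist_triangle y o o'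
  linarith

end General

namespace Dil

variable {G : Type} [Group G] (D : Dil G) (R : Realz D.Γ G)

theorem dist_smul_R (g : G) (x y : R.X) : dist (g • x) (g • y) = dist x y := R.isom g x y

/-- four point condition for the realisation -/
theorem hypC : HypC R.X 20 := by
  intro o x y z
  obtain ⟨o', ho⟩ := R.dense o
  obtain ⟨x', hx⟩ := R.dense x
  obtain ⟨y', hy⟩ := R.dense y
  obtain ⟨z', hz⟩ := R.dense z
  have key : ∀ (p q : R.X) (p' q' : G), dist p (R.ι p') ≤ 1 → dist q (R.ι q') ≤ 1 →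
      dist p q ≤ (D.Γ.dist p' q' : ℝ) + 2 ∧ (D.Γ.dist p' q' : ℝ) ≤ dist p q + 2 := by
    intro p q p' q' hp hq
    rw [← R.dist_ι p' q']
    have h1 := dist_triangle4 p (R.ι p') (R.ι q') q
    have h2 := dist_triangle4 (R.ι p') p q (R.ι q')
    rw [dist_comm (R.ι q') q] at h1
    rw [dist_comm (R.ι p') p] at h2
    constructor <;> linarith
  have hh := D.four_dist o' x' y' z'
  have kxo := key x o x' o' hx ho
  have kyo := key y o y' o' hy ho
  have kzo := key z o z' o' hz ho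
  have kxy := key x y x' y' hx hy
  have kxz := key x z x' z' hx hz
  have kzy := key z y z' y' hz hy
  unfold gprod
  rcases le_total ((D.Γ.dist x' z' : ℝ) + D.Γ.dist y' o') ((D.Γ.dist z' y' : ℝ) + D.Γ.dist x' o')
    with h | h
  · rw [max_eq_right h] at hh
    have := min_le_right ((dist x o + dist z o - dist x z) / 2)
      ((dist z o + dist y o - dist z y) / 2)
    linarith [kxo.2, kyo.2, kxy.1, kxo.1, kyo.1, kzo.1, kxz.2, kzy.2]
  · rw [max_eq_left h] at hh
    have := min_le_left ((dist x o + dist z o - dist x z) / 2)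
      ((dist z o + dist y o - dist z y) / 2)
    linarith [kxo.2, kyo.2, kxy.1, kxo.1, kyo.1, kzo.1, kxz.2, kzy.2]

theorem dist_ι_smul (g x y : G) : dist (R.ι (g * x)) (R.ι (g * y)) = dist (R.ι x) (R.ι y) := by
  have h1 : R.ι (g * x) = g • R.ι x := R.ι_smul g x
  have h2 : R.ι (g * y) = g • R.ι y := R.ι_smul g y
  rw [h1, h2, R.isom]

theorem κ_le_dist (x y : G) : |(D.κ y : ℝ) - D.κ x| ≤ dist (R.ι x) (R.ι y) := by
  rw [R.dist_ι]
  have h := (D.dist_bound x y).1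
  rw [κ_mul, κ_inv] at h
  have h2 : |(-D.κ x + D.κ y : ℤ)| ≤ (D.Γ.dist x y : ℤ) := h
  have h3 : |((-D.κ x + D.κ y : ℤ) : ℝ)| ≤ (D.Γ.dist x y : ℝ) := by exact_mod_cast h2
  rw [show (D.κ y : ℝ) - D.κ x = ((-D.κ x + D.κ y : ℤ) : ℝ) by push_cast; ring]
  exact h3

theorem dist_one_step (x s : G) (hs : s ∈ D.gens) : dist (R.ι x) (R.ι (x * s)) ≤ 1 := by
  rw [R.dist_ι]
  exact_mod_cast D.dist_le (D.WL_step x s hs)

/-- powers of an element: sequence converging to infinity -/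
theorem gens_dist_pow (x s : G) (hs : s ∈ D.gens) (n : ℕ) :
    dist (R.ι x) (R.ι (x * s ^ n)) ≤ n := by
  rw [R.dist_ι]
  exact_mod_cast D.dist_le (D.WL_pow x s hs n)

theorem dist_pow_pow (s : G) (hs : s ∈ D.gens) (m n : ℕ) :
    dist (R.ι (s ^ m)) (R.ι (s ^ n)) ≤ |(m : ℝ) - n| := by
  rcases le_total m n with h | h
  · obtain ⟨k, rfl⟩ := Nat.exists_eq_add_of_le h
    rw [pow_add]
    refine (D.gens_dist_pow R _ s hs k).trans ?_
    push_cast
    rw [show (m : ℝ) - (m + k) = -k by ring, abs_neg, Nat.abs_cast]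
  · obtain ⟨k, rfl⟩ := Nat.exists_eq_add_of_le h
    rw [pow_add, dist_comm]
    refine (D.gens_dist_pow R _ s hs k).trans ?_
    push_cast
    rw [show (n : ℝ) + k - n = k by ring, Nat.abs_cast]

/-- The sequence of the powers of a generator of height `±1`. -/
noncomputable def powSeq (s : G) (hs : s ∈ D.gens) (h1 : |(D.κ s : ℝ)| = 1) : GromovSeq R.X where
  seq n := R.ι (s ^ n)
  conv := by
    intro o K
    set c := dist (R.ι 1) o with hc
    obtain ⟨N, hN⟩ := exists_nat_ge (K + c)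
    refine ⟨N, fun m hm n hn => ?_⟩
    have e1 : ∀ k : ℕ, (k : ℝ) - c ≤ dist (R.ι (s ^ k)) o := by
      intro k
      have h2 := D.κ_le_dist R 1 (s ^ k)
      rw [κ_one, κ_pow] at h2
      push_cast at h2
      rw [sub_zero, abs_mul, h1, mul_one, Nat.abs_cast] at h2
      have h3 := dist_triangle (R.ι 1) o (R.ι (s ^ k))
      rw [dist_comm o] at h3
      linarith
    have e2 := D.dist_pow_pow R s hs m n
    have hm' : (N : ℝ) ≤ m := by exact_mod_cast hm
    have hn' : (N : ℝ) ≤ n := by exact_mod_cast hn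
    have e3 := e1 m
    have e4 := e1 n
    unfold gprod
    rcases abs_cases ((m : ℝ) - n) with ⟨h5, _⟩ | ⟨h5, _⟩ <;> linarith

theorem abs_κ_t : |(D.κ D.t : ℝ)| = 1 := by rw [D.κ_t]; simp

theorem abs_κ_tinv : |(D.κ D.t⁻¹ : ℝ)| = 1 := by rw [κ_inv, D.κ_t]; simp

/-- the sequence going up -/
noncomputable def up : GromovSeq R.X := D.powSeq R D.t D.t_mem D.abs_κ_t

/-- the sequence going down -/
noncomputable def down : GromovSeq R.X := D.powSeq R D.t⁻¹ D.tinv_mem D.abs_κ_tinv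

theorem isom_inst : IsIsometricSMul G R.X := ⟨fun g => Isometry.of_dist_eq (R.isom g)⟩

/-- the action -/
noncomputable def action : HypAction G :=
  letI := D.isom_inst R
  { X := R.X
    geod := R.geod
    hyp := ⟨20, D.hypC R⟩
    cobounded := ⟨R.ι 1, 1, fun y => by
      obtain ⟨a, ha⟩ := R.dense y
      refine ⟨a, ?_⟩
      rw [← R.ι_smul]
      have : a • (1 : G) = a := mul_one a
      rwa [this]⟩ }

theorem mem_fixed_iff (g : G) (u : GromovSeq R.X) :
    (u.lim : Boundary R.X) ∈ (D.action R).fixedPoints g ↔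
      (@seqAct G _ R.X R.met R.act (D.isom_inst R) g u).Equiv u := by
  rw [← lim_eq_iff (D.hypC R)]
  rfl

/-- every element fixes the upper point -/
theorem up_fixed (g : G) : ((D.up R).lim : Boundary R.X) ∈ (D.action R).fixedPoints g := by
  rw [mem_fixed_iff]
  set C : ℝ := D.ν g⁻¹ * 4 ^ D.κ g + 4 ^ D.κ g + 1 with hC
  have hν := D.ν_nonneg g⁻¹
  have h4 : (0 : ℝ) < 4 ^ D.κ g := by positivity
  have hC0 : 0 < C := by
    rw [hC]
    positivity
  refine equiv_of_bounded _ _ (Real.logb 2 C - D.κ g + 3) ?_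
  intro n
  have e1 : (@seqAct G _ R.X R.met R.act (D.isom_inst R) g (D.up R)).seq n = R.ι (g * D.t ^ n) := by
    change g • R.ι (D.t ^ n) = _
    rw [← R.ι_smul]
    rfl
  have e2 : (D.up R).seq n = R.ι (D.t ^ n) := rfl
  rw [e1, e2, R.dist_ι]
  have h1 := D.le_L (g * D.t ^ n) (D.t ^ n)
  have h2 : D.F (g * D.t ^ n) (D.t ^ n) ≤ C * 4 ^ (n : ℤ) := by
    unfold F
    have hk : D.κ (g * D.t ^ n) = D.κ g + n := by rw [κ_mul, κ_pow, D.κ_t, mul_one]
    have hk2 : D.κ (D.t ^ n) = n := by rw [κ_pow, D.κ_t, mul_one]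
    rw [hk, hk2]
    have h3 : (g * D.t ^ n)⁻¹ * D.t ^ n = D.t⁻¹ ^ n * (g⁻¹ * D.t ^ n) := by
      rw [mul_inv_rev, inv_pow]; group
    have h5 := D.ν_mul (D.t⁻¹ ^ n) (g⁻¹ * D.t ^ n)
    have h6 := D.ν_mul g⁻¹ (D.t ^ n)
    rw [ν_tipow, zero_add, κ_pow, κ_inv, D.κ_t, ← h3] at h5
    rw [ν_tpow, mul_zero, add_zero] at h6
    have h7 : (4 : ℝ) ^ (D.κ g + n) * D.ν ((g * D.t ^ n)⁻¹ * D.t ^ n) ≤
        4 ^ (D.κ g + n) * (4 ^ ((n : ℤ) * -1) * D.ν g⁻¹) := by
      apply mul_le_mul_of_nonneg_left _ (by positivity)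
      exact h5.trans (mul_le_mul_of_nonneg_left h6 (by positivity))
    have h8 : (4 : ℝ) ^ (D.κ g + n) * (4 ^ ((n : ℤ) * -1) * D.ν g⁻¹) = D.ν g⁻¹ * 4 ^ D.κ g := by
      rw [← mul_assoc, ← zpow_add₀ (by norm_num)]
      rw [show D.κ g + n + n * -1 = D.κ g by ring]
      ring
    have h9 : (1 : ℝ) ≤ 4 ^ (n : ℤ) := one_le_zpow₀ (by norm_num) (by positivity)
    have h10 : D.ν g⁻¹ * 4 ^ D.κ g ≤ D.ν g⁻¹ * 4 ^ D.κ g * 4 ^ (n : ℤ) :=
      le_mul_of_one_le_right (by positivity) h9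
    rw [hC, zpow_add₀ (by norm_num : (4 : ℝ) ≠ 0)]
    rw [zpow_add₀ (by norm_num : (4 : ℝ) ≠ 0)] at h7 h8
    linarith
  have h11 : D.L (g * D.t ^ n) (D.t ^ n) ≤ Real.logb 2 C + 2 * n := by
    unfold L
    refine (Real.logb_le_logb_of_le (by norm_num) (D.F_pos _ _) h2).trans ?_
    rw [Real.logb_mul hC0.ne' (by positivity), logb_four_zpow]
    push_cast
    linarith
  have hk : (D.κ (g * D.t ^ n) : ℝ) = D.κ g + n := by
    rw [κ_mul, κ_pow, D.κ_t, mul_one]; push_cast; ring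
  have hk2 : (D.κ (D.t ^ n) : ℝ) = n := by rw [κ_pow, D.κ_t, mul_one]; push_cast; ring
  linarith

/-- `t` fixes the lower point -/
theorem down_fixed : ((D.down R).lim : Boundary R.X) ∈ (D.action R).fixedPoints D.t := by
  rw [mem_fixed_iff]
  refine equiv_of_bounded _ _ 1 ?_
  intro n
  have e1 : (@seqAct G _ R.X R.met R.act (D.isom_inst R) D.t (D.down R)).seq n =
      R.ι (D.t * D.t⁻¹ ^ n) := by
    change D.t • R.ι (D.t⁻¹ ^ n) = _
    rw [← R.ι_smul]
    rfl
  have e2 : (D.down R).seq n = R.ι (D.t⁻¹ ^ n) := rfl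
  rw [e1, e2]
  have h := D.dist_one_step R (D.t⁻¹ ^ n) D.t D.t_mem
  have h3 : D.t⁻¹ ^ n * D.t = D.t * D.t⁻¹ ^ n := by
    have : Commute D.t⁻¹ D.t := (Commute.refl D.t).inv_left
    exact (this.pow_left n).eq
  rw [h3, dist_comm] at h
  exact h

/-- an element of height one and positive norm does not fix the lower point -/
theorem down_not_fixed (c : G) (hc : D.κ c = 1) (hν : 0 < D.ν c) :
    ((D.down R).lim : Boundary R.X) ∉ (D.action R).fixedPoints c := by
  rw [mem_fixed_iff]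
  intro h
  set l := dist (R.ι 1) (R.ι c) with hl
  obtain ⟨N, hN⟩ := h (R.ι 1) ((l - Real.logb 2 (D.ν c) + 3) / 2 + 1)
  have h1 := hN N le_rfl
  have e1 : (@seqAct G _ R.X R.met R.act (D.isom_inst R) c (D.down R)).seq N =
      R.ι (c * D.t⁻¹ ^ N) := by
    change c • R.ι (D.t⁻¹ ^ N) = _
    rw [← R.ι_smul]
    rfl
  have e2 : (D.down R).seq N = R.ι (D.t⁻¹ ^ N) := rfl
  rw [e1, e2] at h1
  unfold gprod at h1
  have d1 : dist (R.ι (D.t⁻¹ ^ N)) (R.ι 1) ≤ N := by
    have := D.gens_dist_pow R 1 D.t⁻¹ D.tinv_mem N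
    rw [one_mul, dist_comm] at this
    exact this
  have d2 : dist (R.ι (c * D.t⁻¹ ^ N)) (R.ι 1) ≤ l + N := by
    have h2 := D.gens_dist_pow R c D.t⁻¹ D.tinv_mem N
    have h3 := dist_triangle (R.ι (c * D.t⁻¹ ^ N)) (R.ι c) (R.ι 1)
    rw [dist_comm (R.ι (c * D.t⁻¹ ^ N)) (R.ι c), dist_comm (R.ι c) (R.ι 1)] at h3
    linarith
  have d3 : Real.logb 2 (D.ν c) + 2 * N - 1 - 2 ≤ dist (R.ι (c * D.t⁻¹ ^ N)) (R.ι (D.t⁻¹ ^ N)) := by
    rw [R.dist_ι, SimpleGraph.dist_comm]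
    have h4 := D.L_le (D.t⁻¹ ^ N) (c * D.t⁻¹ ^ N)
    have h5 : D.ν c ≤ D.F (D.t⁻¹ ^ N) (c * D.t⁻¹ ^ N) := by
      unfold F
      have h6 : c = D.t⁻¹ ^ N * (((D.t⁻¹ ^ N)⁻¹ * (c * D.t⁻¹ ^ N)) * D.t ^ N) := by
        rw [inv_pow]; group
      have h7 := D.ν_mul (D.t⁻¹ ^ N) (((D.t⁻¹ ^ N)⁻¹ * (c * D.t⁻¹ ^ N)) * D.t ^ N)
      have h8 := D.ν_mul ((D.t⁻¹ ^ N)⁻¹ * (c * D.t⁻¹ ^ N)) (D.t ^ N)
      rw [ν_tipow, zero_add, ← h6] at h7
      rw [ν_tpow, mul_zero, add_zero] at h8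
      have h9 : (4 : ℝ) ^ D.κ (D.t⁻¹ ^ N) * D.ν ((D.t⁻¹ ^ N)⁻¹ * (c * D.t⁻¹ ^ N) * D.t ^ N) ≤
          4 ^ D.κ (D.t⁻¹ ^ N) * D.ν ((D.t⁻¹ ^ N)⁻¹ * (c * D.t⁻¹ ^ N)) :=
        mul_le_mul_of_nonneg_left h8 (by positivity)
      have p1 : (0 : ℝ) < 4 ^ D.κ (D.t⁻¹ ^ N) := by positivity
      have p2 : (0 : ℝ) < 4 ^ D.κ (c * D.t⁻¹ ^ N) := by positivity
      linarith
    have h10 : Real.logb 2 (D.ν c) ≤ D.L (D.t⁻¹ ^ N) (c * D.t⁻¹ ^ N) :=
      Real.logb_le_logb_of_le (by norm_num) hν h5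
    have hk : (D.κ (c * D.t⁻¹ ^ N) : ℝ) = 1 - N := by
      rw [κ_mul, κ_pow, κ_inv, D.κ_t, hc]; push_cast; ring
    have hk2 : (D.κ (D.t⁻¹ ^ N) : ℝ) = - N := by
      rw [κ_pow, κ_inv, D.κ_t]; push_cast; ring
    linarith
  linarith

/-- elements of nonzero height are loxodromic -/
theorem loxodromic (g : G) (hg : D.κ g ≠ 0) : (D.action R).Loxodromic g := by
  have ho : ∀ x y : G, x • R.ι y = R.ι (x * y) := fun x y => (R.ι_smul x y).symm
  set l := dist (R.ι 1) (R.ι g) with hl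
  have hκ : (1 : ℝ) ≤ |(D.κ g : ℝ)| := by
    have : 1 ≤ |D.κ g| := Int.one_le_abs hg
    exact_mod_cast this
  have hup : ∀ n : ℕ, ∀ x : G, dist (R.ι x) (R.ι (x * g ^ n)) ≤ n * l := by
    intro n
    induction n with
    | zero => intro x; simp
    | succ n ih =>
      intro x
      have h1 := dist_triangle (R.ι x) (R.ι (x * g ^ n)) (R.ι (x * g ^ (n + 1)))
      have h2 : dist (R.ι (x * g ^ n)) (R.ι (x * g ^ (n + 1))) = l := by
        rw [pow_succ, ← mul_assoc]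
        have := D.dist_ι_smul R (x * g ^ n) 1 g
        rw [mul_one] at this
        exact this
      have := ih x
      push_cast
      linarith
  have hupz : ∀ m n : ℤ, dist (R.ι (g ^ m)) (R.ι (g ^ n)) ≤ l * |(m : ℝ) - n| := by
    have key : ∀ m n : ℤ, m ≤ n → dist (R.ι (g ^ m)) (R.ι (g ^ n)) ≤ l * |(m : ℝ) - n| := by
      intro m n hmn
      obtain ⟨k, hk⟩ := Int.le.dest hmn
      have h1 := hup k (g ^ m)
      rw [← zpow_natCast, ← zpow_add, hk] at h1
      refine h1.trans ?_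
      rw [← hk]
      push_cast
      rw [show (m : ℝ) - (m + k) = -k by ring, abs_neg, Nat.abs_cast, mul_comm]
    intro m n
    rcases le_total m n with h | h
    · exact key m n h
    · rw [dist_comm, abs_sub_comm]; exact key n m h
  have main : ∀ m n : ℤ, |(m : ℝ) - n| / (l + 1) - 0 ≤ dist (g ^ m • R.ι 1) (g ^ n • R.ι 1) ∧
      dist (g ^ m • R.ι 1) (g ^ n • R.ι 1) ≤ (l + 1) * |(m : ℝ) - n| + 0 := by
    intro m n
    have e1 : ∀ k : ℤ, g ^ k • R.ι 1 = R.ι (g ^ k) := by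
      intro k; rw [ho, mul_one]
    rw [e1, e1, add_zero, sub_zero]
    have hlow : |(m : ℝ) - n| ≤ dist (R.ι (g ^ m)) (R.ι (g ^ n)) := by
      have h2 := D.κ_le_dist R (g ^ m) (g ^ n)
      rw [κ_zpow, κ_zpow] at h2
      refine le_trans ?_ h2
      push_cast
      rw [show (n : ℝ) * D.κ g - m * D.κ g = -((m - n) * D.κ g) by ring, abs_neg, abs_mul]
      exact le_mul_of_one_le_right (abs_nonneg _) hκ
    constructor
    · refine le_trans ?_ hlow
      apply div_le_self (abs_nonneg _)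
      have : 0 ≤ l := dist_nonneg
      linarith
    · refine (hupz m n).trans ?_
      have : 0 ≤ |(m : ℝ) - n| := abs_nonneg _
      linarith
  exact ⟨R.ι 1, l + 1, 0, by positivity, main⟩

/-- The action is focal. -/
theorem focal (c : G) (hc : D.κ c = 1) (hν : 0 < D.ν c) : (D.action R).Focal := by
  have ht : (D.action R).Loxodromic D.t := D.loxodromic R D.t (by rw [D.κ_t]; norm_num)
  have hcl : (D.action R).Loxodromic c := D.loxodromic R c (by rw [hc]; norm_num)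
  refine ⟨?_, ⟨D.t, ht⟩, ?_⟩
  · intro h
    have h1 := h.2 D.t c ht hcl
    exact D.down_not_fixed R c hc hν (h1 ▸ D.down_fixed R)
  · intro g h _ _
    exact ⟨_, D.up_fixed R g, D.up_fixed R h⟩

end Dil

theorem est_dist {G : Type} [Group G] {X : Type} [MetricSpace X] [MulAction G X]
    (hi : ∀ (g : G) (x y : X), dist (g • x) (g • y) = dist x y) (R : ℝ) (b a x : X) (g : G)
    (h1 : dist x a ≤ R) (h2 : dist (g • x) a ≤ R) :
    dist b (g • b) ≤ 2 * R + 2 * dist a b := by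
  have t1 := dist_triangle4 b a (g • x) (g • b)
  have t2 := dist_triangle (g • x) (g • a) (g • b)
  have t3 := hi g x a
  have t4 := hi g a b
  rw [dist_comm b a, dist_comm a (g • x)] at t1
  linarith

/-- Two dilated norms which together are proper give property (PH') from focal actions. -/
theorem ph'_of_two {G : Type} [Group G] (D1 D2 : Dil G)
    (h1 : ∃ c, D1.κ c = 1 ∧ 0 < D1.ν c) (h2 : ∃ c, D2.κ c = 1 ∧ 0 < D2.ν c)
    (hp : ∀ K : ℤ, {g : G | |D1.κ g| ≤ K ∧ D1.ν g ≤ 4 ^ K ∧ D2.ν g ≤ 4 ^ K}.Finite) :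
    PH' G := by
  obtain ⟨R1⟩ := exists_realz D1.Γ D1.connected G D1.adj_smul
  obtain ⟨R2⟩ := exists_realz D2.Γ D2.connected G D2.adj_smul
  obtain ⟨c1, hc1, hn1⟩ := h1
  obtain ⟨c2, hc2, hn2⟩ := h2
  refine ⟨2, ![D1.action R1, D2.action R2], ?_, ?_⟩
  · intro i
    left
    fin_cases i
    · exact D1.focal R1 c1 hc1 hn1
    · exact D2.focal R2 c2 hc2 hn2
  · intro B R hB
    by_cases hne : B.Nonempty
    · obtain ⟨x0, hx0⟩ := hne
      -- base points
      set a1 : R1.X := x0 0 with ha1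
      set a2 : R2.X := x0 1 with ha2
      set L1 := dist a1 (R1.ι 1)
      set L2 := dist a2 (R2.ι 1)
      obtain ⟨K, hK⟩ := exists_nat_ge (2 * R + 2 * L1 + 2 * L2)
      refine (hp K).subset ?_
      rintro g ⟨x, hx, hgx⟩
      have hxy : ∀ x ∈ B, ∀ y ∈ B, dist (x 0 : R1.X) (y 0) ≤ R ∧ dist (x 1 : R2.X) (y 1) ≤ R := by
        intro x hx y hy
        have h := hB x hx y hy
        rw [Fin.sum_univ_two] at h
        have p1 : 0 ≤ dist (x 0) (y 0) := dist_nonneg
        have p2 : 0 ≤ dist (x 1) (y 1) := dist_nonneg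
        have h' : dist (x 0) (y 0) + dist (x 1) (y 1) ≤ R := h
        constructor
        · exact le_trans (by linarith : dist (x 0) (y 0) ≤ R) le_rfl
        · exact le_trans (by linarith : dist (x 1) (y 1) ≤ R) le_rfl
      have q1 := hxy _ hx _ hx0
      have q2 := hxy _ hgx _ hx0
      have hR : 0 ≤ R := dist_nonneg.trans q1.1
      have hL1 : 0 ≤ L1 := dist_nonneg
      have hL2 : 0 ≤ L2 := dist_nonneg
      have b1 : dist (R1.ι 1) (R1.ι g) ≤ K := by
        have e : R1.ι g = g • R1.ι 1 := by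
          rw [← R1.ι_smul]; congr 1; exact (mul_one g).symm
        have t := est_dist R1.isom R (R1.ι 1) a1 (x 0) g q1.1 q2.1
        rw [← e] at t
        linarith
      have b2 : dist (R2.ι 1) (R2.ι g) ≤ K := by
        have e : R2.ι g = g • R2.ι 1 := by
          rw [← R2.ι_smul]; congr 1; exact (mul_one g).symm
        have t := est_dist R2.isom R (R2.ι 1) a2 (x 1) g q1.2 q2.2
        rw [← e] at t
        linarith
      rw [R1.dist_ι] at b1
      rw [R2.dist_ι] at b2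
      have b1' : D1.Γ.dist 1 g ≤ K := by exact_mod_cast b1
      have b2' : D2.Γ.dist 1 g ≤ K := by exact_mod_cast b2
      have f1 := D1.dist_bound 1 g
      have f2 := D2.dist_bound 1 g
      rw [inv_one, one_mul] at f1 f2
      have g1 : |D1.κ g| ≤ K := f1.1.trans (by exact_mod_cast b1')
      have g2 : |D2.κ g| ≤ K := f2.1.trans (by exact_mod_cast b2')
      have key : ∀ (n : ℕ) (k : ℤ), n ≤ K → |k| ≤ K → (2 : ℝ) ^ ((n : ℤ) + k) ≤ 4 ^ (K : ℤ) := by
        intro n k hn hk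
        rw [show (4 : ℝ) = 2 ^ (2 : ℤ) by norm_num, ← zpow_mul]
        apply zpow_le_zpow_right₀ (by norm_num)
        have := abs_le.1 hk
        have : (n : ℤ) ≤ K := by exact_mod_cast hn
        omega
      exact ⟨g1, f1.2.trans (key _ _ b1' g1), f2.2.trans (key _ _ b2' g2)⟩
    · have : {g : G | ∃ x ∈ B, (fun i => g • x i) ∈ B} = ∅ := by
        ext g
        simp only [Set.mem_empty_iff_false, iff_false]
        rintro ⟨x, hx, _⟩
        exact hne ⟨x, hx⟩
      rw [this]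
      exact Set.finite_empty

end Q30.Foc
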