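import Mathlib

/-!
# The group `F_∞ ⋊ ℤ`

Part of the solution of MP_d5cca6.  The free group on the letters `a_i`, `i ∈ ℤ`, with the shift.
-/

namespace Q30.Foc

/-- the shift of the free group -/
def sig (k : ℤ) : FreeGroup ℤ →* FreeGroup ℤ := FreeGroup.map (fun i => i + k)

theorem sig_of (k i : ℤ) : sig k (FreeGroup.of i) = FreeGroup.of (i + k) := by
  simp [sig]

theorem sig_sig (k l : ℤ) (h : FreeGroup ℤ) : sig k (sig l h) = sig (k + l) h := by
  have : (sig k).comp (sig l) = sig (k + l) := by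
    ext i
    simp only [MonoidHom.comp_apply, sig_of]
    congr 1
    ring
  exact DFunLike.congr_fun this h

theorem sig_zero (h : FreeGroup ℤ) : sig 0 h = h := by
  have : sig 0 = MonoidHom.id _ := by
    ext i
    simp only [sig_of, MonoidHom.id_apply]
    congr 1
    ring
  exact DFunLike.congr_fun this h

/-- the group -/
@[ext] structure GG where
  /-- the element of the free group -/
  h : FreeGroup ℤ
  /-- the shift -/
  k : ℤ

instance : Mul GG := ⟨fun x y => ⟨x.h * sig x.k y.h, x.k + y.k⟩⟩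
instance : One GG := ⟨⟨1, 0⟩⟩
instance : Inv GG := ⟨fun x => ⟨sig (-x.k) x.h⁻¹, -x.k⟩⟩

theorem mul_h (x y : GG) : (x * y).h = x.h * sig x.k y.h := rfl
theorem mul_k (x y : GG) : (x * y).k = x.k + y.k := rfl
theorem one_h : (1 : GG).h = 1 := rfl
theorem one_k : (1 : GG).k = 0 := rfl
theorem inv_h (x : GG) : (x⁻¹).h = sig (-x.k) x.h⁻¹ := rfl
theorem inv_k (x : GG) : (x⁻¹).k = -x.k := rfl

instance : Group GG :=
  Group.ofLeftAxioms
    (by
      intro x y z
      apply GG.ext
      · simp only [mul_h, mul_k, map_mul, sig_sig, mul_assoc]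
      · simp only [mul_k, add_assoc])
    (by
      intro x
      apply GG.ext
      · simp only [mul_h, one_h, one_k, sig_zero, one_mul]
      · simp only [mul_k, one_k, zero_add])
    (by
      intro x
      apply GG.ext
      · simp only [mul_h, inv_h, inv_k, one_h, ← map_mul, inv_mul_cancel, map_one]
      · simp only [mul_k, inv_k, one_k, neg_add_cancel])

theorem fg : Group.FG GG := by
  rw [Group.fg_iff]
  refine ⟨{⟨FreeGroup.of 0, 0⟩, ⟨1, 1⟩}, ?_, Set.toFinite _⟩
  rw [eq_top_iff]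
  intro g _
  set H := Subgroup.closure ({⟨FreeGroup.of 0, 0⟩, ⟨1, 1⟩} : Set GG) with hH
  have h1 : (⟨FreeGroup.of 0, 0⟩ : GG) ∈ H := Subgroup.subset_closure (by simp)
  have h2 : (⟨1, 1⟩ : GG) ∈ H := Subgroup.subset_closure (by simp)
  have h3 : ∀ k : ℤ, (⟨1, k⟩ : GG) ∈ H := by
    have hp : ∀ k : ℕ, (⟨1, (k : ℤ)⟩ : GG) ∈ H := by
      intro k
      induction k with
      | zero => exact H.one_mem
      | succ k ih =>
        have e : (⟨1, ((k + 1 : ℕ) : ℤ)⟩ : GG) = ⟨1, (k : ℤ)⟩ * ⟨1, 1⟩ := by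
          apply GG.ext
          · simp [mul_h]
          · simp [mul_k]
        rw [e]
        exact H.mul_mem ih h2
    intro k
    obtain ⟨n, rfl | rfl⟩ := k.eq_nat_or_neg
    · exact hp n
    · have e : (⟨1, -(n : ℤ)⟩ : GG) = (⟨1, (n : ℤ)⟩ : GG)⁻¹ := by
        apply GG.ext
        · simp [inv_h]
        · simp [inv_k]
      rw [e]
      exact H.inv_mem (hp n)
  have h4 : ∀ x : FreeGroup ℤ, (⟨x, 0⟩ : GG) ∈ H := by
    intro x
    induction x using FreeGroup.induction_on with
    | C1 => exact H.one_mem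
    | of i =>
      have e : (⟨FreeGroup.of i, 0⟩ : GG) = ⟨1, i⟩ * ⟨FreeGroup.of 0, 0⟩ * ⟨1, -i⟩ := by
        apply GG.ext
        · simp [mul_h, sig_of]
        · simp [mul_k]
      rw [e]
      exact H.mul_mem (H.mul_mem (h3 i) h1) (h3 (-i))
    | inv_of i ih =>
      have e : (⟨(FreeGroup.of i)⁻¹, 0⟩ : GG) = (⟨FreeGroup.of i, 0⟩ : GG)⁻¹ := by
        apply GG.ext
        · simp [inv_h, sig_zero]
        · simp [inv_k]
      rw [e]
      exact H.inv_mem ih
    | mul x y hx hy =>
      have e : (⟨x * y, 0⟩ : GG) = ⟨x, 0⟩ * ⟨y, 0⟩ := by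
        apply GG.ext
        · simp [mul_h, sig_zero]
        · simp [mul_k]
      rw [e]
      exact H.mul_mem hx hy
  have e : g = ⟨g.h, 0⟩ * ⟨1, g.k⟩ := by
    apply GG.ext
    · simp [mul_h]
    · simp [mul_k]
  rw [e]
  exact H.mul_mem (h4 _) (h3 _)

/-! ### The norms -/

/-- the norm with weights `w` -/
def nrm (w : ℤ → ℝ) (h : FreeGroup ℤ) : ℝ := (h.toWord.map (fun p => w p.1)).sum

theorem nrm_nonneg (w : ℤ → ℝ) (hw : ∀ i, 0 ≤ w i) (h : FreeGroup ℤ) : 0 ≤ nrm w h := by
  unfold nrm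
  apply List.sum_nonneg
  intro x hx
  rw [List.mem_map] at hx
  obtain ⟨p, _, rfl⟩ := hx
  exact hw _

theorem sum_le_of_sublist (w : ℤ → ℝ) (hw : ∀ i, 0 ≤ w i) {l m : List (ℤ × Bool)}
    (h : l.Sublist m) : (l.map (fun p => w p.1)).sum ≤ (m.map (fun p => w p.1)).sum := by
  induction h with
  | slnil => simp
  | cons a _ ih => rw [List.map_cons, List.sum_cons]; linarith [hw a.1]
  | cons_cons a _ ih => rw [List.map_cons, List.sum_cons, List.map_cons, List.sum_cons]; linarith

theorem nrm_mul (w : ℤ → ℝ) (hw : ∀ i, 0 ≤ w i) (g h : FreeGroup ℤ) :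
    nrm w (g * h) ≤ nrm w g + nrm w h := by
  unfold nrm
  have := sum_le_of_sublist w hw (FreeGroup.toWord_mul_sublist g h)
  rwa [List.map_append, List.sum_append] at this

theorem nrm_inv (w : ℤ → ℝ) (h : FreeGroup ℤ) : nrm w h⁻¹ = nrm w h := by
  unfold nrm
  rw [FreeGroup.toWord_inv]
  unfold FreeGroup.invRev
  rw [List.map_reverse, List.sum_reverse, List.map_map]
  rfl

theorem nrm_sig_le (w : ℤ → ℝ) (hw : ∀ i, 0 ≤ w i) (k : ℤ) (h : FreeGroup ℤ) :
    nrm w (sig k h) ≤ nrm (fun i => w (i + k)) h := by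
  have e : sig k h = FreeGroup.mk (h.toWord.map (fun p => (p.1 + k, p.2))) := by
    conv_lhs => rw [← FreeGroup.mk_toWord (x := h)]
    unfold sig
    rw [FreeGroup.map.mk]
  have h1 : (sig k h).toWord.Sublist (h.toWord.map (fun p => (p.1 + k, p.2))) := by
    rw [e, FreeGroup.toWord_mk]
    exact FreeGroup.Red.sublist FreeGroup.reduce.red
  have h2 := sum_le_of_sublist w hw h1
  rw [List.map_map] at h2
  exact h2

theorem nrm_smul (w : ℤ → ℝ) (c : ℝ) (h : FreeGroup ℤ) :
    nrm (fun i => c * w i) h = c * nrm w h := by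
  unfold nrm
  rw [List.sum_map_mul_left]

/-- the letters of an element of the free group -/
theorem finite_words (s : Finset (ℤ × Bool)) (n : ℕ) :
    {h : FreeGroup ℤ | h.toWord.length ≤ n ∧ ∀ p ∈ h.toWord, p ∈ s}.Finite := by
  have h1 : ({l : List s | l.length ≤ n}).Finite := List.finite_length_le _ _
  refine (h1.image (fun l => FreeGroup.mk (l.map Subtype.val))).subset ?_
  rintro h ⟨h2, h3⟩
  refine ⟨h.toWord.attach.map (fun p => ⟨p.1, h3 p.1 p.2⟩), ?_, ?_⟩
  · simpa using h2
  · dsimp only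
    rw [List.map_map]
    have : (h.toWord.attach.map (Subtype.val ∘ fun p : {x // x ∈ h.toWord} =>
        (⟨p.1, h3 p.1 p.2⟩ : s))) = h.toWord := by
      have e : (Subtype.val ∘ fun p : {x // x ∈ h.toWord} => (⟨p.1, h3 p.1 p.2⟩ : s)) =
        Subtype.val := rfl
      rw [e, List.attach_map_subtype_val]
    rw [this, FreeGroup.mk_toWord]

theorem finite_nrm (K : ℤ) :
    {h : FreeGroup ℤ | nrm (fun i => 4 ^ i) h ≤ 4 ^ K ∧ nrm (fun i => 4 ^ (-i)) h ≤ 4 ^ K}.Finite := by
  obtain ⟨n, hn⟩ := exists_nat_ge ((4 : ℝ) ^ K + 4 ^ K)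
  refine (finite_words ((Finset.Icc (-K) K) ×ˢ Finset.univ) n).subset ?_
  rintro h ⟨h1, h2⟩
  constructor
  · have e1 : (h.toWord.length : ℝ) ≤ nrm (fun i => 4 ^ i) h + nrm (fun i => 4 ^ (-i)) h := by
      unfold nrm
      have : ∀ l : List (ℤ × Bool), (l.length : ℝ) ≤ (l.map (fun p => (4 : ℝ) ^ p.1)).sum +
          (l.map (fun p => (4 : ℝ) ^ (-p.1))).sum := by
        intro l
        induction l with
        | nil => simp
        | cons a l ih =>
          rw [List.map_cons, List.sum_cons, List.map_cons, List.sum_cons, List.length_cons]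
          have h3 : (1 : ℝ) ≤ 4 ^ a.1 + 4 ^ (-a.1) := by
            rcases le_total 0 a.1 with h | h
            · have : (1 : ℝ) ≤ 4 ^ a.1 := one_le_zpow₀ (by norm_num) h
              have : (0 : ℝ) < 4 ^ (-a.1) := by positivity
              linarith
            · have : (1 : ℝ) ≤ 4 ^ (-a.1) := one_le_zpow₀ (by norm_num) (by omega)
              have : (0 : ℝ) < 4 ^ a.1 := by positivity
              linarith
          push_cast
          linarith
      exact this _
    have e2 : (h.toWord.length : ℝ) ≤ n := by linarith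
    exact_mod_cast e2
  · intro p hp
    have key : ∀ (w : ℤ → ℝ), (∀ i, 0 ≤ w i) → w p.1 ≤ nrm w h := by
      intro w hw
      unfold nrm
      apply List.single_le_sum
      · intro x hx
        rw [List.mem_map] at hx
        obtain ⟨q, _, rfl⟩ := hx
        exact hw _
      · exact List.mem_map_of_mem hp
    have k1 := (key (fun i => 4 ^ i) (fun i => by positivity)).trans h1
    have k2 := (key (fun i => 4 ^ (-i)) (fun i => by positivity)).trans h2
    have k3 : p.1 ≤ K := (zpow_le_zpow_iff_right₀ (by norm_num : (1 : ℝ) < 4)).1 k1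
    have k4 : -p.1 ≤ K := (zpow_le_zpow_iff_right₀ (by norm_num : (1 : ℝ) < 4)).1 k2
    rw [Finset.mem_product, Finset.mem_Icc]
    exact ⟨⟨by omega, k3⟩, Finset.mem_univ _⟩

/-! ### Non-amenability -/

theorem toWord_inv_of_mul (i : ℤ) (h : FreeGroup ℤ) (hh : h.toWord.head? ≠ some (i, true)) :
    ((FreeGroup.of i)⁻¹ * h).toWord = (i, false) :: h.toWord := by
  have e : (FreeGroup.of i)⁻¹ * h = FreeGroup.mk ((i, false) :: h.toWord) := by
    conv_lhs => rw [← FreeGroup.mk_toWord (x := h)]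
    rw [FreeGroup.of, FreeGroup.inv_mk, FreeGroup.mul_mk]
    rfl
  rw [e, FreeGroup.toWord_mk, FreeGroup.reduce.cons, FreeGroup.reduce_toWord]
  cases hw : h.toWord with
  | nil => rfl
  | cons a l =>
    rw [hw] at hh
    simp only [List.head?_cons, ne_eq, Option.some.injEq] at hh
    dsimp only
    rw [if_neg]
    rintro ⟨h1, h2⟩
    apply hh
    apply Prod.ext
    · exact h1.symm
    · simpa using h2

/-- the set of elements starting with a given letter -/
def St (p : ℤ × Bool) : Set GG := {g | g.h.toWord.head? = some p}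

theorem cover (i : ℤ) :
    (Set.univ : Set GG) = St (i, true) ∪ (fun x => (⟨FreeGroup.of i, 0⟩ : GG) * x) '' St (i, false) := by
  symm
  rw [Set.eq_univ_iff_forall]
  intro g
  by_cases h : g ∈ St (i, true)
  · exact Or.inl h
  · right
    refine ⟨(⟨FreeGroup.of i, 0⟩ : GG)⁻¹ * g, ?_, by simp⟩
    change ((⟨FreeGroup.of i, 0⟩ : GG)⁻¹ * g).h.toWord.head? = some (i, false)
    rw [mul_h, inv_h, inv_k]
    simp only [neg_zero, sig_zero]
    rw [toWord_inv_of_mul i g.h h]
    rfl

theorem St_disjoint (p q : ℤ × Bool) (h : p ≠ q) : Disjoint (St p) (St q) := by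
  rw [Set.disjoint_left]
  intro g hg hg'
  apply h
  have h1 : g.h.toWord.head? = some p := hg
  have h2 : g.h.toWord.head? = some q := hg'
  rw [h1] at h2
  exact Option.some.inj h2

theorem not_amenable : ¬ ∃ μ : Set GG → ℝ, (∀ A, 0 ≤ μ A) ∧ μ Set.univ = 1 ∧
    (∀ A B, Disjoint A B → μ (A ∪ B) = μ A + μ B) ∧
    ∀ (g : GG) (A), μ ((fun x => g * x) '' A) = μ A := by
  rintro ⟨μ, h0, h1, hadd, hinv⟩
  have hmono : ∀ A B : Set GG, A ⊆ B → μ A ≤ μ B := by
    intro A B hAB
    have : B = A ∪ (B \ A) := (Set.union_sdiff_cancel hAB).symm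
    rw [this, hadd _ _ Set.disjoint_sdiff_right]
    linarith [h0 (B \ A)]
  have hsub : ∀ A B : Set GG, μ (A ∪ B) ≤ μ A + μ B := by
    intro A B
    have : A ∪ B = A ∪ (B \ A) := Set.union_sdiff_self.symm
    rw [this, hadd _ _ Set.disjoint_sdiff_right]
    linarith [hmono (B \ A) B Set.sdiff_subset]
  have hi : ∀ i : ℤ, 1 ≤ μ (St (i, true)) + μ (St (i, false)) := by
    intro i
    have h2 := hsub (St (i, true)) ((fun x => (⟨FreeGroup.of i, 0⟩ : GG) * x) '' St (i, false))
    rw [← cover, h1, hinv] at h2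
    exact h2
  have h2 := hi 0
  have h3 := hi 1
  have d1 : Disjoint (St (0, true)) (St (0, false)) := St_disjoint _ _ (by decide)
  have d2 : Disjoint (St (1, true)) (St (1, false)) := St_disjoint _ _ (by decide)
  have d3 : Disjoint (St (0, true) ∪ St (0, false)) (St (1, true) ∪ St (1, false)) := by
    rw [Set.disjoint_union_left, Set.disjoint_union_right, Set.disjoint_union_right]
    exact ⟨⟨St_disjoint _ _ (by decide), St_disjoint _ _ (by decide)⟩,
      ⟨St_disjoint _ _ (by decide), St_disjoint _ _ (by decide)⟩⟩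
  have h4 := hadd _ _ d3
  rw [hadd _ _ d1, hadd _ _ d2] at h4
  have h5 := hmono (St (0, true) ∪ St (0, false) ∪ (St (1, true) ∪ St (1, false))) Set.univ
    (Set.subset_univ _)
  linarith

end Q30.Foc
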