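import Mathlib

/-!
# The numbers `I_k(1)`

The modified Bessel functions at `1`; part of the solution of MP_55c352.
-/

namespace Q30.Lim

open Filter Topology

/-- terms -/
noncomputable def tT (k i : ℕ) : ℝ := (1 / 2) ^ (2 * i + k) / ((i.factorial : ℝ) * (i + k).factorial)

theorem tT_pos (k i : ℕ) : 0 < tT k i := by
  unfold tT
  positivity

theorem tT_summable (k : ℕ) : Summable (tT k) := by
  refine Summable.of_nonneg_of_le (fun i => (tT_pos k i).le) (fun i => ?_) summable_geometric_two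
  unfold tT
  rw [div_le_iff₀ (by positivity)]
  have h1 : (1 : ℝ) ≤ (i.factorial : ℝ) * (i + k).factorial := by
    have a := Nat.one_le_iff_ne_zero.2 (Nat.factorial_ne_zero i)
    have b := Nat.one_le_iff_ne_zero.2 (Nat.factorial_ne_zero (i + k))
    have := Nat.mul_le_mul a b
    exact_mod_cast this
  calc (1 / 2 : ℝ) ^ (2 * i + k) ≤ (1 / 2) ^ i :=
        pow_le_pow_of_le_one (by norm_num) (by norm_num) (by omega)
    _ = (1 / 2) ^ i * 1 := (mul_one _).symm
    _ ≤ _ := by gcongr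

/-- the modified Bessel functions at `1` -/
noncomputable def bD (k : ℕ) : ℝ := ∑' i, tT k i

theorem bD_pos (k : ℕ) : 0 < bD k := (tT_summable k).tsum_pos (fun i => (tT_pos k i).le) 0 (tT_pos k 0)

theorem tT_zero (k : ℕ) : tT k 0 = 2 * (k + 1) * tT (k + 1) 0 := by
  unfold tT
  rw [Nat.zero_add, Nat.zero_add, Nat.factorial_succ,
    pow_succ, Nat.factorial_zero]
  push_cast
  have : ((k).factorial : ℝ) ≠ 0 := by positivity
  have h2 : ((k : ℝ) + 1) ≠ 0 := by positivity
  field_simp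

theorem tT_succ (k i : ℕ) : tT k (i + 1) = tT (k + 2) i + 2 * (k + 1) * tT (k + 1) (i + 1) := by
  unfold tT
  rw [show i + 1 + k = (i + k) + 1 by ring, show i + (k + 2) = (i + k) + 1 + 1 by ring,
    show i + 1 + (k + 1) = (i + k) + 1 + 1 by ring, Nat.factorial_succ (i + k + 1),
    Nat.factorial_succ i, show 2 * (i + 1) + k = 2 * i + k + 2 by ring,
    show 2 * i + (k + 2) = 2 * i + k + 2 by ring, show 2 * (i + 1) + (k + 1) = 2 * i + k + 2 + 1 by ring,
    pow_succ _ (2 * i + k + 2)]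
  have h1 : ((i + k + 1).factorial : ℝ) ≠ 0 := by positivity
  have h2 : ((i).factorial : ℝ) ≠ 0 := by positivity
  have h3 : ((i : ℝ) + k + 1 + 1) ≠ 0 := by positivity
  have h4 : ((i : ℝ) + 1) ≠ 0 := by positivity
  push_cast
  field_simp
  ring

theorem bD_rec (k : ℕ) : bD k = bD (k + 2) + 2 * (k + 1) * bD (k + 1) := by
  unfold bD
  rw [(tT_summable k).tsum_eq_zero_add, (tT_summable (k + 1)).tsum_eq_zero_add, tT_zero]
  have h1 : ∑' i, tT k (i + 1) = ∑' i, (tT (k + 2) i + 2 * (k + 1) * tT (k + 1) (i + 1)) :=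
    tsum_congr fun i => tT_succ k i
  rw [h1, Summable.tsum_add (tT_summable _)
    (((summable_nat_add_iff 1).2 (tT_summable (k + 1))).mul_left _), tsum_mul_left]
  ring

/-- the other solution, up to sign -/
noncomputable def bQ : ℕ → ℝ
  | 0 => 1
  | 1 => 1
  | (k + 2) => bQ k + 2 * (k + 1) * bQ (k + 1)

theorem bQ_rec (k : ℕ) : bQ (k + 2) = bQ k + 2 * (k + 1) * bQ (k + 1) := rfl

theorem bQ_pos : ∀ k, 0 < bQ k
  | 0 => by norm_num [bQ]
  | 1 => by norm_num [bQ]
  | (k + 2) => by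
    rw [bQ_rec]
    have h1 := bQ_pos k
    have h2 := bQ_pos (k + 1)
    positivity

end Q30.Lim
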