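import Mathlib

/-!
# Limit directions of Lorentzian Coxeter groups: definitions
-/

namespace Q30.Lim

open Filter Topology

/-- The reflection `v ↦ v - 2 𝓑(α_i, v) α_i`, where `α_i` are the standard basis vectors and `𝓑` is
the bilinear form with the matrix `B`. -/
def refl {n : ℕ} (B : Matrix (Fin n) (Fin n) ℝ) (i : Fin n) : Module.End ℝ (Fin n → ℝ) where
  toFun v := v - (2 * (B.mulVec v) i) • Pi.single i (1 : ℝ)
  map_add' v w := by
    rw [Matrix.mulVec_add, Pi.add_apply, mul_add, add_smul]
    abel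
  map_smul' c v := by
    rw [Matrix.mulVec_smul, Pi.smul_apply, smul_eq_mul, RingHom.id_apply, smul_sub, smul_smul]
    congr 2
    ring

/-- A geometric Coxeter system `(W, S)_B` of rank `n`: a Coxeter matrix, a matrix `B` as in the
problem, and the geometric representation of the Coxeter group on `ℝⁿ` (with the basis of simple
roots), in which the simple reflection `s_i` acts by `v ↦ v - 2 𝓑(α_i, v) α_i`. -/
structure GeomSystem (n : ℕ) where
  /-- the Coxeter matrix, with the entry `0` standing for `∞` -/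
  M : CoxeterMatrix (Fin n)
  /-- the matrix of the bilinear form -/
  B : Matrix (Fin n) (Fin n) ℝ
  symm : B.IsSymm
  diag : ∀ i, B i i = 1
  finite_entry : ∀ i j, M i j ≠ 0 → B i j = - Real.cos (Real.pi / (M i j : ℝ))
  infinite_entry : ∀ i j, M i j = 0 → B i j ≤ -1
  /-- the geometric representation of the Coxeter group -/
  ρ : M.Group →* Module.End ℝ (Fin n → ℝ)
  ρ_simple : ∀ i, ρ (M.simple i) = refl B i

/-- Equality of the directions of two vectors, i.e. of their classes in the projective space. -/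
def SameDir {n : ℕ} (v w : Fin n → ℝ) : Prop := ∃ c : ℝ, c ≠ 0 ∧ v = c • w

/-- Convergence of the directions of `v k` to the direction of the nonzero vector `x` in the
projective space: suitable multiples converge. -/
def TendsDir {n : ℕ} (v : ℕ → Fin n → ℝ) (x : Fin n → ℝ) : Prop :=
  ∃ c : ℕ → ℝ, (∀ k, c k ≠ 0) ∧ Tendsto (fun k => c k • v k) atTop (𝓝 x)

namespace GeomSystem

variable {n : ℕ} (S : GeomSystem n)

/-- the bilinear form -/
def bil (v w : Fin n → ℝ) : ℝ := v ⬝ᵥ S.B.mulVec w

/-- The form has signature `(n - 1, 1)`. -/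
def Lorentzian : Prop :=
  0 < n ∧ ∃ P : Matrix (Fin n) (Fin n) ℝ, IsUnit P.det ∧
    P.transpose * S.B * P = Matrix.diagonal (fun i : Fin n => if (i : ℕ) = 0 then (-1 : ℝ) else 1)

/-- space-like vectors (directions) -/
def SpaceLike (x : Fin n → ℝ) : Prop := 0 < S.bil x x

/-- The direction of the nonzero vector `x` is a limit direction: it is the limit of an injective
sequence of points of the orbit of some base point in the projective space. -/
def LimitDirection (x : Fin n → ℝ) : Prop :=
  x ≠ 0 ∧ ∃ p : Fin n → ℝ, p ≠ 0 ∧ ∃ g : ℕ → S.M.Group,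
    (∀ j k, j ≠ k → ¬ SameDir (S.ρ (g j) p) (S.ρ (g k) p)) ∧ TendsDir (fun k => S.ρ (g k) p) x

/-- The direction of `x` arises through powers of `w`. -/
def ArisesThroughPowers (w : S.M.Group) (x : Fin n → ℝ) : Prop :=
  ∃ p : Fin n → ℝ, p ≠ 0 ∧ ∃ k : ℕ → ℤ, StrictMono k ∧
    (∀ i j, i ≠ j → ¬ SameDir (S.ρ (w ^ k i) p) (S.ρ (w ^ k j) p)) ∧
    TendsDir (fun j => S.ρ (w ^ k j) p) x

end GeomSystem

end Q30.Lim
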