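import Pool.Agent.Q30.LimPow2
import Pool.Agent.Q30.LimBes

/-!
# The ideal triangle group

Solution of MP_55c352: in the universal Coxeter system of rank three with all off-diagonal entries
of the form equal to `-1`, the simple roots are limit directions which do not arise through powers
of any element.
-/

namespace Q30.Lim

open Filter Topology

/-- the Coxeter matrix -/
def cM : CoxeterMatrix (Fin 3) where
  M := Matrix.of fun i j => if i = j then 1 else 0
  isSymm := by
    ext i j
    simp [Matrix.transpose_apply, eq_comm]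
  diagonal := by simp
  off_diagonal := by
    intro i j h
    simp [h]

/-- integral matrices of the simple reflections -/
def RZ : Fin 3 → Matrix (Fin 3) (Fin 3) ℤ
  | 0 => !![-1, 2, 2; 0, 1, 0; 0, 0, 1]
  | 1 => !![1, 0, 0; 2, -1, 2; 0, 0, 1]
  | 2 => !![1, 0, 0; 0, 1, 0; 2, 2, -1]

theorem RZ_iso (i : Fin 3) : Iso (RZ i) := by
  unfold Iso
  revert i
  decide

theorem refl_zero (v : Fin 3 → ℝ) : refl GR 0 v = ![-v 0 + 2 * v 1 + 2 * v 2, v 1, v 2] := by
  ext j
  fin_cases j <;> (simp [refl, GR, GZ, Matrix.mulVec, dotProduct, Fin.sum_univ_three]; try ring)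

theorem refl_one (v : Fin 3 → ℝ) : refl GR 1 v = ![v 0, 2 * v 0 - v 1 + 2 * v 2, v 2] := by
  ext j
  fin_cases j <;> (simp [refl, GR, GZ, Matrix.mulVec, dotProduct, Fin.sum_univ_three]; try ring)

theorem refl_two (v : Fin 3 → ℝ) : refl GR 2 v = ![v 0, v 1, 2 * v 0 + 2 * v 1 - v 2] := by
  ext j
  fin_cases j <;> (simp [refl, GR, GZ, Matrix.mulVec, dotProduct, Fin.sum_univ_three]; try ring)

theorem refl_rm (i : Fin 3) (v : Fin 3 → ℝ) : refl GR i v = (rm (RZ i)).mulVec v := by
  fin_cases i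
  · refine (refl_zero v).trans ?_
    ext j
    fin_cases j <;> simp [rm, RZ, Matrix.mulVec, dotProduct, Fin.sum_univ_three]
  · refine (refl_one v).trans ?_
    ext j
    fin_cases j <;> (simp [rm, RZ, Matrix.mulVec, dotProduct, Fin.sum_univ_three] ; try ring)
  · refine (refl_two v).trans ?_
    ext j
    fin_cases j <;> (simp [rm, RZ, Matrix.mulVec, dotProduct, Fin.sum_univ_three] ; try ring)

theorem refl_sq (i : Fin 3) : refl GR i * refl GR i = 1 := by
  apply LinearMap.ext
  intro v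
  rw [Module.End.mul_apply, Module.End.one_apply, refl_rm, refl_rm, Matrix.mulVec_mulVec]
  have h : RZ i * RZ i = 1 := by
    revert i
    decide
  have h1 := congrArg (Int.castRingHom ℝ).mapMatrix h
  rw [map_mul, map_one] at h1
  change (rm (RZ i)) * rm (RZ i) = 1 at h1
  rw [h1, Matrix.one_mulVec]

theorem liftable : cM.IsLiftable (refl GR) := by
  intro i j
  by_cases h : i = j
  · subst h
    rw [cM.diagonal, pow_one, refl_sq]
  · have : cM i j = 0 := by
      change (if i = j then 1 else 0) = 0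
      rw [if_neg h]
    rw [this, pow_zero]

/-- the representation -/
noncomputable def rho0 : cM.Group →* Module.End ℝ (Fin 3 → ℝ) :=
  cM.toCoxeterSystem.lift ⟨refl GR, liftable⟩

theorem rho0_simple (i : Fin 3) : rho0 (cM.simple i) = refl GR i := by
  rw [← CoxeterMatrix.toCoxeterSystem_simple]
  exact cM.toCoxeterSystem.lift_apply_simple liftable i

/-- the geometric Coxeter system -/
noncomputable def sys : GeomSystem 3 where
  M := cM
  B := GR
  symm := by
    ext i j
    fin_cases i <;> fin_cases j <;> simp [GR, GZ]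
  diag i := by
    fin_cases i <;> simp [GR, GZ]
  finite_entry i j h := by
    have hij : i = j := by
      by_contra hne
      apply h
      change (if i = j then 1 else 0) = 0
      rw [if_neg hne]
    subst hij
    rw [cM.diagonal]
    fin_cases i <;> simp [GR, GZ]
  infinite_entry i j h := by
    have hij : i ≠ j := by
      intro he
      subst he
      rw [cM.diagonal] at h
      omega
    revert hij
    fin_cases i <;> fin_cases j <;> simp [GR, GZ]
  ρ := rho0
  ρ_simple := rho0_simple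

theorem sys_matrix (w : cM.Group) :
    ∃ Z : Matrix (Fin 3) (Fin 3) ℤ, Iso Z ∧ ∀ v, rho0 w v = (rm Z).mulVec v := by
  refine cM.toCoxeterSystem.simple_induction_left (p := fun w : cM.Group =>
    ∃ Z : Matrix (Fin 3) (Fin 3) ℤ, Iso Z ∧ ∀ v, rho0 w v = (rm Z).mulVec v) w ?_ ?_
  · refine ⟨1, ?_, fun v => ?_⟩
    · unfold Iso; decide
    · rw [map_one]
      have : rm 1 = 1 := map_one ((Int.castRingHom ℝ).mapMatrix (m := Fin 3))
      rw [this, Matrix.one_mulVec]
      rfl
  · intro w i ih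
    obtain ⟨Z, hZ, h⟩ := ih
    refine ⟨RZ i * Z, ?_, fun v => ?_⟩
    · have hR := RZ_iso i
      unfold Iso at *
      rw [Matrix.transpose_mul]
      calc Z.transpose * (RZ i).transpose * GZ * (RZ i * Z)
          = Z.transpose * ((RZ i).transpose * GZ * RZ i) * Z := by simp only [mul_assoc]
        _ = GZ := by rw [hR, hZ]
    · rw [map_mul, Module.End.mul_apply, h]
      rw [CoxeterMatrix.toCoxeterSystem_simple, rho0_simple, refl_rm, Matrix.mulVec_mulVec]
      have : rm (RZ i * Z) = rm (RZ i) * rm Z := map_mul ((Int.castRingHom ℝ).mapMatrix (m := Fin 3)) _ _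
      rw [this]

theorem rho_pow {w : cM.Group} {Z : Matrix (Fin 3) (Fin 3) ℤ}
    (h : ∀ v, rho0 w v = (rm Z).mulVec v) (k : ℕ) (v : Fin 3 → ℝ) :
    rho0 (w ^ k) v = zs Z v k := by
  induction k with
  | zero => simp [zs]
  | succ k ih =>
    rw [pow_succ', map_mul, Module.End.mul_apply, ih, h, zs_add, pow_one]

theorem not_arises (w : cM.Group) : ¬ sys.ArisesThroughPowers w (Pi.single 0 1) := by
  rintro ⟨p, -, k, hk, hinj, c, -, hlim⟩
  change ∀ i j, i ≠ j → ¬ SameDir (rho0 (w ^ k i) p) (rho0 (w ^ k j) p) at hinj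
  change Tendsto (fun j => c j • rho0 (w ^ k j) p) atTop (𝓝 (Pi.single 0 1)) at hlim
  obtain ⟨Z, hZ, h⟩ := sys_matrix w
  have hbound : ∀ j : ℕ, k 0 + j ≤ k j := by
    intro j
    induction j with
    | zero => simp
    | succ j ih =>
      have := hk (Nat.lt_succ_self j)
      push_cast
      rw [Nat.succ_eq_add_one] at this
      omega
  obtain ⟨N, hN⟩ : ∃ N : ℕ, ∀ j, 0 ≤ k (j + N) := by
    refine ⟨(-k 0).toNat, fun j => ?_⟩
    have := hbound (j + (-k 0).toNat)
    push_cast at this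
    omega
  have hnn : ∀ j, ((k (j + N)).toNat : ℤ) = k (j + N) := fun j => Int.toNat_of_nonneg (hN j)
  have hmono : StrictMono (fun j => (k (j + N)).toNat) := by
    intro i j hij
    have h1 : k (i + N) < k (j + N) := hk (by omega)
    have := hnn i
    have := hnn j
    change (k (i + N)).toNat < (k (j + N)).toNat
    omega
  have hval : ∀ j, rho0 (w ^ k (j + N)) p = zs Z p ((k (j + N)).toNat) := by
    intro j
    rw [← rho_pow h, ← zpow_natCast, hnn]
  have hlim' : Tendsto (fun j => c (j + N) • zs Z p ((k (j + N)).toNat)) atTop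
      (𝓝 (Pi.single 0 1)) := by
    have h1 := (tendsto_add_atTop_iff_nat N).2 hlim
    refine h1.congr fun j => ?_
    rw [hval]
  obtain ⟨i, j, hij, he⟩ := pow_lemma hZ p _ hmono _ hlim'
  apply hinj (i + N) (j + N) (by omega)
  refine ⟨1, one_ne_zero, ?_⟩
  rw [hval, hval, one_smul]
  exact he

/-- the product of linear forms, in coordinates -/
def phi (a b c d : ℝ) : Fin 3 → ℝ := ![(a * d + b * c) - a * c - b * d, -(a * c), -(b * d)]

theorem s01 (a b c d : ℝ) :
    rho0 (cM.simple 0 * cM.simple 1) (phi a b c d) = phi (a - 2 * b) b (c - 2 * d) d := by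
  rw [map_mul, Module.End.mul_apply, rho0_simple, rho0_simple, refl_one, refl_zero]
  ext j
  fin_cases j <;> simp [phi] <;> ring

theorem s02 (a b c d : ℝ) :
    rho0 (cM.simple 0 * cM.simple 2) (phi a b c d) = phi a (b - 2 * a) c (d - 2 * c) := by
  rw [map_mul, Module.End.mul_apply, rho0_simple, rho0_simple, refl_two, refl_zero]
  ext j
  fin_cases j <;> simp [phi] <;> ring

theorem s01_pow (m : ℕ) (a b c d : ℝ) :
    rho0 ((cM.simple 0 * cM.simple 1) ^ m) (phi a b c d) =
      phi (a - 2 * m * b) b (c - 2 * m * d) d := by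
  induction m with
  | zero => simp
  | succ m ih =>
    rw [pow_succ', map_mul, Module.End.mul_apply, ih, s01]
    congr 1 <;> push_cast <;> ring

theorem s02_pow (m : ℕ) (a b c d : ℝ) :
    rho0 ((cM.simple 0 * cM.simple 2) ^ m) (phi a b c d) =
      phi a (b - 2 * m * a) c (d - 2 * m * c) := by
  induction m with
  | zero => simp
  | succ m ih =>
    rw [pow_succ', map_mul, Module.End.mul_apply, ih, s02]
    congr 1 <;> push_cast <;> ring

/-- the group elements -/
def gg : ℕ → cM.Group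
  | 0 => 1
  | (j + 1) => (cM.simple 0 * cM.simple 2) ^ (2 * j + 2) *
      ((cM.simple 0 * cM.simple 1) ^ (2 * j + 1) * gg j)

/-- the base point -/
noncomputable def pt : Fin 3 → ℝ := phi (bD 0) (bD 1) (bQ 0) (-bQ 1)

theorem gg_pt (j : ℕ) :
    rho0 (gg j) pt = phi (bD (2 * j)) (bD (2 * j + 1)) (bQ (2 * j)) (-bQ (2 * j + 1)) := by
  induction j with
  | zero => simp [gg, pt]
  | succ j ih =>
    rw [gg, map_mul, map_mul, Module.End.mul_apply, Module.End.mul_apply, ih, s01_pow, s02_pow]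
    have h1 := bD_rec (2 * j)
    have h2 := bD_rec (2 * j + 1)
    have h3 := bQ_rec (2 * j)
    have h4 := bQ_rec (2 * j + 1)
    rw [show 2 * (j + 1) = 2 * j + 2 by ring]
    rw [show 2 * j + 1 + 2 = 2 * j + 2 + 1 by ring, show 2 * j + 1 + 1 = 2 * j + 2 by ring] at h2 h4
    push_cast at h1 h2 h3 h4 ⊢
    have e1 : bD (2 * j) - 2 * (2 * j + 1) * bD (2 * j + 1) = bD (2 * j + 2) := by
      linarith
    have e2 : bQ (2 * j) - 2 * (2 * j + 1) * (-bQ (2 * j + 1)) = bQ (2 * j + 2) := by
      linarith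
    have e3 : bD (2 * j + 1) - 2 * (2 * j + 2) * bD (2 * j + 2) = bD (2 * j + 2 + 1) := by
      linarith
    have e4 : (-bQ (2 * j + 1)) - 2 * (2 * j + 2) * bQ (2 * j + 2) = -bQ (2 * j + 2 + 1) := by
      linarith
    rw [e1, e2, e3, e4]

theorem bD_ge (k : ℕ) : 2 * (k + 1) * bD (k + 1) ≤ bD k := by
  have h1 := bD_rec k
  have h2 := bD_pos (k + 2)
  linarith

theorem bD_lt (k : ℕ) : bD (k + 1) < bD k := by
  have h1 := bD_ge k
  have h2 := bD_pos (k + 1)
  have h3 : (0 : ℝ) ≤ k := k.cast_nonneg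
  nlinarith

theorem bQ_ge (j : ℕ) : (j + 1) * bQ (2 * j) ≤ bQ (2 * j + 1) := by
  cases j with
  | zero => norm_num [bQ]
  | succ i =>
    have h1 := bQ_rec (2 * i + 1)
    have h2 := bQ_pos (2 * i + 1)
    have h3 := bQ_pos (2 * i + 2)
    have h4 : (0 : ℝ) ≤ i := i.cast_nonneg
    rw [show 2 * (i + 1) + 1 = 2 * i + 1 + 2 by ring, show 2 * (i + 1) = 2 * i + 2 by ring, h1,
      show 2 * i + 1 + 1 = 2 * i + 2 by ring]
    push_cast
    nlinarith [mul_nonneg h4 h3.le]

theorem bQ_le (j : ℕ) : bQ (2 * j) ≤ bQ (2 * j + 1) := by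
  have h1 := bQ_ge j
  have h2 := bQ_pos (2 * j)
  have h4 : (0 : ℝ) ≤ j := j.cast_nonneg
  nlinarith [mul_nonneg h4 h2.le]

/-- the invariant -/
noncomputable def sj (j : ℕ) : ℝ :=
  bD (2 * j + 1) * bQ (2 * j + 1) / (bD (2 * j) * bQ (2 * j + 1) - bD (2 * j + 1) * bQ (2 * j))

theorem den_ge (j : ℕ) : (4 * j + 1) * (bD (2 * j + 1) * bQ (2 * j + 1)) ≤
    bD (2 * j) * bQ (2 * j + 1) - bD (2 * j + 1) * bQ (2 * j) := by
  have h1 := bD_ge (2 * j)
  have h2 := bQ_le j
  have h3 := bD_pos (2 * j + 1)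
  have h4 := bQ_pos (2 * j + 1)
  push_cast at h1
  have h5 := mul_le_mul_of_nonneg_right h1 h4.le
  have h6 := mul_le_mul_of_nonneg_left h2 h3.le
  linarith

theorem den_lt (j : ℕ) : bD (2 * j) * bQ (2 * j + 1) - bD (2 * j + 1) * bQ (2 * j) <
    (4 * j + 3) * (bD (2 * j + 1) * bQ (2 * j + 1)) := by
  have h1 := bD_rec (2 * j)
  have h2 := bD_lt (2 * j + 1)
  have h3 := bD_pos (2 * j + 1)
  have h4 := bQ_pos (2 * j + 1)
  have h5 := bQ_pos (2 * j)
  rw [show 2 * j + 1 + 1 = 2 * j + 2 by ring] at h2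
  push_cast at h1
  have h6 : bD (2 * j) < (4 * j + 3) * bD (2 * j + 1) := by linarith
  have h7 := mul_lt_mul_of_pos_right h6 h4
  have h8 := mul_pos h3 h5
  linarith

theorem sj_anti : StrictAnti sj := by
  apply strictAnti_nat_of_succ_lt
  intro j
  have hp : ∀ j, 0 < bD (2 * j + 1) * bQ (2 * j + 1) := fun j => mul_pos (bD_pos _) (bQ_pos _)
  have hd : ∀ j : ℕ, 0 < bD (2 * j) * bQ (2 * j + 1) - bD (2 * j + 1) * bQ (2 * j) := fun j =>
    lt_of_lt_of_le (mul_pos (by positivity) (hp j)) (den_ge j)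
  have h1 : sj (j + 1) ≤ 1 / (4 * (j + 1 : ℕ) + 1) := by
    unfold sj
    rw [div_le_div_iff₀ (hd _) (by positivity)]
    have := den_ge (j + 1)
    linarith
  have h2 : 1 / (4 * (j : ℝ) + 3) < sj j := by
    unfold sj
    rw [div_lt_div_iff₀ (by positivity) (hd _)]
    have := den_lt j
    linarith
  have h3 : 1 / (4 * ((j + 1 : ℕ) : ℝ) + 1) < 1 / (4 * (j : ℝ) + 3) := by
    apply one_div_lt_one_div_of_lt (by positivity)
    push_cast
    linarith
  linarith

theorem not_same (j k : ℕ) (hjk : j ≠ k) : ¬ SameDir (rho0 (gg j) pt) (rho0 (gg k) pt) := by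
  rintro ⟨c, hc, h⟩
  rw [gg_pt, gg_pt] at h
  have h0 := congrFun h 0
  have h1 := congrFun h 1
  have h2 := congrFun h 2
  simp only [phi, Pi.smul_apply, smul_eq_mul, Matrix.cons_val_zero, Matrix.cons_val_one,
    Matrix.cons_val] at h0 h1 h2
  apply hjk
  apply sj_anti.injective
  have hp : ∀ j, 0 < bD (2 * j + 1) * bQ (2 * j + 1) := fun j => mul_pos (bD_pos _) (bQ_pos _)
  have hd : ∀ j : ℕ, 0 < bD (2 * j) * bQ (2 * j + 1) - bD (2 * j + 1) * bQ (2 * j) := fun j =>
    lt_of_lt_of_le (mul_pos (by positivity) (hp j)) (den_ge j)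
  unfold sj
  have e1 : bD (2 * j + 1) * bQ (2 * j + 1) = c * (bD (2 * k + 1) * bQ (2 * k + 1)) := by
    linarith
  have e2 : bD (2 * j) * bQ (2 * j + 1) - bD (2 * j + 1) * bQ (2 * j) =
      c * (bD (2 * k) * bQ (2 * k + 1) - bD (2 * k + 1) * bQ (2 * k)) := by
    linarith
  rw [e1, e2, mul_div_mul_left _ _ hc]

theorem tends : TendsDir (fun k => rho0 (gg k) pt) (Pi.single 0 1) := by
  refine ⟨fun j => 1 / (-(bD (2 * j) * bQ (2 * j + 1))), fun j => ?_, ?_⟩
  · have := bD_pos (2 * j)
    have := bQ_pos (2 * j + 1)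
    apply one_div_ne_zero
    apply neg_ne_zero.2
    positivity
  · set a : ℕ → ℝ := fun j => bD (2 * j + 1) / bD (2 * j) with ha
    set b : ℕ → ℝ := fun j => bQ (2 * j) / bQ (2 * j + 1) with hb
    have ha0 : Tendsto a atTop (𝓝 0) := by
      refine squeeze_zero (fun j => ?_) (fun j => ?_) tendsto_one_div_add_atTop_nhds_zero_nat
      · exact (div_pos (bD_pos _) (bD_pos _)).le
      · rw [ha]
        simp only
        rw [div_le_div_iff₀ (bD_pos _) (by positivity)]
        have h1 := bD_ge (2 * j)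
        have h2 := bD_pos (2 * j + 1)
        have h4 : (0 : ℝ) ≤ j := j.cast_nonneg
        push_cast at h1
        nlinarith [mul_nonneg h4 h2.le]
    have hb0 : Tendsto b atTop (𝓝 0) := by
      refine squeeze_zero (fun j => ?_) (fun j => ?_) tendsto_one_div_add_atTop_nhds_zero_nat
      · exact (div_pos (bQ_pos _) (bQ_pos _)).le
      · rw [hb]
        simp only
        rw [div_le_div_iff₀ (bQ_pos _) (by positivity)]
        have h1 := bQ_ge j
        linarith
    rw [tendsto_pi_nhds]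
    have hform : ∀ j, (1 / (-(bD (2 * j) * bQ (2 * j + 1)))) • rho0 (gg j) pt =
        ![1 - a j * b j + b j - a j, b j, -a j] := by
      intro j
      rw [gg_pt]
      have h1 := (bD_pos (2 * j)).ne'
      have h2 := (bQ_pos (2 * j + 1)).ne'
      ext i
      fin_cases i
      · simp [phi, ha, hb]
        field_simp
        ring
      · simp [phi, hb]
        field_simp
      · simp [phi, ha]
        field_simp
    intro i
    simp only [hform]
    fin_cases i
    · have := (((tendsto_const_nhds (x := (1 : ℝ))).sub (ha0.mul hb0)).add hb0).sub ha0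
      simpa using this
    · simpa using hb0
    · simpa using ha0.neg

theorem lorentz : sys.Lorentzian := by
  refine ⟨by norm_num, !![1, 1, 0; 1 / 2, 0, 1 / 2; 1 / 2, 0, -1 / 2], ?_, ?_⟩
  · have : (!![1, 1, 0; 1 / 2, 0, 1 / 2; 1 / 2, 0, -1 / 2] : Matrix (Fin 3) (Fin 3) ℝ).det = 1 / 2 := by
      rw [Matrix.det_fin_three]
      simp
      norm_num
    rw [this]
    norm_num
  · change _ * GR * _ = _
    ext i j
    fin_cases i <;> fin_cases j <;>
      simp [GR, GZ, Matrix.mul_apply, Fin.sum_univ_three, Matrix.diagonal] <;> norm_num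

theorem space : sys.SpaceLike (Pi.single 0 1) := by
  change 0 < (Pi.single 0 1 : Fin 3 → ℝ) ⬝ᵥ GR.mulVec (Pi.single 0 1)
  simp [GR, GZ, Matrix.mulVec, dotProduct, Pi.single_apply]

theorem limit : sys.LimitDirection (Pi.single 0 1) := by
  refine ⟨?_, pt, ?_, gg, not_same, tends⟩
  · intro h
    have := congrFun h 0
    simp at this
  · intro h
    have := congrFun h 1
    simp [pt, phi] at this
    rcases this with h | h
    · exact (bD_pos 0).ne' h
    · exact (bQ_pos 0).ne' h

end Q30.Lim
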