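import Pool.Agent.Q30.LimDefs

/-!
# Powers of integral matrices preserving a Lorentzian form of rank three

Part of the solution of MP_55c352.
-/

namespace Q30.Lim

open Filter Topology

/-- the form -/
def GZ : Matrix (Fin 3) (Fin 3) ℤ := !![1, -1, -1; -1, 1, -1; -1, -1, 1]

/-- the real form -/
def GR : Matrix (Fin 3) (Fin 3) ℝ := GZ.map (Int.castRingHom ℝ)

theorem sq_eq_adjugate {R : Type*} [CommRing R] (Z : Matrix (Fin 3) (Fin 3) R) :
    Z ^ 2 = Z.trace • Z - (Z.adjugate.trace) • (1 : Matrix (Fin 3) (Fin 3) R) + Z.adjugate := by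
  rw [Matrix.adjugate_fin_three, pow_two]
  ext i j
  fin_cases i <;> fin_cases j <;>
    simp [Matrix.mul_apply, Fin.sum_univ_three, Matrix.trace_fin_three] <;> ring

/-- integral isometries -/
def Iso (Z : Matrix (Fin 3) (Fin 3) ℤ) : Prop := Z.transpose * GZ * Z = GZ

theorem Iso.det_sq {Z : Matrix (Fin 3) (Fin 3) ℤ} (h : Iso Z) : Z.det = 1 ∨ Z.det = -1 := by
  have h1 := congrArg Matrix.det h
  rw [Matrix.det_mul, Matrix.det_mul, Matrix.det_transpose] at h1
  have h2 : GZ.det = -4 := by decide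
  rw [h2] at h1
  have h3 : (Z.det - 1) * (Z.det + 1) = 0 := by nlinarith
  rcases mul_eq_zero.1 h3 with h | h
  · left; omega
  · right; omega

/-- The Cayley–Hamilton identity for isometries. -/
theorem Iso.cayley {Z : Matrix (Fin 3) (Fin 3) ℤ} (h : Iso Z) :
    Z ^ 3 = Z.trace • Z ^ 2 - (Z.det * Z.trace) • Z + Z.det • (1 : Matrix (Fin 3) (Fin 3) ℤ) := by
  have hd : Z.det * Z.det = 1 := by rcases h.det_sq with h | h <;> rw [h] <;> norm_num
  -- the trace of the adjugate
  have hadj : Z.adjugate.trace = Z.det * Z.trace := by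
    -- `4 • GZ⁻¹`
    let H : Matrix (Fin 3) (Fin 3) ℤ := GZ.adjugate
    have hH : GZ * H = (-4 : ℤ) • 1 := by
      rw [Matrix.mul_adjugate]; congr 1
    have hH' : H * GZ = (-4 : ℤ) • 1 := by
      rw [Matrix.adjugate_mul]; congr 1
    have h1 : Z.transpose * GZ = Z.det • (GZ * Z.adjugate) := by
      have h2 : Z.transpose * GZ * Z * Z.adjugate = GZ * Z.adjugate := by rw [h]
      rw [mul_assoc (Z.transpose * GZ), Matrix.mul_adjugate] at h2
      rw [← h2, Matrix.mul_smul, mul_one, smul_smul, hd, one_smul]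
    have h3 : H * (Z.transpose * GZ) = Z.det • ((-4 : ℤ) • Z.adjugate) := by
      rw [h1, Matrix.mul_smul, ← mul_assoc, hH', Matrix.smul_mul, one_mul]
    have h4 := congrArg Matrix.trace h3
    rw [Matrix.trace_mul_comm, mul_assoc, hH, Matrix.mul_smul, mul_one, Matrix.trace_smul,
      Matrix.trace_smul, Matrix.trace_smul, Matrix.trace_transpose] at h4
    simp only [smul_eq_mul] at h4
    have h5 : Z.trace = Z.det * Z.adjugate.trace := by linarith
    rw [h5, ← mul_assoc, hd, one_mul]
  have key := sq_eq_adjugate Z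
  have h6 : Z ^ 3 = Z * Z ^ 2 := by rw [pow_succ' Z 2]
  rw [h6]
  conv_lhs => rw [key]
  rw [mul_add, mul_sub, Matrix.mul_smul, Matrix.mul_smul, Matrix.mul_adjugate, mul_one, hadj,
    ← pow_two]

/-- An isometry which fixes the first simple root up to sign has square one. -/
theorem Iso.sq_eq_one {Z : Matrix (Fin 3) (Fin 3) ℤ} (h : Iso Z) (ε : ℤ) (hε : ε = 1 ∨ ε = -1)
    (h0 : Z 0 0 = ε) (h1 : Z 1 0 = 0) (h2 : Z 2 0 = 0) : Z ^ 2 = 1 := by
  have hε2 : ε * ε = 1 := by rcases hε with h | h <;> rw [h] <;> norm_num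
  have e01 := congrFun (congrFun h 0) 1
  have e02 := congrFun (congrFun h 0) 2
  have e11 := congrFun (congrFun h 1) 1
  have e22 := congrFun (congrFun h 2) 2
  have e12 := congrFun (congrFun h 1) 2
  simp [Matrix.mul_apply, Fin.sum_univ_three, GZ, h0, h1, h2] at e01 e02 e11 e22 e12
  set p := Z 0 1
  set q := Z 1 1
  set r := Z 2 1
  set p' := Z 0 2
  set q' := Z 1 2
  set r' := Z 2 2
  have hp : p = q + r - ε := by
    have : ε * (p - q - r) = -1 := by linarith
    have h3 : p - q - r = - ε := by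
      calc p - q - r = (ε * ε) * (p - q - r) := by rw [hε2, one_mul]
        _ = ε * (ε * (p - q - r)) := by ring
        _ = - ε := by rw [this]; ring
    linarith
  have hp' : p' = q' + r' - ε := by
    have : ε * (p' - q' - r') = -1 := by linarith
    have h3 : p' - q' - r' = - ε := by
      calc p' - q' - r' = (ε * ε) * (p' - q' - r') := by rw [hε2, one_mul]
        _ = ε * (ε * (p' - q' - r')) := by ring
        _ = - ε := by rw [this]; ring
    linarith
  have hqr : q * r = 0 := by
    rw [hp] at e11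
    nlinarith
  have hqr' : q' * r' = 0 := by
    rw [hp'] at e22
    nlinarith
  have hx : q * r' + r * q' = 1 := by
    rw [hp, hp'] at e12
    nlinarith
  have fin : ε * p + p * q + p' * r = 0 → ε * p' + p * q' + p' * r' = 0 → q * q + q' * r = 1 →
      q * q' + q' * r' = 0 → r * q + r' * r = 0 → r * q' + r' * r' = 1 → Z ^ 2 = 1 := by
    intro E01 E02 E11 E12 E21 E22
    have hZ : Z = !![ε, p, p'; 0, q, q'; 0, r, r'] := by
      ext i j
      fin_cases i <;> fin_cases j <;> simp [p, q, r, p', q', r', h0, h1, h2]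
    rw [hZ, pow_two]
    ext i j
    fin_cases i <;> fin_cases j
    · simpa [Matrix.mul_apply, Fin.sum_univ_three] using hε2
    · simpa [Matrix.mul_apply, Fin.sum_univ_three] using E01
    · simpa [Matrix.mul_apply, Fin.sum_univ_three] using E02
    · simp [Matrix.mul_apply, Fin.sum_univ_three]
    · simpa [Matrix.mul_apply, Fin.sum_univ_three] using E11
    · simpa [Matrix.mul_apply, Fin.sum_univ_three] using E12
    · simp [Matrix.mul_apply, Fin.sum_univ_three]
    · simpa [Matrix.mul_apply, Fin.sum_univ_three] using E21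
    · simpa [Matrix.mul_apply, Fin.sum_univ_three] using E22
  rcases mul_eq_zero.1 hqr with hq | hr
  · rw [hq, zero_mul, zero_add] at hx
    have hrq : r = q' ∧ r * r = 1 := by
      rcases Int.eq_one_or_neg_one_of_mul_eq_one' hx with ⟨a, b⟩ | ⟨a, b⟩ <;> rw [a, b] <;> norm_num
    have hr' : r' = 0 := by
      rcases mul_eq_zero.1 hqr' with h3 | h3
      · rw [h3, mul_zero] at hx; omega
      · exact h3
    obtain ⟨hrq1, hrr⟩ := hrq
    have hp2 : p = r - ε := by rw [hp, hq]; ring
    have hp2' : p' = r - ε := by rw [hp', hr', ← hrq1]; ring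
    apply fin
    · rw [hp2, hp2', hq]; linarith
    · rw [hp2, hp2', hr', ← hrq1]; linarith
    · rw [hq, ← hrq1]; linarith
    · rw [hq, hr']; ring
    · rw [hq, hr']; ring
    · rw [hr', ← hrq1]; linarith
  · rw [hr, zero_mul, add_zero] at hx
    have hrq : q = r' ∧ q * q = 1 := by
      rcases Int.eq_one_or_neg_one_of_mul_eq_one' hx with ⟨a, b⟩ | ⟨a, b⟩ <;> rw [a, b] <;> norm_num
    have hq' : q' = 0 := by
      rcases mul_eq_zero.1 hqr' with h3 | h3
      · exact h3
      · rw [h3, mul_zero] at hx; omega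
    obtain ⟨hrq1, hqq⟩ := hrq
    have hp2 : p = q - ε := by rw [hp, hr]; ring
    have hp2' : p' = q - ε := by rw [hp', hq', ← hrq1]; ring
    apply fin
    · rw [hp2, hp2', hr]; linarith
    · rw [hp2, hp2', hq', ← hrq1]; linarith
    · rw [hr, hq']; linarith
    · rw [hq']; ring
    · rw [hr]; ring
    · rw [hr, hq', ← hrq1]; linarith

end Q30.Lim
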