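import Pool.Agent.Q30.LimPow

/-!
# Limits of powers

Part of the solution of MP_55c352.
-/

namespace Q30.Lim

open Filter Topology

section

variable (Z : Matrix (Fin 3) (Fin 3) ℤ)

/-- the real matrix -/
noncomputable def rm : Matrix (Fin 3) (Fin 3) ℝ := Z.map (Int.castRingHom ℝ)

/-- the orbit -/
noncomputable def zs (p : Fin 3 → ℝ) (k : ℕ) : Fin 3 → ℝ := (rm Z ^ k).mulVec p

variable {Z}

theorem zs_add (p : Fin 3 → ℝ) (k m : ℕ) : zs Z p (k + m) = (rm Z ^ m).mulVec (zs Z p k) := by
  unfold zs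
  rw [Matrix.mulVec_mulVec, ← pow_add, add_comm]

theorem rm_cayley (h : Iso Z) :
    rm Z ^ 3 = (Z.trace : ℝ) • rm Z ^ 2 - ((Z.det : ℝ) * Z.trace) • rm Z + (Z.det : ℝ) • 1 := by
  have h1 := congrArg (Int.castRingHom ℝ).mapMatrix h.cayley
  rw [map_pow, map_add, map_sub] at h1
  have e : ∀ (c : ℤ) (Y : Matrix (Fin 3) (Fin 3) ℤ), (Int.castRingHom ℝ).mapMatrix (c • Y) =
      (c : ℝ) • (Int.castRingHom ℝ).mapMatrix Y := by
    intro c Y
    ext i j
    change ((c * Y i j : ℤ) : ℝ) = (c : ℝ) * (Y i j : ℝ)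
    rw [Int.cast_mul]
  rw [e, e, e, map_pow, map_one] at h1
  simp only [Int.cast_mul] at h1
  exact h1

theorem zs_rec (h : Iso Z) (p : Fin 3 → ℝ) (k : ℕ) (i : Fin 3) :
    zs Z p (k + 3) i = Z.trace * zs Z p (k + 2) i - Z.det * Z.trace * zs Z p (k + 1) i +
      Z.det * zs Z p k i := by
  rw [zs_add p k 3, zs_add p k 2, zs_add p k 1, rm_cayley h, pow_one, Matrix.add_mulVec,
    Matrix.sub_mulVec, Matrix.smul_mulVec, Matrix.smul_mulVec, Matrix.smul_mulVec,
    Matrix.one_mulVec]
  simp only [Pi.add_apply, Pi.sub_apply, Pi.smul_apply, smul_eq_mul]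

/-- the quadratic form -/
noncomputable def Q (v : Fin 3 → ℝ) : ℝ := v ⬝ᵥ GR.mulVec v

theorem Q_smul (c : ℝ) (v : Fin 3 → ℝ) : Q (c • v) = c ^ 2 * Q v := by
  unfold Q
  rw [Matrix.mulVec_smul, smul_dotProduct, dotProduct_smul, smul_eq_mul, smul_eq_mul]
  ring

theorem rm_iso (h : Iso Z) : (rm Z).transpose * GR * rm Z = GR := by
  have h1 := congrArg (Int.castRingHom ℝ).mapMatrix h
  rw [map_mul, map_mul] at h1
  exact h1

theorem Q_rm (h : Iso Z) (v : Fin 3 → ℝ) : Q ((rm Z).mulVec v) = Q v := by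
  unfold Q
  rw [Matrix.mulVec_mulVec, Matrix.dotProduct_mulVec, Matrix.vecMul_mulVec, ← Matrix.dotProduct_mulVec,
    ← mul_assoc, rm_iso h]

theorem Q_zs (h : Iso Z) (p : Fin 3 → ℝ) (k : ℕ) : Q (zs Z p k) = Q p := by
  induction k with
  | zero => simp [zs]
  | succ k ih => rw [zs_add, pow_one, Q_rm h, ih]

theorem continuous_Q : Continuous Q := by
  unfold Q
  fun_prop

theorem periodic_case (p : Fin 3 → ℝ) (n : ℕ → ℕ) (T : ℕ) (hT : 0 < T)
    (hper : ∀ k, zs Z p (k + T) = zs Z p k) : ∃ i j, i ≠ j ∧ zs Z p (n i) = zs Z p (n j) := by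
  have hT' : NeZero T := ⟨hT.ne'⟩
  obtain ⟨i, j, hij, h⟩ := Finite.exists_ne_map_eq_of_infinite
    (fun j : ℕ => (⟨n j % T, Nat.mod_lt _ hT⟩ : Fin T))
  refine ⟨i, j, hij, ?_⟩
  have hper' : ∀ k m, zs Z p (k + T * m) = zs Z p k := by
    intro k m
    induction m with
    | zero => simp
    | succ m ih => rw [mul_add, mul_one, ← add_assoc, hper, ih]
  have h1 : n i % T = n j % T := congrArg Fin.val h
  rw [← Nat.mod_add_div (n i) T, ← Nat.mod_add_div (n j) T, hper', hper', h1]

theorem pow_lemma (h : Iso Z) (p : Fin 3 → ℝ) (n : ℕ → ℕ) (hn : StrictMono n) (c : ℕ → ℝ)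
    (hlim : Tendsto (fun j => c j • zs Z p (n j)) atTop (𝓝 (Pi.single 0 1))) :
    ∃ i j, i ≠ j ∧ zs Z p (n i) = zs Z p (n j) := by
  set e0 : Fin 3 → ℝ := Pi.single 0 1 with he0
  have hQ0 : Q e0 = 1 := by
    rw [he0]
    simp [Q, GR, GZ, Matrix.mulVec, dotProduct, Pi.single_apply]
  have hQlim : Tendsto (fun j => c j ^ 2 * Q p) atTop (𝓝 1) := by
    have h1 := (continuous_Q.tendsto e0).comp hlim
    rw [hQ0] at h1
    refine h1.congr fun j => ?_
    change Q (c j • zs Z p (n j)) = _
    rw [Q_smul, Q_zs h]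
  have hQhalf : ∀ᶠ j in atTop, 1 / 2 < c j ^ 2 * Q p := hQlim.eventually_const_lt (by norm_num)
  have hQtwo : ∀ᶠ j in atTop, c j ^ 2 * Q p < 2 := hQlim.eventually_lt_const (by norm_num)
  have hQp : 0 < Q p := by
    obtain ⟨j, hj⟩ := hQhalf.exists
    by_contra hneg
    push Not at hneg
    nlinarith [sq_nonneg (c j)]
  obtain ⟨δ, hδ, hδc⟩ : ∃ δ > 0, ∀ᶠ j in atTop, δ ≤ |c j| := by
    refine ⟨Real.sqrt (1 / (2 * Q p)), Real.sqrt_pos.2 (by positivity), ?_⟩
    filter_upwards [hQhalf] with j hj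
    rw [← Real.sqrt_sq_eq_abs]
    apply Real.sqrt_le_sqrt
    rw [div_le_iff₀ (by positivity)]
    linarith
  obtain ⟨C, hC⟩ : ∃ C : ℝ, ∀ᶠ j in atTop, |c j| ≤ C := by
    refine ⟨Real.sqrt (2 / Q p), ?_⟩
    filter_upwards [hQtwo] with j hj
    rw [← Real.sqrt_sq_eq_abs]
    apply Real.sqrt_le_sqrt
    rw [le_div_iff₀ hQp]
    linarith
  have hlimm : ∀ m : ℕ, Tendsto (fun j => c j • zs Z p (n j + m)) atTop
      (𝓝 ((rm Z ^ m).mulVec e0)) := by
    intro m
    have hcont : Continuous (fun v : Fin 3 → ℝ => (rm Z ^ m).mulVec v) := by fun_prop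
    refine ((hcont.tendsto e0).comp hlim).congr fun j => ?_
    change (rm Z ^ m).mulVec (c j • zs Z p (n j)) = _
    rw [Matrix.mulVec_smul, zs_add]
  have hlimi : ∀ (m : ℕ) (i : Fin 3), Tendsto (fun j => c j * zs Z p (n j + m) i) atTop
      (𝓝 ((rm Z ^ m).mulVec e0 i)) := by
    intro m i
    exact (tendsto_pi_nhds.1 (hlimm m) i)
  -- coordinates are bounded along the sequence
  have hbdd : ∀ i : Fin 3, ∃ K : ℝ, ∀ᶠ j in atTop, |zs Z p (n j) i| ≤ K := by
    intro i
    have h1 := (hlimi 0 i).abs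
    have h2 := h1.eventually_lt_const (lt_add_one _)
    refine ⟨(|(rm Z ^ 0).mulVec e0 i| + 1) / δ, ?_⟩
    filter_upwards [h2, hδc] with j h3 h4
    rw [le_div_iff₀ hδ]
    rw [add_zero, abs_mul] at h3
    calc |zs Z p (n j) i| * δ ≤ |zs Z p (n j) i| * |c j| :=
          mul_le_mul_of_nonneg_left h4 (abs_nonneg _)
      _ ≤ _ := by rw [mul_comm]; exact h3.le
  obtain ⟨ε, hε⟩ : ∃ ε : ℤ, Z.det = ε := ⟨_, rfl⟩
  have hε1 : ε = 1 ∨ ε = -1 := hε ▸ h.det_sq
  obtain ⟨t, ht⟩ : ∃ t : ℤ, Z.trace = t + ε := ⟨Z.trace - ε, by ring⟩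
  have hrec : ∀ k i, zs Z p (k + 3) i = ((t : ℝ) + ε) * zs Z p (k + 2) i -
      ε * ((t : ℝ) + ε) * zs Z p (k + 1) i + ε * zs Z p k i := by
    intro k i
    have := zs_rec h p k i
    rw [hε, ht] at this
    push_cast at this
    exact this
  have hcases : (t = 0 ∨ t = 1 ∨ t = -1) ∨ (t = 2 ∨ t = -2) ∨ (3 ≤ t ∨ t ≤ -3) := by omega
  rcases hcases with hcase | hcase | hcase
  · -- elliptic
    apply periodic_case p n 12 (by norm_num)
    intro k
    funext i
    have r0 := hrec k i
    have r1 := hrec (k + 1) i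
    have r2 := hrec (k + 2) i
    have r3 := hrec (k + 3) i
    have r4 := hrec (k + 4) i
    have r5 := hrec (k + 5) i
    have r6 := hrec (k + 6) i
    have r7 := hrec (k + 7) i
    have r8 := hrec (k + 8) i
    have r9 := hrec (k + 9) i
    simp only [add_assoc] at r0 r1 r2 r3 r4 r5 r6 r7 r8 r9
    norm_num at r0 r1 r2 r3 r4 r5 r6 r7 r8 r9
    rcases hε1 with rfl | rfl <;> rcases hcase with rfl | rfl | rfl <;>
      norm_num at r0 r1 r2 r3 r4 r5 r6 r7 r8 r9 <;> linarith
  · -- parabolic
    obtain ⟨r, hr⟩ : ∃ r : ℕ, ∃ᶠ j in atTop, n j % 2 = r := by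
      by_contra hcon
      push Not at hcon
      have h0 := hcon 0
      have h1 := hcon 1
      obtain ⟨j, hj⟩ := (h0.and h1).exists
      omega
    have hb3 : ∀ m i, zs Z p (2 * (m + 3) + r) i = 3 * zs Z p (2 * (m + 2) + r) i -
        3 * zs Z p (2 * (m + 1) + r) i + zs Z p (2 * m + r) i := by
      intro m i
      have r0 := hrec (2 * m + r) i
      have r1 := hrec (2 * m + r + 1) i
      have r2 := hrec (2 * m + r + 2) i
      have r3 := hrec (2 * m + r + 3) i
      rw [show 2 * (m + 3) + r = 2 * m + r + 6 by ring, show 2 * (m + 2) + r = 2 * m + r + 4 by ring,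
        show 2 * (m + 1) + r = 2 * m + r + 2 by ring]
      simp only [add_assoc] at r0 r1 r2 r3 ⊢
      norm_num at r0 r1 r2 r3 ⊢
      rcases hε1 with rfl | rfl <;> rcases hcase with rfl | rfl <;>
        norm_num at r0 r1 r2 r3 <;> linarith
    have hconst : ∀ (i : Fin 3) (m m' : ℕ), zs Z p (2 * m + r) i = zs Z p (2 * m' + r) i := by
      intro i
      set b : ℕ → ℝ := fun m => zs Z p (2 * m + r) i with hb
      set d1 := b 1 - b 0 with hd1
      set d2 := b 2 - 2 * b 1 + b 0 with hd2
      have hform : ∀ m : ℕ, b m = b 0 + m * d1 + m * (m - 1) / 2 * d2 ∧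
          b (m + 1) = b 0 + (m + 1) * d1 + (m + 1) * m / 2 * d2 ∧
          b (m + 2) = b 0 + (m + 2) * d1 + (m + 2) * (m + 1) / 2 * d2 := by
        intro m
        induction m with
        | zero =>
          refine ⟨by simp, by rw [hd1]; simp, ?_⟩
          rw [hd1, hd2]; push_cast; ring_nf
        | succ m ih =>
          obtain ⟨i1, i2, i3⟩ := ih
          refine ⟨?_, ?_, ?_⟩
          · rw [i2]; push_cast; ring
          · rw [show m + 1 + 1 = m + 2 by ring, i3]; push_cast; ring
          · have h3 : b (m + 3) = 3 * b (m + 2) - 3 * b (m + 1) + b m := hb3 m i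
            rw [show m + 1 + 2 = m + 3 by ring, h3, i1, i2, i3]; push_cast; ring
      let P : Polynomial ℝ := Polynomial.C (b 0) + Polynomial.C d1 * Polynomial.X +
        Polynomial.C (d2 / 2) * (Polynomial.X * (Polynomial.X - Polynomial.C 1))
      have hP : ∀ m : ℕ, b m = P.eval (m : ℝ) := by
        intro m
        rw [(hform m).1]
        simp [P]
        ring
      have hdeg : ¬ (0 < P.degree) := by
        intro hdeg
        have h1 := P.abs_tendsto_atTop hdeg
        obtain ⟨K, hK⟩ := hbdd i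
        have hnt : Tendsto (fun j => ((n j / 2 : ℕ) : ℝ)) atTop atTop := by
          refine tendsto_natCast_atTop_atTop.comp ?_
          refine tendsto_atTop.2 fun B => ?_
          filter_upwards [hn.tendsto_atTop.eventually_ge_atTop (2 * B)] with j hj
          omega
        have h2 := (h1.comp hnt).eventually_gt_atTop K
        obtain ⟨j, hj1, hj2, hj3⟩ := (hr.and_eventually (hK.and h2)).exists
        have hnj : 2 * (n j / 2) + r = n j := by omega
        change K < |P.eval ((n j / 2 : ℕ) : ℝ)| at hj3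
        rw [← hP] at hj3
        change K < |zs Z p (2 * (n j / 2) + r) i| at hj3
        rw [hnj] at hj3
        linarith
      have hPc : P = Polynomial.C (P.coeff 0) := Polynomial.eq_C_of_degree_le_zero (not_lt.1 hdeg)
      intro m m'
      change b m = b m'
      rw [hP, hP, hPc]
      simp
    obtain ⟨j, hj1⟩ := hr.exists
    obtain ⟨j', hj'1, hj'2⟩ := (hr.and_eventually (eventually_gt_atTop j)).exists
    refine ⟨j, j', ne_of_lt hj'2, ?_⟩
    funext i
    have e1 : 2 * (n j / 2) + r = n j := by omega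
    have e2 : 2 * (n j' / 2) + r = n j' := by omega
    rw [← e1, ← e2]
    exact hconst i _ _
  · -- hyperbolic
    obtain ⟨lam, hlam, hlam1⟩ : ∃ lam : ℝ, lam * lam = t * lam - 1 ∧ 1 < |lam| := by
      have ht2 : (0 : ℝ) ≤ (t : ℝ) ^ 2 - 4 := by
        rcases hcase with h3 | h3
        · have : (3 : ℝ) ≤ t := by exact_mod_cast h3
          nlinarith
        · have : (t : ℝ) ≤ -3 := by exact_mod_cast h3
          nlinarith
      have hs := Real.sq_sqrt ht2
      have hs0 := Real.sqrt_nonneg ((t : ℝ) ^ 2 - 4)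
      set s := Real.sqrt ((t : ℝ) ^ 2 - 4)
      rcases hcase with h3 | h3
      · have h4 : (3 : ℝ) ≤ t := by exact_mod_cast h3
        refine ⟨(t + s) / 2, by nlinarith, ?_⟩
        rw [lt_abs]; left; linarith
      · have h4 : (t : ℝ) ≤ -3 := by exact_mod_cast h3
        refine ⟨(t - s) / 2, by nlinarith, ?_⟩
        rw [lt_abs]; right; linarith
    set mu := (t : ℝ) - lam with hmu
    have hlm : lam * mu = 1 := by rw [hmu]; linarith
    have hmu1 : |mu| < 1 := by
      have h1 : |lam| * |mu| = 1 := by rw [← abs_mul, hlm, abs_one]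
      by_contra hcon
      push Not at hcon
      nlinarith [abs_nonneg mu]
    have hfix : ∀ i : Fin 3, (rm Z).mulVec e0 i = ε * e0 i := by
      intro i
      set d : ℕ → ℝ := fun k => zs Z p (k + 1) i - ε * zs Z p k i with hd
      have hε2 : (ε : ℝ) * ε = 1 := by rcases hε1 with rfl | rfl <;> norm_num
      have hdrec : ∀ k, d (k + 2) = t * d (k + 1) - d k := by
        intro k
        have h1 := hrec k i
        simp only [hd]
        rw [show k + 2 + 1 = k + 3 by ring, show k + 1 + 1 = k + 2 by ring, h1]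
        linear_combination (t * zs Z p (k + 1) i * 0 - zs Z p (k + 1) i) * hε2
      set e : ℕ → ℝ := fun k => d (k + 1) - mu * d k with he
      have hepow : ∀ k, e k = lam ^ k * e 0 := by
        intro k
        induction k with
        | zero => simp
        | succ k ih =>
          have h1 : e (k + 1) = lam * e k := by
            simp only [he]
            rw [hdrec k]
            have htl : (t : ℝ) = lam + mu := by rw [hmu]; ring
            linear_combination (d (k + 1)) * htl + (d k) * hlm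
          rw [h1, ih, pow_succ]; ring
      have he0z : e 0 = 0 := by
        by_contra hne
        have hpos : 0 < |e 0| := abs_pos.2 hne
        -- c_j e(n_j) converges
        have hce : Tendsto (fun j => c j * e (n j)) atTop (𝓝
            (((rm Z ^ 2).mulVec e0 i - ε * (rm Z ^ 1).mulVec e0 i) -
              mu * ((rm Z ^ 1).mulVec e0 i - ε * (rm Z ^ 0).mulVec e0 i))) := by
          have h1 := ((hlimi 2 i).sub ((hlimi 1 i).const_mul (ε : ℝ))).sub
            (((hlimi 1 i).sub ((hlimi 0 i).const_mul (ε : ℝ))).const_mul mu)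
          refine h1.congr fun j => ?_
          simp only [he, hd, add_zero]
          rw [show n j + 1 + 1 = n j + 2 by ring]
          ring
        have hup := hce.abs.eventually_lt_const (lt_add_one _)
        set K := |((rm Z ^ 2).mulVec e0 i - ε * (rm Z ^ 1).mulVec e0 i) -
              mu * ((rm Z ^ 1).mulVec e0 i - ε * (rm Z ^ 0).mulVec e0 i)| + 1
        have hbig : Tendsto (fun j => δ * |e 0| * |lam| ^ (n j)) atTop atTop := by
          apply Tendsto.const_mul_atTop (by positivity)
          exact (tendsto_pow_atTop_atTop_of_one_lt hlam1).comp hn.tendsto_atTop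
        obtain ⟨j, hj1, hj2, hj3⟩ := (hup.and (hδc.and (hbig.eventually_gt_atTop K))).exists
        have hj4 : |c j * e (n j)| = |c j| * (|lam| ^ (n j) * |e 0|) := by
          rw [hepow, abs_mul, abs_mul, abs_pow]
        rw [hj4] at hj1
        have hj5 : δ * (|lam| ^ (n j) * |e 0|) ≤ |c j| * (|lam| ^ (n j) * |e 0|) :=
          mul_le_mul_of_nonneg_right hj2 (by positivity)
        nlinarith
      have hdpow : ∀ k, d k = mu ^ k * d 0 := by
        intro k
        induction k with
        | zero => simp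
        | succ k ih =>
          have h1 : e k = 0 := by rw [hepow, he0z, mul_zero]
          have h2 : d (k + 1) = mu * d k := by
            have : d (k + 1) - mu * d k = 0 := h1
            linarith
          rw [h2, ih, pow_succ]; ring
      have hd0 : Tendsto (fun j => d (n j)) atTop (𝓝 0) := by
        have h1 : Tendsto (fun k : ℕ => mu ^ k) atTop (𝓝 0) :=
          tendsto_pow_atTop_nhds_zero_of_abs_lt_one hmu1
        have h2 := (h1.comp hn.tendsto_atTop).mul_const (d 0)
        rw [zero_mul] at h2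
        refine h2.congr fun j => ?_
        rw [hdpow (n j)]; rfl
      have hcd0 : Tendsto (fun j => c j * d (n j)) atTop (𝓝 0) := by
        refine squeeze_zero_norm' (a := fun j => C * |d (n j)|) ?_ ?_
        · filter_upwards [hC] with j hj
          rw [Real.norm_eq_abs, abs_mul]
          exact mul_le_mul_of_nonneg_right hj (abs_nonneg _)
        · have := hd0.abs.const_mul C
          simpa using this
      have hcd : Tendsto (fun j => c j * d (n j)) atTop
          (𝓝 ((rm Z ^ 1).mulVec e0 i - ε * (rm Z ^ 0).mulVec e0 i)) := by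
        have h1 := (hlimi 1 i).sub ((hlimi 0 i).const_mul (ε : ℝ))
        refine h1.congr fun j => ?_
        simp only [hd, add_zero]
        ring
      have huniq := tendsto_nhds_unique hcd hcd0
      rw [pow_one, pow_zero, Matrix.one_mulVec] at huniq
      linarith
    have hcol : ∀ i : Fin 3, (rm Z).mulVec e0 i = (Z i 0 : ℝ) := by
      intro i
      rw [he0]
      simp [rm, Matrix.mulVec, dotProduct, Pi.single_apply]
    have h0 := hfix 0
    have h1 := hfix 1
    have h2 := hfix 2
    rw [hcol] at h0 h1 h2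
    have z0 : Z 0 0 = ε := by
      have : (Z 0 0 : ℝ) = ε := by rw [h0, he0]; simp
      exact_mod_cast this
    have z1 : Z 1 0 = 0 := by
      have : (Z 1 0 : ℝ) = 0 := by rw [h1, he0]; simp
      exact_mod_cast this
    have z2 : Z 2 0 = 0 := by
      have : (Z 2 0 : ℝ) = 0 := by rw [h2, he0]; simp
      exact_mod_cast this
    have hsq := h.sq_eq_one ε hε1 z0 z1 z2
    apply periodic_case p n 2 (by norm_num)
    intro k
    rw [zs_add]
    have : rm Z ^ 2 = 1 := by
      have h3 := congrArg (Int.castRingHom ℝ).mapMatrix hsq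
      rw [map_pow, map_one] at h3
      exact h3
    rw [this, Matrix.one_mulVec]

end

end Q30.Lim
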