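import Mathlib

/-!
# Pilings

The normal form theorem for right-angled Artin groups, by means of pilings. Part of the solution of
MP_7325c9.
-/

namespace Q30.VR

open Classical

variable {V : Type} (Γ : SimpleGraph V)

/-- the inverse letter -/
def nv (y : V × Bool) : V × Bool := (y.1, !y.2)

@[simp] theorem nv_nv (y : V × Bool) : nv (nv y) = y := by
  rcases y with ⟨a, b⟩
  simp [nv]

@[simp] theorem nv_fst (y : V × Bool) : (nv y).1 = y.1 := rfl

theorem nv_ne (y : V × Bool) : nv y ≠ y := by
  rcases y with ⟨a, b⟩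
  cases b <;> simp [nv]

/-- add a letter on top of a piling -/
noncomputable def push (y : V × Bool) (P : V → List (Option Bool)) : V → List (Option Bool) :=
  fun x => if x = y.1 then some y.2 :: P x else if Γ.Adj x y.1 then P x else none :: P x

/-- remove a letter from the top of a piling -/
noncomputable def pop (y : V × Bool) (P : V → List (Option Bool)) : V → List (Option Bool) :=
  fun x => if x = y.1 then (P x).tail else if Γ.Adj x y.1 then P x else (P x).tail

/-- the piling of a word -/
noncomputable def pil : List (V × Bool) → (V → List (Option Bool))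
  | [] => fun _ => []
  | y :: w => push Γ y (pil w)

/-- the letter can be moved to the front of the word -/
def Fst (y : V × Bool) : List (V × Bool) → Prop
  | [] => False
  | x :: w => y = x ∨ (Γ.Adj y.1 x.1 ∧ Fst y w)

/-- the letter can be moved to the end of the word -/
def Lst (y : V × Bool) : List (V × Bool) → Prop
  | [] => False
  | x :: w => Lst y w ∨ (y = x ∧ ∀ a ∈ w, Γ.Adj y.1 a.1)

/-- reduced words -/
def Red : List (V × Bool) → Prop
  | [] => True
  | y :: w => Red w ∧ ¬ Fst Γ (nv y) w

variable {Γ}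

theorem Fst.mem {y : V × Bool} : ∀ {w : List (V × Bool)}, Fst Γ y w → y ∈ w
  | [], h => h.elim
  | x :: w, h => by
    rcases h with rfl | ⟨-, h⟩
    · exact List.mem_cons_self
    · exact List.mem_cons_of_mem _ h.mem

theorem Lst.mem {y : V × Bool} : ∀ {w : List (V × Bool)}, Lst Γ y w → y ∈ w
  | [], h => h.elim
  | x :: w, h => by
    rcases h with h | ⟨rfl, -⟩
    · exact List.mem_cons_of_mem _ h.mem
    · exact List.mem_cons_self

theorem fst_append (y : V × Bool) (a b : List (V × Bool)) :
    Fst Γ y (a ++ b) ↔ Fst Γ y a ∨ ((∀ x ∈ a, Γ.Adj y.1 x.1) ∧ Fst Γ y b) := by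
  induction a with
  | nil => simp [Fst]
  | cons x a ih =>
    rw [List.cons_append, Fst, Fst, ih, List.forall_mem_cons]
    tauto

theorem lst_append (y : V × Bool) (a b : List (V × Bool)) :
    Lst Γ y (a ++ b) ↔ Lst Γ y b ∨ (Lst Γ y a ∧ ∀ x ∈ b, Γ.Adj y.1 x.1) := by
  induction a with
  | nil => simp [Lst]
  | cons x a ih =>
    rw [List.cons_append, Lst, Lst, ih]
    simp only [List.mem_append, or_imp, forall_and]
    tauto

theorem red_append (a b : List (V × Bool)) :
    Red Γ (a ++ b) ↔ Red Γ a ∧ Red Γ b ∧ ∀ y, Lst Γ y a → ¬ Fst Γ (nv y) b := by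
  induction a with
  | nil => simp [Red, Lst]
  | cons x a ih =>
    rw [List.cons_append, Red, Red, ih, fst_append]
    simp only [Lst]
    constructor
    · rintro ⟨⟨h1, h2, h3⟩, h4⟩
      push Not at h4
      refine ⟨⟨h1, h4.1⟩, h2, fun y hy => ?_⟩
      rcases hy with hy | ⟨rfl, hy⟩
      · exact h3 y hy
      · exact h4.2 hy
    · rintro ⟨⟨h1, h2⟩, h3, h4⟩
      refine ⟨⟨h1, h3, fun y hy => h4 y (Or.inl hy)⟩, ?_⟩
      rintro (h | ⟨h, h'⟩)
      · exact h2 h
      · exact h4 x (Or.inr ⟨rfl, h⟩) h'

theorem head_push_self (y : V × Bool) (P : V → List (Option Bool)) :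
    (push Γ y P y.1).head? = some (some y.2) := by
  simp [push]

theorem push_adj {y : V × Bool} (P : V → List (Option Bool)) {x : V} (h : Γ.Adj x y.1) :
    push Γ y P x = P x := by
  unfold push
  rw [if_neg h.ne, if_pos h]

theorem pop_adj {y : V × Bool} (P : V → List (Option Bool)) {x : V} (h : Γ.Adj x y.1) :
    pop Γ y P x = P x := by
  unfold pop
  rw [if_neg h.ne, if_pos h]

theorem pop_push (y : V × Bool) (P : V → List (Option Bool)) : pop Γ (nv y) (push Γ y P) = P := by
  funext x
  unfold pop push
  simp only [nv_fst]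
  split_ifs <;> simp

theorem push_comm {y z : V × Bool} (h : Γ.Adj y.1 z.1) (P : V → List (Option Bool)) :
    push Γ y (push Γ z P) = push Γ z (push Γ y P) := by
  funext x
  by_cases h1 : x = y.1
  · subst h1
    rw [push_adj (y := z) _ h]
    simp [push, h, h.ne]
  · by_cases h2 : x = z.1
    · subst h2
      rw [push_adj (y := y) _ h.symm]
      simp [push, h.symm, h.ne']
    · simp only [push, if_neg h1, if_neg h2]
      split_ifs <;> rfl

theorem fst_iff (y : V × Bool) (w : List (V × Bool)) :
    Fst Γ y w ↔ (pil Γ w y.1).head? = some (some y.2) := by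
  induction w with
  | nil => simp [Fst, pil]
  | cons x w ih =>
    rw [Fst, pil]
    by_cases h1 : y.1 = x.1
    · have h2 : ¬ Γ.Adj y.1 x.1 := by rw [h1]; exact Γ.loopless.irrefl _
      have h3 : y = x ↔ y.2 = x.2 := by
        rw [Prod.ext_iff]; simp [h1]
      rw [h3]
      simp only [h2, false_and, or_false]
      unfold push
      rw [if_pos h1]
      simp [eq_comm]
    · have h3 : y ≠ x := fun h => h1 (by rw [h])
      by_cases h2 : Γ.Adj y.1 x.1
      · rw [push_adj _ h2, ← ih]
        simp [h2, h3]
      · unfold push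
        rw [if_neg h1, if_neg h2]
        simp [h2, h3]

/-- Extraction of a first letter. -/
theorem Fst.extract {y : V × Bool} : ∀ {w : List (V × Bool)}, Fst Γ y w →
    ∃ w' : List (V × Bool), pil Γ w = push Γ y (pil Γ w') ∧ w'.length + 1 = w.length ∧
      (Red Γ w → Red Γ (y :: w')) ∧ (∀ a ∈ w', a ∈ w) ∧
      (∀ z, z ≠ y → Lst Γ z w → Lst Γ z w') ∧
      (∀ (G : Type) [Group G] (f : V × Bool → G),
        (∀ a b, Γ.Adj a.1 b.1 → Commute (f a) (f b)) → (w.map f).prod = f y * (w'.map f).prod)
  | [], h => h.elim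
  | x :: w, h => by
    rcases h with rfl | ⟨hadj, h⟩
    · refine ⟨w, rfl, rfl, id, fun a ha => List.mem_cons_of_mem _ ha, ?_, ?_⟩
      · intro z hz hl
        rcases hl with hl | ⟨hl, -⟩
        · exact hl
        · exact absurd hl hz
      · intro G _ f hf
        rw [List.map_cons, List.prod_cons]
    · obtain ⟨w', h1, h2, h3, h4, h5, h6⟩ := h.extract
      refine ⟨x :: w', ?_, ?_, ?_, ?_, ?_, ?_⟩
      · rw [pil, pil, h1, push_comm hadj]
      · simp [h2]
      · rintro ⟨r1, r2⟩
        obtain ⟨r3, r4⟩ := h3 r1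
        refine ⟨⟨r3, ?_⟩, ?_⟩
        · rw [fst_iff] at r2 ⊢
          rw [h1, push_adj _ (by simpa using hadj.symm)] at r2
          exact r2
        · rintro (h | ⟨-, h⟩)
          · have : y.1 = x.1 := by rw [← h]; rfl
            rw [this] at hadj
            exact Γ.loopless.irrefl _ hadj
          · exact r4 h
      · intro a ha
        rw [List.mem_cons] at ha ⊢
        exact ha.imp id (h4 a)
      · intro z hz hl
        rcases hl with hl | ⟨hl, hall⟩
        · exact Or.inl (h5 z hz hl)
        · exact Or.inr ⟨hl, fun a ha => hall a (h4 a ha)⟩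
      · intro G _ f hf
        rw [List.map_cons, List.prod_cons, List.map_cons, List.prod_cons, h6 G f hf, ← mul_assoc,
          ← mul_assoc, (hf y x hadj).eq]

/-- Extraction of a last letter. -/
theorem Lst.extract {y : V × Bool} : ∀ {w : List (V × Bool)}, Lst Γ y w →
    ∃ w' : List (V × Bool), w'.length + 1 = w.length ∧
      (∀ (G : Type) [Group G] (f : V × Bool → G),
        (∀ a b, Γ.Adj a.1 b.1 → Commute (f a) (f b)) → (w.map f).prod = (w'.map f).prod * f y)
  | [], h => h.elim
  | x :: w, h => by
    rcases h with h | ⟨rfl, h⟩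
    · obtain ⟨w', h1, h2⟩ := h.extract
      refine ⟨x :: w', by simp [h1], fun G _ f hf => ?_⟩
      rw [List.map_cons, List.prod_cons, List.map_cons, List.prod_cons, h2 G f hf, mul_assoc]
    · refine ⟨w, rfl, fun G _ f hf => ?_⟩
      rw [List.map_cons, List.prod_cons]
      have : Commute (f y) (w.map f).prod := by
        apply Commute.list_prod_right
        intro a ha
        obtain ⟨b, hb, rfl⟩ := List.mem_map.1 ha
        exact hf y b (h b hb)
      exact this.eq

/-- A word which is not reduced can be shortened. -/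
theorem shorten : ∀ {w : List (V × Bool)}, ¬ Red Γ w →
    ∃ w' : List (V × Bool), w'.length < w.length ∧
      (∀ (G : Type) [Group G] (f : V × Bool → G),
        (∀ a b, Γ.Adj a.1 b.1 → Commute (f a) (f b)) → (∀ a, f (nv a) = (f a)⁻¹) →
          (w.map f).prod = (w'.map f).prod)
  | [], h => absurd trivial h
  | x :: w, h => by
    by_cases hw : Red Γ w
    · have h1 : Fst Γ (nv x) w := by
        by_contra hcon
        exact h ⟨hw, hcon⟩
      obtain ⟨w', -, h2, -, -, -, h3⟩ := h1.extract
      refine ⟨w', by simp; omega, fun G _ f hf hf' => ?_⟩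
      rw [List.map_cons, List.prod_cons, h3 G f hf, hf', mul_inv_cancel_left]
    · obtain ⟨w', h1, h2⟩ := shorten hw
      refine ⟨x :: w', by simpa using h1, fun G _ f hf hf' => ?_⟩
      rw [List.map_cons, List.prod_cons, List.map_cons, List.prod_cons, h2 G f hf hf']

end Q30.VR
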