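import Pool.Agent.Q30.Pil

/-!
# The action on pilings

Part of the solution of MP_7325c9.
-/

namespace Q30.VR

open Classical

variable {V : Type} (Γ : SimpleGraph V)

/-- pilings of reduced words -/
def St : Type _ := {P : V → List (Option Bool) // ∃ w, Red Γ w ∧ pil Γ w = P}

/-- the left multiplication by a letter, on pilings -/
noncomputable def act (y : V × Bool) (P : V → List (Option Bool)) : V → List (Option Bool) :=
  if (P y.1).head? = some (some (nv y).2) then pop Γ y P else push Γ y P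

variable {Γ}

theorem act_of_first {y : V × Bool} {w : List (V × Bool)} (hw : Red Γ w) (h : Fst Γ (nv y) w) :
    ∃ w', Red Γ (nv y :: w') ∧ pil Γ w = push Γ (nv y) (pil Γ w') ∧ act Γ y (pil Γ w) = pil Γ w' := by
  obtain ⟨w', h1, -, h2, -⟩ := h.extract
  refine ⟨w', h2 hw, h1, ?_⟩
  have h3 := (fst_iff _ _).1 h
  rw [nv_fst] at h3
  rw [act, if_pos h3, h1]
  have := pop_push (Γ := Γ) (nv y) (pil Γ w')
  rwa [nv_nv] at this

theorem act_of_not_first {y : V × Bool} {w : List (V × Bool)} (h : ¬ Fst Γ (nv y) w) :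
    act Γ y (pil Γ w) = pil Γ (y :: w) := by
  rw [fst_iff, nv_fst] at h
  rw [act, if_neg h, pil]

theorem act_mem {y : V × Bool} {w : List (V × Bool)} (hw : Red Γ w) :
    ∃ w', Red Γ w' ∧ pil Γ w' = act Γ y (pil Γ w) := by
  by_cases h : Fst Γ (nv y) w
  · obtain ⟨w', h1, -, h2⟩ := act_of_first hw h
    exact ⟨w', h1.1, h2.symm⟩
  · exact ⟨y :: w, ⟨hw, h⟩, (act_of_not_first h).symm⟩

theorem act_act {y : V × Bool} {w : List (V × Bool)} (hw : Red Γ w) :
    act Γ (nv y) (act Γ y (pil Γ w)) = pil Γ w := by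
  by_cases h : Fst Γ (nv y) w
  · obtain ⟨w', h1, h2, h3⟩ := act_of_first hw h
    rw [h3, h2, act_of_not_first h1.2, pil]
  · rw [act_of_not_first h]
    rw [act, nv_nv, nv_fst]
    have h1 : (pil Γ (y :: w) y.1).head? = some (some y.2) := head_push_self y _
    rw [if_pos h1, pil, pop_push]

theorem act_adj_other {y : V × Bool} {x : V} (h : Γ.Adj x y.1) (P : V → List (Option Bool)) :
    act Γ y P x = P x := by
  unfold act
  split_ifs
  · exact pop_adj _ h
  · exact push_adj _ h

theorem act_comm {y z : V × Bool} (h : Γ.Adj y.1 z.1) {w : List (V × Bool)} (hw : Red Γ w) :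
    act Γ y (act Γ z (pil Γ w)) = act Γ z (act Γ y (pil Γ w)) := by
  -- membership of first letters is not affected
  have hz1 : (act Γ z (pil Γ w) y.1).head? = (pil Γ w y.1).head? := by rw [act_adj_other h]
  have hy1 : (act Γ y (pil Γ w) z.1).head? = (pil Γ w z.1).head? := by rw [act_adj_other h.symm]
  by_cases hy : Fst Γ (nv y) w
  · by_cases hz : Fst Γ (nv z) w
    · have hy' := (fst_iff _ _).1 hy
      have hz' := (fst_iff _ _).1 hz
      rw [nv_fst] at hy' hz'
      have e1 : act Γ y (act Γ z (pil Γ w)) = pop Γ y (pop Γ z (pil Γ w)) := by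
        rw [act, hz1, if_pos hy', act, if_pos hz']
      have e2 : act Γ z (act Γ y (pil Γ w)) = pop Γ z (pop Γ y (pil Γ w)) := by
        rw [act, hy1, if_pos hz', act, if_pos hy']
      rw [e1, e2]
      funext x
      by_cases h1 : x = y.1
      · subst h1
        rw [pop_adj (y := z) _ h]
        simp only [pop, if_true]
        rw [if_neg h.ne, if_pos h]
      · by_cases h2 : x = z.1
        · subst h2
          rw [pop_adj (y := y) _ h.symm]
          simp only [pop, if_true]
          rw [if_neg h.ne', if_pos h.symm]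
        · simp only [pop, if_neg h1, if_neg h2]
          split_ifs <;> rfl
    · obtain ⟨w', h1, h2, h3⟩ := act_of_first hw hy
      have hz' := hz
      have hy' := (fst_iff _ _).1 hy
      rw [fst_iff] at hz'
      rw [nv_fst] at hy' hz'
      rw [h3]
      have e1 : act Γ z (pil Γ w) = push Γ z (pil Γ w) := by rw [act, if_neg hz']
      have e2 : act Γ y (act Γ z (pil Γ w)) = pop Γ y (push Γ z (pil Γ w)) := by
        rw [act, hz1, if_pos hy', e1]
      have e3 : act Γ z (pil Γ w') = push Γ z (pil Γ w') := by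
        have : (pil Γ w' z.1).head? = (pil Γ w z.1).head? := by
          rw [h2, push_adj _ (by simpa using h.symm)]
        rw [act, this, if_neg hz']
      rw [e2, e3, h2, push_comm (by simpa using h.symm)]
      have := pop_push (Γ := Γ) (nv y) (push Γ z (pil Γ w'))
      rwa [nv_nv] at this
  · by_cases hz : Fst Γ (nv z) w
    · obtain ⟨w', h1, h2, h3⟩ := act_of_first hw hz
      have hy' := hy
      have hz' := (fst_iff _ _).1 hz
      rw [fst_iff] at hy'
      rw [nv_fst] at hy' hz'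
      rw [h3]
      have e1 : act Γ y (pil Γ w) = push Γ y (pil Γ w) := by rw [act, if_neg hy']
      have e2 : act Γ z (act Γ y (pil Γ w)) = pop Γ z (push Γ y (pil Γ w)) := by
        rw [act, hy1, if_pos hz', e1]
      have e3 : act Γ y (pil Γ w') = push Γ y (pil Γ w') := by
        have : (pil Γ w' y.1).head? = (pil Γ w y.1).head? := by
          rw [h2, push_adj _ (by simpa using h)]
        rw [act, this, if_neg hy']
      rw [e2, e3, h2, push_comm (by simpa using h)]
      have := pop_push (Γ := Γ) (nv z) (push Γ y (pil Γ w'))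
      rw [nv_nv] at this
      exact this.symm
    · have hy' := hy
      have hz' := hz
      rw [fst_iff, nv_fst] at hy' hz'
      have e1 : act Γ y (act Γ z (pil Γ w)) = push Γ y (push Γ z (pil Γ w)) := by
        rw [act, hz1, if_neg hy', act, if_neg hz']
      have e2 : act Γ z (act Γ y (pil Γ w)) = push Γ z (push Γ y (pil Γ w)) := by
        rw [act, hy1, if_neg hz', act, if_neg hy']
      rw [e1, e2, push_comm h]

/-! ## Relabelling -/

/-- relabelling of letters -/
def mpl (σ : Γ ≃g Γ) (y : V × Bool) : V × Bool := (σ y.1, y.2)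

/-- relabelling of pilings -/
def rel (σ : Γ ≃g Γ) (P : V → List (Option Bool)) : V → List (Option Bool) := fun x => P (σ.symm x)

theorem mpl_nv (σ : Γ ≃g Γ) (y : V × Bool) : mpl σ (nv y) = nv (mpl σ y) := rfl

theorem mpl_inj (σ : Γ ≃g Γ) {y z : V × Bool} : mpl σ y = mpl σ z ↔ y = z := by
  unfold mpl
  rw [Prod.ext_iff, Prod.ext_iff]
  simp

theorem mpl_one (y : V × Bool) : mpl (1 : Γ ≃g Γ) y = y := rfl

theorem mpl_mul (σ τ : Γ ≃g Γ) (y : V × Bool) : mpl (σ * τ) y = mpl σ (mpl τ y) := rfl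

theorem symm_eq_iff (σ : Γ ≃g Γ) (x v : V) : σ.symm x = v ↔ x = σ v := by
  constructor
  · intro h
    rw [← h]
    simp
  · intro h
    rw [h]
    simp

theorem adj_symm_iff (σ : Γ ≃g Γ) (x v : V) : Γ.Adj (σ.symm x) v ↔ Γ.Adj x (σ v) := by
  rw [← σ.map_adj_iff]
  simp

theorem rel_push (σ : Γ ≃g Γ) (y : V × Bool) (P : V → List (Option Bool)) :
    rel σ (push Γ y P) = push Γ (mpl σ y) (rel σ P) := by
  funext x
  unfold rel push
  have hA : (σ.symm x = y.1) ↔ (x = (mpl σ y).1) := symm_eq_iff σ x y.1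
  have hB : Γ.Adj (σ.symm x) y.1 ↔ Γ.Adj x (mpl σ y).1 := adj_symm_iff σ x y.1
  by_cases h1 : σ.symm x = y.1
  · rw [if_pos h1, if_pos (hA.1 h1)]; rfl
  · have h1' := fun h => h1 (hA.2 h)
    by_cases h2 : Γ.Adj (σ.symm x) y.1
    · rw [if_neg h1, if_neg h1', if_pos h2, if_pos (hB.1 h2)]
    · rw [if_neg h1, if_neg h1', if_neg h2, if_neg (fun h => h2 (hB.2 h))]

theorem rel_pop (σ : Γ ≃g Γ) (y : V × Bool) (P : V → List (Option Bool)) :
    rel σ (pop Γ y P) = pop Γ (mpl σ y) (rel σ P) := by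
  funext x
  unfold rel pop
  have hA : (σ.symm x = y.1) ↔ (x = (mpl σ y).1) := symm_eq_iff σ x y.1
  have hB : Γ.Adj (σ.symm x) y.1 ↔ Γ.Adj x (mpl σ y).1 := adj_symm_iff σ x y.1
  by_cases h1 : σ.symm x = y.1
  · rw [if_pos h1, if_pos (hA.1 h1)]
  · have h1' := fun h => h1 (hA.2 h)
    by_cases h2 : Γ.Adj (σ.symm x) y.1
    · rw [if_neg h1, if_neg h1', if_pos h2, if_pos (hB.1 h2)]
    · rw [if_neg h1, if_neg h1', if_neg h2, if_neg (fun h => h2 (hB.2 h))]

theorem rel_act (σ : Γ ≃g Γ) (y : V × Bool) (P : V → List (Option Bool)) :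
    rel σ (act Γ y P) = act Γ (mpl σ y) (rel σ P) := by
  have h1 : rel σ P (mpl σ y).1 = P y.1 := by
    simp [rel, mpl]
  have h2 : (nv (mpl σ y)).2 = (nv y).2 := rfl
  unfold act
  rw [h1, h2]
  split_ifs
  · exact rel_pop σ y P
  · exact rel_push σ y P

theorem rel_pil (σ : Γ ≃g Γ) (w : List (V × Bool)) : rel σ (pil Γ w) = pil Γ (w.map (mpl σ)) := by
  induction w with
  | nil => rfl
  | cons y w ih => rw [List.map_cons, pil, pil, rel_push, ih]

theorem fst_map (σ : Γ ≃g Γ) (y : V × Bool) (w : List (V × Bool)) :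
    Fst Γ (mpl σ y) (w.map (mpl σ)) ↔ Fst Γ y w := by
  induction w with
  | nil => simp [Fst]
  | cons x w ih =>
    rw [List.map_cons, Fst, Fst, ih, mpl_inj]
    have : Γ.Adj (mpl σ y).1 (mpl σ x).1 ↔ Γ.Adj y.1 x.1 := σ.map_adj_iff
    rw [this]

theorem lst_map (σ : Γ ≃g Γ) (y : V × Bool) (w : List (V × Bool)) :
    Lst Γ (mpl σ y) (w.map (mpl σ)) ↔ Lst Γ y w := by
  induction w with
  | nil => simp [Lst]
  | cons x w ih =>
    rw [List.map_cons, Lst, Lst, ih, mpl_inj, List.forall_mem_map]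
    have : ∀ a : V × Bool, Γ.Adj (mpl σ y).1 (mpl σ a).1 ↔ Γ.Adj y.1 a.1 := fun a => σ.map_adj_iff
    simp only [this]

theorem red_map (σ : Γ ≃g Γ) (w : List (V × Bool)) : Red Γ (w.map (mpl σ)) ↔ Red Γ w := by
  induction w with
  | nil => simp [Red]
  | cons x w ih => rw [List.map_cons, Red, Red, ih, ← mpl_nv, fst_map]

/-! ## Permutations of the state space -/

/-- the permutation by a letter -/
noncomputable def pm (Γ : SimpleGraph V) (y : V × Bool) : Equiv.Perm (St Γ) where
  toFun P := ⟨act Γ y P.1, by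
    obtain ⟨P, w, hw, rfl⟩ := P
    exact act_mem hw⟩
  invFun P := ⟨act Γ (nv y) P.1, by
    obtain ⟨P, w, hw, rfl⟩ := P
    exact act_mem hw⟩
  left_inv P := by
    obtain ⟨P, w, hw, rfl⟩ := P
    exact Subtype.ext (act_act hw)
  right_inv P := by
    obtain ⟨P, w, hw, rfl⟩ := P
    have := act_act (y := nv y) hw
    rw [nv_nv] at this
    exact Subtype.ext this

theorem pm_nv (y : V × Bool) : pm Γ (nv y) = (pm Γ y)⁻¹ := by
  apply Equiv.ext
  intro P
  rfl

theorem pm_comm {y z : V × Bool} (h : Γ.Adj y.1 z.1) : Commute (pm Γ y) (pm Γ z) := by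
  apply Equiv.ext
  rintro ⟨P, w, hw, rfl⟩
  exact Subtype.ext (act_comm h hw)

/-- the permutation by a relabelling -/
def rp (Γ : SimpleGraph V) : (Γ ≃g Γ) →* Equiv.Perm (St Γ) where
  toFun σ :=
    { toFun := fun P => ⟨rel σ P.1, by
        obtain ⟨P, w, hw, rfl⟩ := P
        exact ⟨w.map (mpl σ), (red_map σ w).2 hw, (rel_pil σ w).symm⟩⟩
      invFun := fun P => ⟨rel σ⁻¹ P.1, by
        obtain ⟨P, w, hw, rfl⟩ := P
        exact ⟨w.map (mpl σ⁻¹), (red_map σ⁻¹ w).2 hw, (rel_pil σ⁻¹ w).symm⟩⟩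
      left_inv := fun P => by
        apply Subtype.ext
        funext x
        change P.1 (σ.symm (σ x)) = P.1 x
        rw [σ.symm_apply_apply]
      right_inv := fun P => by
        apply Subtype.ext
        funext x
        change P.1 (σ (σ.symm x)) = P.1 x
        rw [σ.apply_symm_apply] }
  map_one' := by
    apply Equiv.ext
    intro P
    rfl
  map_mul' σ τ := by
    apply Equiv.ext
    intro P
    rfl

theorem rp_pm (σ : Γ ≃g Γ) (y : V × Bool) : rp Γ σ * pm Γ y = pm Γ (mpl σ y) * rp Γ σ := by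
  apply Equiv.ext
  intro P
  exact Subtype.ext (rel_act σ y P.1)

/-- the empty piling -/
noncomputable def P0 (Γ : SimpleGraph V) : St Γ := ⟨pil Γ [], [], trivial, rfl⟩

theorem rp_P0 (σ : Γ ≃g Γ) : rp Γ σ (P0 Γ) = P0 Γ := rfl

theorem pm_red {w : List (V × Bool)} (hw : Red Γ w) :
    (((w.map (pm Γ)).prod) (P0 Γ)).1 = pil Γ w := by
  induction w with
  | nil => rfl
  | cons y w ih =>
    rw [List.map_cons, List.prod_cons, Equiv.Perm.mul_apply]
    change act Γ y _ = _
    rw [ih hw.1, act_of_not_first hw.2]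

/-! ## Size -/

section
variable [Fintype V]

/-- the number of signs in a piling -/
def sz (P : V → List (Option Bool)) : ℕ := ∑ v, (P v).countP Option.isSome

theorem sz_push (y : V × Bool) (P : V → List (Option Bool)) : sz (push Γ y P) = sz P + 1 := by
  unfold sz
  have h : ∀ v, (push Γ y P v).countP Option.isSome =
      (P v).countP Option.isSome + if v = y.1 then 1 else 0 := by
    intro v
    unfold push
    split_ifs <;> simp
  simp only [h]
  rw [Finset.sum_add_distrib, Finset.sum_ite_eq' Finset.univ y.1]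
  simp

theorem sz_pil (w : List (V × Bool)) : sz (pil Γ w) = w.length := by
  induction w with
  | nil => simp [sz, pil]
  | cons y w ih => rw [pil, sz_push, ih, List.length_cons]

theorem sz_pm (y : V × Bool) (P : St Γ) : sz (pm Γ y P).1 ≤ sz P.1 + 1 := by
  obtain ⟨P, w, hw, rfl⟩ := P
  change sz (act Γ y (pil Γ w)) ≤ sz (pil Γ w) + 1
  by_cases h : Fst Γ (nv y) w
  · obtain ⟨w', h1, h2, h3⟩ := act_of_first hw h
    rw [h3, h2, sz_push]
    omega
  · rw [act_of_not_first h, pil, sz_push]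

theorem sz_rp (σ : Γ ≃g Γ) (P : St Γ) : sz (rp Γ σ P).1 = sz P.1 := by
  change sz (rel σ P.1) = _
  unfold sz rel
  exact Equiv.sum_comp σ.symm.toEquiv (fun v => (P.1 v).countP Option.isSome)

end

end Q30.VR
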