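import Mathlib

/-!
The power endomorphism `x ↦ x⁴` on the letters of a free group and its twisted conjugacy classes.
-/

namespace Q30.PowEnd

open FreeGroup hiding map_mul map_inv map_one norm

variable {α : Type} [DecidableEq α]

/-- The endomorphism sending every letter to its fourth power. -/
def phi : FreeGroup α →* FreeGroup α := FreeGroup.lift fun c => FreeGroup.of c ^ 4

/-- Repeat each letter four times. -/
def rep4 (L : List (α × Bool)) : List (α × Bool) := L.flatMap fun t => [t, t, t, t]

omit [DecidableEq α] in
theorem phi_mk (L : List (α × Bool)) : phi (mk L) = mk (rep4 L) := by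
  induction L with
  | nil => simp [rep4]; rfl
  | cons t L ih =>
    have h1 : (mk (t :: L) : FreeGroup α) = mk [t] * mk L := by rw [mul_mk]; rfl
    have h2 : (mk (rep4 (t :: L)) : FreeGroup α) = mk [t, t, t, t] * mk (rep4 L) := by
      rw [mul_mk]; rfl
    rw [h1, map_mul, ih, h2]
    congr 1
    obtain ⟨c, e⟩ := t
    cases e
    · have : (mk [(c, false)] : FreeGroup α) = (of c)⁻¹ := rfl
      rw [this, map_inv, phi, lift_apply_of]
      rw [← inv_pow]
      rfl
    · have : (mk [(c, true)] : FreeGroup α) = of c := rfl
      rw [this, phi, lift_apply_of]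
      rfl

omit [DecidableEq α] in
theorem rep4_length (L : List (α × Bool)) : (rep4 L).length = 4 * L.length := by
  induction L with
  | nil => rfl
  | cons t L ih =>
    have : rep4 (t :: L) = t :: t :: t :: t :: rep4 L := rfl
    rw [this]
    simp only [List.length_cons, ih]
    ring

omit [DecidableEq α] in
theorem rep4_head (L : List (α × Bool)) : (rep4 L).head? = L.head? := by
  cases L <;> rfl

omit [DecidableEq α] in
theorem rep4_isReduced {L : List (α × Bool)} (h : IsReduced L) : IsReduced (rep4 L) := by
  induction L with
  | nil => exact h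
  | cons t L ih =>
    have h2 : rep4 (t :: L) = t :: t :: t :: t :: rep4 L := rfl
    rw [h2]
    unfold FreeGroup.IsReduced at h ih ⊢
    rw [List.isChain_cons] at h
    refine List.isChain_cons_cons.mpr ⟨fun _ => rfl, List.isChain_cons_cons.mpr
      ⟨fun _ => rfl, List.isChain_cons_cons.mpr ⟨fun _ => rfl, ?_⟩⟩⟩
    rw [List.isChain_cons]
    refine ⟨?_, ih h.2⟩
    rw [rep4_head]
    exact h.1

/-- The word of `y` ends with a run of length one. -/
def Single (y : FreeGroup α) : Prop :=
  ∃ (L : List (α × Bool)) (s : α × Bool), y.toWord = L ++ [s] ∧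
    ∀ r ∈ L.getLast?, r.1 ≠ s.1

theorem norm_mk_of_isReduced {L : List (α × Bool)} (h : IsReduced L) :
    FreeGroup.norm (mk L) = L.length := by
  rw [FreeGroup.norm, toWord_mk, h.reduce_eq]

/-- At most one letter cancels between `y` and `phi z`. -/
theorem norm_mul_phi {y : FreeGroup α} (hy : Single y) (z : FreeGroup α) :
    FreeGroup.norm y + 4 * FreeGroup.norm z ≤ FreeGroup.norm (y * phi z) + 2 := by
  obtain ⟨L, s, hL, hs⟩ := hy
  have hyL : y = mk (L ++ [s]) := by rw [← hL, mk_toWord]
  have hred : IsReduced (L ++ [s]) := by rw [← hL]; exact isReduced_toWord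
  have hny : FreeGroup.norm y = L.length + 1 := by rw [FreeGroup.norm, hL, List.length_append]; rfl
  have hz : IsReduced z.toWord := isReduced_toWord
  have hzz : phi z = mk (rep4 z.toWord) := by rw [← phi_mk, mk_toWord]
  have hnz : FreeGroup.norm z = z.toWord.length := rfl
  rw [hny, hnz]
  rw [hyL, hzz, mul_mk]
  generalize z.toWord = R at hz
  have hR4 := rep4_isReduced hz
  match R, hz, hR4 with
  | [], _, _ =>
    have : L ++ [s] ++ rep4 [] = L ++ [s] := by simp [rep4]
    rw [this, norm_mk_of_isReduced hred]
    simp
  | t :: R, hz, hR4 =>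
    by_cases hst : s.1 = t.1 → s.2 = t.2
    · have h1 : IsReduced (L ++ [s] ++ rep4 (t :: R)) := by
        unfold FreeGroup.IsReduced at hred hR4 ⊢
        rw [List.isChain_append]
        refine ⟨hred, hR4, ?_⟩
        intro x hx y hy
        rw [rep4_head] at hy
        simp only [List.getLast?_append, List.getLast?_singleton, Option.some_or,
          Option.mem_def, Option.some.injEq, List.head?_cons] at hx hy
        subst hx hy
        exact hst
      rw [norm_mk_of_isReduced h1, List.length_append, List.length_append, rep4_length]
      simp only [List.length_cons, List.length_nil]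
      omega
    · push Not at hst
      have h2 : rep4 (t :: R) = t :: t :: t :: t :: rep4 R := rfl
      have h3 : (mk (L ++ [s] ++ rep4 (t :: R)) : FreeGroup α) =
          mk (L ++ (t :: t :: t :: rep4 R)) := by
        rw [h2]
        apply Quot.sound
        have : L ++ [s] ++ t :: t :: t :: t :: rep4 R =
            L ++ ((s.1, s.2) :: (s.1, !s.2) :: (t :: t :: t :: rep4 R)) := by
          have ht : t = (s.1, !s.2) := by
            obtain ⟨t1, t2⟩ := t
            obtain ⟨s1, s2⟩ := s
            simp only at hst ⊢
            obtain ⟨rfl, h⟩ := hst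
            cases s2 <;> cases t2 <;> simp_all
          rw [← ht]
          simp
        rw [this]
        exact Red.Step.not
      rw [h3]
      have h4 : IsReduced (L ++ (t :: t :: t :: rep4 R)) := by
        unfold FreeGroup.IsReduced at hred hR4 ⊢
        rw [List.isChain_append] at hred ⊢
        refine ⟨hred.1, ?_, ?_⟩
        · rw [h2] at hR4
          exact (List.isChain_cons_cons.mp hR4).2
        · intro x hx y hy hxy
          rw [List.head?_cons, Option.mem_def, Option.some.injEq] at hy
          subst hy
          exact absurd (hxy.trans hst.1.symm) (hs x hx)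
      rw [norm_mk_of_isReduced h4, List.length_append]
      simp only [List.length_cons, rep4_length]
      omega

/-- Elements whose word ends with a run of length one are the unique shortest elements of their
twisted conjugacy class. -/
theorem unique_shortest {y z : FreeGroup α} (hy : Single y) (hz : z ≠ 1) :
    FreeGroup.norm y < FreeGroup.norm (z * y * (phi z)⁻¹) := by
  have h1 := norm_mul_phi hy z⁻¹
  have h2 : FreeGroup.norm (y * phi z⁻¹) ≤ FreeGroup.norm z⁻¹ + FreeGroup.norm (z * y * (phi z)⁻¹) := by
    have : y * phi z⁻¹ = z⁻¹ * (z * y * (phi z)⁻¹) := by rw [map_inv]; group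
    rw [this]
    exact norm_mul_le _ _
  rw [norm_inv_eq] at h1 h2
  have h3 : FreeGroup.norm z ≠ 0 := fun h => hz (norm_eq_zero.mp h)
  omega

end Q30.PowEnd
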