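import Mathlib

/-!
Structure of the groups of the square complexes `Δ_X` for `X` of exponent two.
-/

set_option linter.style.haveILetI false

namespace Q30.SqRF

section abstract

variable {X : Type} [AddCommGroup X] {G : Type} [Group G]

/-- Relations satisfied by the generators. -/
structure Rel (a x : G) (z : X → G) : Prop where
  comm : Commute a x
  add : ∀ s t, z (s + t) = z s * z t
  rel : ∀ s, z s = (a⁻¹ * z s * a) * (x * z s * x⁻¹)

variable {a x : G} {z : X → G}

/-- conjugation by `a⁻¹` -/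
def al (a : G) : MulAut G := MulAut.conj a⁻¹
/-- conjugation by `x` -/
def xi (x : G) : MulAut G := MulAut.conj x

theorem al_apply (g : G) : al a g = a⁻¹ * g * a := by
  simp [al, MulAut.conj_apply]

theorem xi_apply (g : G) : xi x g = x * g * x⁻¹ := rfl

theorem Rel.aut_comm (h : Rel a x z) : Commute (al a) (xi x) :=
  (h.comm.inv_left).map (MulAut.conj)

theorem Rel.xi_z (h : Rel a x z) (s : X) : xi x (z s) = (al a (z s))⁻¹ * z s := by
  rw [eq_inv_mul_iff_mul_eq, al_apply, xi_apply]
  exact (h.rel s).symm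

theorem Rel.S0 (h : Rel a x z) (s t : X) : Commute (z s) (z t) := by
  change z s * z t = z t * z s
  rw [← h.add, ← h.add, add_comm]

theorem Rel.zero (h : Rel a x z) : z 0 = 1 := by
  have := h.add 0 0
  rw [add_zero] at this
  exact (mul_eq_left.mp this.symm)

theorem Rel.neg (h : Rel a x z) (s : X) : z (-s) = (z s)⁻¹ := by
  apply eq_inv_of_mul_eq_one_left
  rw [← h.add, neg_add_cancel, h.zero]

theorem Rel.S1 (h : Rel a x z) (s t : X) : Commute (z s) (al a (z t)) := by
  have h1 : xi x (z (s + t)) = xi x (z s) * xi x (z t) := by rw [h.add, map_mul]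
  rw [h.xi_z, h.xi_z, h.xi_z, h.add, map_mul] at h1
  have h2 : Commute (al a (z s)) (al a (z t)) := (h.S0 s t).map (al a)
  rw [h2.eq, mul_inv_rev] at h1
  have h3 : (al a (z t))⁻¹ * z s = z s * (al a (z t))⁻¹ := by
    have h4 : (al a (z s))⁻¹ * ((al a (z t))⁻¹ * z s) * z t =
        (al a (z s))⁻¹ * (z s * (al a (z t))⁻¹) * z t := by
      simpa only [mul_assoc] using h1
    exact mul_left_cancel (mul_right_cancel h4)
  have h5 : Commute (z s) (al a (z t))⁻¹ := h3.symm
  exact Commute.inv_right_iff.mp h5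

theorem Rel.comm_all (h : Rel a x z) : ∀ m : ℕ, ∀ s t : X, Commute (z s) ((al a ^ m) (z t))
  | 0, s, t => h.S0 s t
  | 1, s, t => by rw [pow_one]; exact h.S1 s t
  | m + 2, s, t => by
      have ih0 := h.comm_all m
      have ih1 := h.comm_all (m + 1)
      -- apply `xi`
      have h1 : Commute (xi x (z s)) (xi x ((al a ^ (m + 1)) (z t))) := (ih1 s t).map (xi x)
      have h2 : xi x ((al a ^ (m + 1)) (z t)) = (al a ^ (m + 1)) (xi x (z t)) := by
        have := (h.aut_comm.pow_left (m + 1)).eq
        exact (congrArg (fun f : MulAut G => f (z t)) this).symm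
      rw [h2, h.xi_z, h.xi_z, map_mul, map_inv] at h1
      have h3 : (al a ^ (m + 1)) (al a (z t)) = (al a ^ (m + 2)) (z t) := by
        rw [← MulAut.mul_apply, ← pow_succ]
      rw [h3] at h1
      -- known commutations
      have c1 : Commute (al a (z s)) ((al a ^ (m + 2)) (z t)) := by
        have := (ih1 s t).map (al a)
        change Commute (al a (z s)) (al a ((al a ^ (m + 1)) (z t))) at this
        rwa [← MulAut.mul_apply, ← pow_succ'] at this
      have c2 : Commute (al a (z s)) ((al a ^ (m + 1)) (z t)) := by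
        have := (ih0 s t).map (al a)
        change Commute (al a (z s)) (al a ((al a ^ m) (z t))) at this
        rwa [← MulAut.mul_apply, ← pow_succ'] at this
      have c3 : Commute (z s) ((al a ^ (m + 1)) (z t)) := ih1 s t
      generalize (al a ^ (m + 2)) (z t) = u at *
      generalize (al a ^ (m + 1)) (z t) = v at *
      generalize al a (z s) = w at *
      generalize z s = r at *
      -- `w⁻¹ r` commutes with `u⁻¹ v`; `w` commutes with `u,v`; `r` commutes with `v`
      have c4 : Commute w (u⁻¹ * v) := (c1.inv_right).mul_right c2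
      have c5 : Commute r (u⁻¹ * v) := by
        have := c4.mul_left h1
        rwa [mul_inv_cancel_left] at this
      have c6 : Commute r (u⁻¹ * v * v⁻¹) := c5.mul_right c3.inv_right
      rw [mul_inv_cancel_right] at c6
      exact Commute.inv_right_iff.mp c6

/-- The set of generators of the subgroup `P`. -/
def genP (a : G) (z : X → G) : Set G := {g | ∃ (i : ℕ) (s : X), g = (al a ^ i) (z s)}

/-- The subgroup generated by all `a^{-i} z_s a^i`, `i ≥ 0`. -/
def P (a : G) (z : X → G) : Subgroup G := Subgroup.closure (genP a z)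

theorem Rel.genP_comm (h : Rel a x z) : ∀ g ∈ genP a z, ∀ g' ∈ genP a z, g * g' = g' * g := by
  have key : ∀ (i k : ℕ) (s t : X), Commute ((al a ^ i) (z s)) ((al a ^ (i + k)) (z t)) := by
    intro i k s t
    have := (h.comm_all k s t).map (al a ^ i)
    change Commute ((al a ^ i) (z s)) ((al a ^ i) ((al a ^ k) (z t))) at this
    rwa [← MulAut.mul_apply, ← pow_add] at this
  rintro g ⟨i, s, rfl⟩ g' ⟨j, t, rfl⟩
  rcases le_total i j with hij | hij
  · obtain ⟨k, rfl⟩ := Nat.exists_eq_add_of_le hij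
    exact key i k s t
  · obtain ⟨k, rfl⟩ := Nat.exists_eq_add_of_le hij
    exact (key j k t s).symm

theorem al_mem {g : G} (hg : g ∈ P a z) : al a g ∈ P a z := by
  have h1 : al a g ∈ (P a z).map (al a).toMonoidHom := ⟨g, hg, rfl⟩
  unfold P at h1
  rw [MonoidHom.map_closure] at h1
  refine Subgroup.closure_mono ?_ h1
  rintro _ ⟨_, ⟨i, s, rfl⟩, rfl⟩
  refine ⟨i + 1, s, ?_⟩
  rw [pow_succ']
  rfl

theorem Rel.xi_mem (h : Rel a x z) {g : G} (hg : g ∈ P a z) : xi x g ∈ P a z := by
  have h1 : xi x g ∈ (P a z).map (xi x).toMonoidHom := ⟨g, hg, rfl⟩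
  unfold P at h1
  rw [MonoidHom.map_closure] at h1
  refine (Subgroup.closure_le _).mpr ?_ h1
  rintro _ ⟨_, ⟨i, s, rfl⟩, rfl⟩
  change xi x ((al a ^ i) (z s)) ∈ P a z
  have h2 : xi x ((al a ^ i) (z s)) = (al a ^ i) (xi x (z s)) := by
    have := (h.aut_comm.pow_left i).eq
    exact (congrArg (fun f : MulAut G => f (z s)) this).symm
  rw [h2, h.xi_z, map_mul, map_inv, ← MulAut.mul_apply, ← pow_succ]
  exact mul_mem (inv_mem (Subgroup.subset_closure ⟨_, _, rfl⟩))
    (Subgroup.subset_closure ⟨_, _, rfl⟩)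

theorem Rel.pow_mem (h : Rel a x z) (k l : ℕ) {g : G} (hg : g ∈ P a z) :
    (al a ^ k * xi x ^ l) g ∈ P a z := by
  have h1 : ∀ l : ℕ, (xi x ^ l) g ∈ P a z := by
    intro l
    induction l with
    | zero => exact hg
    | succ l ih =>
      rw [pow_succ', MulAut.mul_apply]
      exact h.xi_mem ih
  have h2 : ∀ (k : ℕ) (g' : G), g' ∈ P a z → (al a ^ k) g' ∈ P a z := by
    intro k g' hg'
    induction k with
    | zero => exact hg'
    | succ k ih =>
      rw [pow_succ', MulAut.mul_apply]
      exact al_mem ih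
  rw [MulAut.mul_apply]
  exact h2 k _ (h1 l)

theorem conj_pow (a x : G) (m n : ℤ) (g : G) :
    (a ^ m * x ^ n) * g * (a ^ m * x ^ n)⁻¹ = (al a ^ (-m) * xi x ^ n) g := by
  have h1 : al a ^ (-m) = MulAut.conj (a ^ m) := by
    rw [al, ← map_zpow, inv_zpow, ← zpow_neg, neg_neg]
  have h2 : xi x ^ n = MulAut.conj (x ^ n) := by
    rw [xi, ← map_zpow]
  rw [h1, h2, ← map_mul, MulAut.conj_apply]

/-- The form of the elements. -/
def NF (a x : G) (z : X → G) (g : G) : Prop :=
  ∃ (k l : ℕ) (m n : ℤ) (r : G), (al a ^ k * xi x ^ l) r ∈ P a z ∧ g = r * (a ^ m * x ^ n)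

theorem Rel.NF_z (h : Rel a x z) {g : G} (hg : NF a x z g) (s : X) : NF a x z (g * z s) := by
  obtain ⟨k, l, m, n, r, hr, rfl⟩ := hg
  refine ⟨k + m.natAbs, l + n.natAbs, m, n,
    r * ((a ^ m * x ^ n) * z s * (a ^ m * x ^ n)⁻¹), ?_, by group⟩
  rw [map_mul]
  refine mul_mem ?_ ?_
  · have h1 : al a ^ (k + m.natAbs) * xi x ^ (l + n.natAbs) =
        (al a ^ m.natAbs * xi x ^ n.natAbs) * (al a ^ k * xi x ^ l) := by
      rw [add_comm k, add_comm l, pow_add, pow_add]
      have := ((h.aut_comm.pow_left k).pow_right n.natAbs).eq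
      rw [mul_assoc, ← mul_assoc (al a ^ k), this]
      group
    rw [h1, MulAut.mul_apply]
    exact h.pow_mem _ _ hr
  · rw [conj_pow]
    obtain ⟨K, hK⟩ : ∃ K : ℕ, ((k + m.natAbs : ℕ) : ℤ) = K + m :=
      ⟨((k + m.natAbs : ℤ) - m).toNat, by omega⟩
    obtain ⟨L, hL⟩ : ∃ L : ℕ, (L : ℤ) = ((l + n.natAbs : ℕ) : ℤ) + n :=
      ⟨((l + n.natAbs : ℤ) + n).toNat, by omega⟩
    have h1 : (al a ^ (k + m.natAbs) * xi x ^ (l + n.natAbs)) * (al a ^ (-m) * xi x ^ n) =
        al a ^ K * xi x ^ L := by
      have e1 : al a ^ (k + m.natAbs) = al a ^ K * al a ^ m := by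
        rw [← zpow_natCast, hK, zpow_add, zpow_natCast]
      have e2 : xi x ^ L = xi x ^ (l + n.natAbs) * xi x ^ n := by
        rw [← zpow_natCast, hL, zpow_add, zpow_natCast]
      have e3 := ((h.aut_comm.zpow_left m).pow_right (l + n.natAbs)).eq
      rw [e1, e2, mul_assoc (al a ^ K), e3, zpow_neg]
      group
    rw [← MulAut.mul_apply, h1]
    exact h.pow_mem _ _ (Subgroup.subset_closure ⟨0, s, rfl⟩)

/-- Every element of the group generated by `a,x,z_s` has the form `r a^m x^n` where a suitable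
conjugate of `r` lies in `P`. -/
theorem Rel.normal_form (h : Rel a x z) {g : G}
    (hg : g ∈ Subgroup.closure ({a, x} ∪ Set.range z)) : NF a x z g := by
  induction hg using Subgroup.closure_induction_right with
  | one => exact ⟨0, 0, 0, 0, 1, by simp [one_mem], by simp⟩
  | mul_right g hg y hy ih =>
    rcases hy with (rfl | rfl) | ⟨s, rfl⟩
    · obtain ⟨k, l, m, n, r, hr, rfl⟩ := ih
      refine ⟨k, l, m + 1, n, r, hr, ?_⟩
      have := (h.comm.zpow_right n).eq
      rw [mul_assoc, mul_assoc, ← this, ← mul_assoc (y ^ m), ← zpow_add_one]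
    · obtain ⟨k, l, m, n, r, hr, rfl⟩ := ih
      refine ⟨k, l, m, n + 1, r, hr, ?_⟩
      rw [mul_assoc, mul_assoc, ← zpow_add_one]
    · exact h.NF_z ih s
  | mul_inv_cancel g hg y hy ih =>
    rcases hy with (rfl | rfl) | ⟨s, rfl⟩
    · obtain ⟨k, l, m, n, r, hr, rfl⟩ := ih
      refine ⟨k, l, m - 1, n, r, hr, ?_⟩
      have := ((h.comm.inv_left).zpow_right n).eq
      rw [mul_assoc, mul_assoc, ← this, ← mul_assoc (y ^ m), ← zpow_sub_one]
    · obtain ⟨k, l, m, n, r, hr, rfl⟩ := ih
      refine ⟨k, l, m, n - 1, r, hr, ?_⟩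
      rw [mul_assoc, mul_assoc, ← zpow_sub_one]
    · rw [← h.neg]
      exact h.NF_z ih (-s)

/-- The homomorphism from the finitely supported functions onto `P`. -/
theorem Rel.exists_hom (h : Rel a x z) : ∃ Ψ : Multiplicative (ℕ →₀ X) →* G,
    (∀ i s, Ψ (Multiplicative.ofAdd (Finsupp.single i s)) = (al a ^ i) (z s)) ∧
      Ψ.range = P a z := by
  letI : CommGroup (Subgroup.closure (genP a z)) :=
    Subgroup.closureCommGroupOfComm h.genP_comm
  let e : ℕ → X →+ Additive (Subgroup.closure (genP a z)) := fun i =>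
    { toFun := fun s => Additive.ofMul ⟨(al a ^ i) (z s), Subgroup.subset_closure ⟨i, s, rfl⟩⟩
      map_zero' := by
        apply Additive.toMul.injective
        apply Subtype.ext
        change (al a ^ i) (z 0) = 1
        rw [h.zero, map_one]
      map_add' := fun s t => by
        apply Additive.toMul.injective
        apply Subtype.ext
        change (al a ^ i) (z (s + t)) = (al a ^ i) (z s) * (al a ^ i) (z t)
        rw [h.add, map_mul] }
  let f : (ℕ →₀ X) →+ Additive (Subgroup.closure (genP a z)) := Finsupp.liftAddHom e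
  let Ψ : Multiplicative (ℕ →₀ X) →* G :=
    { toFun := fun w => ((Additive.toMul (f (Multiplicative.toAdd w)) :
        Subgroup.closure (genP a z)) : G)
      map_one' := by
        change ((Additive.toMul (f 0) : Subgroup.closure (genP a z)) : G) = 1
        rw [map_zero]
        rfl
      map_mul' := fun w w' => by
        change ((Additive.toMul (f (Multiplicative.toAdd w + Multiplicative.toAdd w')) :
          Subgroup.closure (genP a z)) : G) = _
        rw [map_add]
        rfl }
  have hsingle : ∀ i s, Ψ (Multiplicative.ofAdd (Finsupp.single i s)) = (al a ^ i) (z s) := by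
    intro i s
    change ((Additive.toMul (f (Finsupp.single i s)) : Subgroup.closure (genP a z)) : G) = _
    have : f (Finsupp.single i s) = e i s := Finsupp.liftAddHom_apply_single e i s
    rw [this]
    rfl
  refine ⟨Ψ, hsingle, le_antisymm ?_ ?_⟩
  · rintro _ ⟨w, rfl⟩
    exact (Additive.toMul (f (Multiplicative.toAdd w))).2
  · unfold P
    rw [Subgroup.closure_le]
    rintro _ ⟨i, s, rfl⟩
    exact ⟨_, hsingle i s⟩

end abstract

end Q30.SqRF
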