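import Mathlib

/-!
# Torus bundle groups `ℤ² ⋊_M ℤ` and their normal forms

Part of the solution of MP_df87fb.
-/

namespace Q30.Torus

open Filter

/-! ### General definitions -/

/-- The value of a word in the generators `X` and their formal inverses; the letter `(i, true)` is
`X i` and the letter `(i, false)` is its inverse. -/
def ev {G : Type} [Group G] {m : ℕ} (X : Fin m → G) (w : List (Fin m × Bool)) : G :=
  (w.map (fun p => if p.2 then X p.1 else (X p.1)⁻¹)).prod

/-- The word metric. -/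
noncomputable def wdist {G : Type} [Group G] {m : ℕ} (X : Fin m → G) (g h : G) : ℕ :=
  sInf {n | ∃ w : List (Fin m × Bool), w.length = n ∧ ev X w = g⁻¹ * h}

/-- A normal form: a language which `ev` maps bijectively onto the group. -/
def IsNormalForm {G : Type} [Group G] {m : ℕ} (X : Fin m → G) (L : Set (List (Fin m × Bool))) :
    Prop :=
  Set.BijOn (ev X) L Set.univ

/-- Quasiregular languages. -/
def Quasiregular {α : Type} (L : Set (List α)) : Prop :=
  ∃ c : ℕ, ∀ w ∈ L, ∀ u : List α, u <+: w → ∃ v : List α, v.length ≤ c ∧ u ++ v ∈ L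

/-- The function `s_L` of the problem. -/
noncomputable def sL {G : Type} [Group G] {m : ℕ} (X : Fin m → G) (L : Set (List (Fin m × Bool)))
    (n : ℕ) : ℕ :=
  sSup {d | ∃ t ≤ n, ∃ w₁ ∈ L, ∃ w₂ ∈ L, ∃ i : Fin m, ev X w₁ * X i = ev X w₂ ∧
    d = wdist X (ev X (w₁.take t)) (ev X (w₂.take t))}

/-- `h ⪯ f` -/
def Preceq (h f : ℕ → ℝ) : Prop :=
  ∃ K M : ℕ, 0 < K ∧ 0 < M ∧ ∀ᶠ n in atTop, h n ≤ K * f (M * n)

/-- `f ≪ h` -/
def LL (f h : ℕ → ℝ) : Prop :=
  ∃ t : ℕ → ℝ, Monotone t ∧ ¬ BddAbove (Set.range t) ∧ Preceq (fun n => f n * t n) h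

/-! ### The growth function -/

/-- the function `2 ^ ⌊log₃ n⌋` -/
def ff (n : ℕ) : ℕ := 2 ^ Nat.log 3 n

theorem ff_mono : Monotone ff := fun _ _ h =>
  Nat.pow_le_pow_right (by norm_num) (Nat.log_mono_right h)

theorem ff_pos (n : ℕ) : 1 ≤ ff n := Nat.one_le_two_pow

theorem ff_div (n : ℕ) (h : 3 ≤ n) : 2 * ff (n / 3) = ff n := by
  unfold ff
  rw [Nat.log_div_base, ← pow_succ', Nat.sub_add_cancel]
  exact Nat.log_pos (by norm_num) h

theorem ff_pow (s : ℕ) : ff (3 ^ s) = 2 ^ s := by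
  unfold ff
  rw [Nat.log_pow (by norm_num)]

theorem ff_LL : LL (fun n => (ff n : ℝ)) (fun n => (n : ℝ)) := by
  refine ⟨fun n => (3 / 2 : ℝ) ^ Nat.log 3 n, ?_, ?_, 1, 1, one_pos, one_pos, ?_⟩
  · intro a b h
    exact pow_le_pow_right₀ (by norm_num) (Nat.log_mono_right h)
  · rintro ⟨B, hB⟩
    obtain ⟨n, hn⟩ := pow_unbounded_of_one_lt B (by norm_num : (1 : ℝ) < 3 / 2)
    have h := hB ⟨3 ^ n, rfl⟩
    dsimp only at h
    rw [Nat.log_pow (by norm_num)] at h
    linarith
  · filter_upwards [eventually_gt_atTop 0] with n hn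
    have h1 : (ff n : ℝ) * (3 / 2 : ℝ) ^ Nat.log 3 n = 3 ^ Nat.log 3 n := by
      unfold ff
      push_cast
      rw [← mul_pow]
      norm_num
    rw [h1]
    have h2 := Nat.pow_log_le_self 3 hn.ne'
    have h3 : ((3 ^ Nat.log 3 n : ℕ) : ℝ) ≤ n := by exact_mod_cast h2
    push_cast at h3
    simpa using h3

/-! ### Word norms -/

section Words

variable {G : Type} [Group G] {m : ℕ} (X : Fin m → G)

theorem ev_nil : ev X [] = 1 := rfl

theorem ev_append (u v : List (Fin m × Bool)) : ev X (u ++ v) = ev X u * ev X v := by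
  simp [ev]

theorem ev_single (p : Fin m × Bool) : ev X [p] = if p.2 then X p.1 else (X p.1)⁻¹ := by
  simp [ev]

theorem ev_replicate_true (n : ℕ) (i : Fin m) : ev X (List.replicate n (i, true)) = X i ^ n := by
  simp [ev]

/-- `g` is the value of a word of length at most `n` -/
def B (n : ℕ) (g : G) : Prop := ∃ w : List (Fin m × Bool), w.length ≤ n ∧ ev X w = g

variable {X}

theorem B.mono {n k : ℕ} {g : G} (h : B X n g) (hnk : n ≤ k) : B X k g := by
  obtain ⟨w, hw, e⟩ := h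
  exact ⟨w, hw.trans hnk, e⟩

theorem B.mul {n k : ℕ} {g h : G} (hg : B X n g) (hh : B X k h) : B X (n + k) (g * h) := by
  obtain ⟨u, hu, rfl⟩ := hg
  obtain ⟨v, hv, rfl⟩ := hh
  exact ⟨u ++ v, by rw [List.length_append]; omega, ev_append X u v⟩

theorem B.one : B X 0 (1 : G) := ⟨[], le_rfl, rfl⟩

theorem B.inv {n : ℕ} {g : G} (hg : B X n g) : B X n g⁻¹ := by
  obtain ⟨u, hu, rfl⟩ := hg
  refine ⟨(u.map (fun p => (p.1, !p.2))).reverse, by simpa using hu, ?_⟩
  clear hu
  induction u with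
  | nil => simp [ev]
  | cons a u ih =>
    rw [List.map_cons, List.reverse_cons, ev_append, ih]
    have h1 : ev X (a :: u) = ev X [a] * ev X u := ev_append X [a] u
    rw [h1, mul_inv_rev, ev_single, ev_single]
    congr 1
    rcases a with ⟨i, b⟩
    cases b <;> simp

theorem B.gen (i : Fin m) : B X 1 (X i) := ⟨[(i, true)], le_rfl, by rw [ev_single]; rfl⟩

theorem B.pow {n : ℕ} {g : G} (hg : B X n g) (k : ℕ) : B X (k * n) (g ^ k) := by
  induction k with
  | zero => simpa using B.one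
  | succ k ih =>
    rw [pow_succ, Nat.succ_mul]
    exact ih.mul hg

theorem wdist_le {n k : ℕ} {g h : G} (hg : B X n g) (hh : B X k h) : wdist X g h ≤ n + k := by
  obtain ⟨w, hw, e⟩ := hg.inv.mul hh
  have h1 : w.length ∈ {n | ∃ w : List (Fin m × Bool), w.length = n ∧ ev X w = g⁻¹ * h} :=
    ⟨w, rfl, e⟩
  exact (Nat.sInf_le h1).trans hw

end Words

/-! ### The group -/

/-- The group `ℤ² ⋊_M ℤ`: pairs `(v, k)` with `(v, k) (w, l) = (v + M ^ k w, k + l)`. -/
@[ext] structure GM (M : GL (Fin 2) ℤ) where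
  /-- the vector -/
  v : Fin 2 → ℤ
  /-- the exponent of the stable letter -/
  k : ℤ

variable {M : GL (Fin 2) ℤ}

/-- the action of the powers of `M` -/
def act (M : GL (Fin 2) ℤ) (k : ℤ) (v : Fin 2 → ℤ) : Fin 2 → ℤ := (M ^ k).1.mulVec v

theorem act_add (k : ℤ) (v w : Fin 2 → ℤ) : act M k (v + w) = act M k v + act M k w :=
  Matrix.mulVec_add _ _ _

theorem act_act (k l : ℤ) (v : Fin 2 → ℤ) : act M k (act M l v) = act M (k + l) v := by
  unfold act
  rw [Matrix.mulVec_mulVec, zpow_add]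
  rfl

theorem act_zero_left (v : Fin 2 → ℤ) : act M 0 v = v := by
  unfold act
  rw [zpow_zero]
  exact Matrix.one_mulVec v

theorem act_zero (k : ℤ) : act M k 0 = 0 := Matrix.mulVec_zero _

theorem act_neg (k : ℤ) (v : Fin 2 → ℤ) : act M k (-v) = - act M k v := Matrix.mulVec_neg _ _

theorem act_smul (k n : ℤ) (v : Fin 2 → ℤ) : act M k (n • v) = n • act M k v :=
  Matrix.mulVec_smul _ _ _

instance : Mul (GM M) := ⟨fun x y => ⟨x.v + act M x.k y.v, x.k + y.k⟩⟩
instance : One (GM M) := ⟨⟨0, 0⟩⟩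
instance : Inv (GM M) := ⟨fun x => ⟨- act M (-x.k) x.v, -x.k⟩⟩

theorem mul_v (x y : GM M) : (x * y).v = x.v + act M x.k y.v := rfl
theorem mul_k (x y : GM M) : (x * y).k = x.k + y.k := rfl
theorem one_v : (1 : GM M).v = 0 := rfl
theorem one_k : (1 : GM M).k = 0 := rfl
theorem inv_v (x : GM M) : (x⁻¹).v = - act M (-x.k) x.v := rfl
theorem inv_k (x : GM M) : (x⁻¹).k = -x.k := rfl

instance : Group (GM M) :=
  Group.ofLeftAxioms
    (by
      intro x y z
      apply GM.ext
      · simp only [mul_v, mul_k, act_add, act_act]; abel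
      · simp only [mul_k, add_assoc])
    (by
      intro x
      apply GM.ext
      · simp only [mul_v, one_v, one_k, act_zero_left, zero_add]
      · simp only [mul_k, one_k, zero_add])
    (by
      intro x
      apply GM.ext
      · simp only [mul_v, inv_v, inv_k, one_v]; abel
      · simp only [mul_k, inv_k, one_k, neg_add_cancel])

/-- the element of a vector -/
def vec (M : GL (Fin 2) ℤ) (v : Fin 2 → ℤ) : GM M := ⟨v, 0⟩

/-- the stable letter -/
def st (M : GL (Fin 2) ℤ) : GM M := ⟨0, 1⟩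

theorem vec_add (v w : Fin 2 → ℤ) : vec M (v + w) = vec M v * vec M w := by
  apply GM.ext
  · simp only [vec, mul_v, act_zero_left]
  · simp only [vec, mul_k, add_zero]

theorem vec_zero : vec M 0 = 1 := rfl

theorem vec_neg (v : Fin 2 → ℤ) : vec M (-v) = (vec M v)⁻¹ := by
  rw [eq_inv_iff_mul_eq_one, ← vec_add, neg_add_cancel, vec_zero]

theorem vec_nsmul (n : ℕ) (v : Fin 2 → ℤ) : vec M (n • v) = vec M v ^ n := by
  induction n with
  | zero => simp [vec_zero]
  | succ n ih => rw [succ_nsmul, vec_add, ih, pow_succ]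

theorem vec_zsmul (n : ℤ) (v : Fin 2 → ℤ) : vec M (n • v) = vec M v ^ n := by
  obtain ⟨k, rfl | rfl⟩ := n.eq_nat_or_neg
  · rw [natCast_zsmul, zpow_natCast, vec_nsmul]
  · rw [neg_smul, natCast_zsmul, vec_neg, vec_nsmul, zpow_neg, zpow_natCast]

theorem st_zpow (k : ℤ) : st M ^ k = ⟨0, k⟩ := by
  have hp : ∀ n : ℕ, st M ^ n = ⟨0, (n : ℤ)⟩ := by
    intro n
    induction n with
    | zero => rfl
    | succ n ih =>
      rw [pow_succ, ih]
      apply GM.ext
      · simp [mul_v, st, act_zero]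
      · simp [mul_k, st]
  obtain ⟨n, rfl | rfl⟩ := k.eq_nat_or_neg
  · rw [zpow_natCast, hp]
  · rw [zpow_neg, zpow_natCast, hp]
    apply GM.ext
    · simp [inv_v, act_zero]
    · simp [inv_k]

theorem conj_vec (k : ℤ) (v : Fin 2 → ℤ) : st M ^ k * vec M v * st M ^ (-k) = vec M (act M k v) := by
  rw [st_zpow, st_zpow]
  apply GM.ext
  · simp [mul_v, mul_k, vec, act_zero]
  · simp [mul_k, vec]

theorem eq_vec_mul (g : GM M) : g = vec M g.v * st M ^ g.k := by
  rw [st_zpow]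
  apply GM.ext
  · simp [mul_v, vec, act_zero]
  · simp [mul_k, vec]

theorem mul_vec (v w : Fin 2 → ℤ) (k : ℤ) : (⟨v, k⟩ : GM M) * vec M w = ⟨v + act M k w, k⟩ := by
  apply GM.ext
  · rfl
  · simp [mul_k, vec]

/-- the trace identity -/
theorem trace_identity (v : Fin 2 → ℤ) :
    act M 2 v + act M (-2) v = (M.1 ^ 2).trace • v := by
  have h1 : (M ^ (2 : ℤ)).1 = M.1 ^ 2 := by
    rw [show (2 : ℤ) = ((2 : ℕ) : ℤ) by rfl, zpow_natCast]
    rfl
  have hdet : (M.1 ^ 2).det = 1 := by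
    rw [Matrix.det_pow]
    have h : IsUnit M.1.det := (Matrix.isUnit_iff_isUnit_det _).1 M.isUnit
    rcases Int.isUnit_iff.1 h with h | h <;> rw [h] <;> norm_num
  have h2 : (M ^ (-2 : ℤ)).1 = (M.1 ^ 2).adjugate := by
    have h3 : (M.1 ^ 2).adjugate * M.1 ^ 2 = 1 := by
      rw [Matrix.adjugate_mul, hdet, one_smul]
    have h4 : M.1 ^ 2 * (M ^ (-2 : ℤ)).1 = 1 := by
      rw [← h1]
      have h5 : M ^ (2 : ℤ) * M ^ (-2 : ℤ) = 1 := by rw [← zpow_add]; simp
      exact congrArg Units.val h5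
    calc (M ^ (-2 : ℤ)).1 = ((M.1 ^ 2).adjugate * M.1 ^ 2) * (M ^ (-2 : ℤ)).1 := by
          rw [h3, one_mul]
      _ = (M.1 ^ 2).adjugate := by rw [mul_assoc, h4, mul_one]
  unfold act
  rw [h1, h2, Matrix.adjugate_fin_two, ← Matrix.add_mulVec]
  set A := M.1 ^ 2
  ext i
  fin_cases i
  · simp [Matrix.mulVec, dotProduct, Fin.sum_univ_two, Matrix.trace_fin_two]
  · simp [Matrix.mulVec, dotProduct, Fin.sum_univ_two, Matrix.trace_fin_two]
    left
    ring

end Q30.Torus
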