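import Pool.Agent.Q30.Torus

/-!
# The normal form of a torus bundle group

Part of the solution of MP_df87fb.
-/

namespace Q30.Torus

open Filter

variable (M : GL (Fin 2) ℤ)

/-- the basis vectors -/
def e1 : Fin 2 → ℤ := ![1, 0]
/-- the basis vectors -/
def e2 : Fin 2 → ℤ := ![0, 1]

/-- the generators `x, y, t` -/
def X : Fin 3 → GM M := ![vec M e1, vec M e2, st M]

theorem X0 : X M 0 = vec M e1 := rfl
theorem X1 : X M 1 = vec M e2 := rfl
theorem X2 : X M 2 = st M := rfl

variable {M}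

theorem bound_mul (hT : 3 ≤ (M.1 ^ 2).trace) (v : Fin 2 → ℤ) (hv : B (X M) 1 (vec M v)) :
    ∀ n : ℕ, B (X M) ((10 + (M.1 ^ 2).trace.toNat) * ff n - (8 + (M.1 ^ 2).trace.toNat))
      (vec M ((n : ℤ) • v)) := by
  set T := (M.1 ^ 2).trace with hTdef
  obtain ⟨N, hN⟩ : ∃ N : ℕ, T = N := ⟨T.toNat, (Int.toNat_of_nonneg (by omega)).symm⟩
  have hN3 : 3 ≤ N := by omega
  rw [hN, Int.toNat_natCast]
  intro n
  induction n using Nat.strong_induction_on with
  | _ n ih =>
    by_cases hn : n < 3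
    · have h1 : B (X M) (n * 1) (vec M ((n : ℤ) • v)) := by
        rw [vec_zsmul, zpow_natCast]
        exact hv.pow n
      refine h1.mono ?_
      have := ff_pos n
      have h2 : (10 + N) * 1 ≤ (10 + N) * ff n := Nat.mul_le_mul_left _ this
      omega
    · push Not at hn
      set q := n / N with hq
      set r := n % N with hr
      have hqr : N * q + r = n := Nat.div_add_mod n N
      have hrN : r < N := Nat.mod_lt _ (by omega)
      have hqn : q < n := Nat.div_lt_self (by omega) (by omega)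
      have hB := ih q hqn
      have hstt : B (X M) 1 (st M) := B.gen (X := X M) 2
      have h2 : B (X M) 2 (st M ^ (2 : ℤ)) := by
        have := hstt.pow 2
        exact this
      have h2' : B (X M) 2 (st M ^ (-2 : ℤ)) := by
        rw [zpow_neg]
        exact h2.inv
      set C := (10 + N) * ff q - (8 + N) with hC
      have h3 : B (X M) (2 + C + 2) (vec M (act M 2 ((q : ℤ) • v))) := by
        rw [← conj_vec]
        exact (h2.mul hB).mul h2'
      have h4 : B (X M) (2 + C + 2) (vec M (act M (-2) ((q : ℤ) • v))) := by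
        rw [← conj_vec, neg_neg]
        exact (h2'.mul hB).mul h2
      have h5 : B (X M) ((2 + C + 2) + (2 + C + 2)) (vec M (T • ((q : ℤ) • v))) := by
        rw [hTdef, ← trace_identity, vec_add]
        exact h3.mul h4
      have h6 : B (X M) (r * 1) (vec M ((r : ℤ) • v)) := by
        rw [vec_zsmul, zpow_natCast]
        exact hv.pow r
      have h7 : vec M ((n : ℤ) • v) = vec M (T • ((q : ℤ) • v)) * vec M ((r : ℤ) • v) := by
        rw [← vec_add]
        congr 1
        rw [smul_smul, ← add_smul, hN]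
        congr 1
        exact_mod_cast hqr.symm
      rw [h7]
      refine (h5.mul h6).mono ?_
      have h8 : 2 * ff q ≤ ff n := by
        rw [← ff_div n hn]
        apply Nat.mul_le_mul_left
        apply ff_mono
        exact Nat.div_le_div_left hN3 (by norm_num)
      have h9 : (10 + N) * (2 * ff q) ≤ (10 + N) * ff n := Nat.mul_le_mul_left _ h8
      have h10 : (10 + N) * 1 ≤ (10 + N) * ff q := Nat.mul_le_mul_left _ (ff_pos q)
      have h11 : (10 + N) * (2 * ff q) = 2 * ((10 + N) * ff q) := by ring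
      omega

/-- the words `x ^ a` -/
def pw (l : Fin 3) (a : ℤ) : List (Fin 3 × Bool) := List.replicate a.natAbs (l, decide (0 ≤ a))

theorem ev_pw (l : Fin 3) (a : ℤ) : ev (X M) (pw l a) = X M l ^ a := by
  unfold pw
  rcases le_or_gt 0 a with h | h
  · obtain ⟨n, rfl⟩ := Int.eq_ofNat_of_zero_le h
    simp [ev]
  · obtain ⟨n, hn⟩ : ∃ n : ℕ, a = -(n : ℤ) := ⟨a.natAbs, by omega⟩
    subst hn
    have h1 : decide (0 ≤ -(n : ℤ)) = false := by rw [decide_eq_false_iff_not]; omega
    rw [h1]
    simp [ev]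

theorem pw_length (l : Fin 3) (a : ℤ) : (pw l a).length = a.natAbs := by simp [pw]

theorem pw_prefix (l : Fin 3) (a : ℤ) (u : List (Fin 3 × Bool)) (h : u <+: pw l a) :
    ∃ b : ℤ, u = pw l b := by
  unfold pw at h
  rw [List.prefix_replicate_iff] at h
  obtain ⟨h1, h2⟩ := h
  rw [h2]
  rcases le_or_gt 0 a with h0 | h0
  · refine ⟨u.length, ?_⟩
    have e : decide (0 ≤ a) = true := by simpa using h0
    rw [e]
    simp [pw]
  · rcases Nat.eq_zero_or_pos u.length with h3 | h3
    · refine ⟨0, ?_⟩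
      rw [h3]
      simp [pw]
    · refine ⟨-(u.length : ℤ), ?_⟩
      have e : decide (0 ≤ a) = false := by simpa using h0
      have e' : decide (0 ≤ -(u.length : ℤ)) = false := by
        simp only [decide_eq_false_iff_not]; omega
      unfold pw
      rw [e, e']
      simp

/-- the spine words -/
def U (b : Bool) : ℕ → List (Fin 3 × Bool)
  | 0 => []
  | s + 1 => U b s ++ (List.replicate (3 ^ s) (0, true) ++ [(2, b)])

/-- the language -/
def L : Set (List (Fin 3 × Bool)) :=
  {w | ∃ (b : Bool) (s : ℕ) (i j : ℤ), w = U b s ++ (pw 0 i ++ pw 1 j)}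

theorem prefix_append_cases {α : Type} {u A C : List α} (h : u <+: A ++ C) :
    u <+: A ∨ ∃ u', u = A ++ u' ∧ u' <+: C := by
  rcases List.prefix_or_prefix_of_prefix h (List.prefix_append A C) with h1 | ⟨u', rfl⟩
  · exact Or.inl h1
  · exact Or.inr ⟨u', rfl, (List.prefix_append_right_inj A).1 h⟩

theorem mem_L_of_prefix_U (b : Bool) (s : ℕ) (u : List (Fin 3 × Bool)) (h : u <+: U b s) :
    u ∈ L := by
  induction s with
  | zero =>
    have : u = [] := List.prefix_nil.1 h
    exact ⟨b, 0, 0, 0, by rw [this]; rfl⟩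
  | succ s ih =>
    change u <+: U b s ++ (List.replicate (3 ^ s) (0, true) ++ [(2, b)]) at h
    rcases prefix_append_cases h with h1 | ⟨u', hu', h1⟩
    · exact ih h1
    · subst hu'
      rcases prefix_append_cases h1 with h2 | ⟨u'', hu'', h2⟩
      · have h3 : u' <+: pw 0 ((3 ^ s : ℕ) : ℤ) := by
          simpa [pw] using h2
        obtain ⟨i, rfl⟩ := pw_prefix _ _ _ h3
        exact ⟨b, s, i, 0, by simp [pw]⟩
      · subst hu''
        rcases List.prefix_cons_iff.1 h2 with rfl | ⟨t, rfl, ht⟩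
        · refine ⟨b, s, ((3 ^ s : ℕ) : ℤ), 0, ?_⟩
          simp [pw]
        · have : t = [] := List.prefix_nil.1 ht
          subst this
          refine ⟨b, s + 1, 0, 0, ?_⟩
          simp [pw, U]

theorem prefix_closed (w : List (Fin 3 × Bool)) (hw : w ∈ L) (u : List (Fin 3 × Bool))
    (h : u <+: w) : u ∈ L := by
  obtain ⟨b, s, i, j, rfl⟩ := hw
  rcases prefix_append_cases h with h1 | ⟨u', hu', h1⟩
  · exact mem_L_of_prefix_U b s u h1
  · subst hu'
    rcases prefix_append_cases h1 with h2 | ⟨u'', hu'', h2⟩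
    · obtain ⟨i', rfl⟩ := pw_prefix _ _ _ h2
      exact ⟨b, s, i', 0, by simp [pw]⟩
    · subst hu''
      obtain ⟨j', rfl⟩ := pw_prefix _ _ _ h2
      exact ⟨b, s, i, j', rfl⟩

/-- the sign -/
def sg (b : Bool) (s : ℕ) : ℤ := if b then s else -s

theorem ev_tail (i j : ℤ) : ev (X M) (pw 0 i ++ pw 1 j) = vec M (i • e1 + j • e2) := by
  rw [ev_append, ev_pw, ev_pw, X0, X1, vec_add, vec_zsmul, vec_zsmul]

theorem tail_eq (v : Fin 2 → ℤ) : v 0 • e1 + v 1 • e2 = v := by
  ext i
  fin_cases i <;> simp [e1, e2]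

theorem tail_inj {i j i' j' : ℤ} (h : i • e1 + j • e2 = i' • e1 + j' • e2) : i = i' ∧ j = j' := by
  have h0 := congrFun h 0
  have h1 := congrFun h 1
  simp [e1, e2] at h0 h1
  exact ⟨h0, h1⟩

theorem ev_U_k (b : Bool) (s : ℕ) : (ev (X M) (U b s)).k = sg b s := by
  induction s with
  | zero => simp [U, ev_nil, one_k, sg]
  | succ s ih =>
    rw [U, ev_append, ev_append, mul_k, ih, mul_k, ev_replicate_true, ev_single, X0, ← vec_nsmul]
    dsimp only
    rw [X2]
    cases b
    · simp [vec, sg, inv_k, st]; ring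
    · simp [vec, sg, st]

theorem bijOn : IsNormalForm (X M) L := by
  refine ⟨fun _ _ => Set.mem_univ _, ?_, ?_⟩
  · rintro w ⟨b, s, i, j, rfl⟩ w' ⟨b', s', i', j', rfl⟩ h
    rw [ev_append (X M) (U b s), ev_append (X M) (U b' s'), ev_tail, ev_tail] at h
    have hk := congrArg GM.k h
    rw [mul_k, mul_k, ev_U_k, ev_U_k] at hk
    simp only [vec, add_zero] at hk
    have hs : s = s' := by
      unfold sg at hk
      split_ifs at hk <;> omega
    subst hs
    have hU : U b s = U b' s := by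
      rcases Nat.eq_zero_or_pos s with h0 | h0
      · subst h0; rfl
      · have : b = b' := by
          cases b <;> cases b' <;> simp [sg] at hk <;> first | rfl | omega
        rw [this]
    rw [hU] at h
    have h2 := mul_left_cancel h
    have h3 : i • e1 + j • e2 = i' • e1 + j' • e2 := congrArg GM.v h2
    obtain ⟨rfl, rfl⟩ := tail_inj h3
    rw [hU]
  · intro g _
    obtain ⟨b, s, hs⟩ : ∃ (b : Bool) (s : ℕ), sg b s = g.k := by
      obtain ⟨n, h | h⟩ := g.k.eq_nat_or_neg
      · exact ⟨true, n, by rw [h]; rfl⟩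
      · exact ⟨false, n, by rw [h]; rfl⟩
    set u := ev (X M) (U b s) with hu
    have huk : u.k = g.k := by rw [hu, ev_U_k, hs]
    set v := (u⁻¹ * g).v with hv
    refine ⟨U b s ++ (pw 0 (v 0) ++ pw 1 (v 1)), ⟨b, s, _, _, rfl⟩, ?_⟩
    rw [ev_append, ev_tail, tail_eq, ← hu]
    have h1 : vec M v = u⁻¹ * g := by
      apply GM.ext
      · rfl
      · simp [mul_k, inv_k, vec, huk]
    rw [h1, mul_inv_cancel_left]

theorem closure_X : Subgroup.closure (Set.range (X M)) = ⊤ := by
  rw [eq_top_iff]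
  intro g _
  obtain ⟨w, _, rfl⟩ := bijOn.surjOn (Set.mem_univ g)
  unfold ev
  apply Subgroup.list_prod_mem
  intro x hx
  rw [List.mem_map] at hx
  obtain ⟨p, _, rfl⟩ := hx
  have h1 : X M p.1 ∈ Subgroup.closure (Set.range (X M)) :=
    Subgroup.subset_closure (Set.mem_range_self _)
  split_ifs
  · exact h1
  · exact Subgroup.inv_mem _ h1

theorem U_length (b : Bool) (s : ℕ) : 3 ^ s ≤ (U b (s + 1)).length := by
  rw [U, List.length_append, List.length_append, List.length_replicate]
  omega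

theorem ff_U (b : Bool) (s : ℕ) : 2 ^ s ≤ 2 * ff (U b s).length := by
  cases s with
  | zero => have := ff_pos (U b 0).length; simp only [pow_zero]; omega
  | succ s =>
    rw [pow_succ', ← ff_pow s]
    exact Nat.mul_le_mul_left _ (ff_mono (U_length b s))

variable (hT : 3 ≤ (M.1 ^ 2).trace)
include hT

theorem bound_pw (l : Fin 3) (hl : l = 0 ∨ l = 1) (a : ℤ) :
    B (X M) ((10 + (M.1 ^ 2).trace.toNat) * ff a.natAbs) (ev (X M) (pw l a)) := by
  obtain ⟨v, hv⟩ : ∃ v, X M l = vec M v := by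
    rcases hl with rfl | rfl
    · exact ⟨e1, rfl⟩
    · exact ⟨e2, rfl⟩
  have hB : B (X M) 1 (vec M v) := by rw [← hv]; exact B.gen l
  rw [ev_pw, hv]
  obtain ⟨n, rfl | rfl⟩ := a.eq_nat_or_neg
  · rw [← vec_zsmul, Int.natAbs_natCast]
    exact (bound_mul hT v hB n).mono (Nat.sub_le _ _)
  · rw [zpow_neg, ← vec_zsmul, Int.natAbs_neg, Int.natAbs_natCast]
    exact ((bound_mul hT v hB n).mono (Nat.sub_le _ _)).inv

theorem bound_U (b : Bool) (s : ℕ) :
    B (X M) ((11 + (M.1 ^ 2).trace.toNat) * 2 ^ s) (ev (X M) (U b s)) := by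
  induction s with
  | zero => exact B.one.mono (Nat.zero_le _)
  | succ s ih =>
    rw [U, ev_append, ev_append]
    have h1 : B (X M) ((10 + (M.1 ^ 2).trace.toNat) * 2 ^ s)
        (ev (X M) (List.replicate (3 ^ s) (0, true))) := by
      have h2 := bound_pw hT 0 (Or.inl rfl) ((3 ^ s : ℕ) : ℤ)
      rw [Int.natAbs_natCast, ff_pow] at h2
      have h3 : pw 0 ((3 ^ s : ℕ) : ℤ) = List.replicate (3 ^ s) (0, true) := by
        simp [pw]
      rwa [h3] at h2
    have h4 : B (X M) 1 (ev (X M) [((2 : Fin 3), b)]) := ⟨_, le_rfl, rfl⟩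
    refine (ih.mul (h1.mul h4)).mono ?_
    have h5 : 1 ≤ 2 ^ s := Nat.one_le_two_pow
    generalize (M.1 ^ 2).trace.toNat = N
    have h6 : (11 + N) * 2 ^ (s + 1) = (11 + N) * 2 ^ s + ((10 + N) * 2 ^ s + 2 ^ s) := by ring
    omega

/-- the constant -/
def cst (M : GL (Fin 2) ℤ) : ℕ := 4 * (11 + (M.1 ^ 2).trace.toNat)

theorem bound_L (w : List (Fin 3 × Bool)) (hw : w ∈ L) :
    B (X M) (cst M * ff w.length) (ev (X M) w) := by
  obtain ⟨b, s, i, j, rfl⟩ := hw
  rw [ev_append, ev_append]
  set w := U b s ++ (pw 0 i ++ pw 1 j) with hw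
  have hlen : w.length = (U b s).length + (i.natAbs + j.natAbs) := by
    rw [hw, List.length_append, List.length_append, pw_length, pw_length]
  refine ((bound_U hT b s).mul ((bound_pw hT 0 (Or.inl rfl) i).mul
    (bound_pw hT 1 (Or.inr rfl) j))).mono ?_
  have h1 : 2 ^ s ≤ 2 * ff w.length :=
    (ff_U b s).trans (Nat.mul_le_mul_left _ (ff_mono (by omega)))
  have h2 : ff i.natAbs ≤ ff w.length := ff_mono (by omega)
  have h3 : ff j.natAbs ≤ ff w.length := ff_mono (by omega)
  set N := (M.1 ^ 2).trace.toNat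
  unfold cst
  have h4 : (11 + N) * 2 ^ s ≤ (11 + N) * (2 * ff w.length) := Nat.mul_le_mul_left _ h1
  have h5 : (10 + N) * ff i.natAbs ≤ (11 + N) * ff w.length :=
    Nat.mul_le_mul (by omega) h2
  have h6 : (10 + N) * ff j.natAbs ≤ (11 + N) * ff w.length :=
    Nat.mul_le_mul (by omega) h3
  calc (11 + N) * 2 ^ s + ((10 + N) * ff i.natAbs + (10 + N) * ff j.natAbs)
      ≤ (11 + N) * (2 * ff w.length) + ((11 + N) * ff w.length + (11 + N) * ff w.length) := by
        omega
    _ = 4 * (11 + N) * ff w.length := by ring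

theorem sL_le (n : ℕ) : sL (X M) L n ≤ 2 * cst M * ff n := by
  unfold sL
  apply csSup_le'
  rintro d ⟨t, ht, w₁, h₁, w₂, h₂, i, _, rfl⟩
  have key : ∀ w ∈ L, B (X M) (cst M * ff n) (ev (X M) (w.take t)) := by
    intro w hw
    refine (bound_L hT _ (prefix_closed w hw _ (List.take_prefix t w))).mono ?_
    apply Nat.mul_le_mul_left
    apply ff_mono
    rw [List.length_take]
    omega
  have h := wdist_le (key w₁ h₁) (key w₂ h₂)
  calc _ ≤ _ := h
    _ = 2 * cst M * ff n := by ring

end Q30.Torus
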