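import Pool.Agent.Q30.VRMain

/-!
# The criterion

Part of the solution of MP_7325c9.
-/

namespace Q30.VR

open Classical

variable {V : Type} {Γ : SimpleGraph V}

/-- no cancellation in the periodic word -/
def Star (ψ : Γ ≃g Γ) (u : List (V × Bool)) : Prop :=
  ∀ r : ℕ, 0 < r → ∀ y, Lst Γ y u → (∀ l : ℕ, 0 < l → l < r → ∀ x ∈ u, Γ.Adj y.1 ((ψ ^ l) x.1)) →
    ¬ Fst Γ (nv (mpl (ψ ^ r)⁻¹ y)) u

/-- the periodic word -/
def PN (ψ : Γ ≃g Γ) (u : List (V × Bool)) : ℕ → List (V × Bool)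
  | 0 => []
  | (N + 1) => PN ψ u N ++ u.map (mpl (ψ ^ N))

theorem lst_PN (ψ : Γ ≃g Γ) (u : List (V × Bool)) (y : V × Bool) (N : ℕ) (h : Lst Γ y (PN ψ u N)) :
    ∃ i, i < N ∧ Lst Γ y (u.map (mpl (ψ ^ i))) ∧
      ∀ l, i < l → l < N → ∀ x ∈ u, Γ.Adj y.1 ((ψ ^ l) x.1) := by
  induction N with
  | zero => exact h.elim
  | succ N ih =>
    rw [PN, lst_append] at h
    rcases h with h | ⟨h, h'⟩
    · exact ⟨N, Nat.lt_succ_self N, h, fun l h1 h2 => by omega⟩
    · obtain ⟨i, h1, h2, h3⟩ := ih h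
      refine ⟨i, by omega, h2, fun l h4 h5 x hx => ?_⟩
      rcases Nat.lt_succ_iff_lt_or_eq.1 h5 with h6 | rfl
      · exact h3 l h4 h6 x hx
      · exact h' _ (List.mem_map_of_mem hx)

theorem red_PN {ψ : Γ ≃g Γ} {u : List (V × Bool)} (h1 : Red Γ u) (h2 : Star ψ u) (N : ℕ) :
    Red Γ (PN ψ u N) := by
  induction N with
  | zero => trivial
  | succ N ih =>
    rw [PN, red_append]
    refine ⟨ih, (red_map _ _).2 h1, fun y hy hf => ?_⟩
    obtain ⟨i, h3, h4, h5⟩ := lst_PN ψ u y N hy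
    obtain ⟨r, rfl⟩ : ∃ r, N = i + r := ⟨N - i, by omega⟩
    have hy' : y = mpl (ψ ^ i) (mpl (ψ ^ i)⁻¹ y) := by
      rw [← mpl_mul, mul_inv_cancel, mpl_one]
    obtain ⟨z, hz⟩ : ∃ z, z = mpl (ψ ^ i)⁻¹ y := ⟨_, rfl⟩
    rw [← hz] at hy'
    subst hy'
    rw [lst_map] at h4
    apply h2 r (by omega) z h4
    · intro l hl1 hl2 x hx
      have h6 := h5 (i + l) (by omega) (by omega) x hx
      rw [pow_add] at h6
      exact (ψ ^ i).map_adj_iff.1 h6
    · have h7 : nv (mpl (ψ ^ i) z) = mpl (ψ ^ (i + r)) (nv (mpl (ψ ^ r)⁻¹ z)) := by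
        rw [← mpl_nv, mpl_nv, mpl_nv, ← mpl_mul, pow_add, mul_assoc, mul_inv_cancel, mul_one]
      rw [h7, fst_map] at hf
      exact hf

variable (φ : Γ ≃g Γ)

/-- powers of a formal word -/
def rep (W : List (Lt V)) : ℕ → List (Lt V)
  | 0 => []
  | (N + 1) => rep W N ++ W

theorem pr_rep (W : List (Lt V)) (N : ℕ) : pr φ (rep W N) = pr φ W ^ N := by
  induction N with
  | zero => simp [rep, pr]
  | succ N ih => rw [rep, pr_append, ih, pow_succ]

theorem ex_rep (W : List (Lt V)) (N : ℕ) : ex (rep W N) = N * ex W := by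
  induction N with
  | zero => simp [rep, ex]
  | succ N ih => rw [rep, ex_append, ih]; push_cast; ring

theorem nT_rep (W : List (Lt V)) (N : ℕ) : nT (rep W N) = N * nT W := by
  induction N with
  | zero => simp [rep, nT]
  | succ N ih => rw [rep, nT_append, ih]; ring

theorem length_rep (W : List (Lt V)) (N : ℕ) : (rep W N).length = N * W.length := by
  induction N with
  | zero => simp [rep]
  | succ N ih => rw [rep, List.length_append, ih]; ring

theorem uu_rep (W : List (Lt V)) (N : ℕ) :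
    uu φ 0 (rep W N) = PN (φ ^ (-ex W)) (uu φ 0 W) N := by
  induction N with
  | zero => rfl
  | succ N ih =>
    rw [rep, uu_append, ih, PN, uu_add, ex_rep]
    congr 3
    rw [← zpow_natCast, ← zpow_mul]
    congr 1
    ring

/-- the conjugacy geodesics, as formal words -/
def Lf : Set (List (Lt V)) := {W | ∀ W', IsConj (pr φ W) (pr φ W') → W.length ≤ W'.length}

/-- the criterion -/
def Good (W : List (Lt V)) : Prop :=
  nT W = nrm φ (ex W) ∧ Red Γ (uu φ 0 W) ∧ Star (φ ^ (-ex W)) (uu φ 0 W)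

variable [Fintype V]

theorem good_lf {W : List (Lt V)} (h : Good φ W) : W ∈ Lf φ := by
  obtain ⟨h1, h2, h3⟩ := h
  intro W' hW'
  have ht : nT W ≤ nT W' := by rw [h1]; exact nrm_le_nT φ hW'
  obtain ⟨c, hc⟩ := isConj_iff.1 hW'
  obtain ⟨C, hC⟩ := exists_word φ c⁻¹
  obtain ⟨C', hC'⟩ := exists_word φ c
  by_contra hcon
  push Not at hcon
  -- compare the powers
  set N := C.length + C'.length + 1 with hN
  have e1 : pr φ (rep W N) = pr φ (C ++ (rep W' N ++ C')) := by
    rw [pr_append, pr_append, hC, hC', pr_rep, pr_rep, ← hc, conj_pow]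
    group
  have hred : Red Γ (uu φ 0 (rep W N)) := by
    rw [uu_rep]
    exact red_PN h2 h3 N
  have e2 := sz_red φ hred
  have e3 := sz_bound φ (C ++ (rep W' N ++ C')) (P0 Γ)
  rw [← e1, List.length_append, List.length_append, nT_append, nT_append, length_rep, nT_rep] at e3
  rw [length_rep, nT_rep] at e2
  have e4 : sz (P0 Γ).1 = 0 := sz_pil (Γ := Γ) []
  rw [e4] at e3
  have hx : W'.length - nT W' < W.length - nT W := by
    have h5 := uu_length φ 0 W
    have h6 := uu_length φ 0 W'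
    omega
  have h5 := uu_length φ 0 W
  have h6 := uu_length φ 0 W'
  have e5 : N * W.length = N * (uu φ 0 W).length + N * nT W := by rw [← mul_add, h5]
  have e6 : N * W'.length = N * (uu φ 0 W').length + N * nT W' := by rw [← mul_add, h6]
  have e7 : (uu φ 0 W').length + 1 ≤ (uu φ 0 W).length := by omega
  have e8 : N * ((uu φ 0 W').length + 1) ≤ N * (uu φ 0 W).length := Nat.mul_le_mul_left _ e7
  rw [mul_add, mul_one] at e8
  omega

theorem lf_good {W : List (Lt V)} (h : W ∈ Lf φ) : Good φ W := by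
  have hval : pr φ W = ((uu φ 0 W).map (xg φ)).prod * tg φ ^ ex W := by
    have := pr_uu φ 0 W
    rwa [zpow_zero, one_mul, zero_add] at this
  have key : ∀ u' : List (V × Bool), IsConj (pr φ W) ((u'.map (xg φ)).prod * tg φ ^ ex W) →
      W.length ≤ u'.length + nrm φ (ex W) := by
    intro u' hu'
    obtain ⟨T, hT1, hT2⟩ := exists_t φ (ex W)
    have h1 : pr φ (u'.map Sum.inl ++ T) = (u'.map (xg φ)).prod * tg φ ^ ex W := by
      rw [pr_append, hT2, pr, List.map_map]
      rfl
    have h2 := h (u'.map Sum.inl ++ T) (by rw [h1]; exact hu')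
    rw [List.length_append, List.length_map, hT1] at h2
    exact h2
  have hlen := uu_length φ 0 W
  have hlow : nrm φ (ex W) ≤ nT W := nrm_le_nT φ (IsConj.refl _)
  have hnt : nT W = nrm φ (ex W) := by
    have := key (uu φ 0 W) (by rw [← hval])
    omega
  have key2 : ∀ u' : List (V × Bool), IsConj (pr φ W) ((u'.map (xg φ)).prod * tg φ ^ ex W) →
      (uu φ 0 W).length ≤ u'.length := by
    intro u' hu'
    have := key u' hu'
    omega
  refine ⟨hnt, ?_, ?_⟩
  · by_contra hcon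
    obtain ⟨u', h1, h2⟩ := shorten hcon
    have h3 := key2 u' (by rw [← h2 _ (xg φ) (xg_comm φ) (xg_nv φ), ← hval])
    omega
  · intro r hr y hy hall hf
    set ψ := φ ^ (-ex W) with hψ
    set u := uu φ 0 W with hu
    obtain ⟨z, hz⟩ : ∃ z, z = nv (mpl (ψ ^ r)⁻¹ y) := ⟨_, rfl⟩
    rw [← hz] at hf
    have hzr : mpl (ψ ^ r) z = nv y := by
      rw [hz, ← mpl_nv, ← mpl_mul, mul_inv_cancel, mpl_one]
    have hyz : y ≠ z := by
      intro he
      have h1 : z.2 = !y.2 := by rw [hz]; rfl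
      rw [← he] at h1
      cases h2 : y.2 <;> simp [h2] at h1
    obtain ⟨u', -, hl1, -, -, hl2, hp1⟩ := hf.extract
    obtain ⟨u'', hl3, hp2⟩ := (hl2 y hyz hy).extract
    have hp1' := hp1 _ (xg φ) (xg_comm φ)
    have hp2' := hp2 _ (xg φ) (xg_comm φ)
    -- commutation
    have hcomm : ∀ s : ℕ, 0 < s → s < r → Commute (xg φ (mpl (ψ ^ s) z)) ((u'.map (xg φ)).prod) := by
      intro s hs0 hsr
      have hx : ∀ x ∈ u, Commute (xg φ (mpl (ψ ^ s) z)) (xg φ x) := by
        intro x hx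
        apply xg_comm
        have h1 := hall (r - s) (by omega) (by omega) x hx
        have h2 : (ψ ^ (r - s)) ((mpl (ψ ^ s) z).1) = y.1 := by
          have h3 : (mpl (ψ ^ (r - s)) (mpl (ψ ^ s) z)).1 = y.1 := by
            rw [← mpl_mul, ← pow_add, Nat.sub_add_cancel hsr.le, hzr, nv_fst]
          exact h3
        rw [← h2] at h1
        exact (ψ ^ (r - s)).map_adj_iff.1 h1
      have h1 : Commute (xg φ (mpl (ψ ^ s) z)) ((u.map (xg φ)).prod) := by
        apply Commute.list_prod_right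
        intro a ha
        obtain ⟨b, hb, rfl⟩ := List.mem_map.1 ha
        exact hx b hb
      have h2 := hx z hf.mem
      have h3 : (u'.map (xg φ)).prod = (xg φ z)⁻¹ * (u.map (xg φ)).prod := by
        rw [hp1', inv_mul_cancel_left]
      rw [h3]
      exact h2.inv_right.mul_right h1
    have htz : ∀ x : V × Bool, tg φ ^ ex W * xg φ x = xg φ (mpl ψ x) * tg φ ^ ex W := fun x =>
      tz φ (ex W) x
    have hchain : ∀ s : ℕ, s < r → IsConj (pr φ W)
        (xg φ (mpl (ψ ^ s) z) * (u'.map (xg φ)).prod * tg φ ^ ex W) := by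
      intro s
      induction s with
      | zero =>
        intro _
        rw [pow_zero, mpl_one, ← hp1', ← hval]
      | succ s ih =>
        intro hs
        refine (ih (by omega)).trans ?_
        rw [isConj_iff]
        refine ⟨(xg φ (mpl (ψ ^ s) z))⁻¹, ?_⟩
        rw [inv_inv, mul_assoc, mul_assoc, mul_assoc, htz, mul_assoc, inv_mul_cancel_left,
          ← mpl_mul, ← pow_succ', ← mul_assoc, ← (hcomm (s + 1) (by omega) hs).eq, mul_assoc,
          ← mul_assoc, mul_assoc]
    have hlast : IsConj (pr φ W) ((u''.map (xg φ)).prod * tg φ ^ ex W) := by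
      refine (hchain (r - 1) (by omega)).trans ?_
      rw [isConj_iff]
      refine ⟨(xg φ (mpl (ψ ^ (r - 1)) z))⁻¹, ?_⟩
      rw [inv_inv, mul_assoc, mul_assoc, mul_assoc, htz, inv_mul_cancel_left,
          ← mpl_mul, ← pow_succ', Nat.sub_add_cancel hr, hzr, hp2', xg_nv, ← mul_assoc,
          mul_assoc _ (xg φ y), mul_inv_cancel, mul_one]
    have := key2 u'' hlast
    omega

end Q30.VR
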