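import Mathlib

/-!
# Virtual right-angled Artin groups and conjugacy geodesics: definitions
-/

namespace Q30.VR

/-- The word length of an element with respect to a subset `Y`. -/
noncomputable def wordLength {G : Type} [Group G] (Y : Set G) (g : G) : ℕ :=
  sInf {n | ∃ l : List Y, l.length = n ∧ (l.map Subtype.val).prod = g}

/-- The conjugacy geodesic language: the words over `Y` whose length is the minimum of the word
lengths of the conjugates of the represented element. -/
def ConjGeo {G : Type} [Group G] (Y : Set G) : Language Y :=
  {w | IsLeast {n | ∃ h, IsConj (w.map Subtype.val).prod h ∧ wordLength Y h = n} w.length}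

variable {V : Type} (Γ : SimpleGraph V) (φ : Γ ≃g Γ)

/-- The relations of the virtual right-angled Artin group: the generator `some v` stands for the
vertex `v` and `none` stands for `t`. -/
def relations : Set (FreeGroup (Option V)) :=
  {r | ∃ u v, Γ.Adj u v ∧ r = FreeGroup.of (some u) * FreeGroup.of (some v) *
    (FreeGroup.of (some u))⁻¹ * (FreeGroup.of (some v))⁻¹} ∪
  {FreeGroup.of none ^ orderOf φ} ∪
  {r | ∃ v, r = (FreeGroup.of none)⁻¹ * FreeGroup.of (some v) * FreeGroup.of none *
    (FreeGroup.of (some (φ v)))⁻¹}

/-- The virtual right-angled Artin group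
`A_φ = ⟨V, t | uv = vu for {u,v} ∈ E, t^m = 1, t⁻¹vt = φ(v)⟩`, where `m` is the order of `φ`. -/
abbrev VRaag : Type := PresentedGroup (relations Γ φ)

/-- the standard generating set: the vertices, `t`, and their inverses -/
def stdGen : Set (VRaag Γ φ) :=
  {x | ∃ a : Option V, x = PresentedGroup.of a ∨ x = (PresentedGroup.of a)⁻¹}

end Q30.VR
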