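import Pool.Agent.Q30.VRCrit

/-!
# The automaton

Part of the solution of MP_7325c9.
-/

namespace Q30.VR

open Classical

variable {V : Type} {Γ : SimpleGraph V} (φ : Γ ≃g Γ)

/-- states: exponent of `t`, truncated number of letters `t`, current twist, reducedness, first
letters, last letters, support -/
abbrev Sta : Type :=
  ZMod (orderOf φ) × Fin (orderOf φ + 1) × (Γ ≃g Γ) × Prop × Set (V × Bool) × Set (V × Bool) × Set V

/-- truncation -/
def tr (m n : ℕ) : Fin (m + 1) := ⟨min n m, by omega⟩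

/-- the step function -/
noncomputable def stp (s : Sta φ) : Lt V → Sta φ
  | Sum.inl y => (s.1, s.2.1, s.2.2.1,
      (s.2.2.2.1 ∧ nv (mpl s.2.2.1 y) ∉ s.2.2.2.2.2.1),
      {z | z ∈ s.2.2.2.2.1 ∨ ((∀ v ∈ s.2.2.2.2.2.2, Γ.Adj z.1 v) ∧ z = mpl s.2.2.1 y)},
      {z | z = mpl s.2.2.1 y ∨ (z ∈ s.2.2.2.2.2.1 ∧ Γ.Adj z.1 (mpl s.2.2.1 y).1)},
      {v | v ∈ s.2.2.2.2.2.2 ∨ v = (mpl s.2.2.1 y).1})
  | Sum.inr b => (s.1 + (sg b : ZMod (orderOf φ)), tr (orderOf φ) (s.2.1.1 + 1), s.2.2.1 * φ ^ (-sg b),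
      s.2.2.2.1, s.2.2.2.2.1, s.2.2.2.2.2.1, s.2.2.2.2.2.2)

/-- accepting states -/
def acc : Set (Sta φ) := {s | s.2.1.1 = (s.1.valMinAbs).natAbs ∧ s.2.2.2.1 ∧
  ∀ r : ℕ, 0 < r → ∀ y ∈ s.2.2.2.2.2.1,
    (∀ l : ℕ, 0 < l → l < r → ∀ v ∈ s.2.2.2.2.2.2, Γ.Adj y.1 ((s.2.2.1 ^ l) v)) →
      nv (mpl (s.2.2.1 ^ r)⁻¹ y) ∉ s.2.2.2.2.1}

/-- the automaton -/
noncomputable def dfa : DFA (Lt V) (Sta φ) where
  step := stp φ
  start := (0, tr (orderOf φ) 0, 1, True, ∅, ∅, ∅)
  accept := acc φ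

/-- the data of a word -/
noncomputable def dat (W : List (Lt V)) : Sta φ :=
  ((ex W : ZMod (orderOf φ)), tr (orderOf φ) (nT W), φ ^ (-ex W), Red Γ (uu φ 0 W),
    {z | Fst Γ z (uu φ 0 W)}, {z | Lst Γ z (uu φ 0 W)}, {v | ∃ x ∈ uu φ 0 W, v = x.1})

theorem dfa_eval (W : List (Lt V)) : (dfa φ).eval W = dat φ W := by
  induction W using List.reverseRecOn with
  | nil =>
    rw [DFA.eval_nil]
    simp only [dfa, dat, ex, nT, uu, Red, Fst, Lst, Int.cast_zero, neg_zero, zpow_zero,
      List.not_mem_nil, false_and, exists_false, Set.ofPred_false]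
  | append_singleton W a ih =>
    rw [DFA.eval_append_singleton, ih]
    change stp φ (dat φ W) a = _
    rcases a with y | b
    · have h1 : ex (W ++ [Sum.inl y]) = ex W := by simp [ex_append, ex]
      have h2 : nT (W ++ [Sum.inl y]) = nT W := by simp [nT_append, nT]
      have h3 : uu φ 0 (W ++ [Sum.inl y]) = uu φ 0 W ++ [mpl (φ ^ (-ex W)) y] := by
        rw [uu_append, zero_add]; rfl
      simp only [stp, dat, h1, h2, h3]
      refine Prod.ext rfl (Prod.ext rfl (Prod.ext rfl (Prod.ext ?_ (Prod.ext ?_ (Prod.ext ?_ ?_)))))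
      · simp only
        rw [red_append]
        apply propext
        constructor
        · rintro ⟨r1, r2⟩
          refine ⟨r1, ⟨trivial, fun h => h.elim⟩, ?_⟩
          intro z hz hf
          rcases hf with hf | ⟨-, hf⟩
          · apply r2
            rw [← hf, nv_nv]
            exact hz
          · exact hf.elim
        · rintro ⟨r1, -, r2⟩
          refine ⟨r1, fun h => r2 _ h (Or.inl (nv_nv _))⟩
      · ext z
        simp only [Set.mem_ofPred_eq]
        rw [fst_append]
        constructor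
        · rintro (h | ⟨h, rfl⟩)
          · exact Or.inl h
          · exact Or.inr ⟨fun x hx => h x.1 ⟨x, hx, rfl⟩, Or.inl rfl⟩
        · rintro (h | ⟨h, h' | ⟨-, h'⟩⟩)
          · exact Or.inl h
          · refine Or.inr ⟨?_, h'⟩
            rintro v ⟨x, hx, rfl⟩
            exact h x hx
          · exact h'.elim
      · ext z
        simp only [Set.mem_ofPred_eq]
        rw [lst_append]
        constructor
        · rintro (h | ⟨h, h'⟩)
          · exact Or.inl (Or.inr ⟨h, by simp⟩)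
          · exact Or.inr ⟨h, by simpa using h'⟩
        · rintro ((h | ⟨h, -⟩) | ⟨h, h'⟩)
          · exact h.elim
          · exact Or.inl h
          · exact Or.inr ⟨h, by simpa using h'⟩
      · ext v
        simp only [Set.mem_ofPred_eq, List.mem_append, List.mem_singleton]
        constructor
        · rintro (⟨x, hx, rfl⟩ | rfl)
          · exact ⟨x, Or.inl hx, rfl⟩
          · exact ⟨_, Or.inr rfl, rfl⟩
        · rintro ⟨x, hx | rfl, rfl⟩
          · exact Or.inl ⟨x, hx, rfl⟩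
          · exact Or.inr rfl
    · have h1 : ex (W ++ [Sum.inr b]) = ex W + sg b := by simp [ex_append, ex]
      have h2 : nT (W ++ [Sum.inr b]) = nT W + 1 := by simp [nT_append, nT]
      have h3 : uu φ 0 (W ++ [Sum.inr b]) = uu φ 0 W := by
        rw [uu_append]; simp [uu]
      simp only [stp, dat, h1, h2, h3]
      refine Prod.ext ?_ (Prod.ext ?_ (Prod.ext ?_ rfl))
      · simp
      · simp only [tr, Fin.mk.injEq]
        omega
      · simp only
        rw [← zpow_add]
        congr 1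
        ring

variable [Fintype V]

theorem dat_acc (W : List (Lt V)) : dat φ W ∈ acc φ ↔ Good φ W := by
  have h0 := nrm_lt φ (ex W)
  unfold Good Star
  constructor
  · rintro ⟨h1, h2, h3⟩
    refine ⟨?_, h2, ?_⟩
    · change min (nT W) (orderOf φ) = nrm φ (ex W) at h1
      omega
    · intro r hr y hy hall
      refine h3 r hr y hy fun l hl1 hl2 v hv => ?_
      obtain ⟨x, hx, rfl⟩ := hv
      exact hall l hl1 hl2 x hx
  · rintro ⟨h1, h2, h3⟩
    refine ⟨?_, h2, ?_⟩
    · change min (nT W) (orderOf φ) = nrm φ (ex W)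
      omega
    · intro r hr y hy hall
      exact h3 r hr y hy fun l hl1 hl2 x hx => hall l hl1 hl2 x.1 ⟨x, hx, rfl⟩

theorem accepts_eq : (dfa φ).accepts = Lf φ := by
  ext W
  rw [DFA.mem_accepts, dfa_eval]
  change dat φ W ∈ acc φ ↔ _
  rw [dat_acc]
  exact ⟨good_lf φ, lf_good φ⟩

theorem finite_Sta : Finite (Sta φ) := by
  have := finite_iso (Γ := Γ)
  have : NeZero (orderOf φ) := ⟨(order_pos φ).ne'⟩
  infer_instance

/-! ## From formal words to words over the generating set -/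

/-- a formal letter for a generator -/
theorem exists_letter (y : stdGen Γ φ) : ∃ a : Lt V, lg φ a = y.1 := by
  obtain ⟨x, a, h⟩ := y
  rcases a with _ | v
  · rcases h with rfl | rfl
    · exact ⟨Sum.inr true, rfl⟩
    · exact ⟨Sum.inr false, rfl⟩
  · rcases h with rfl | rfl
    · exact ⟨Sum.inl (v, true), rfl⟩
    · exact ⟨Sum.inl (v, false), rfl⟩

omit [Fintype V] in
theorem lg_mem (a : Lt V) : lg φ a ∈ stdGen Γ φ := by
  rcases a with ⟨v, b⟩ | b
  · refine ⟨some v, ?_⟩
    cases b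
    · exact Or.inr rfl
    · exact Or.inl rfl
  · refine ⟨none, ?_⟩
    cases b
    · exact Or.inr rfl
    · exact Or.inl rfl

/-- the letter of a generator -/
noncomputable def lt (y : stdGen Γ φ) : Lt V := (exists_letter φ y).choose

theorem lg_lt (y : stdGen Γ φ) : lg φ (lt φ y) = y.1 := (exists_letter φ y).choose_spec

theorem pr_map (w : List (stdGen Γ φ)) : pr φ (w.map (lt φ)) = (w.map Subtype.val).prod := by
  unfold pr
  rw [List.map_map]
  congr 2
  funext y
  exact lg_lt φ y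

theorem exists_list (W : List (Lt V)) :
    ∃ w : List (stdGen Γ φ), w.length = W.length ∧ (w.map Subtype.val).prod = pr φ W := by
  refine ⟨W.map (fun a => ⟨lg φ a, lg_mem φ a⟩), by simp, ?_⟩
  unfold pr
  rw [List.map_map]
  rfl

theorem mem_conjGeo (w : List (stdGen Γ φ)) : w ∈ ConjGeo (stdGen Γ φ) ↔ w.map (lt φ) ∈ Lf φ := by
  have hset : ∀ h : VRaag Γ φ, ({n | ∃ l : List (stdGen Γ φ), l.length = n ∧
      (l.map Subtype.val).prod = h} : Set ℕ).Nonempty := by
    intro h
    obtain ⟨W, hW⟩ := exists_word φ h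
    obtain ⟨l, h1, h2⟩ := exists_list φ W
    exact ⟨l.length, l, rfl, by rw [h2, hW]⟩
  constructor
  · rintro ⟨-, hmin⟩ W' hW'
    rw [pr_map] at hW'
    obtain ⟨l, h1, h2⟩ := exists_list φ W'
    have h3 := hmin ⟨pr φ W', hW', rfl⟩
    rw [List.length_map, ← h1]
    exact h3.trans (Nat.sInf_le ⟨l, rfl, h2⟩)
  · intro hw
    have hlow : ∀ h, IsConj (w.map Subtype.val).prod h → w.length ≤ wordLength (stdGen Γ φ) h := by
      intro h hh
      obtain ⟨l, h1, h2⟩ := Nat.sInf_mem (hset h)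
      change w.length ≤ sInf _
      rw [← h1]
      have h3 := hw (l.map (lt φ)) (by rw [pr_map, pr_map, h2]; exact hh)
      rwa [List.length_map, List.length_map] at h3
    refine ⟨⟨_, IsConj.refl _, ?_⟩, ?_⟩
    · apply le_antisymm
      · exact Nat.sInf_le ⟨w, rfl, rfl⟩
      · exact hlow _ (IsConj.refl _)
    · rintro n ⟨h, hh, rfl⟩
      exact hlow h hh

theorem regular : (ConjGeo (stdGen Γ φ)).IsRegular := by
  have := finite_Sta φ
  have := Fintype.ofFinite (Sta φ)
  refine ⟨Sta φ, this, (dfa φ).comap (lt φ), ?_⟩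
  rw [DFA.accepts_comap, accepts_eq]
  ext w
  exact (mem_conjGeo φ w).symm

end Q30.VR
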