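import Pool.Agent.Q30.Pil2
import Pool.Agent.Q30.VRDefs

/-!
# Conjugacy geodesics

Part of the solution of MP_7325c9.
-/

namespace Q30.VR

open Classical

variable {V : Type} {Γ : SimpleGraph V} (φ : Γ ≃g Γ)

/-- formal letters -/
abbrev Lt (V : Type) : Type := (V × Bool) ⊕ Bool

/-- vertex letters in the group -/
def xg (y : V × Bool) : VRaag Γ φ :=
  if y.2 then PresentedGroup.of (some y.1) else (PresentedGroup.of (some y.1))⁻¹

/-- the letter `t` in the group -/
def tg : VRaag Γ φ := PresentedGroup.of none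

/-- letters in the group -/
def lg : Lt V → VRaag Γ φ
  | Sum.inl y => xg φ y
  | Sum.inr b => if b then tg φ else (tg φ)⁻¹

theorem xg_nv (y : V × Bool) : xg φ (nv y) = (xg φ y)⁻¹ := by
  rcases y with ⟨v, b⟩
  cases b <;> simp [xg, nv]

theorem comm_gen {u v : V} (h : Γ.Adj u v) :
    Commute (PresentedGroup.of (some u) : VRaag Γ φ) (PresentedGroup.of (some v)) := by
  have h1 : (PresentedGroup.mk (relations Γ φ)) (FreeGroup.of (some u) * FreeGroup.of (some v) *
      (FreeGroup.of (some u))⁻¹ * (FreeGroup.of (some v))⁻¹) = 1 :=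
    PresentedGroup.one_of_mem (Or.inl (Or.inl ⟨u, v, h, rfl⟩))
  rw [map_mul, map_mul, map_mul, map_inv, map_inv] at h1
  change (PresentedGroup.of (some u) : VRaag Γ φ) * PresentedGroup.of (some v) =
    PresentedGroup.of (some v) * PresentedGroup.of (some u)
  exact mul_inv_eq_iff_eq_mul.1 (mul_inv_eq_one.1 h1)

theorem xg_comm (a b : V × Bool) (h : Γ.Adj a.1 b.1) : Commute (xg φ a) (xg φ b) := by
  have h1 := comm_gen φ h
  unfold xg
  split_ifs
  · exact h1
  · exact h1.inv_right
  · exact h1.inv_left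
  · exact h1.inv_inv

theorem tg_pow : tg φ ^ orderOf φ = 1 := by
  have h1 : (PresentedGroup.mk (relations Γ φ)) (FreeGroup.of none ^ orderOf φ) = 1 :=
    PresentedGroup.one_of_mem (Or.inl (Or.inr rfl))
  rw [map_pow] at h1
  exact h1

theorem tg_conj (y : V × Bool) : (tg φ)⁻¹ * xg φ y * tg φ = xg φ (mpl φ y) := by
  have h1 : (PresentedGroup.mk (relations Γ φ)) ((FreeGroup.of none)⁻¹ * FreeGroup.of (some y.1) *
      FreeGroup.of none * (FreeGroup.of (some (φ y.1)))⁻¹) = 1 :=
    PresentedGroup.one_of_mem (Or.inr ⟨y.1, rfl⟩)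
  rw [map_mul, map_mul, map_mul, map_inv, map_inv] at h1
  have h2 : (tg φ)⁻¹ * (PresentedGroup.of (some y.1) : VRaag Γ φ) * tg φ =
      PresentedGroup.of (some (φ y.1)) := mul_inv_eq_one.1 h1
  unfold xg mpl
  simp only
  split_ifs
  · exact h2
  · rw [← h2]
    group

theorem tz_conj (c : ℤ) (y : V × Bool) :
    (tg φ) ^ (-c) * xg φ y * tg φ ^ c = xg φ (mpl (φ ^ c) y) := by
  induction c using Int.induction_on with
  | zero => simp [mpl_one]
  | succ c ih =>
    have e1 : (tg φ) ^ (-((c : ℤ) + 1)) = (tg φ)⁻¹ * (tg φ) ^ (-(c : ℤ)) := by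
      rw [neg_add_rev, zpow_add, zpow_neg_one]
    have e2 : (tg φ) ^ ((c : ℤ) + 1) = (tg φ) ^ (c : ℤ) * tg φ := by
      rw [zpow_add, zpow_one]
    rw [e1, e2]
    calc (tg φ)⁻¹ * (tg φ) ^ (-(c : ℤ)) * xg φ y * ((tg φ) ^ (c : ℤ) * tg φ)
        = (tg φ)⁻¹ * ((tg φ) ^ (-(c : ℤ)) * xg φ y * (tg φ) ^ (c : ℤ)) * tg φ := by
          simp only [mul_assoc]
      _ = xg φ (mpl (φ ^ ((c : ℤ) + 1)) y) := by
          rw [ih, tg_conj, ← mpl_mul, add_comm (c : ℤ) 1, zpow_add, zpow_one]
  | pred c ih =>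
    have e1 : (tg φ) ^ (-(-(c : ℤ) - 1)) = tg φ * (tg φ) ^ (-(-(c : ℤ))) := by
      rw [neg_sub, sub_eq_add_neg, zpow_add, zpow_one]
    have e2 : (tg φ) ^ (-(c : ℤ) - 1) = (tg φ) ^ (-(c : ℤ)) * (tg φ)⁻¹ := by
      rw [sub_eq_add_neg, zpow_add, zpow_neg_one]
    have e3 : tg φ * xg φ (mpl (φ ^ (-(c : ℤ))) y) * (tg φ)⁻¹ =
        xg φ (mpl (φ ^ (-(c : ℤ) - 1)) y) := by
      have h := tg_conj φ (mpl (φ ^ (-(c : ℤ) - 1)) y)
      rw [← mpl_mul] at h
      have h' : φ * φ ^ (-(c : ℤ) - 1) = φ ^ (-(c : ℤ)) := by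
        rw [← zpow_one_add]; congr 1; ring
      rw [h'] at h
      rw [← h]
      group
    rw [e1, e2, ← e3, ← ih]
    simp only [mul_assoc]

theorem tz (c : ℤ) (y : V × Bool) : (tg φ) ^ c * xg φ y = xg φ (mpl (φ ^ (-c)) y) * tg φ ^ c := by
  rw [← tz_conj, neg_neg]
  simp only [mul_assoc, ← zpow_add, neg_add_cancel, zpow_zero, mul_one]

/-- sign -/
def sg (b : Bool) : ℤ := if b then 1 else -1

theorem lg_inr (b : Bool) : lg φ (Sum.inr b) = tg φ ^ sg b := by
  cases b <;> simp [lg, sg]

/-- the exponent of `t` -/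
def ex : List (Lt V) → ℤ
  | [] => 0
  | Sum.inl _ :: W => ex W
  | Sum.inr b :: W => sg b + ex W

/-- the number of letters `t` -/
def nT : List (Lt V) → ℕ
  | [] => 0
  | Sum.inl _ :: W => nT W
  | Sum.inr _ :: W => nT W + 1

/-- the vertex letters, after moving the letters `t` to the right -/
def uu : ℤ → List (Lt V) → List (V × Bool)
  | _, [] => []
  | c, Sum.inl y :: W => mpl (φ ^ (-c)) y :: uu c W
  | c, Sum.inr b :: W => uu (c + sg b) W

/-- the value of a formal word -/
def pr (W : List (Lt V)) : VRaag Γ φ := (W.map (lg φ)).prod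

theorem pr_cons (a : Lt V) (W : List (Lt V)) : pr φ (a :: W) = lg φ a * pr φ W := by
  simp [pr]

theorem pr_append (W W' : List (Lt V)) : pr φ (W ++ W') = pr φ W * pr φ W' := by
  simp [pr]

theorem ex_append (W W' : List (Lt V)) : ex (W ++ W') = ex W + ex W' := by
  induction W with
  | nil => simp [ex]
  | cons a W ih => rcases a with y | b <;> simp [ex, ih, add_assoc]

theorem nT_append (W W' : List (Lt V)) : nT (W ++ W') = nT W + nT W' := by
  induction W with
  | nil => simp [nT]
  | cons a W ih => rcases a with y | b <;> simp [nT, ih, add_comm, add_left_comm]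

theorem uu_append (c : ℤ) (W W' : List (Lt V)) :
    uu φ c (W ++ W') = uu φ c W ++ uu φ (c + ex W) W' := by
  induction W generalizing c with
  | nil => simp [uu, ex]
  | cons a W ih => rcases a with y | b <;> simp [uu, ih, ex, add_assoc]

theorem uu_add (c d : ℤ) (W : List (Lt V)) :
    uu φ (c + d) W = (uu φ c W).map (mpl (φ ^ (-d))) := by
  induction W generalizing c with
  | nil => simp [uu]
  | cons a W ih =>
    rcases a with y | b
    · simp only [uu, List.map_cons, ih]
      rw [← mpl_mul, ← zpow_add, neg_add_rev]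
    · simp only [uu]
      rw [← ih, add_right_comm]

theorem uu_length (c : ℤ) (W : List (Lt V)) : (uu φ c W).length + nT W = W.length := by
  induction W generalizing c with
  | nil => simp [uu, nT]
  | cons a W ih =>
    rcases a with y | b
    · simp only [uu, nT, List.length_cons]
      have := ih c
      omega
    · simp only [uu, nT, List.length_cons]
      have := ih (c + sg b)
      omega

theorem ex_le (W : List (Lt V)) : (ex W).natAbs ≤ nT W := by
  induction W with
  | nil => simp [ex]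
  | cons a W ih =>
    rcases a with y | b
    · exact ih
    · simp only [ex, nT]
      have : (sg b).natAbs = 1 := by cases b <;> simp [sg]
      omega

theorem pr_uu (c : ℤ) (W : List (Lt V)) :
    tg φ ^ c * pr φ W = ((uu φ c W).map (xg φ)).prod * tg φ ^ (c + ex W) := by
  induction W generalizing c with
  | nil => simp [uu, ex, pr]
  | cons a W ih =>
    rw [pr_cons, ← mul_assoc]
    rcases a with y | b
    · have e1 : lg φ (Sum.inl y : Lt V) = xg φ y := rfl
      rw [e1, tz, mul_assoc, ih]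
      simp only [uu, ex, List.map_cons, List.prod_cons, mul_assoc]
    · rw [lg_inr, ← zpow_add, ih]
      simp only [uu, ex, add_assoc]

theorem exists_word (g : VRaag Γ φ) : ∃ W : List (Lt V), pr φ W = g := by
  obtain ⟨x, rfl⟩ := PresentedGroup.mk_surjective (relations Γ φ) g
  induction x using FreeGroup.induction_on with
  | C1 => exact ⟨[], by simp [pr]⟩
  | of a =>
    rcases a with _ | v
    · exact ⟨[Sum.inr true], by simp [pr, lg, tg, PresentedGroup.of]⟩
    · exact ⟨[Sum.inl (v, true)], by simp [pr, lg, xg, PresentedGroup.of]⟩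
  | inv_of a h =>
    rcases a with _ | v
    · exact ⟨[Sum.inr false], by simp [pr, lg, tg, PresentedGroup.of]⟩
    · exact ⟨[Sum.inl (v, false)], by simp [pr, lg, xg, PresentedGroup.of]⟩
  | mul a b ha hb =>
    obtain ⟨W, hW⟩ := ha
    obtain ⟨W', hW'⟩ := hb
    exact ⟨W ++ W', by rw [pr_append, hW, hW', map_mul]⟩

/-! ## The homomorphisms -/

/-- the action on pilings -/
noncomputable def Psi : VRaag Γ φ →* Equiv.Perm (St Γ) :=
  PresentedGroup.toGroup (f := fun a : Option V => match a with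
    | some v => pm Γ (v, true)
    | none => rp Γ φ⁻¹) (by
    rintro r ((⟨u, v, h, rfl⟩ | rfl) | ⟨v, rfl⟩)
    · simp only [map_mul, map_inv, FreeGroup.lift_apply_of]
      have := pm_comm (y := (u, true)) (z := (v, true)) h
      rw [mul_inv_eq_one, mul_inv_eq_iff_eq_mul]
      exact this.eq
    · rw [map_pow, FreeGroup.lift_apply_of, ← map_pow, inv_pow, pow_orderOf_eq_one, inv_one, map_one]
    · simp only [map_mul, map_inv, FreeGroup.lift_apply_of]
      have := rp_pm φ (v, true)
      rw [inv_inv, mul_inv_eq_one, mul_inv_eq_iff_eq_mul]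
      exact this)

theorem Psi_xg (y : V × Bool) : Psi φ (xg φ y) = pm Γ y := by
  have h : ∀ v, Psi φ (PresentedGroup.of (some v)) = pm Γ (v, true) := fun v =>
    PresentedGroup.toGroup.of _
  rcases y with ⟨v, b⟩
  cases b
  · have h1 : xg φ (v, false) = (PresentedGroup.of (some v))⁻¹ := rfl
    rw [h1, map_inv, h, ← pm_nv]
    rfl
  · exact h v

theorem Psi_tg : Psi φ (tg φ) = rp Γ φ⁻¹ := PresentedGroup.toGroup.of _

theorem Psi_tg_pow (c : ℤ) : Psi φ (tg φ ^ c) = rp Γ (φ⁻¹ ^ c) := by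
  rw [map_zpow, Psi_tg, map_zpow]

/-- the exponent of `t` modulo the order -/
noncomputable def tau : VRaag Γ φ →* Multiplicative (ZMod (orderOf φ)) :=
  PresentedGroup.toGroup (f := fun a : Option V => match a with
    | some _ => 1
    | none => Multiplicative.ofAdd 1) (by
    rintro r ((⟨u, v, h, rfl⟩ | rfl) | ⟨v, rfl⟩)
    · simp
    · rw [map_pow, FreeGroup.lift_apply_of, ← ofAdd_nsmul]
      simp
    · simp)

theorem tau_lg_inl (y : V × Bool) : tau φ (lg φ (Sum.inl y)) = 1 := by
  have h : ∀ v, tau φ (PresentedGroup.of (some v)) = 1 := fun v => PresentedGroup.toGroup.of _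
  rcases y with ⟨v, b⟩
  cases b <;> simp [lg, xg, h]

theorem tau_tg : tau φ (tg φ) = Multiplicative.ofAdd 1 := PresentedGroup.toGroup.of _

theorem tau_pr (W : List (Lt V)) : tau φ (pr φ W) = Multiplicative.ofAdd (ex W : ZMod (orderOf φ)) := by
  induction W with
  | nil => simp [pr, ex]
  | cons a W ih =>
    rw [pr_cons, map_mul, ih]
    rcases a with y | b
    · rw [tau_lg_inl, one_mul, ex]
    · rw [lg_inr, map_zpow, tau_tg, ← ofAdd_zsmul, ← ofAdd_add, ex]
      simp

/-- the norm of an exponent -/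
noncomputable def nrm (c : ℤ) : ℕ := ((c : ZMod (orderOf φ)).valMinAbs).natAbs

theorem tg_zpow_congr {c d : ℤ} (h : (c : ZMod (orderOf φ)) = d) : tg φ ^ c = tg φ ^ d := by
  rw [ZMod.intCast_eq_intCast_iff_dvd_sub] at h
  obtain ⟨k, hk⟩ := h
  have : d = c + orderOf φ * k := by linarith
  rw [this, zpow_add, zpow_mul, zpow_natCast, tg_pow, one_zpow, mul_one]

theorem ex_eq_of_conj {W W' : List (Lt V)} (h : IsConj (pr φ W) (pr φ W')) :
    (ex W : ZMod (orderOf φ)) = ex W' := by
  obtain ⟨c, hc⟩ := isConj_iff.1 h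
  have h1 := congrArg (tau φ) hc
  rw [map_mul, map_mul, map_inv, mul_comm, inv_mul_cancel_left, tau_pr, tau_pr] at h1
  exact Multiplicative.ofAdd.injective h1

section
variable [Fintype V]

theorem finite_iso : Finite (Γ ≃g Γ) := DFunLike.finite _

theorem order_pos : 0 < orderOf φ := by
  have := finite_iso (Γ := Γ)
  exact orderOf_pos φ

theorem nrm_le (c : ℤ) : nrm φ c ≤ c.natAbs := by
  have : NeZero (orderOf φ) := ⟨(order_pos φ).ne'⟩
  apply ZMod.natAbs_min_of_le_div_two (orderOf φ)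
  · exact ZMod.coe_valMinAbs _
  · exact ZMod.natAbs_valMinAbs_le _

theorem nrm_lt (c : ℤ) : nrm φ c < orderOf φ := by
  have hp := order_pos φ
  have : NeZero (orderOf φ) := ⟨hp.ne'⟩
  have h := ZMod.natAbs_valMinAbs_le (c : ZMod (orderOf φ))
  unfold nrm
  omega

theorem nrm_le_nT {W W' : List (Lt V)} (h : IsConj (pr φ W) (pr φ W')) :
    nrm φ (ex W) ≤ nT W' := by
  have h1 := ex_eq_of_conj φ h
  unfold nrm
  rw [h1]
  exact (nrm_le φ (ex W')).trans (ex_le W')

omit [Fintype V] in
/-- a shortest power of `t` -/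
theorem exists_t (c : ℤ) : ∃ T : List (Lt V), T.length = nrm φ c ∧ pr φ T = tg φ ^ c := by
  have h1 : ((c : ZMod (orderOf φ)).valMinAbs : ZMod (orderOf φ)) = (c : ZMod (orderOf φ)) :=
    ZMod.coe_valMinAbs _
  obtain ⟨k, hk⟩ : ∃ k : ℤ, k = (c : ZMod (orderOf φ)).valMinAbs := ⟨_, rfl⟩
  rw [← hk] at h1
  have h2 := tg_zpow_congr φ h1
  refine ⟨List.replicate k.natAbs (Sum.inr (decide (0 ≤ k))), ?_, ?_⟩
  · rw [List.length_replicate, nrm, hk]
  · rw [pr, List.map_replicate, List.prod_replicate, lg_inr, ← h2]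
    rcases le_or_gt 0 k with h | h
    · rw [decide_eq_true h]
      simp only [sg, if_true, zpow_one]
      rw [← zpow_natCast]
      congr 1
      omega
    · rw [decide_eq_false (by omega)]
      simp only [sg, Bool.false_eq_true, if_false, zpow_neg_one]
      rw [← zpow_natCast, inv_zpow']
      congr 1
      omega

theorem sz_bound (W : List (Lt V)) (P : St Γ) :
    sz (Psi φ (pr φ W) P).1 + nT W ≤ sz P.1 + W.length := by
  induction W with
  | nil => simp [pr, nT]
  | cons a W ih =>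
    rw [pr_cons, map_mul, Equiv.Perm.mul_apply]
    rcases a with y | b
    · have e1 : lg φ (Sum.inl y : Lt V) = xg φ y := rfl
      rw [e1, Psi_xg]
      have := sz_pm y (Psi φ (pr φ W) P)
      simp only [nT, List.length_cons]
      omega
    · rw [lg_inr, Psi_tg_pow, sz_rp]
      simp only [nT, List.length_cons]
      omega

theorem sz_red {W : List (Lt V)} (h : Red Γ (uu φ 0 W)) :
    sz (Psi φ (pr φ W) (P0 Γ)).1 + nT W = W.length := by
  have h1 := pr_uu φ 0 W
  rw [zpow_zero, one_mul] at h1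
  rw [h1, map_mul, Equiv.Perm.mul_apply, Psi_tg_pow, rp_P0, map_list_prod, List.map_map]
  have h2 : ((Psi φ) ∘ (xg φ) : V × Bool → _) = pm Γ := by
    funext y
    exact Psi_xg φ y
  have h3 : ((uu φ 0 W).map (⇑(Psi φ) ∘ xg φ)) = (uu φ 0 W).map (pm Γ) := by rw [h2]
  rw [h3, pm_red h, sz_pil, uu_length]

end

end Q30.VR
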