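import Pool.Agent.Q31.VF.D

/-!
# Adapted normal subgroups for several edge groups

Part of the solution of MP_64528c; the arguments extend those of `Pool.Agent.Q31.VF.C` and
`Pool.Agent.Q31.VF.D` to several subgroups.
-/

namespace Q30.VT

open Q31VF

universe u

/-- the restriction of a nontrivial character to a subgroup of finite index is nontrivial -/
theorem restrict_ne {A : Type u} [Group A] (χ : A →* Multiplicative ℤ) (hχ : χ ≠ 1) (T : Subgroup A)
    [T.FiniteIndex] : χ.comp T.subtype ≠ 1 := by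
  intro h
  apply hχ
  ext x
  have hx : x ^ T.normalCore.index ∈ T.normalCore := Subgroup.pow_index_mem _ _
  have hx' : x ^ T.normalCore.index ∈ T := Subgroup.normalCore_le _ hx
  have h2 : χ (x ^ T.normalCore.index) = 1 := DFunLike.congr_fun h ⟨_, hx'⟩
  rw [map_pow] at h2
  have h3 := congrArg Multiplicative.toAdd h2
  rw [toAdd_pow, toAdd_one] at h3
  have hfi : T.normalCore.FiniteIndex := inferInstance
  rcases smul_eq_zero.1 h3 with h4 | h4
  · exact absurd h4 hfi.index_ne_zero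
  · rw [h4]; rfl

theorem step1M {G : Type u} [Group G] {J : Type} [Finite J] (C : J → Type u) [∀ j, Group (C j)]
    (i : ∀ j, C j →* G) (hi : ∀ j, Function.Injective (i j)) (c : ∀ j, C j)
    (hc : ∀ j, ∀ m : ℤ, m ≠ 0 → c j ^ m ≠ 1) (hcf : ∀ j, (Subgroup.zpowers (c j)).FiniteIndex)
    (hF : VirtuallyFibered G) (hR : ∀ j, IsVirtualRetract (i j).range) :
    ∃ N₀ : Subgroup G, N₀.Normal ∧ N₀.FiniteIndex ∧
      (∀ j h, i j h ∈ N₀ → h ∈ Subgroup.zpowers (c j)) ∧
      ∃ (χ : N₀ →* Multiplicative ℤ) (lam : J → (N₀ →* Multiplicative ℤ)), χ ≠ 1 ∧ χ.ker.FG ∧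
        ∀ j (h : C j) (hh : i j h ∈ N₀), h ≠ 1 → lam j ⟨i j h, hh⟩ ≠ 1 := by
  have h1 := fun j => step1 (i j) (hi j) (c j) (hc j) (hcf j) hF (hR j)
  choose N hN1 hN2 hN3 χ' lam hχ1 hχ2 hlam using h1
  obtain ⟨K, hK, φ, hφ, hφ'⟩ := hF
  set N₀ : Subgroup G := K.normalCore ⊓ ⨅ j, N j with hN₀
  have hle : ∀ j, N₀ ≤ N j := fun j => inf_le_right.trans (iInf_le _ j)
  have hleK : N₀ ≤ K := inf_le_left.trans (Subgroup.normalCore_le _)
  have hfi1 : (⨅ j, N j).FiniteIndex := Subgroup.finiteIndex_iInf hN2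
  have hfi : N₀.FiniteIndex := inferInstance
  have hn1 : (⨅ j, N j).Normal := Subgroup.normal_iInf_normal hN1
  have hn : N₀.Normal := inferInstance
  refine ⟨N₀, hn, hfi, fun j h hh => hN3 j h (hle j hh), φ.comp (Subgroup.inclusion hleK),
    fun j => (lam j).comp (Subgroup.inclusion (hle j)), ?_, ?_, ?_⟩
  · intro h
    apply restrict_ne φ hφ (N₀.subgroupOf K)
    ext x
    exact DFunLike.congr_fun h ⟨(x : K), x.2⟩
  · have h1 := fg_restrict φ hφ' (N₀.subgroupOf K)
    exact fg_equiv _ h1 (Subgroup.subgroupOfEquivOfLe hleK).symm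
  · intro j h hh hne
    exact hlam j h (hle j hh) hne

theorem step2M {G : Type u} [Group G] (N : Subgroup G) [N.Normal] [N.FiniteIndex] {J : Type}
    [Finite J] [Nonempty J]
    (χ : N →* Multiplicative ℤ) (lam : J → (N →* Multiplicative ℤ)) (hχ : χ ≠ 1) (hfg : χ.ker.FG)
    (x₀ : J → N) (hx₀ : ∀ j, lam j (x₀ j) ≠ 1) : ∃ f : N →* Multiplicative ℤ, f.ker.FG ∧
      ∀ (j : J) (g : G), f (MulAut.conjNormal g (x₀ j)) ≠ 1 := by
  classical
  have hfin : Finite (G ⧸ N) := Subgroup.finite_quotient_of_finiteIndex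
  have := Fintype.ofFinite (G ⧸ N)
  have := Fintype.ofFinite J
  let w : (J × (G ⧸ N)) → (J × (G ⧸ N)) → ℤ := fun q q' =>
    Multiplicative.toAdd (cjc N (lam q'.1) q'.2.out (MulAut.conjNormal q.2.out (x₀ q.1)))
  have hw : ∀ q, w q q = Multiplicative.toAdd (lam q.1 (x₀ q.1)) := by
    intro q
    simp only [w, cjc_apply]
    rw [← MulAut.mul_apply, ← map_mul, inv_mul_cancel, map_one, MulAut.one_apply]
  obtain ⟨ε, hε⟩ := exists_coeffs w (fun q => ⟨q, by
    rw [hw]
    intro h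
    exact hx₀ q.1 (Multiplicative.toAdd.injective h)⟩)
  let μ : N →* Multiplicative ℤ := ∏ q', (cjc N (lam q'.1) q'.2.out) ^ (ε q')
  have hμ : ∀ x, Multiplicative.toAdd (μ x) =
      ∑ q', ε q' * Multiplicative.toAdd (cjc N (lam q'.1) q'.2.out x) := by
    intro x
    simp only [μ, MonoidHom.finsetProd_apply, toAdd_prod]
    apply Finset.sum_congr rfl
    intro q' _
    show Multiplicative.toAdd ((cjc N (lam q'.1) q'.2.out x) ^ (ε q')) = _
    rw [toAdd_zpow, smul_eq_mul]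
  obtain ⟨M₀, hM₀⟩ := open_lemma χ μ hχ hfg
  obtain ⟨B, hB⟩ := (Set.finite_range (fun q : J × (G ⧸ N) =>
    |Multiplicative.toAdd (μ (MulAut.conjNormal q.2.out (x₀ q.1)))|)).bddAbove
  set M := max M₀ (B.toNat + 1) with hM
  have hBM : B < M := by
    have h1 : B.toNat + 1 ≤ M := le_max_right _ _
    have h2 := Int.self_le_toNat B
    have h3 : ((B.toNat : ℤ) + 1) ≤ M := by exact_mod_cast h1
    linarith
  refine ⟨χ ^ M * μ, hM₀ M (le_max_left _ _), ?_⟩
  intro j g hg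
  -- reduce to the representative
  set q : G ⧸ N := QuotientGroup.mk g with hq
  have hqn : q.out⁻¹ * g ∈ N := by
    rw [← QuotientGroup.eq]; exact Quotient.out_eq' _
  have key : ∀ f : N →* Multiplicative ℤ,
      f (MulAut.conjNormal g (x₀ j)) = f (MulAut.conjNormal q.out (x₀ j)) := by
    intro f
    have e : g = q.out * (q.out⁻¹ * g) := by group
    have e2 : MulAut.conjNormal g (x₀ j) =
        MulAut.conjNormal q.out (MulAut.conjNormal (q.out⁻¹ * g) (x₀ j)) := by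
      conv_lhs => rw [e, map_mul, MulAut.mul_apply]
    rw [e2]
    have h1 := lam_conj N (f.comp (MulAut.conjNormal q.out : MulAut N).toMonoidHom) ⟨_, hqn⟩ (x₀ j)
    exact h1
  rw [key] at hg
  have h1 : (M : ℤ) * Multiplicative.toAdd (χ (MulAut.conjNormal q.out (x₀ j))) +
      Multiplicative.toAdd (μ (MulAut.conjNormal q.out (x₀ j))) = 0 := by
    have := congrArg Multiplicative.toAdd hg
    simpa using this
  have h2 : Multiplicative.toAdd (μ (MulAut.conjNormal q.out (x₀ j))) ≠ 0 := by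
    rw [hμ]; exact hε (j, q)
  have h3 : |Multiplicative.toAdd (μ (MulAut.conjNormal q.out (x₀ j)))| ≤ B := hB ⟨(j, q), rfl⟩
  by_cases h4 : Multiplicative.toAdd (χ (MulAut.conjNormal q.out (x₀ j))) = 0
  · rw [h4, mul_zero, zero_add] at h1
    exact h2 h1
  · have h5 : (1 : ℤ) ≤ |Multiplicative.toAdd (χ (MulAut.conjNormal q.out (x₀ j)))| :=
      Int.one_le_abs h4
    have h6 : |(M : ℤ) * Multiplicative.toAdd (χ (MulAut.conjNormal q.out (x₀ j)))| ≤ B := by
      have : (M : ℤ) * Multiplicative.toAdd (χ (MulAut.conjNormal q.out (x₀ j))) =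
          - Multiplicative.toAdd (μ (MulAut.conjNormal q.out (x₀ j))) := by linarith
      rw [this, abs_neg]; exact h3
    rw [abs_mul, Nat.abs_cast] at h6
    nlinarith

theorem lattM {G : Type u} [Group G] {J : Type} [Finite J] (C : J → Type u) [∀ j, Group (C j)]
    (i : ∀ j, C j →* G) (hi : ∀ j, Function.Injective (i j)) (c : ∀ j, C j)
    (hc : ∀ j, ∀ m : ℤ, m ≠ 0 → c j ^ m ≠ 1) (hcf : ∀ j, (Subgroup.zpowers (c j)).FiniteIndex)
    (hF : VirtuallyFibered G) (hR : ∀ j, IsVirtualRetract (i j).range) :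
    ∃ b : J → ℕ, (∀ j, 0 < b j) ∧ ∀ t : ℕ, 0 < t → ∃ N : Subgroup G, N.Normal ∧ N.FiniteIndex ∧
      (∀ j h, i j h ∈ N ↔ h ∈ Subgroup.zpowers (c j ^ (b j * t))) ∧
      ∃ f : N →* Multiplicative ℤ, f ≠ 1 ∧ f.ker.FG ∧
        ∀ j (g : G) (x : N), (x : G) = g⁻¹ * i j (c j ^ (b j * t)) * g → f x ≠ 1 := by
  classical
  have hGfg : Group.FG G := fg_of_vf hF
  obtain ⟨N₀, hN, hNf, hNc, χ, lam, hχ, hχfg, hlam⟩ := step1M C i hi c hc hcf hF hR
  have := Fintype.ofFinite J
  -- the least powers in `N₀`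
  have hex : ∀ j, ∃ k : ℕ, 0 < k ∧ i j (c j ^ k) ∈ N₀ := by
    intro j
    refine ⟨N₀.index, Nat.pos_of_ne_zero hNf.index_ne_zero, ?_⟩
    rw [map_pow]
    exact Subgroup.pow_index_mem _ _
  have hmin : ∀ j, ∃ k : ℕ, 0 < k ∧ i j (c j ^ k) ∈ N₀ ∧ ∀ s : ℤ, i j (c j ^ s) ∈ N₀ → (k : ℤ) ∣ s := by
    intro j
    obtain ⟨hk₁pos, hk₁mem⟩ := Nat.find_spec (hex j)
    refine ⟨Nat.find (hex j), hk₁pos, hk₁mem, ?_⟩
    intro s hs
    set k₁ := Nat.find (hex j) with hk₁
    by_contra hnd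
    have hr0 : s % k₁ ≠ 0 := fun h0 => hnd (Int.dvd_of_emod_eq_zero h0)
    have hpos : (0 : ℤ) < k₁ := by exact_mod_cast hk₁pos
    have hr1 := Int.emod_nonneg s hpos.ne'
    have hr2 := Int.emod_lt_of_pos s hpos
    have hmem : i j (c j ^ (s % k₁)) ∈ N₀ := by
      have e : c j ^ (s % k₁) = c j ^ s * ((c j ^ k₁) ^ (s / k₁))⁻¹ := by
        rw [Int.emod_def, zpow_sub, zpow_mul, zpow_natCast]
      have e2 : i j (c j ^ s * ((c j ^ k₁) ^ (s / k₁))⁻¹) =
          i j (c j ^ s) * (i j (c j ^ k₁) ^ (s / k₁))⁻¹ := by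
        rw [map_mul, map_inv, map_zpow (i j) (c j ^ k₁)]
      rw [e, e2]
      exact N₀.mul_mem hs (N₀.inv_mem (N₀.zpow_mem hk₁mem _))
    have hlt : (s % k₁).toNat < Nat.find (hex j) := by rw [← hk₁]; omega
    refine Nat.find_min (hex j) hlt ⟨by omega, ?_⟩
    have e : c j ^ (s % k₁).toNat = c j ^ (s % k₁) := by
      rw [← zpow_natCast, Int.toNat_of_nonneg hr1]
    rw [e]; exact hmem
  choose k hkpos hkmem hdvd using hmin
  set x₀ : J → N₀ := fun j => ⟨i j (c j ^ k j), hkmem j⟩ with hx₀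
  have hck : ∀ j, ∀ m : ℕ, 0 < m → c j ^ m ≠ 1 := by
    intro j m hm h
    exact hc j m (by exact_mod_cast hm.ne') (by rw [zpow_natCast]; exact h)
  have hlamx : ∀ j, lam j (x₀ j) ≠ 1 := fun j => hlam j _ (hkmem j) (hck j _ (hkpos j))
  -- an auxiliary element for nontriviality
  obtain ⟨y₀, hy₀⟩ : ∃ y, χ y ≠ 1 := by
    by_contra hcon
    push Not at hcon
    exact hχ (MonoidHom.ext hcon)
  obtain ⟨f₀, hf₀, hf₀'⟩ := step2M N₀ (J := Option J) χ
    (fun o => o.elim χ lam) hχ hχfg (fun o => o.elim y₀ x₀) (by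
      rintro (_ | j)
      · exact hy₀
      · exact hlamx j)
  have hf₀ne : f₀ ≠ 1 := by
    intro h
    apply hf₀' none 1
    rw [h]; rfl
  have hex2 : ∀ j, ∃ φ : N₀ →* Multiplicative ℤ, 0 < Multiplicative.toAdd (φ (x₀ j)) ∧
      ∀ ψ : N₀ →* Multiplicative ℤ, Multiplicative.toAdd (φ (x₀ j)) ∣ Multiplicative.toAdd (ψ (x₀ j)) :=
    fun j => exists_min (A := N₀ →* Multiplicative ℤ) (fun ψ => Multiplicative.toAdd (ψ (x₀ j)))
      (fun a b => by simp) ⟨lam j, fun h => hlamx j (Multiplicative.toAdd.injective h)⟩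
  choose φ hφ0 hφd using hex2
  obtain ⟨e, he⟩ : ∃ e : J → ℕ, ∀ j, (e j : ℤ) = Multiplicative.toAdd (φ j (x₀ j)) :=
    ⟨fun j => (Multiplicative.toAdd (φ j (x₀ j))).toNat, fun j => Int.toNat_of_nonneg (hφ0 j).le⟩
  have hepos : ∀ j, 0 < e j := by
    intro j
    have h1 := hφ0 j
    rw [← he j] at h1
    exact_mod_cast h1
  set E : ℕ := ∏ j, e j with hE
  have hEpos : 0 < E := Finset.prod_pos fun j _ => hepos j
  have hdE : ∀ j, ∃ r : ℕ, E = e j * r := fun j => Finset.dvd_prod_of_mem e (Finset.mem_univ j)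
  choose r hr using hdE
  have hrpos : ∀ j, 0 < r j := by
    intro j
    rcases Nat.eq_zero_or_pos (r j) with h | h
    · have := hr j
      rw [h, mul_zero] at this
      omega
    · exact h
  refine ⟨fun j => k j * r j, fun j => Nat.mul_pos (hkpos j) (hrpos j), ?_⟩
  intro t ht
  have hNfg : Group.FG N₀ := inferInstance
  set T : Subgroup N₀ := divSub N₀ ((E : ℤ) * t) with hT
  have hEt : (E : ℤ) * t ≠ 0 := by
    have h1 : (E : ℤ) ≠ 0 := by exact_mod_cast hEpos.ne'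
    have h2 : (t : ℤ) ≠ 0 := by exact_mod_cast ht.ne'
    exact mul_ne_zero h1 h2
  have hTfi : T.FiniteIndex := divSub_fi N₀ _ hEt
  set N : Subgroup G := T.map N₀.subtype with hNdef
  let hTN : T ≃* N := T.equivMapOfInjective N₀.subtype Subtype.val_injective
  have hTN' : ∀ z : T, ((hTN z : N) : G) = ((z : N₀) : G) := fun z =>
    T.coe_equivMapOfInjective_apply N₀.subtype Subtype.val_injective z
  have hle : N ≤ N₀ := by rintro _ ⟨x, -, rfl⟩; exact x.2
  have hmemN : ∀ x : N₀, (x : G) ∈ N ↔ x ∈ T := by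
    intro x
    constructor
    · rintro ⟨y, hy, hxy⟩
      have : y = x := Subtype.ext hxy
      rwa [← this]
    · intro hx; exact ⟨x, hx, rfl⟩
  have hpow : ∀ (j : J) (s : ℤ), (i j ((c j ^ k j) ^ s) : G) = ((x₀ j ^ s : N₀) : G) := by
    intro j s
    rw [map_zpow, Subgroup.coe_zpow]
  have hmemT : ∀ (j : J) (s : ℤ), x₀ j ^ s ∈ T ↔ ((r j * t : ℕ) : ℤ) ∣ s := by
    intro j s
    have hej : (e j : ℤ) ≠ 0 := by exact_mod_cast (hepos j).ne'
    have hEj : (E : ℤ) = e j * r j := by exact_mod_cast hr j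
    constructor
    · intro h
      have h1 := h (φ j)
      rw [map_zpow, toAdd_zpow, smul_eq_mul, ← he j, mul_comm s, hEj, mul_assoc] at h1
      have h2 := (mul_dvd_mul_iff_left hej).1 h1
      push_cast
      exact h2
    · rintro ⟨s', rfl⟩ ψ
      rw [map_zpow, toAdd_zpow, smul_eq_mul]
      obtain ⟨r', hr'⟩ := hφd j ψ
      rw [hr', ← he j, hEj]
      push_cast
      exact ⟨s' * r', by ring⟩
  refine ⟨N, ?_, ?_, ?_, ?_⟩
  · constructor
    rintro _ ⟨x, hx, rfl⟩ g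
    refine ⟨MulAut.conjNormal g x, ?_, MulAut.conjNormal_apply g x⟩
    intro ψ
    exact hx (ψ.comp (MulAut.conjNormal g : MulAut N₀).toMonoidHom)
  · constructor
    rw [hNdef, Subgroup.index_map_subtype]
    exact mul_ne_zero hTfi.index_ne_zero hNf.index_ne_zero
  · intro j h
    constructor
    · intro hh
      have h0 := hle hh
      obtain ⟨s, rfl⟩ := Subgroup.mem_zpowers_iff.1 (hNc j h h0)
      obtain ⟨s', rfl⟩ := hdvd j s h0
      rw [zpow_mul, zpow_natCast, hpow, hmemN, hmemT] at hh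
      obtain ⟨s'', rfl⟩ := hh
      rw [Subgroup.mem_zpowers_iff]
      refine ⟨s'', ?_⟩
      rw [← zpow_natCast, ← zpow_mul]
      congr 1
      push_cast; ring
    · intro hh
      obtain ⟨s, rfl⟩ := Subgroup.mem_zpowers_iff.1 hh
      have e1 : (c j ^ (k j * r j * t)) ^ s = (c j ^ k j) ^ (((r j * t : ℕ) : ℤ) * s) := by
        rw [mul_assoc, pow_mul, zpow_mul, zpow_natCast]
      rw [e1, hpow, hmemN, hmemT]
      exact Dvd.intro _ rfl
  · refine ⟨(f₀.comp T.subtype).comp hTN.symm.toMonoidHom, ?_,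
      fg_equiv _ (fg_restrict f₀ hf₀ T) hTN.symm, ?_⟩
    · intro h
      apply restrict_ne f₀ hf₀ne T
      ext x
      have h1 := DFunLike.congr_fun h (hTN x)
      have h2 : f₀ (((hTN.symm (hTN x) : T) : N₀)) = 1 := h1
      rw [hTN.symm_apply_apply] at h2
      exact h2
    · intro j g x hx hfx
      set y : N₀ := ((hTN.symm x : T) : N₀) with hy
      have hy2 : (y : G) = x := by
        have h1 : ((hTN (hTN.symm x) : N) : G) = x := by rw [hTN.apply_symm_apply]
        rw [hTN'] at h1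
        exact h1
      have hfy : f₀ y = 1 := hfx
      have e1 : y = MulAut.conjNormal g⁻¹ (x₀ j ^ (r j * t)) := by
        apply Subtype.ext
        rw [MulAut.conjNormal_apply, hy2, hx, inv_inv]
        congr 2
        rw [mul_assoc, pow_mul, map_pow, Subgroup.coe_pow]
      rw [e1, map_pow, map_pow] at hfy
      have h2 := congrArg Multiplicative.toAdd hfy
      rw [toAdd_pow, toAdd_one] at h2
      rcases smul_eq_zero.1 h2 with h3 | h3
      · exact (Nat.mul_pos (hrpos j) ht).ne' h3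
      · exact hf₀' (some j) g⁻¹ (Multiplicative.toAdd.injective h3)

end Q30.VT
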