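import Mathlib

/-!
# Actions on finite unions of lines

Part of the solution of MP_64528c.
-/

namespace Q30.VT

universe u

/-- An action of `G` on `Y × ℤ` commuting with the translations of `ℤ`. -/
structure LA (G : Type u) [Group G] (Y : Type u) where
  /-- the action on the set of lines -/
  a : G →* Equiv.Perm Y
  /-- the translation cocycle -/
  c : G → Y → ℤ
  c_mul : ∀ g h y, c (g * h) y = c g (a h y) + c h y

namespace LA

variable {G : Type u} [Group G] {Y : Type u} (L : LA G Y)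

theorem a_mul (g h : G) (y : Y) : L.a (g * h) y = L.a g (L.a h y) := by
  rw [map_mul]; rfl

theorem a_one (y : Y) : L.a 1 y = y := by
  rw [map_one]; rfl

theorem a_inv (g : G) (y : Y) : L.a g⁻¹ (L.a g y) = y := by
  rw [← L.a_mul, inv_mul_cancel, L.a_one]

theorem a_inv' (g : G) (y : Y) : L.a g (L.a g⁻¹ y) = y := by
  rw [← L.a_mul, mul_inv_cancel, L.a_one]

theorem c_one (y : Y) : L.c 1 y = 0 := by
  have := L.c_mul 1 1 y
  rw [mul_one, L.a_one] at this
  omega

theorem c_inv (g : G) (y : Y) : L.c g⁻¹ y = - L.c g (L.a g⁻¹ y) := by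
  have := L.c_mul g g⁻¹ y
  rw [mul_inv_cancel, L.c_one] at this
  omega

/-- if `d` fixes the line, its powers act by multiples -/
theorem zpow_fix {d : G} {y : Y} (h : L.a d y = y) (k : ℤ) :
    L.a (d ^ k) y = y ∧ L.c (d ^ k) y = k * L.c d y := by
  have h' : L.a d⁻¹ y = y := by
    conv_lhs => rw [← h]
    exact L.a_inv d y
  have hnat : ∀ k : ℕ, L.a (d ^ k) y = y ∧ L.c (d ^ k) y = k * L.c d y := by
    intro k
    induction k with
    | zero => simp [L.c_one]
    | succ k ih =>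
      rw [pow_succ, L.a_mul, h, L.c_mul, h, ih.1, ih.2]
      refine ⟨rfl, ?_⟩
      push_cast; ring
  obtain ⟨n, rfl | rfl⟩ := k.eq_nat_or_neg
  · rw [zpow_natCast]
    simpa using hnat n
  · rw [zpow_neg, zpow_natCast]
    have h1 : L.a (d ^ n)⁻¹ y = y := by
      conv_lhs => rw [← (hnat n).1]
      exact L.a_inv _ y
    refine ⟨h1, ?_⟩
    rw [L.c_inv, h1, (hnat n).2]
    ring

/-- the stabilizer of a point -/
def stab (y : Y) : Subgroup G where
  carrier := {g | L.a g y = y ∧ L.c g y = 0}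
  one_mem' := ⟨L.a_one y, L.c_one y⟩
  mul_mem' := by
    rintro g h ⟨g1, g2⟩ ⟨h1, h2⟩
    refine ⟨?_, ?_⟩
    · rw [L.a_mul, h1, g1]
    · rw [L.c_mul, h1, g2, h2, add_zero]
  inv_mem' := by
    rintro g ⟨g1, g2⟩
    have h1 : L.a g⁻¹ y = y := by
      conv_lhs => rw [← g1]
      exact L.a_inv g y
    refine ⟨h1, ?_⟩
    rw [L.c_inv, h1, g2, neg_zero]

theorem mem_stab {y : Y} {g : G} : g ∈ L.stab y ↔ L.a g y = y ∧ L.c g y = 0 := Iff.rfl

/-- restriction -/
def res {C : Type u} [Group C] (i : C →* G) : LA C Y where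
  a := L.a.comp i
  c x y := L.c (i x) y
  c_mul x x' y := by
    rw [map_mul, L.c_mul]; rfl

/-- scaled product with a trivial set -/
def sc {R : Type u} (t : R → ℤ) : LA G (Y × R) where
  a :=
    { toFun := fun g => Equiv.prodCongr (L.a g) (Equiv.refl R)
      map_one' := by
        ext x <;> simp
      map_mul' := fun g h => by
        ext x <;> simp }
  c g x := t x.2 * L.c g x.1
  c_mul g h x := by
    rw [L.c_mul, mul_add]; rfl

theorem sc_a {R : Type u} (t : R → ℤ) (g : G) (y : Y) (r : R) :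
    (L.sc t).a g (y, r) = (L.a g y, r) := rfl

theorem sc_c {R : Type u} (t : R → ℤ) (g : G) (y : Y) (r : R) :
    (L.sc t).c g (y, r) = t r * L.c g y := rfl

/-- transport along a bijection with an offset -/
def tr {Y' : Type u} (f : Y' ≃ Y) (θ : Y' → ℤ) : LA G Y' where
  a := (f.symm.permCongrHom : Equiv.Perm Y →* Equiv.Perm Y').comp L.a
  c g y := L.c g (f y) + θ y - θ (f.symm (L.a g (f y)))
  c_mul g h y := by
    have e1 : f (((f.symm.permCongrHom : Equiv.Perm Y →* Equiv.Perm Y').comp L.a) h y) =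
        L.a h (f y) := by
      change f (f.symm (L.a h (f.symm.symm y))) = _
      rw [f.apply_symm_apply]; rfl
    rw [e1, L.c_mul, L.a_mul]
    change _ = _ + θ (f.symm (L.a h (f.symm.symm y))) - _ + _
    rw [f.symm_symm]
    ring

theorem tr_a {Y' : Type u} (f : Y' ≃ Y) (θ : Y' → ℤ) (g : G) (y : Y') :
    (L.tr f θ).a g y = f.symm (L.a g (f y)) := rfl

theorem tr_c {Y' : Type u} (f : Y' ≃ Y) (θ : Y' → ℤ) (g : G) (y : Y') :
    (L.tr f θ).c g y = L.c g (f y) + θ y - θ ((L.tr f θ).a g y) := rfl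

/-- all point stabilizers are finitely generated -/
def FGs : Prop := ∀ y, (L.stab y).FG

/-- the group `C` with its subgroup generated by `d` acts freely modulo `d`, and `d` acts by nonzero
translations -/
def Fr {C : Type u} [Group C] (i : C →* G) (d : C) : Prop :=
  (∀ x y, L.a (i x) y = y ↔ x ∈ Subgroup.zpowers d) ∧ ∀ y, L.c (i d) y ≠ 0

/-- some element acts as a nontrivial translation of a line -/
def NT : Prop := ∃ g y, L.a g y = y ∧ L.c g y ≠ 0

theorem FGs.sc {L : LA G Y} (h : L.FGs) {R : Type u} (t : R → ℤ) (ht : ∀ r, t r ≠ 0) :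
    (L.sc t).FGs := by
  rintro ⟨y, r⟩
  have : (L.sc t).stab (y, r) = L.stab y := by
    ext g
    rw [mem_stab, mem_stab, sc_a, sc_c, Prod.mk.injEq]
    simp [ht r]
  rw [this]
  exact h y

theorem FGs.tr {L : LA G Y} (h : L.FGs) {Y' : Type u} (f : Y' ≃ Y) (θ : Y' → ℤ) : (L.tr f θ).FGs := by
  intro y
  have : (L.tr f θ).stab y = L.stab (f y) := by
    ext g
    rw [mem_stab, mem_stab, tr_c]
    have e : (L.tr f θ).a g y = y ↔ L.a g (f y) = f y := by
      rw [tr_a, Equiv.symm_apply_eq]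
    constructor
    · rintro ⟨h1, h2⟩
      rw [h1] at h2
      exact ⟨e.1 h1, by omega⟩
    · rintro ⟨h1, h2⟩
      have h3 := e.2 h1
      rw [h3]
      exact ⟨rfl, by omega⟩
  rw [this]
  exact h (f y)

theorem Fr.sc {L : LA G Y} {C : Type u} [Group C] {i : C →* G} {d : C} (h : L.Fr i d) {R : Type u}
    (t : R → ℤ) (ht : ∀ r, t r ≠ 0) : (L.sc t).Fr i d := by
  refine ⟨?_, ?_⟩
  · rintro x ⟨y, r⟩
    rw [sc_a, Prod.mk.injEq, ← h.1 x y]
    simp
  · rintro ⟨y, r⟩
    rw [sc_c]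
    exact mul_ne_zero (ht r) (h.2 y)

theorem Fr.tr {L : LA G Y} {C : Type u} [Group C] {i : C →* G} {d : C} (h : L.Fr i d) {Y' : Type u}
    (f : Y' ≃ Y) (θ : Y' → ℤ) : (L.tr f θ).Fr i d := by
  have e : ∀ x y, (L.tr f θ).a (i x) y = y ↔ x ∈ Subgroup.zpowers d := by
    intro x y
    rw [tr_a, Equiv.symm_apply_eq, h.1]
  refine ⟨e, ?_⟩
  intro y
  rw [tr_c, (e d y).2 (Subgroup.mem_zpowers d)]
  have := h.2 (f y)
  omega

/-- The comparison of two actions of `C`. -/
theorem compare {C : Type u} [Group C] {Y Y' : Type u} [Finite Y] [Finite Y'] [Nonempty Y]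
    [Nonempty Y'] (L : LA C Y) (L' : LA C Y') (d : C)
    (h : L.Fr (MonoidHom.id C) d) (h' : L'.Fr (MonoidHom.id C) d) :
    ∃ (R R' : Type u) (_ : Finite R) (_ : Finite R') (_ : Nonempty R) (_ : Nonempty R')
      (t : R → ℤ) (t' : R' → ℤ) (f : (Y × R') ≃ (Y' × R)) (θ : Y × R' → ℤ),
      (∀ r, t r ≠ 0) ∧ (∀ r, t' r ≠ 0) ∧
      (∀ x y, f ((L.sc t').a x y) = (L'.sc t).a x (f y)) ∧
      ∀ x y, (L.sc t').c x y = (L'.sc t).c x (f y) + θ y - θ ((L.sc t').a x y) := by
  classical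
  have hd : ∀ y, L.a d y = y := fun y => (h.1 d y).2 (Subgroup.mem_zpowers d)
  have hd' : ∀ y, L'.a d y = y := fun y => (h'.1 d y).2 (Subgroup.mem_zpowers d)
  -- orbits
  let s : Setoid Y :=
    { r := fun y z => ∃ x, L.a x y = z
      iseqv :=
        { refl := fun y => ⟨1, L.a_one y⟩
          symm := by
            rintro y z ⟨x, rfl⟩
            exact ⟨x⁻¹, L.a_inv x y⟩
          trans := by
            rintro y z w ⟨x, rfl⟩ ⟨x', rfl⟩
            exact ⟨x' * x, L.a_mul x' x y⟩ } }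
  let s' : Setoid Y' :=
    { r := fun y z => ∃ x, L'.a x y = z
      iseqv :=
        { refl := fun y => ⟨1, L'.a_one y⟩
          symm := by
            rintro y z ⟨x, rfl⟩
            exact ⟨x⁻¹, L'.a_inv x y⟩
          trans := by
            rintro y z w ⟨x, rfl⟩ ⟨x', rfl⟩
            exact ⟨x' * x, L'.a_mul x' x y⟩ } }
  have hrep : ∀ y : Y, ∃ x, L.a x (Quotient.mk s y).out = y := fun y => by
    have h1 : s.r (Quotient.mk s y).out y := Quotient.exact (Quotient.out_eq (Quotient.mk s y))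
    exact h1
  have hrep' : ∀ y : Y', ∃ x, L'.a x (Quotient.mk s' y).out = y := fun y => by
    have h1 : s'.r (Quotient.mk s' y).out y := Quotient.exact (Quotient.out_eq (Quotient.mk s' y))
    exact h1
  choose hh hhs using hrep
  choose hh' hhs' using hrep'
  have hcl : ∀ (x : C) (y : Y), Quotient.mk s (L.a x y) = Quotient.mk s y := fun x y =>
    (Quotient.sound ⟨x, rfl⟩ : Quotient.mk s y = Quotient.mk s (L.a x y)).symm
  have hcl' : ∀ (x : C) (y : Y'), Quotient.mk s' (L'.a x y) = Quotient.mk s' y := fun x y =>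
    (Quotient.sound ⟨x, rfl⟩ : Quotient.mk s' y = Quotient.mk s' (L'.a x y)).symm
  have hout : ∀ r : Quotient s, Quotient.mk s r.out = r := fun r => Quotient.out_eq r
  have hout' : ∀ r : Quotient s', Quotient.mk s' r.out = r := fun r => Quotient.out_eq r
  -- two lifts differ by a power of `d`
  have hdiff : ∀ (x x' : C) (y : Y), L.a x y = L.a x' y → ∃ k : ℤ, x = x' * d ^ k := by
    intro x x' y hxy
    have h1 : L.a (x'⁻¹ * x) y = y := by rw [L.a_mul, hxy, L.a_inv]
    obtain ⟨k, hk⟩ := Subgroup.mem_zpowers_iff.1 ((h.1 (x'⁻¹ * x) y).1 h1)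
    exact ⟨k, by rw [hk, mul_inv_cancel_left]⟩
  have hdiff' : ∀ (x x' : C) (y : Y'), L'.a x y = L'.a x' y → ∃ k : ℤ, x = x' * d ^ k := by
    intro x x' y hxy
    have h1 : L'.a (x'⁻¹ * x) y = y := by rw [L'.a_mul, hxy, L'.a_inv]
    obtain ⟨k, hk⟩ := Subgroup.mem_zpowers_iff.1 ((h'.1 (x'⁻¹ * x) y).1 h1)
    exact ⟨k, by rw [hk, mul_inv_cancel_left]⟩
  have hadk : ∀ (x : C) (k : ℤ) (y : Y), L.a (x * d ^ k) y = L.a x y := by
    intro x k y
    rw [L.a_mul, (L.zpow_fix (hd y) k).1]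
  have hadk' : ∀ (x : C) (k : ℤ) (y : Y'), L'.a (x * d ^ k) y = L'.a x y := by
    intro x k y
    rw [L'.a_mul, (L'.zpow_fix (hd' y) k).1]
  let f : (Y × Quotient s') ≃ (Y' × Quotient s) :=
    { toFun := fun p => (L'.a (hh p.1) p.2.out, Quotient.mk s p.1)
      invFun := fun p => (L.a (hh' p.1) p.2.out, Quotient.mk s' p.1)
      left_inv := by
        rintro ⟨y, r'⟩
        simp only
        have e1 : Quotient.mk s' (L'.a (hh y) r'.out) = r' := by rw [hcl', hout']
        have e2 := hhs' (L'.a (hh y) r'.out)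
        rw [e1] at e2
        obtain ⟨k, hk⟩ := hdiff' _ _ _ e2
        rw [e1, hk, hadk, hhs]
      right_inv := by
        rintro ⟨y', r⟩
        simp only
        have e1 : Quotient.mk s (L.a (hh' y') r.out) = r := by rw [hcl, hout]
        have e2 := hhs (L.a (hh' y') r.out)
        rw [e1] at e2
        obtain ⟨k, hk⟩ := hdiff _ _ _ e2
        rw [e1, hk, hadk', hhs'] }
  let t : Quotient s → ℤ := fun r => L.c d r.out
  let t' : Quotient s' → ℤ := fun r => L'.c d r.out
  let θ : Y × Quotient s' → ℤ := fun p =>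
    t (Quotient.mk s p.1) * L'.c (hh p.1) p.2.out - t' p.2 * L.c (hh p.1) (Quotient.mk s p.1).out
  have hfa : ∀ (p : Y × Quotient s'), f p = (L'.a (hh p.1) p.2.out, Quotient.mk s p.1) := fun p => rfl
  refine ⟨Quotient s, Quotient s', inferInstance, inferInstance, ⟨Quotient.mk s (Classical.arbitrary Y)⟩,
    ⟨Quotient.mk s' (Classical.arbitrary Y')⟩, t, t', f, θ, fun r => h.2 _, fun r => h'.2 _, ?_, ?_⟩
  · rintro x ⟨y, r'⟩
    rw [sc_a, hfa, hfa, sc_a]
    simp only
    have e1 := hcl x y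
    have e2 := hhs (L.a x y)
    rw [e1] at e2
    have e3 : L.a (hh (L.a x y)) (Quotient.mk s y).out = L.a (x * hh y) (Quotient.mk s y).out := by
      rw [e2, L.a_mul, hhs]
    obtain ⟨k, hk⟩ := hdiff _ _ _ e3
    rw [e1, hk, hadk', L'.a_mul]
  · rintro x ⟨y, r'⟩
    rw [sc_a, hfa, sc_c, sc_c]
    simp only [θ]
    have e1 := hcl x y
    have e2 := hhs (L.a x y)
    rw [e1] at e2
    have e3 : L.a (hh (L.a x y)) (Quotient.mk s y).out = L.a (x * hh y) (Quotient.mk s y).out := by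
      rw [e2, L.a_mul, hhs]
    obtain ⟨k, hk⟩ := hdiff _ _ _ e3
    rw [e1, hk]
    have z1 := L.zpow_fix (hd (Quotient.mk s y).out) k
    have z2 := L'.zpow_fix (hd' r'.out) k
    rw [L.c_mul, z1.1, z1.2, L'.c_mul (x * hh y), z2.1, z2.2, L.c_mul x, L'.c_mul x, hhs]
    simp only [t, t']
    ring

end LA

end Q30.VT
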