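import Pool.Agent.Q30.VT1
import Pool.Agent.Q30.VT2

/-!
# The action of a vertex group

Part of the solution of MP_64528c.
-/

namespace Q30.VT

universe u

section
variable {G : Type u} [Group G] (N : Subgroup G) [N.Normal] (f : N →* Multiplicative ℤ)

theorem out_mem (g : G) (y : G ⧸ N) : (g • y).out⁻¹ * g * y.out ∈ N := by
  rw [mul_assoc, ← QuotientGroup.eq]
  have h1 : ((g • y).out : G ⧸ N) = g • y := Quotient.out_eq' _
  rw [h1]
  have h2 : ((y.out : G) : G ⧸ N) = y := Quotient.out_eq' _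
  conv_lhs => rw [← h2]
  rfl

/-- the action on the lines over the cosets of `N` -/
noncomputable def ind : LA G (G ⧸ N) where
  a := MulAction.toPermHom G (G ⧸ N)
  c g y := Multiplicative.toAdd (f ⟨_, out_mem N g y⟩)
  c_mul g h y := by
    rw [← toAdd_mul, ← map_mul]
    congr 2
    apply Subtype.ext
    change ((g * h) • y).out⁻¹ * (g * h) * y.out =
      ((g • h • y).out⁻¹ * g * (h • y).out) * ((h • y).out⁻¹ * h * y.out)
    rw [mul_smul]
    group

theorem ind_a (g : G) (y : G ⧸ N) : (ind N f).a g y = g • y := rfl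

theorem smul_eq (g : G) (y : G ⧸ N) : g • y = y ↔ y.out⁻¹ * g * y.out ∈ N := by
  rw [mul_assoc, ← QuotientGroup.eq]
  have h2 : ((y.out : G) : G ⧸ N) = y := Quotient.out_eq' _
  have h3 : ((g * y.out : G) : G ⧸ N) = g • y := by
    conv_rhs => rw [← h2]
    rfl
  rw [h2, h3, eq_comm]

theorem ind_c (g : G) (y : G ⧸ N) (h : g • y = y) :
    (ind N f).c g y = Multiplicative.toAdd (f ⟨_, (smul_eq N g y).1 h⟩) := by
  change Multiplicative.toAdd (f ⟨_, out_mem N g y⟩) = _
  congr 2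
  apply Subtype.ext
  change (g • y).out⁻¹ * g * y.out = y.out⁻¹ * g * y.out
  rw [h]

theorem ind_FGs (hf : f.ker.FG) : (ind N f).FGs := by
  intro y
  have h1 : (ind N f).stab y = (f.ker.map N.subtype).map (MulAut.conj y.out).toMonoidHom := by
    ext g
    rw [LA.mem_stab]
    constructor
    · rintro ⟨h1, h2⟩
      rw [ind_a] at h1
      rw [ind_c N f g y h1] at h2
      refine ⟨y.out⁻¹ * g * y.out, ⟨⟨_, (smul_eq N g y).1 h1⟩, Multiplicative.toAdd.injective h2, rfl⟩, ?_⟩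
      change y.out * (y.out⁻¹ * g * y.out) * y.out⁻¹ = g
      group
    · rintro ⟨_, ⟨n, hn, rfl⟩, rfl⟩
      have e : y.out⁻¹ * (y.out * n * y.out⁻¹) * y.out = (n : G) := by group
      have h1 : (y.out * n * y.out⁻¹) • y = y := by
        rw [smul_eq, e]
        exact n.2
      refine ⟨h1, ?_⟩
      have h2 := ind_c N f _ y h1
      refine h2.trans ?_
      have h3 : (⟨_, (smul_eq N _ y).1 h1⟩ : N) = n := Subtype.ext e
      rw [h3]
      have h4 : f n = 1 := hn
      rw [h4]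
      rfl
  rw [h1]
  have key : ∀ {A B : Type u} [Group A] [Group B] (f : A →* B) {K : Subgroup A}, K.FG → (K.map f).FG := by
    intro A B _ _ f K h
    obtain ⟨S, hS, hSf⟩ := (Subgroup.fg_iff _).1 h
    rw [Subgroup.fg_iff]
    refine ⟨f '' S, ?_, hSf.image _⟩
    rw [← hS, MonoidHom.map_closure]
  exact key _ (key _ hf)

theorem ind_NT (hf : f ≠ 1) : (ind N f).NT := by
  obtain ⟨n, hn⟩ : ∃ n, f n ≠ 1 := by
    by_contra hcon
    push Not at hcon
    exact hf (MonoidHom.ext hcon)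
  set y : G ⧸ N := QuotientGroup.mk 1 with hy
  have e : y.out⁻¹ * (y.out * n * y.out⁻¹) * y.out = (n : G) := by group
  have h1 : (y.out * n * y.out⁻¹) • y = y := by
    rw [smul_eq, e]
    exact n.2
  refine ⟨_, y, h1, ?_⟩
  rw [ind_c N f _ y h1]
  have h3 : (⟨_, (smul_eq N _ y).1 h1⟩ : N) = n := Subtype.ext e
  rw [h3]
  intro h
  exact hn (Multiplicative.toAdd.injective h)

theorem ind_Fr {C : Type u} [Group C] (i : C →* G) (d : C)
    (hD : ∀ h, i h ∈ N ↔ h ∈ Subgroup.zpowers d)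
    (hne : ∀ (g : G) (x : N), (x : G) = g⁻¹ * i d * g → f x ≠ 1) : (ind N f).Fr i d := by
  have key : ∀ (x : C) (y : G ⧸ N), (i x) • y = y ↔ x ∈ Subgroup.zpowers d := by
    intro x y
    rw [smul_eq, ← hD]
    constructor
    · intro h
      have := (inferInstance : N.Normal).conj_mem _ h y.out
      have e : y.out * (y.out⁻¹ * i x * y.out) * y.out⁻¹ = i x := by group
      rwa [e] at this
    · intro h
      have := (inferInstance : N.Normal).conj_mem _ h y.out⁻¹
      rwa [inv_inv] at this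
  refine ⟨key, ?_⟩
  intro y
  have h1 := (key d y).2 (Subgroup.mem_zpowers d)
  rw [ind_c N f _ y h1]
  intro h
  exact hne y.out _ rfl (Multiplicative.toAdd.injective h)

end

open Q31VF in
theorem vertex {G : Type u} [Group G] {J : Type} [Finite J] (C : J → Type u) [∀ j, Group (C j)]
    (i : ∀ j, C j →* G) (hi : ∀ j, Function.Injective (i j)) (c : ∀ j, C j)
    (hc : ∀ j, ∀ m : ℤ, m ≠ 0 → c j ^ m ≠ 1) (hcf : ∀ j, (Subgroup.zpowers (c j)).FiniteIndex)
    (hF : VirtuallyFibered G) (hR : ∀ j, IsVirtualRetract (i j).range) :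
    ∃ b : J → ℕ, (∀ j, 0 < b j) ∧ ∀ t : ℕ, 0 < t → ∃ (Y : Type u) (_ : Finite Y) (_ : Nonempty Y)
      (L : LA G Y), L.FGs ∧ L.NT ∧ ∀ j, L.Fr (i j) (c j ^ (b j * t)) := by
  obtain ⟨b, hb, h⟩ := lattM C i hi c hc hcf hF hR
  refine ⟨b, hb, fun t ht => ?_⟩
  obtain ⟨N, hN, hNf, hD, f, hf1, hf2, hf3⟩ := h t ht
  refine ⟨G ⧸ N, Subgroup.finite_quotient_of_finiteIndex, ⟨QuotientGroup.mk 1⟩, ind N f,
    ind_FGs N f hf2, ind_NT N f hf1, fun j => ind_Fr N f (i j) _ (hD j) (hf3 j)⟩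

end Q30.VT
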