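import Mathlib

/-!
# Virtual fibering of trees of groups: definitions
-/

namespace Q30.VT

universe u

/-- A group is fibered if it admits a surjective homomorphism to `ℤ` with finitely generated
kernel. -/
def IsFibered (H : Type u) [Group H] : Prop :=
  ∃ φ : H →* Multiplicative ℤ, Function.Surjective φ ∧ φ.ker.FG

/-- A group is virtually fibered if some subgroup of finite index is fibered. -/
def IsVirtuallyFibered (H : Type u) [Group H] : Prop :=
  ∃ K : Subgroup H, K.FiniteIndex ∧ IsFibered K

/-- `K` is a virtual retract of `H`: there are a subgroup `H'` of finite index containing `K` and a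
homomorphism from `H'` to `K` restricting to the identity of `K`. -/
def VirtualRetract {H : Type u} [Group H] (K : Subgroup H) : Prop :=
  ∃ H' : Subgroup H, H'.FiniteIndex ∧ ∃ h : K ≤ H', ∃ ρ : H' →* K,
    ∀ x : K, ρ (Subgroup.inclusion h x) = x

/-- Infinite virtually cyclic groups. -/
def InfiniteVirtuallyCyclic (H : Type u) [Group H] : Prop :=
  Infinite H ∧ ∃ C : Subgroup H, C.FiniteIndex ∧ IsCyclic C

/-- A graph of groups whose underlying graph is a tree with the vertex set `V`: vertex groups `G v`,
edge groups `E e` for the edges `e` of the tree, and for every edge `e` with its two ends `en e true`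
and `en e false` injective homomorphisms `inc e true` and `inc e false` from `E e` to the vertex
groups of the two ends. -/
structure TreeOfGroups (V : Type) where
  /-- the underlying tree -/
  graph : SimpleGraph V
  isTree : graph.IsTree
  /-- vertex groups -/
  G : V → Type u
  grp : ∀ v, Group (G v)
  /-- edge groups -/
  E : graph.edgeSet → Type u
  egrp : ∀ e, Group (E e)
  /-- the ends of the edges -/
  en : graph.edgeSet → Bool → V
  ends : ∀ e : graph.edgeSet, (e : Sym2 V) = s(en e true, en e false)
  /-- the monomorphisms from the edge groups to the vertex groups -/
  inc : ∀ (e : graph.edgeSet) (b : Bool), E e →* G (en e b)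
  inc_injective : ∀ e b, Function.Injective (inc e b)

attribute [instance] TreeOfGroups.grp TreeOfGroups.egrp

namespace TreeOfGroups

variable {V : Type} (T : TreeOfGroups.{u} V)

/-- The elements of the free product of the vertex groups identifying the two images of every
element of every edge group. -/
def relations : Set (Monoid.CoprodI T.G) :=
  {x | ∃ (e : T.graph.edgeSet) (h : T.E e),
    x = Monoid.CoprodI.of (T.inc e true h) * (Monoid.CoprodI.of (T.inc e false h))⁻¹}

/-- The fundamental group of a tree of groups: the free product of the vertex groups modulo the
relations identifying the two images of every element of every edge group. -/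
def π₁ : Type u := Monoid.CoprodI T.G ⧸ Subgroup.normalClosure T.relations

instance : Group T.π₁ := inferInstanceAs (Group (Monoid.CoprodI T.G ⧸ Subgroup.normalClosure T.relations))

/-- The edge groups are infinite virtually cyclic and their images are virtual retracts of the
vertex groups. -/
def EdgeCondition : Prop :=
  (∀ e, InfiniteVirtuallyCyclic (T.E e)) ∧ ∀ e b, VirtualRetract (T.inc e b).range

end TreeOfGroups

end Q30.VT
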