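import Pool.Agent.Q30.VT3
import Pool.Agent.Q30.VTDefs

/-!
# Induction over the tree

Part of the solution of MP_64528c.
-/

namespace Q30.VT

universe u

/-- connected subsets of a graph -/
def Cn {V : Type} (Γ : SimpleGraph V) (S : Set V) : Prop :=
  ∀ a ∈ S, ∀ b ∈ S, ∃ p : Γ.Walk a b, ∀ x ∈ p.support, x ∈ S

theorem cn_insert {V : Type} {Γ : SimpleGraph V} {S : Set V} (h : Cn Γ S) {w v : V} (hw : w ∈ S)
    (hadj : Γ.Adj w v) : Cn Γ (insert v S) := by
  have h1 : ∀ a ∈ S, ∃ p : Γ.Walk a v, ∀ x ∈ p.support, x ∈ insert v S := by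
    intro a ha
    obtain ⟨p, hp⟩ := h a ha w hw
    refine ⟨p.concat hadj, fun x hx => ?_⟩
    rw [SimpleGraph.Walk.support_concat, List.mem_append, List.mem_singleton] at hx
    rcases hx with hx | rfl
    · exact Or.inr (hp x hx)
    · exact Or.inl rfl
  rintro a (rfl | ha) b (rfl | hb)
  · exact ⟨SimpleGraph.Walk.nil, fun x hx => by
      rw [SimpleGraph.Walk.support_nil, List.mem_singleton] at hx
      exact Or.inl hx⟩
  · obtain ⟨p, hp⟩ := h1 b hb
    exact ⟨p.reverse, fun x hx => hp x (by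
      rwa [SimpleGraph.Walk.support_reverse, List.mem_reverse] at hx)⟩
  · exact h1 a ha
  · obtain ⟨p, hp⟩ := h a ha b hb
    exact ⟨p, fun x hx => Or.inr (hp x hx)⟩

theorem cn_unique {V : Type} {Γ : SimpleGraph V} (hT : Γ.IsTree) {S : Set V} (h : Cn Γ S) {w w' v : V}
    (hw : w ∈ S) (hw' : w' ∈ S) (hv : v ∉ S) (h1 : Γ.Adj w v) (h2 : Γ.Adj w' v) : w' = w := by
  classical
  by_contra hne
  obtain ⟨p, hp⟩ := h w hw w' hw'
  let q : Γ.Walk w w' := SimpleGraph.Walk.cons h1 (SimpleGraph.Walk.cons h2.symm SimpleGraph.Walk.nil)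
  have hq : q.IsPath := by
    rw [SimpleGraph.Walk.isPath_def]
    simp only [q, SimpleGraph.Walk.support_cons, SimpleGraph.Walk.support_nil, List.nodup_cons,
      List.mem_cons, List.not_mem_nil, or_false, not_or, not_false_eq_true, List.nodup_nil, and_true]
    exact ⟨⟨h1.ne, fun h => hne h.symm⟩, h2.symm.ne⟩
  have h3 := (hT.2.subsingleton_path w w').elim ⟨q, hq⟩ ⟨p.bypass, p.bypass_isPath⟩
  have h4 : q = p.bypass := congrArg Subtype.val h3
  have h5 : v ∈ p.bypass.support := by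
    rw [← h4]
    simp [q]
  exact hv (hp v (p.support_bypass_subset_support h5))

theorem tree_induct {V : Type} [Finite V] (Γ : SimpleGraph V) (hT : Γ.IsTree) (P : Set V → Prop)
    (v₀ : V) (h0 : P {v₀})
    (hs : ∀ (S : Set V) (w v : V), w ∈ S → v ∉ S → Γ.Adj w v → (∀ w' ∈ S, Γ.Adj w' v → w' = w) →
      P S → P (insert v S)) : P Set.univ := by
  classical
  have key : ∀ (n : ℕ) (S : Set V), v₀ ∈ S → Cn Γ S → P S → (Sᶜ).ncard = n → P Set.univ := by
    intro n
    induction n with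
    | zero =>
      intro S _ _ hP hn
      rw [Set.ncard_eq_zero (Set.toFinite _), Set.compl_empty_iff] at hn
      rwa [hn] at hP
    | succ n ih =>
      intro S h1 h2 hP hn
      obtain ⟨x, hx⟩ : (Sᶜ).Nonempty := by
        rw [← Set.ncard_pos (Set.toFinite _)]
        omega
      obtain ⟨p⟩ := hT.1.preconnected v₀ x
      obtain ⟨d, -, hd1, hd2⟩ := p.exists_boundary_dart S h1 hx
      refine ih (insert d.snd S) (Or.inr h1) (cn_insert h2 hd1 d.adj)
        (hs S d.fst d.snd hd1 hd2 d.adj (fun w' hw' h => cn_unique hT h2 hd1 hw' hd2 d.adj h) hP) ?_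
      have h3 : (insert d.snd S)ᶜ = Sᶜ \ {d.snd} := by
        ext y
        simp only [Set.mem_compl_iff, Set.mem_insert_iff, Set.mem_sdiff, Set.mem_singleton_iff, not_or]
        tauto
      rw [h3, Set.ncard_sdiff_singleton_of_mem hd2, hn]
      rfl
  refine key _ {v₀} rfl ?_ h0 rfl
  rintro a rfl b rfl
  exact ⟨SimpleGraph.Walk.nil, fun x hx => by
    rw [SimpleGraph.Walk.support_nil, List.mem_singleton] at hx
    exact hx⟩

namespace TreeOfGroups

variable {V : Type} (T : TreeOfGroups.{u} V)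

theorem en_adj (e : T.graph.edgeSet) (b : Bool) : T.graph.Adj (T.en e b) (T.en e (!b)) := by
  have h1 := e.2
  rw [T.ends e, SimpleGraph.mem_edgeSet] at h1
  cases b
  · exact h1.symm
  · exact h1

theorem exists_edge {w v : V} (h : T.graph.Adj w v) :
    ∃ (e : T.graph.edgeSet) (b : Bool), T.en e b = w ∧ T.en e (!b) = v := by
  refine ⟨⟨s(w, v), h⟩, ?_⟩
  have h1 := T.ends ⟨s(w, v), h⟩
  change s(w, v) = _ at h1
  rw [Sym2.eq_iff] at h1
  rcases h1 with ⟨h2, h3⟩ | ⟨h2, h3⟩
  · exact ⟨true, h2.symm, h3.symm⟩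
  · exact ⟨false, h2.symm, h3.symm⟩

theorem edge_unique {e e' : T.graph.edgeSet} {b b' : Bool} (h1 : T.en e b = T.en e' b')
    (h2 : T.en e (!b) = T.en e' (!b')) : e = e' := by
  apply Subtype.ext
  rw [T.ends e, T.ends e']
  cases b <;> cases b' <;> simp only [Bool.not_true, Bool.not_false] at h1 h2 <;> rw [h1, h2]
  · rw [Sym2.eq_swap]
  · rw [Sym2.eq_swap]

/-- exponents can be matched over a tree -/
theorem exists_scale [Finite V] (b : T.graph.edgeSet → Bool → ℕ) (hb : ∀ e i, 0 < b e i) :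
    ∃ t : V → ℕ, (∀ v, 0 < t v) ∧
      ∀ e i, b e i * t (T.en e i) = b e (!i) * t (T.en e (!i)) := by
  classical
  obtain ⟨v₀⟩ := T.isTree.1.nonempty
  have key := tree_induct T.graph T.isTree (fun S => ∃ t : V → ℕ, (∀ v, 0 < t v) ∧
      ∀ e i, T.en e i ∈ S → T.en e (!i) ∈ S →
        b e i * t (T.en e i) = b e (!i) * t (T.en e (!i))) v₀ ?_ ?_
  · obtain ⟨t, h1, h2⟩ := key
    exact ⟨t, h1, fun e i => h2 e i trivial trivial⟩
  · refine ⟨fun _ => 1, fun _ => one_pos, ?_⟩
    intro e i h1 h2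
    exact absurd (h1.trans h2.symm) (T.en_adj e i).ne
  · rintro S w v hw hv hadj huniq ⟨t, ht, h⟩
    obtain ⟨e₀, i₀, rfl, rfl⟩ := T.exists_edge hadj
    have hne : ∀ u ∈ S, u ≠ T.en e₀ (!i₀) := by
      rintro u hu rfl
      exact hv hu
    refine ⟨fun u => if u = T.en e₀ (!i₀) then b e₀ i₀ * t (T.en e₀ i₀) else b e₀ (!i₀) * t u, ?_, ?_⟩
    · intro u
      simp only
      split_ifs
      · exact Nat.mul_pos (hb _ _) (ht _)
      · exact Nat.mul_pos (hb _ _) (ht _)
    · -- the new edge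
      have hnew : ∀ e i, T.en e i = T.en e₀ (!i₀) → T.en e (!i) ∈ S → e = e₀ ∧ i = !i₀ := by
        intro e i h1 h2
        have h3 : T.en e (!i) = T.en e₀ i₀ := by
          apply huniq _ h2
          rw [← h1]
          exact (T.en_adj e i).symm
        have h4 : e = e₀ := T.edge_unique (b := i) (b' := !i₀) h1 (by rw [Bool.not_not]; exact h3)
        refine ⟨h4, ?_⟩
        subst h4
        by_contra hcon
        have h5 : i = i₀ := by
          cases i <;> cases i₀ <;> simp at hcon ⊢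
        rw [h5] at h1
        exact (T.en_adj e i₀).ne h1
      intro e i h1 h2
      beta_reduce
      rcases h1 with h1 | h1
      · rcases h2 with h2 | h2
        · exact absurd (h1.trans h2.symm) (T.en_adj e i).ne
        · obtain ⟨rfl, rfl⟩ := hnew e i h1 h2
          rw [if_pos rfl, Bool.not_not, if_neg (hne _ hw)]
          ring
      · rcases h2 with h2 | h2
        · have h3 := hnew e (!i) h2 (by rw [Bool.not_not]; exact h1)
          obtain ⟨rfl, h4⟩ := h3
          have h5 : i = i₀ := by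
            cases i <;> cases i₀ <;> simp at h4 ⊢
          subst h5
          rw [if_pos rfl, if_neg (hne _ hw)]
          ring
        · rw [if_neg (hne _ h1), if_neg (hne _ h2)]
          have := h e i h1 h2
          calc b e i * (b e₀ (!i₀) * t (T.en e i)) = b e₀ (!i₀) * (b e i * t (T.en e i)) := by ring
            _ = b e₀ (!i₀) * (b e (!i) * t (T.en e (!i))) := by rw [this]
            _ = _ := by ring

end TreeOfGroups

/-- the trivial action -/
def triv (G : Type u) [Group G] (Y : Type u) : LA G Y where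
  a := 1
  c _ _ := 0
  c_mul _ _ _ := rfl

namespace TreeOfGroups

variable {V : Type} (T : TreeOfGroups.{u} V)

/-- the inclusion with the target renamed -/
def cs (e : T.graph.edgeSet) (b : Bool) {v : V} (h : T.en e b = v) : T.E e →* T.G v :=
  h ▸ T.inc e b

/-- The system of actions over a set of vertices. -/
def Sys (d : ∀ e, T.E e) (S : Set V) : Prop :=
  ∃ (Y : Type u) (_ : Finite Y) (_ : Nonempty Y) (L : ∀ v, LA (T.G v) Y),
    (∀ v ∈ S, (L v).FGs) ∧ (∀ e b, T.en e b ∈ S → (L (T.en e b)).Fr (T.inc e b) (d e)) ∧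
    (∀ e b, T.en e b ∈ S → T.en e (!b) ∈ S → ∀ x y,
      (L (T.en e b)).a (T.inc e b x) y = (L (T.en e (!b))).a (T.inc e (!b) x) y ∧
      (L (T.en e b)).c (T.inc e b x) y = (L (T.en e (!b))).c (T.inc e (!b) x) y) ∧
    ∃ v ∈ S, (L v).NT

theorem sys_univ [Finite V] (d : ∀ e, T.E e)
    (h : ∀ v, ∃ (Y : Type u) (_ : Finite Y) (_ : Nonempty Y) (L : LA (T.G v) Y), L.FGs ∧ L.NT ∧
      ∀ (e : T.graph.edgeSet) (b : Bool) (he : T.en e b = v), L.Fr (T.cs e b he) (d e)) :
    T.Sys d Set.univ := by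
  classical
  choose Yv hYf hYn Lv hFG hNT hFr using h
  obtain ⟨v₀⟩ := T.isTree.1.nonempty
  have hFr' : ∀ e b, (Lv (T.en e b)).Fr (T.inc e b) (d e) := fun e b => hFr (T.en e b) e b rfl
  refine tree_induct T.graph T.isTree (T.Sys d) v₀ ?_ ?_
  · -- one vertex
    set L : ∀ v, LA (T.G v) (Yv v₀) := Function.update (fun v => triv (T.G v) (Yv v₀)) v₀ (Lv v₀) with hL
    have hLv : L v₀ = Lv v₀ := Function.update_self _ _ _
    refine ⟨Yv v₀, hYf v₀, hYn v₀, L, ?_, ?_, ?_, v₀, rfl, ?_⟩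
    · rintro v rfl
      rw [hLv]; exact hFG v
    · intro e b he
      have key : ∀ (u : V) (hu : u = v₀) (i : T.E e →* T.G u), (Lv u).Fr i (d e) → (L u).Fr i (d e) := by
        intro u hu i hi
        subst hu
        rw [hLv]; exact hi
      exact key _ he _ (hFr' e b)
    · intro e b h1 h2
      exact absurd (h1.trans h2.symm) (T.en_adj e b).ne
    · rw [hLv]; exact hNT v₀
  · -- adding a vertex
    rintro S w v hw hv hadj huniq ⟨Y, hY1, hY2, L, hL1, hL2, hL3, u₀, hu₀, hL4⟩
    obtain ⟨e₀, i₀, rfl, rfl⟩ := T.exists_edge hadj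
    have hfrA : ((L (T.en e₀ i₀)).res (T.inc e₀ i₀)).Fr (MonoidHom.id _) (d e₀) := hL2 e₀ i₀ hw
    have hfrB : ((Lv (T.en e₀ (!i₀))).res (T.inc e₀ (!i₀))).Fr (MonoidHom.id _) (d e₀) :=
      hFr' e₀ (!i₀)
    have := hYf (T.en e₀ (!i₀))
    have := hYn (T.en e₀ (!i₀))
    obtain ⟨R, R', hR1, hR1', hR2, hR2', t, t', f, θ, ht, ht', hc1, hc2⟩ :=
      LA.compare _ _ (d e₀) hfrA hfrB
    set L' : ∀ u, LA (T.G u) (Y × R') :=
      Function.update (fun u => (L u).sc t') (T.en e₀ (!i₀))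
        (((Lv (T.en e₀ (!i₀))).sc t).tr f θ) with hL'
    have hLv : L' (T.en e₀ (!i₀)) = ((Lv (T.en e₀ (!i₀))).sc t).tr f θ := Function.update_self _ _ _
    have hLu : ∀ u ∈ S, L' u = (L u).sc t' := by
      intro u hu
      apply Function.update_of_ne
      rintro rfl
      exact hv hu
    have key : ∀ (e : T.graph.edgeSet) (u : V) (hu : u = T.en e₀ (!i₀)) (i : T.E e →* T.G u),
        (Lv u).Fr i (d e) → (L' u).Fr i (d e) := by
      intro e u hu i hi
      subst hu
      rw [hLv]; exact (hi.sc t ht).tr f θ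
    -- the new edge
    have hnew : ∀ e i, T.en e i = T.en e₀ (!i₀) → T.en e (!i) ∈ S → e = e₀ ∧ i = !i₀ := by
      intro e i h1 h2
      have h3 : T.en e (!i) = T.en e₀ i₀ := by
        apply huniq _ h2
        rw [← h1]
        exact (T.en_adj e i).symm
      have h4 : e = e₀ := T.edge_unique (b := i) (b' := !i₀) h1 (by rw [Bool.not_not]; exact h3)
      refine ⟨h4, ?_⟩
      subst h4
      by_contra hcon
      have h5 : i = i₀ := by
        cases i <;> cases i₀ <;> simp at hcon ⊢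
      rw [h5] at h1
      exact (T.en_adj e i₀).ne h1
    -- matching over the new edge
    have hmatch : ∀ x y, (L' (T.en e₀ i₀)).a (T.inc e₀ i₀ x) y =
          (L' (T.en e₀ (!i₀))).a (T.inc e₀ (!i₀) x) y ∧
        (L' (T.en e₀ i₀)).c (T.inc e₀ i₀ x) y = (L' (T.en e₀ (!i₀))).c (T.inc e₀ (!i₀) x) y := by
      intro x y
      rw [hLv, hLu _ hw]
      have h1 := hc1 x y
      have h2 := hc2 x y
      have h3 : ((L (T.en e₀ i₀)).sc t').a (T.inc e₀ i₀ x) y =
          (((Lv (T.en e₀ (!i₀))).sc t).tr f θ).a (T.inc e₀ (!i₀) x) y := by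
        rw [LA.tr_a]
        apply f.injective
        rw [f.apply_symm_apply]
        exact h1
      refine ⟨h3, ?_⟩
      rw [LA.tr_c, ← h3]
      exact h2
    refine ⟨Y × R', inferInstance, inferInstance, L', ?_, ?_, ?_, u₀, Or.inr hu₀, ?_⟩
    · rintro u (rfl | hu)
      · rw [hLv]; exact ((hFG _).sc t ht).tr f θ
      · rw [hLu u hu]; exact (hL1 u hu).sc t' ht'
    · rintro e b (he | he)
      · exact key e _ he _ (hFr' e b)
      · rw [hLu _ he]; exact (hL2 e b he).sc t' ht'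
    · intro e b h1 h2 x y
      rcases h1 with h1 | h1
      · rcases h2 with h2 | h2
        · exact absurd (h1.trans h2.symm) (T.en_adj e b).ne
        · obtain ⟨rfl, rfl⟩ := hnew e b h1 h2
          have := hmatch x y
          rw [Bool.not_not]
          exact ⟨this.1.symm, this.2.symm⟩
      · rcases h2 with h2 | h2
        · have h3 := hnew e (!b) h2 (by rw [Bool.not_not]; exact h1)
          obtain ⟨rfl, h4⟩ := h3
          have h5 : b = i₀ := by
            cases b <;> cases i₀ <;> simp at h4 ⊢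
          subst h5
          exact hmatch x y
        · rw [hLu _ h1, hLu _ h2]
          obtain ⟨y, r⟩ := y
          have h3 := hL3 e b h1 h2 x y
          rw [LA.sc_a, LA.sc_a, LA.sc_c, LA.sc_c, h3.1, h3.2]
          exact ⟨rfl, rfl⟩
    · obtain ⟨g, y, h1, h2⟩ := hL4
      obtain ⟨r⟩ := hR2'
      rw [hLu _ hu₀]
      refine ⟨g, (y, r), ?_, ?_⟩
      · rw [LA.sc_a, h1]
      · rw [LA.sc_c]; exact mul_ne_zero (ht' r) h2

end TreeOfGroups

end Q30.VT
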