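import Pool.Agent.Q30.VT4

/-!
# Finite generation of stabilizers and the main theorem

Part of the solution of MP_64528c.
-/

namespace Q30.VT

universe u

section bs
variable {Γ : Type u} [Group Γ] {Z : Type u} (ν : Γ →* Equiv.Perm Z)

/-- the stabilizer of a point -/
def st (z : Z) : Subgroup Γ where
  carrier := {g | ν g z = z}
  one_mem' := by simp
  mul_mem' := by
    intro a b ha hb
    change ν (a * b) z = z
    rw [map_mul]
    change ν a (ν b z) = z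
    rw [show ν b z = z from hb]
    exact ha
  inv_mem' := by
    intro a ha
    change ν a⁻¹ z = z
    rw [map_inv, Equiv.Perm.inv_eq_iff_eq]
    exact (show ν a z = z from ha).symm

theorem mem_st {z : Z} {g : Γ} : g ∈ st ν z ↔ ν g z = z := Iff.rfl

theorem nu_mul (g h : Γ) (z : Z) : ν (g * h) z = ν g (ν h z) := by rw [map_mul]; rfl

theorem nu_inv (g : Γ) (z : Z) : ν g⁻¹ (ν g z) = z := by rw [← nu_mul, inv_mul_cancel]; simp

theorem fg_map {A B : Type u} [Group A] [Group B] (f : A →* B) {K : Subgroup A} (h : K.FG) :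
    (K.map f).FG := by
  obtain ⟨S, hS, hSf⟩ := (Subgroup.fg_iff _).1 h
  rw [Subgroup.fg_iff]
  refine ⟨f '' S, ?_, hSf.image _⟩
  rw [← hS, MonoidHom.map_closure]

theorem bs' (A : Bool → Subgroup Γ) (D : Subgroup Γ) (hD : ∀ b, D ≤ A b) (F : Set Z) (hF : F.Finite)
    (hcov : ∀ z, ∃ δ ∈ D, ν δ z ∈ F) (hA : ∀ b z, (A b ⊓ st ν z).FG) (z₀ : Z) :
    ((A true ⊔ A false) ⊓ st ν z₀).FG := by
  classical
  set P := A true ⊔ A false with hP
  have hAP : ∀ b, A b ≤ P := by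
    intro b; cases b
    · exact le_sup_right
    · exact le_sup_left
  -- connecting elements
  have hγ : ∀ p : Z, ∃ g ∈ P, (∃ g' ∈ P, ν g' z₀ = p) → ν g z₀ = p := by
    intro p
    by_cases h : ∃ g' ∈ P, ν g' z₀ = p
    · obtain ⟨g, h1, h2⟩ := h
      exact ⟨g, h1, fun _ => h2⟩
    · exact ⟨1, P.one_mem, fun h' => absurd h' h⟩
  choose γ' hγ1' hγ2' using hγ
  obtain ⟨γ, hγ0, hγ1, hγ2⟩ : ∃ γ : Z → Γ, γ z₀ = 1 ∧ (∀ p, γ p ∈ P) ∧
      ∀ p, (∃ g' ∈ P, ν g' z₀ = p) → ν (γ p) z₀ = p := by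
    refine ⟨fun p => if p = z₀ then 1 else γ' p, if_pos rfl, fun p => ?_, fun p hp => ?_⟩
    · beta_reduce
      split_ifs
      · exact P.one_mem
      · exact hγ1' p
    · beta_reduce
      split_ifs with h
      · rw [h]; simp
      · exact hγ2' p hp
  have hκ : ∀ (b : Bool) (p q : Z), ∃ a ∈ A b, (∃ a' ∈ A b, ν a' p = q) → ν a p = q := by
    intro b p q
    by_cases h : ∃ a' ∈ A b, ν a' p = q
    · obtain ⟨g, h1, h2⟩ := h
      exact ⟨g, h1, fun _ => h2⟩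
    · exact ⟨1, (A b).one_mem, fun h' => absurd h' h⟩
  choose κ hκ1 hκ2 using hκ
  set O : Set Z := {p | p ∈ insert z₀ F ∧ ∃ g' ∈ P, ν g' z₀ = p} with hO
  have hOf : O.Finite := (hF.insert z₀).subset fun p hp => hp.1
  have hz₀ : z₀ ∈ O := ⟨Or.inl rfl, 1, P.one_mem, by simp⟩
  have hγO : ∀ p ∈ O, ν (γ p) z₀ = p := fun p hp => hγ2 p hp.2
  set S : Set Γ := ⋃ b : Bool, (fun p : Z × Z => (γ p.2)⁻¹ * κ b p.1 p.2 * γ p.1) ''
    ((O ×ˢ O) ∩ {p | ∃ a ∈ A b, ν a p.1 = p.2}) with hS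
  have hSf : S.Finite := Set.finite_iUnion fun b => (((hOf.prod hOf).inter_of_left _).image _)
  set H' : Subgroup Γ := ((⨆ p ∈ O, (A true ⊓ st ν p).map (MulAut.conj (γ p)⁻¹).toMonoidHom) ⊔
    (⨆ p ∈ O, (A false ⊓ st ν p).map (MulAut.conj (γ p)⁻¹).toMonoidHom)) ⊔ Subgroup.closure S with hH'
  have hfgH' : H'.FG := by
    refine Subgroup.FG.sup (Subgroup.FG.sup ?_ ?_) ?_
    · exact Subgroup.FG.biSup hOf _ fun p _ => fg_map _ (hA true p)
    · exact Subgroup.FG.biSup hOf _ fun p _ => fg_map _ (hA false p)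
    · rw [Subgroup.fg_iff]; exact ⟨S, rfl, hSf⟩
  have hst : ∀ b, ∀ p ∈ O, ∀ a ∈ A b, ν a p = p → (γ p)⁻¹ * a * γ p ∈ H' := by
    intro b p hp a ha hap
    have h1 : (γ p)⁻¹ * a * γ p ∈ (A b ⊓ st ν p).map (MulAut.conj (γ p)⁻¹).toMonoidHom := by
      refine ⟨a, ⟨ha, hap⟩, ?_⟩
      change (γ p)⁻¹ * a * (γ p)⁻¹⁻¹ = _
      rw [inv_inv]
    cases b
    · exact Subgroup.mem_sup_left (Subgroup.mem_sup_right
        (Subgroup.mem_iSup_of_mem p (Subgroup.mem_iSup_of_mem hp h1)))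
    · exact Subgroup.mem_sup_left (Subgroup.mem_sup_left
        (Subgroup.mem_iSup_of_mem p (Subgroup.mem_iSup_of_mem hp h1)))
  have hconn : ∀ b, ∀ p ∈ O, ∀ q ∈ O, ∀ a ∈ A b, ν a p = q → (γ q)⁻¹ * a * γ p ∈ H' := by
    intro b p hp q hq a ha hapq
    have h0 : ν (κ b p q) p = q := hκ2 b p q ⟨a, ha, hapq⟩
    have h1 : (γ q)⁻¹ * κ b p q * γ p ∈ H' := by
      apply Subgroup.mem_sup_right
      apply Subgroup.subset_closure
      rw [hS, Set.mem_iUnion]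
      exact ⟨b, (p, q), ⟨⟨hp, hq⟩, a, ha, hapq⟩, rfl⟩
    have h2 : ν ((κ b p q)⁻¹ * a) p = p := by
      have h5 := nu_inv ν (κ b p q) p
      rw [h0] at h5
      rw [nu_mul, hapq, h5]
    have h3 := hst b p hp _ ((A b).mul_mem ((A b).inv_mem (hκ1 b p q)) ha) h2
    have h4 := H'.mul_mem h1 h3
    have e : (γ q)⁻¹ * κ b p q * γ p * ((γ p)⁻¹ * ((κ b p q)⁻¹ * a) * γ p) = (γ q)⁻¹ * a * γ p := by
      group
    rwa [e] at h4
  -- the main claim
  have claim : ∀ g ∈ P, ∀ p ∈ O, ∀ q ∈ O, ∀ δ ∈ D, ν (δ * g) p = q → (γ q)⁻¹ * (δ * g) * γ p ∈ H' := by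
    intro g hg
    rw [hP, Subgroup.sup_eq_closure] at hg
    induction hg using Subgroup.closure_induction_left with
    | one =>
      intro p hp q hq δ hδ h
      rw [mul_one] at h ⊢
      exact hconn true p hp q hq δ (hD true hδ) h
    | mul_left x hx y hy ih =>
      intro p hp q hq δ hδ h
      obtain ⟨b, hxb⟩ : ∃ b, x ∈ A b := by
        rcases hx with hx | hx
        · exact ⟨true, hx⟩
        · exact ⟨false, hx⟩
      have hyP : y ∈ P := by rw [hP, Subgroup.sup_eq_closure]; exact hy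
      obtain ⟨δ', hδ', hF'⟩ := hcov (ν y p)
      have hp' : ν (δ' * y) p ∈ O := by
        rw [nu_mul]
        refine ⟨Or.inr hF', δ' * y * γ p, ?_, ?_⟩
        · exact P.mul_mem (P.mul_mem (hAP true (hD true hδ')) hyP) (hγ1 p)
        · rw [nu_mul, hγO p hp, nu_mul]
      have h1 := ih p hp _ hp' δ' hδ' rfl
      have h2 : ν (δ * x * δ'⁻¹) (ν (δ' * y) p) = q := by
        rw [← nu_mul]
        have e : δ * x * δ'⁻¹ * (δ' * y) = δ * (x * y) := by group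
        rw [e, h]
      have h3 := hconn b _ hp' q hq (δ * x * δ'⁻¹)
        ((A b).mul_mem ((A b).mul_mem (hD b hδ) hxb) ((A b).inv_mem (hD b hδ'))) h2
      have h4 := H'.mul_mem h3 h1
      have e : (γ q)⁻¹ * (δ * x * δ'⁻¹) * γ (ν (δ' * y) p) *
          ((γ (ν (δ' * y) p))⁻¹ * (δ' * y) * γ p) = (γ q)⁻¹ * (δ * (x * y)) * γ p := by
        group
      rwa [e] at h4
    | inv_mul_cancel x hx y hy ih =>
      intro p hp q hq δ hδ h
      obtain ⟨b, hxb⟩ : ∃ b, x ∈ A b := by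
        rcases hx with hx | hx
        · exact ⟨true, hx⟩
        · exact ⟨false, hx⟩
      have hyP : y ∈ P := by rw [hP, Subgroup.sup_eq_closure]; exact hy
      obtain ⟨δ', hδ', hF'⟩ := hcov (ν y p)
      have hp' : ν (δ' * y) p ∈ O := by
        rw [nu_mul]
        refine ⟨Or.inr hF', δ' * y * γ p, ?_, ?_⟩
        · exact P.mul_mem (P.mul_mem (hAP true (hD true hδ')) hyP) (hγ1 p)
        · rw [nu_mul, hγO p hp, nu_mul]
      have h1 := ih p hp _ hp' δ' hδ' rfl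
      have h2 : ν (δ * x⁻¹ * δ'⁻¹) (ν (δ' * y) p) = q := by
        rw [← nu_mul]
        have e : δ * x⁻¹ * δ'⁻¹ * (δ' * y) = δ * (x⁻¹ * y) := by group
        rw [e, h]
      have h3 := hconn b _ hp' q hq (δ * x⁻¹ * δ'⁻¹)
        ((A b).mul_mem ((A b).mul_mem (hD b hδ) ((A b).inv_mem hxb)) ((A b).inv_mem (hD b hδ'))) h2
      have h4 := H'.mul_mem h3 h1
      have e : (γ q)⁻¹ * (δ * x⁻¹ * δ'⁻¹) * γ (ν (δ' * y) p) *
          ((γ (ν (δ' * y) p))⁻¹ * (δ' * y) * γ p) = (γ q)⁻¹ * (δ * (x⁻¹ * y)) * γ p := by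
        group
      rwa [e] at h4
  have hle : H' ≤ P ⊓ st ν z₀ := by
    have hmap : ∀ b, ∀ p ∈ O, (A b ⊓ st ν p).map (MulAut.conj (γ p)⁻¹).toMonoidHom ≤ P ⊓ st ν z₀ := by
      rintro b p hp _ ⟨a, ⟨ha1, ha2⟩, rfl⟩
      change (γ p)⁻¹ * a * (γ p)⁻¹⁻¹ ∈ P ⊓ st ν z₀
      rw [inv_inv]
      refine ⟨P.mul_mem (P.mul_mem (P.inv_mem (hγ1 p)) (hAP b ha1)) (hγ1 p), ?_⟩
      change ν ((γ p)⁻¹ * a * γ p) z₀ = z₀
      have h5 := nu_inv ν (γ p) z₀
      rw [hγO p hp] at h5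
      rw [nu_mul, nu_mul, hγO p hp, show ν a p = p from ha2, h5]
    refine sup_le (sup_le ?_ ?_) ?_
    · exact iSup₂_le fun p hp => hmap true p hp
    · exact iSup₂_le fun p hp => hmap false p hp
    · rw [Subgroup.closure_le]
      intro x hx
      rw [hS, Set.mem_iUnion] at hx
      obtain ⟨b, ⟨p, q⟩, ⟨⟨hp, hq⟩, a, ha, haq⟩, rfl⟩ := hx
      simp only at hp hq haq
      refine ⟨P.mul_mem (P.mul_mem (P.inv_mem (hγ1 q)) (hAP b (hκ1 b p q))) (hγ1 p), ?_⟩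
      change ν ((γ q)⁻¹ * κ b p q * γ p) z₀ = z₀
      have h5 := nu_inv ν (γ q) z₀
      rw [hγO q hq] at h5
      rw [nu_mul, nu_mul, hγO p hp, hκ2 b p q ⟨a, ha, haq⟩, h5]
  have heq : P ⊓ st ν z₀ = H' := by
    apply le_antisymm _ hle
    rintro g ⟨hg1, hg2⟩
    have h1 := claim g hg1 z₀ hz₀ z₀ hz₀ 1 D.one_mem (by rw [one_mul]; exact hg2)
    rw [hγ0] at h1
    simpa using h1
  rw [heq]
  exact hfgH'

end bs

/-- the permutations of `Y × ℤ` -/
def LA.toPerm {G : Type u} [Group G] {Y : Type u} (L : LA G Y) : G →* Equiv.Perm (Y × ℤ) where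
  toFun g :=
    { toFun := fun z => (L.a g z.1, z.2 + L.c g z.1)
      invFun := fun z => (L.a g⁻¹ z.1, z.2 + L.c g⁻¹ z.1)
      left_inv := by
        rintro ⟨y, q⟩
        simp only
        rw [L.a_inv, L.c_inv, L.a_inv]
        simp
      right_inv := by
        rintro ⟨y, q⟩
        simp only
        rw [L.a_inv', L.c_inv]
        simp }
  map_one' := by
    ext1 ⟨y, q⟩
    change (L.a 1 y, q + L.c 1 y) = (y, q)
    rw [L.a_one, L.c_one, add_zero]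
  map_mul' g h := by
    ext1 ⟨y, q⟩
    change (L.a (g * h) y, q + L.c (g * h) y) = (L.a g (L.a h y), q + L.c h y + L.c g (L.a h y))
    rw [L.a_mul, L.c_mul]
    congr 1
    ring

theorem LA.toPerm_apply {G : Type u} [Group G] {Y : Type u} (L : LA G Y) (g : G) (y : Y) (q : ℤ) :
    L.toPerm g (y, q) = (L.a g y, q + L.c g y) := rfl

end Q30.VT
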