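import Pool.Agent.Q30.VT5

/-!
# The main theorem

Solution of MP_64528c.
-/

namespace Q30.VT

universe u

/-- finite index criterion -/
theorem fi_crit {G : Type u} [Group G] {X : Type u} [Finite X] (H : Subgroup G)
    (f : G → X) (h : ∀ a b, f a = f b → a⁻¹ * b ∈ H) : H.FiniteIndex := by
  have : Finite (G ⧸ H) := by
    apply Finite.of_injective (fun q : G ⧸ H => f q.out)
    intro q q' hq
    have h2 := h _ _ hq
    rw [← q.out_eq', ← q'.out_eq', QuotientGroup.eq]
    exact h2
  exact Subgroup.finiteIndex_of_finite_quotient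

/-- from a nontrivial character to a surjective one -/
theorem fibered_of {K : Type u} [Group K] (χ : K →* Multiplicative ℤ) (h1 : χ ≠ 1) (h2 : χ.ker.FG) :
    IsFibered K := by
  set h : K → ℤ := fun x => Multiplicative.toAdd (χ x) with hh
  have hadd : ∀ x y, h (x * y) = h x + h y := fun x y => by simp [hh]
  obtain ⟨t, ht, hd⟩ := Q31VF.exists_min h hadd (by
    by_contra hc
    push Not at hc
    exact h1 (MonoidHom.ext fun x => Multiplicative.toAdd.injective (hc x)))
  have ht0 : h t ≠ 0 := ht.ne'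
  let φ : K →* Multiplicative ℤ :=
    { toFun := fun x => Multiplicative.ofAdd (h x / h t)
      map_one' := by
        have : h 1 = 0 := Q31VF.map_one' hadd
        rw [this, Int.zero_ediv]; rfl
      map_mul' := fun x y => by
        rw [hadd, Int.add_ediv_of_dvd_left (hd x), ofAdd_add] }
  have hφ : ∀ x, Multiplicative.toAdd (φ x) * h t = h x := fun x => Int.ediv_mul_cancel (hd x)
  refine ⟨φ, ?_, ?_⟩
  · intro z
    refine ⟨t ^ (Multiplicative.toAdd z), ?_⟩
    apply Multiplicative.toAdd.injective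
    have h3 := hφ (t ^ (Multiplicative.toAdd z))
    rw [Q31VF.map_zpow' hadd] at h3
    exact mul_right_cancel₀ ht0 h3
  · have : φ.ker = χ.ker := by
      ext x
      rw [MonoidHom.mem_ker, MonoidHom.mem_ker]
      have h3 := hφ x
      constructor
      · intro h4
        rw [h4, toAdd_one, zero_mul] at h3
        exact Multiplicative.toAdd.injective h3.symm
      · intro h4
        have h5 : h x = 0 := by simp [hh, h4]
        rw [h5] at h3
        rcases mul_eq_zero.1 h3 with h6 | h6
        · exact Multiplicative.toAdd.injective h6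
        · exact absurd h6 ht0
    rw [this]; exact h2

theorem vf_of {G : Type u} [Group G] (h : IsVirtuallyFibered G) : Q31VF.VirtuallyFibered G := by
  obtain ⟨K, hK, φ, h1, h2⟩ := h
  refine ⟨K, hK, φ, ?_, h2⟩
  rintro rfl
  obtain ⟨x, hx⟩ := h1 (Multiplicative.ofAdd 1)
  have h3 := congrArg Multiplicative.toAdd hx
  simp at h3

theorem IsFibered.virtually {G : Type u} [Group G] (h : IsFibered G) : IsVirtuallyFibered G := by
  obtain ⟨φ, h1, h2⟩ := h
  refine ⟨⊤, inferInstance, φ.comp (Subgroup.topEquiv : (⊤ : Subgroup G) ≃* G).toMonoidHom, ?_,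
    Q31VF.fg_equiv φ h2 _⟩
  exact h1.comp Subgroup.topEquiv.surjective

theorem generator {H : Type u} [Group H] (h : InfiniteVirtuallyCyclic H) :
    ∃ c : H, (∀ m : ℤ, m ≠ 0 → c ^ m ≠ 1) ∧ (Subgroup.zpowers c).FiniteIndex := by
  obtain ⟨hinf, C, hC, hcyc⟩ := h
  obtain ⟨c', hc'⟩ := hcyc.exists_generator
  have hCinf : Infinite C := by
    rw [← not_finite_iff_infinite]
    intro hf
    have h1 := C.card_mul_index
    rw [Nat.card_eq_zero_of_infinite (α := H)] at h1
    rcases Nat.mul_eq_zero.1 h1 with h2 | h2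
    · exact Nat.card_pos.ne' h2
    · exact hC.index_ne_zero h2
  have hCz : C = Subgroup.zpowers (c' : H) := by
    apply le_antisymm
    · intro x hx
      obtain ⟨j, hj⟩ := Subgroup.mem_zpowers_iff.1 (hc' ⟨x, hx⟩)
      rw [Subgroup.mem_zpowers_iff]
      exact ⟨j, congrArg Subtype.val hj⟩
    · rw [Subgroup.zpowers_le]; exact c'.2
  refine ⟨c', ?_, by rw [← hCz]; exact hC⟩
  intro m hm h
  have h1 : IsOfFinOrder c' := by
    rw [isOfFinOrder_iff_zpow_eq_one]
    exact ⟨m, hm, Subtype.ext (by rw [Subgroup.coe_zpow]; exact h)⟩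
  have h2 : (Subgroup.zpowers c' : Set C).Finite := finite_zpowers.2 h1
  have h3 : (Set.univ : Set C).Finite := h2.subset (fun x _ => hc' x)
  exact Set.infinite_univ h3

namespace TreeOfGroups

variable {V : Type} (T : TreeOfGroups.{u} V)

/-- the inclusions of the vertex groups -/
def jj (v : V) : T.G v →* T.π₁ :=
  (QuotientGroup.mk' (Subgroup.normalClosure T.relations)).comp Monoid.CoprodI.of

theorem jj_inc (e : T.graph.edgeSet) (b : Bool) (x : T.E e) :
    T.jj (T.en e b) (T.inc e b x) = T.jj (T.en e (!b)) (T.inc e (!b) x) := by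
  have key : T.jj (T.en e true) (T.inc e true x) = T.jj (T.en e false) (T.inc e false x) := by
    have h1 : (Monoid.CoprodI.of (T.inc e true x) * (Monoid.CoprodI.of (T.inc e false x))⁻¹ :
        Monoid.CoprodI T.G) ∈ Subgroup.normalClosure T.relations :=
      Subgroup.subset_normalClosure ⟨e, x, rfl⟩
    have h2 := (QuotientGroup.eq_one_iff _).2 h1
    rw [QuotientGroup.mk_mul, QuotientGroup.mk_inv, mul_inv_eq_one] at h2
    exact h2
  cases b
  · exact key.symm
  · exact key

theorem jj_top : (⨆ v, (T.jj v).range) = ⊤ := by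
  rw [eq_top_iff]
  rintro x -
  obtain ⟨x, rfl⟩ := QuotientGroup.mk'_surjective (Subgroup.normalClosure T.relations) x
  induction x using Monoid.CoprodI.induction_on with
  | one => rw [map_one]; exact Subgroup.one_mem (⨆ v, (T.jj v).range)
  | of i m => exact Subgroup.mem_iSup_of_mem (S := fun v => (T.jj v).range) i ⟨m, rfl⟩
  | mul x y hx hy => rw [map_mul]; exact Subgroup.mul_mem (⨆ v, (T.jj v).range) hx hy

/-- the action of the fundamental group -/
theorem exists_hom {Y : Type u} (L : ∀ v, LA (T.G v) Y)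
    (h : ∀ e b, ∀ x y,
      (L (T.en e b)).a (T.inc e b x) y = (L (T.en e (!b))).a (T.inc e (!b) x) y ∧
      (L (T.en e b)).c (T.inc e b x) y = (L (T.en e (!b))).c (T.inc e (!b) x) y) :
    ∃ ν : T.π₁ →* Equiv.Perm (Y × ℤ), ∀ v g, ν (T.jj v g) = (L v).toPerm g := by
  refine ⟨QuotientGroup.lift (Subgroup.normalClosure T.relations)
    (Monoid.CoprodI.lift fun v => (L v).toPerm) ?_, ?_⟩
  · have hle : Subgroup.normalClosure T.relations ≤
        (Monoid.CoprodI.lift fun v => (L v).toPerm).ker := by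
      apply Subgroup.normalClosure_le_normal
      rintro x ⟨e, g, rfl⟩
      rw [SetLike.mem_coe, MonoidHom.mem_ker, map_mul, map_inv, Monoid.CoprodI.lift_of,
        Monoid.CoprodI.lift_of, mul_inv_eq_one]
      ext1 ⟨y, q⟩
      rw [LA.toPerm_apply, LA.toPerm_apply]
      have h1 := h e true g y
      rw [h1.1, h1.2]
      rfl
    exact fun x hx => hle hx
  · intro v g
    change (Monoid.CoprodI.lift fun v => (L v).toPerm) (Monoid.CoprodI.of g) = _
    rw [Monoid.CoprodI.lift_of]

theorem main [Finite V] (hF : ∀ v, IsVirtuallyFibered (T.G v))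
    (hE : ∀ e, InfiniteVirtuallyCyclic (T.E e)) (hR : ∀ e b, VirtualRetract (T.inc e b).range) :
    IsVirtuallyFibered T.π₁ := by
  classical
  choose c hc hcf using fun e => generator (hE e)
  -- the vertex groups
  have hv : ∀ v : V, ∃ b : {x : T.graph.edgeSet × Bool // T.en x.1 x.2 = v} → ℕ, (∀ j, 0 < b j) ∧
      ∀ t : ℕ, 0 < t → ∃ (Y : Type u) (_ : Finite Y) (_ : Nonempty Y)
      (L : LA (T.G v) Y), L.FGs ∧ L.NT ∧
        ∀ j : {x : T.graph.edgeSet × Bool // T.en x.1 x.2 = v},
          L.Fr (T.cs j.1.1 j.1.2 j.2) (c j.1.1 ^ (b j * t)) := by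
    intro v
    refine vertex (fun j : {x : T.graph.edgeSet × Bool // T.en x.1 x.2 = v} => T.E j.1.1)
      (fun j => T.cs j.1.1 j.1.2 j.2) ?_ (fun j => c j.1.1) (fun j => hc j.1.1)
      (fun j => hcf j.1.1) (vf_of (hF v)) ?_
    · rintro ⟨⟨e, b⟩, rfl⟩
      exact T.inc_injective e b
    · rintro ⟨⟨e, b⟩, rfl⟩
      exact hR e b
  choose b hb hv using hv
  obtain ⟨t, ht, hscale⟩ := T.exists_scale (fun e i => b (T.en e i) ⟨(e, i), rfl⟩) (fun e i => hb _ _)
  set m : T.graph.edgeSet → ℕ := fun e =>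
    b (T.en e true) ⟨(e, true), rfl⟩ * t (T.en e true) with hm
  have hm' : ∀ e i, b (T.en e i) ⟨(e, i), rfl⟩ * t (T.en e i) = m e := by
    intro e i
    cases i
    · exact hscale e false
    · rfl
  set d : ∀ e, T.E e := fun e => c e ^ m e with hd
  obtain ⟨Y, hYf, hYn, L, hL1, hL2, hL3, v₀, -, g₀, y₀, hg₀, hg₀'⟩ := T.sys_univ d (by
    intro v
    obtain ⟨Y, h1, h2, L, h3, h4, h5⟩ := hv v (t v) (ht v)
    refine ⟨Y, h1, h2, L, h3, h4, ?_⟩
    intro e i he
    have h6 := h5 ⟨(e, i), he⟩
    subst he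
    rw [hm' e i] at h6
    exact h6)
  obtain ⟨ν, hν⟩ := T.exists_hom L (fun e i => hL3 e i trivial trivial)
  have hνa : ∀ (v : V) (g : T.G v) (y : Y) (q : ℤ),
      ν (T.jj v g) (y, q) = ((L v).a g y, q + (L v).c g y) := by
    intro v g y q
    rw [hν]; rfl
  -- commutation with the shifts
  have hshift : ∀ g : T.π₁, ∀ (y : Y) (q s : ℤ),
      ν g (y, q + s) = ((ν g (y, q)).1, (ν g (y, q)).2 + s) := by
    have h1 : ∀ g : T.π₁, g ∈ (⨆ v, (T.jj v).range) → ∀ (y : Y) (q s : ℤ),
        ν g (y, q + s) = ((ν g (y, q)).1, (ν g (y, q)).2 + s) := by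
      intro g hg
      rw [Subgroup.iSup_eq_closure] at hg
      induction hg using Subgroup.closure_induction with
      | mem x hx =>
        intro y q s
        obtain ⟨v, g, rfl⟩ := Set.mem_iUnion.1 hx
        rw [hνa, hνa]
        simp only [Prod.mk.injEq, true_and]
        ring
      | one => intro y q s; simp
      | mul x x' _ _ hx hx' =>
        intro y q s
        rw [nu_mul, nu_mul, hx' y q s, hx]
      | inv x _ hx =>
        intro y q s
        apply (ν x).injective
        have e1 : ∀ z, ν x (ν x⁻¹ z) = z := fun z => by rw [← nu_mul, mul_inv_cancel]; simp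
        rw [e1, hx, Prod.mk.eta, e1]
    intro g
    exact h1 g (by rw [T.jj_top]; trivial)
  -- stabilizers in the vertex groups
  have hvst : ∀ (v : V) (z : Y × ℤ), ((T.jj v).range ⊓ st ν z).FG := by
    rintro v ⟨y, q⟩
    have h1 : (T.jj v).range ⊓ st ν (y, q) = ((L v).stab y).map (T.jj v) := by
      ext x
      constructor
      · rintro ⟨⟨g, rfl⟩, hx⟩
        have h2 : ν (T.jj v g) (y, q) = (y, q) := hx
        rw [hνa, Prod.mk.injEq] at h2
        exact ⟨g, ⟨h2.1, by omega⟩, rfl⟩
      · rintro ⟨g, ⟨h2, h3⟩, rfl⟩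
        refine ⟨⟨g, rfl⟩, ?_⟩
        change ν (T.jj v g) (y, q) = (y, q)
        rw [hνa, h2, h3, add_zero]
    rw [h1]
    exact fg_map _ (hL1 v trivial y)
  -- stabilizers in the groups of the subtrees
  have htree : ∀ z : Y × ℤ, ((⨆ v ∈ (Set.univ : Set V), (T.jj v).range) ⊓ st ν z).FG := by
    obtain ⟨v₁⟩ := T.isTree.1.nonempty
    refine tree_induct T.graph T.isTree
      (fun S => ∀ z : Y × ℤ, ((⨆ v ∈ S, (T.jj v).range) ⊓ st ν z).FG) v₁ ?_ ?_
    · intro z
      have : (⨆ v ∈ ({v₁} : Set V), (T.jj v).range) = (T.jj v₁).range := by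
        rw [iSup_singleton]
      rw [this]
      exact hvst v₁ z
    · intro S w v hw hv' hadj huniq hS z
      obtain ⟨e, i, rfl, rfl⟩ := T.exists_edge hadj
      rw [iSup_insert]
      -- the edge group acts with finitely many orbits
      obtain ⟨B, hB⟩ := (Set.finite_range (fun y : Y =>
        |(L (T.en e i)).c (T.inc e i (d e)) y|)).bddAbove
      have hFr := hL2 e i trivial
      set D : Subgroup T.π₁ := ((T.jj (T.en e i)).comp (T.inc e i)).range with hD
      refine bs' ν (fun b => if b then (T.jj (T.en e (!i))).range else ⨆ v ∈ S, (T.jj v).range) D ?_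
        {z | 0 ≤ z.2 ∧ z.2 ≤ B} ?_ ?_ ?_ z
      · intro b
        cases b
        · rintro _ ⟨x, rfl⟩
          exact Subgroup.mem_iSup_of_mem (T.en e i) (Subgroup.mem_iSup_of_mem hw ⟨_, rfl⟩)
        · rintro _ ⟨x, rfl⟩
          exact ⟨T.inc e (!i) x, (T.jj_inc e i x).symm⟩
      · have h1 : ((Set.univ : Set Y) ×ˢ (Set.Icc (0 : ℤ) B)).Finite :=
          Set.finite_univ.prod (Set.finite_Icc _ _)
        exact h1.subset fun z hz => ⟨trivial, hz.1, hz.2⟩
      · rintro ⟨y, q⟩
        set s := (L (T.en e i)).c (T.inc e i (d e)) y with hs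
        have hs0 : s ≠ 0 := hFr.2 y
        have hfix : (L (T.en e i)).a (T.inc e i (d e)) y = y :=
          (hFr.1 (d e) y).2 (Subgroup.mem_zpowers _)
        have hz := (L (T.en e i)).zpow_fix hfix (-(q / s))
        refine ⟨T.jj (T.en e i) (T.inc e i (d e ^ (-(q / s)))), ⟨_, rfl⟩, ?_⟩
        rw [map_zpow (T.inc e i), hνa, hz.1, hz.2, ← hs]
        have h2 : q + -(q / s) * s = q % s := by rw [Int.emod_def]; ring
        change 0 ≤ q + -(q / s) * s ∧ q + -(q / s) * s ≤ B
        rw [h2]
        refine ⟨Int.emod_nonneg _ hs0, ?_⟩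
        have h3 := Int.emod_lt_abs q hs0
        have h4 : |s| ≤ B := hB ⟨y, rfl⟩
        linarith
      · intro b z
        cases b
        · exact hS z
        · exact hvst _ z
  -- the base point
  set z₀ : Y × ℤ := (y₀, 0) with hz₀
  have hHfg : (st ν z₀).FG := by
    have h1 := htree z₀
    have h2 : (⨆ v ∈ (Set.univ : Set V), (T.jj v).range) = ⊤ := by
      rw [iSup_univ]; exact T.jj_top
    rwa [h2, top_inf_eq] at h1
  let K : Subgroup T.π₁ :=
    { carrier := {g | (ν g z₀).1 = y₀}
      one_mem' := by simp [hz₀]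
      mul_mem' := by
        intro g h hg hh
        change (ν (g * h) z₀).1 = y₀
        have h1 : ν h z₀ = (y₀, 0 + (ν h z₀).2) := Prod.ext hh (by simp)
        rw [nu_mul, h1, hshift]
        exact hg
      inv_mem' := by
        intro g hg
        have hg' : (ν g z₀).1 = y₀ := hg
        have h1 : ν g z₀ = (y₀, 0 + (ν g z₀).2) := Prod.ext hg' (by simp)
        have h2 := nu_inv ν g z₀
        rw [h1, hshift] at h2
        exact congrArg Prod.fst h2 }
  have hK : K.FiniteIndex := by
    apply fi_crit K (fun g => (ν g z₀).1)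
    intro a b' hab
    change (ν (a⁻¹ * b') z₀).1 = y₀
    have h1 : ν b' z₀ = ((ν a z₀).1, (ν a z₀).2 + ((ν b' z₀).2 - (ν a z₀).2)) :=
      Prod.ext hab.symm (by simp)
    rw [nu_mul, h1, hshift, Prod.mk.eta, nu_inv]
  have hKz : ∀ g ∈ K, ν g z₀ = (y₀, 0 + (ν g z₀).2) := fun g hg => Prod.ext hg (by simp)
  let χ : K →* Multiplicative ℤ :=
    { toFun := fun g => Multiplicative.ofAdd (ν (g : T.π₁) z₀).2
      map_one' := by
        change Multiplicative.ofAdd (ν (1 : T.π₁) z₀).2 = 1
        simp [hz₀]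
      map_mul' := by
        rintro ⟨g, hg⟩ ⟨h, hh⟩
        change Multiplicative.ofAdd (ν (g * h) z₀).2 = _
        have h1 : (ν (g * h) z₀).2 = (ν g z₀).2 + (ν h z₀).2 := by
          rw [nu_mul, hKz h hh, hshift, zero_add]
        rw [h1]; rfl }
  refine ⟨K, hK, fibered_of χ ?_ ?_⟩
  · intro h
    have h1 : T.jj v₀ g₀ ∈ K := by
      change (ν (T.jj v₀ g₀) (y₀, 0)).1 = y₀
      rw [hνa]; exact hg₀
    have h2 : Multiplicative.ofAdd (ν (T.jj v₀ g₀) z₀).2 = 1 := DFunLike.congr_fun h ⟨_, h1⟩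
    have h3 : (ν (T.jj v₀ g₀) (y₀, 0)).2 = 0 := h2
    rw [hνa] at h3
    apply hg₀'
    simpa using h3
  · have hHK : st ν z₀ ≤ K := by
      intro g hg
      change (ν g z₀).1 = y₀
      rw [show ν g z₀ = z₀ from hg]
    have heq : χ.ker = (st ν z₀).subgroupOf K := by
      ext ⟨g, hg⟩
      rw [MonoidHom.mem_ker, Subgroup.mem_subgroupOf]
      change Multiplicative.ofAdd (ν g z₀).2 = 1 ↔ ν g z₀ = z₀
      constructor
      · intro h
        have h1 : (ν g z₀).2 = 0 := h
        exact Prod.ext hg h1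
      · intro h
        rw [h]; rfl
    rw [heq, ← Group.fg_iff_subgroup_fg]
    have h1 : Group.FG (st ν z₀) := (Group.fg_iff_subgroup_fg _).2 hHfg
    exact Group.fg_of_surjective (f := (Subgroup.subgroupOfEquivOfLe hHK).symm.toMonoidHom)
      (Subgroup.subgroupOfEquivOfLe hHK).symm.surjective

end TreeOfGroups

end Q30.VT
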