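import Mathlib

/-!
# A finitely generated group for MP_ffcf77

`G = B ⋊ ℤ⁶`, where `B` is the class two group with elements `(f, c)`,
`f : ℤ⁶ →₀ ZMod 2`, `c : ZMod 2` and product `(f,c)(g,d) = (f+g, c+d+φ(f,g))`,
`φ(f,g) = ∑ f(q) g(q+e)`.
-/

open scoped commutatorElement

namespace Q30.WordWalk

/-- the lattice of positions -/
abbrev V : Type := Fin 6 → ℤ

/-- the finitely supported functions on the lattice -/
abbrev F : Type := V →₀ ZMod 2

/-- a fixed nonzero vector -/
def e : V := fun _ => 1

/-- translation of functions -/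
noncomputable def sh (q : V) (f : F) : F := Finsupp.mapDomain (fun x => q + x) f

/-- the bilinear form -/
noncomputable def ph (f g : F) : ZMod 2 := f.sum fun q a => a * g (q + e)

theorem sh_add (q : V) (f g : F) : sh q (f + g) = sh q f + sh q g :=
  Finsupp.mapDomain_add

theorem sh_zero (q : V) : sh q 0 = 0 := Finsupp.mapDomain_zero

theorem sh_neg (q : V) (f : F) : sh q (-f) = - sh q f := by
  have h : sh q (-f) + sh q f = 0 := by rw [← sh_add]; simp [sh_zero]
  exact eq_neg_of_add_eq_zero_left h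

theorem zero_sh (f : F) : sh 0 f = f := by
  unfold sh
  have : (fun x : V => 0 + x) = id := by funext x; simp
  rw [this, Finsupp.mapDomain_id]

theorem sh_sh (p q : V) (f : F) : sh p (sh q f) = sh (p + q) f := by
  unfold sh
  rw [← Finsupp.mapDomain_comp]
  congr 1
  funext x
  simp [add_assoc]

theorem sh_single (q p : V) (a : ZMod 2) : sh q (Finsupp.single p a) = Finsupp.single (q + p) a :=
  Finsupp.mapDomain_single

theorem sh_apply (q x : V) (f : F) : sh q f x = f (x - q) := by
  have h := Finsupp.mapDomain_apply (f := fun x : V => q + x)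
    (fun a b hab => by simpa using hab) f (x - q)
  have h2 : q + (x - q) = x := by abel
  simp only [h2] at h
  exact h

theorem ph_add_left (f f' g : F) : ph (f + f') g = ph f g + ph f' g := by
  unfold ph
  rw [Finsupp.sum_add_index']
  · intro q; simp
  · intro q a b; ring

theorem ph_add_right (f g g' : F) : ph f (g + g') = ph f g + ph f g' := by
  unfold ph
  rw [← Finsupp.sum_add]
  congr 1
  funext q a
  simp [mul_add]

theorem ph_zero_left (g : F) : ph 0 g = 0 := by simp [ph]

theorem ph_zero_right (f : F) : ph f 0 = 0 := by simp [ph]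

theorem ph_neg_left (f g : F) : ph (-f) g = - ph f g := by
  have h : ph (-f) g + ph f g = 0 := by rw [← ph_add_left]; simp [ph_zero_left]
  exact eq_neg_of_add_eq_zero_left h

theorem ph_neg_right (f g : F) : ph f (-g) = - ph f g := by
  have h : ph f (-g) + ph f g = 0 := by rw [← ph_add_right]; simp [ph_zero_right]
  exact eq_neg_of_add_eq_zero_left h

theorem ph_sh (q : V) (f g : F) : ph (sh q f) (sh q g) = ph f g := by
  unfold ph
  rw [sh, Finsupp.sum_mapDomain_index]
  · congr 1
    funext x a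
    rw [sh_apply]
    congr 2
    abel
  · intro x; simp
  · intro x a b; ring

/-- the group -/
@[ext] structure G where
  /-- position -/
  q : V
  /-- lamps -/
  f : F
  /-- central part -/
  c : ZMod 2

noncomputable instance : Mul G :=
  ⟨fun x y => ⟨x.q + y.q, x.f + sh x.q y.f, x.c + y.c + ph x.f (sh x.q y.f)⟩⟩
noncomputable instance : One G := ⟨⟨0, 0, 0⟩⟩
noncomputable instance : Inv G :=
  ⟨fun x => ⟨-x.q, - sh (-x.q) x.f, -x.c + ph x.f x.f⟩⟩

theorem mul_q (x y : G) : (x * y).q = x.q + y.q := rfl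
theorem mul_f (x y : G) : (x * y).f = x.f + sh x.q y.f := rfl
theorem mul_c (x y : G) : (x * y).c = x.c + y.c + ph x.f (sh x.q y.f) := rfl
theorem one_q : (1 : G).q = 0 := rfl
theorem one_f : (1 : G).f = 0 := rfl
theorem one_c : (1 : G).c = 0 := rfl
theorem inv_q (x : G) : (x⁻¹).q = - x.q := rfl
theorem inv_f (x : G) : (x⁻¹).f = - sh (-x.q) x.f := rfl
theorem inv_c (x : G) : (x⁻¹).c = -x.c + ph x.f x.f := rfl

noncomputable instance : Group G :=
  Group.ofLeftAxioms
    (by
      intro x y z
      apply G.ext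
      · simp only [mul_q]; abel
      · simp only [mul_q, mul_f, sh_add, sh_sh]; abel
      · simp only [mul_q, mul_f, mul_c, sh_add, sh_sh, ph_add_left, ph_add_right]
        have h := ph_sh x.q y.f (sh y.q z.f)
        rw [sh_sh] at h
        rw [← h]
        ring)
    (by
      intro x
      apply G.ext
      · simp only [mul_q, one_q, zero_add]
      · simp only [mul_f, one_q, one_f, zero_sh, zero_add]
      · simp only [mul_c, one_q, one_f, one_c, zero_sh, zero_add, ph_zero_left, add_zero])
    (by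
      intro x
      apply G.ext
      · simp only [mul_q, inv_q, one_q]; abel
      · simp only [mul_f, inv_q, inv_f, one_f]; abel
      · simp only [mul_c, inv_q, inv_f, inv_c, one_c, ph_neg_left, ph_sh]; ring)

/-- The commutator of two elements of the normal subgroup `B`. -/
theorem comm_B (x y : G) (hx : x.q = 0) (hy : y.q = 0) :
    ⁅x, y⁆ = ⟨0, 0, ph x.f y.f - ph y.f x.f⟩ := by
  have h : x * y = (⟨0, 0, ph x.f y.f - ph y.f x.f⟩ : G) * (y * x) := by
    apply G.ext
    · simp only [mul_q, hx, hy]; abel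
    · simp only [mul_f, hx, hy, zero_sh]; abel
    · simp only [mul_f, mul_c, hx, hy, zero_sh, ph_zero_left]; abel
  rw [commutatorElement_def, mul_assoc, ← mul_inv_rev, h, mul_inv_cancel_right]

theorem comm_q (x y : G) : (⁅x, y⁆ : G).q = 0 := by
  rw [commutatorElement_def]
  simp only [mul_q, inv_q]; abel

theorem comm_f (x y : G) :
    (⁅x, y⁆ : G).f = x.f + sh x.q y.f - sh y.q x.f - y.f := by
  rw [commutatorElement_def]
  simp only [mul_q, mul_f, inv_q, inv_f, sh_neg, sh_sh]
  have h1 : x.q + y.q + -x.q = y.q := by abel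
  have h2 : x.q + y.q + -x.q + -y.q = 0 := by abel
  rw [h1, ← sub_eq_add_neg y.q y.q, sub_self, zero_sh]
  abel

theorem conj_q (x u : G) (hu : u.q = 0) : (x * u * x⁻¹).q = 0 := by
  simp only [mul_q, inv_q, hu]; abel

theorem conj_f (x u : G) (hu : u.q = 0) : (x * u * x⁻¹).f = sh x.q u.f := by
  simp only [mul_q, mul_f, inv_f, hu, add_zero, sh_neg, sh_sh]
  rw [← sub_eq_add_neg x.q x.q, sub_self, zero_sh]
  abel

/-- The word `[x₅ [x₁,x₂] x₅⁻¹, [x₃,x₄]]` (indices shifted by one) evaluated in a group. -/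
def wv {H : Type*} [Group H] (x : Fin 5 → H) : H :=
  ⁅x 4 * ⁅x 0, x 1⁆ * (x 4)⁻¹, ⁅x 2, x 3⁆⁆

theorem wv_eq (x : Fin 5 → G) :
    wv x = ⟨0, 0, ph (sh (x 4).q (⁅x 0, x 1⁆ : G).f) (⁅x 2, x 3⁆ : G).f
      - ph (⁅x 2, x 3⁆ : G).f (sh (x 4).q (⁅x 0, x 1⁆ : G).f)⟩ := by
  unfold wv
  rw [comm_B _ _ (conj_q _ _ (comm_q _ _)) (comm_q _ _), conj_f _ _ (comm_q _ _)]

theorem ph_ne_zero (f g : F) (h : ph f g ≠ 0) : ∃ a ∈ f.support, a + e ∈ g.support := by
  by_contra hc
  push Not at hc
  apply h
  unfold ph Finsupp.sum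
  apply Finset.sum_eq_zero
  intro a ha
  have := hc a ha
  rw [Finsupp.notMem_support_iff] at this
  change f a * g (a + e) = 0
  rw [this, mul_zero]

theorem mem_support_sh (q x : V) (f : F) (h : x ∈ (sh q f).support) : x - q ∈ f.support := by
  rw [Finsupp.mem_support_iff] at h ⊢
  rwa [sh_apply] at h

/-- the set of bad positions of the last argument -/
noncomputable def bad (U W : F) : Finset V :=
  (U.support ×ˢ W.support).image (fun p => p.2 - p.1 - e) ∪
    (U.support ×ˢ W.support).image (fun p => p.2 - p.1 + e)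

theorem card_bad (U W : F) : (bad U W).card ≤ 2 * (U.support.card * W.support.card) := by
  unfold bad
  refine (Finset.card_union_le _ _).trans ?_
  have h1 := Finset.card_image_le (s := U.support ×ˢ W.support) (f := fun p => p.2 - p.1 - e)
  have h2 := Finset.card_image_le (s := U.support ×ˢ W.support) (f := fun p => p.2 - p.1 + e)
  rw [Finset.card_product] at h1 h2
  omega

theorem mem_bad (x : Fin 5 → G) (h : wv x ≠ 1) :
    (x 4).q ∈ bad (⁅x 0, x 1⁆ : G).f (⁅x 2, x 3⁆ : G).f := by
  rw [wv_eq] at h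
  have h2 : ph (sh (x 4).q (⁅x 0, x 1⁆ : G).f) (⁅x 2, x 3⁆ : G).f ≠ 0 ∨
      ph (⁅x 2, x 3⁆ : G).f (sh (x 4).q (⁅x 0, x 1⁆ : G).f) ≠ 0 := by
    by_contra hc
    push Not at hc
    apply h
    rw [hc.1, hc.2, sub_zero]
    rfl
  unfold bad
  rw [Finset.mem_union]
  rcases h2 with h2 | h2
  · left
    obtain ⟨a, ha, hb⟩ := ph_ne_zero _ _ h2
    have ha' := mem_support_sh _ _ _ ha
    rw [Finset.mem_image]
    refine ⟨(a - (x 4).q, a + e), Finset.mem_product.2 ⟨ha', hb⟩, ?_⟩
    dsimp only
    abel
  · right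
    obtain ⟨b, hb, ha⟩ := ph_ne_zero _ _ h2
    have ha' := mem_support_sh _ _ _ ha
    rw [Finset.mem_image]
    refine ⟨(b + e - (x 4).q, b), Finset.mem_product.2 ⟨ha', hb⟩, ?_⟩
    dsimp only
    abel

theorem card_support_sh (q : V) (f : F) : (sh q f).support.card ≤ f.support.card := by
  unfold sh
  exact (Finset.card_le_card Finsupp.mapDomain_support).trans Finset.card_image_le

theorem card_support_add (f g : F) :
    (f + g).support.card ≤ f.support.card + g.support.card :=
  (Finset.card_le_card Finsupp.support_add).trans (Finset.card_union_le _ _)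

theorem card_support_sub (f g : F) :
    (f - g).support.card ≤ f.support.card + g.support.card := by
  rw [sub_eq_add_neg]
  have := card_support_add f (-g)
  rwa [Finsupp.support_neg] at this

theorem card_support_comm (x y : G) (n : ℕ) (hx : x.f.support.card ≤ n)
    (hy : y.f.support.card ≤ n) : (⁅x, y⁆ : G).f.support.card ≤ 4 * n := by
  rw [comm_f]
  have h1 := card_support_sub (x.f + sh x.q y.f - sh y.q x.f) y.f
  have h2 := card_support_sub (x.f + sh x.q y.f) (sh y.q x.f)
  have h3 := card_support_add x.f (sh x.q y.f)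
  have h4 := card_support_sh x.q y.f
  have h5 := card_support_sh y.q x.f
  omega

/-! ### The generating set -/

/-- the steps of the walk -/
noncomputable def gen (p : (Fin 6 → Bool) × Bool) : G :=
  ⟨fun i => if p.1 i then 1 else 0, if p.2 then Finsupp.single 0 1 else 0, 0⟩

/-- decoding of a step -/
noncomputable def code (g : G) : (Fin 6 → Bool) × Bool :=
  (fun i => decide (g.q i = 1), decide (g.f 0 = 1))

theorem code_gen (p : (Fin 6 → Bool) × Bool) : code (gen p) = p := by
  obtain ⟨a, b⟩ := p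
  unfold code gen
  ext i
  · by_cases h : a i = true <;> simp [h]
  · cases b <;> simp

theorem gen_injective : Function.Injective gen :=
  Function.LeftInverse.injective code_gen

/-- the generating set, containing `1` -/
@[irreducible] noncomputable def S : Finset G := Finset.univ.map ⟨gen, gen_injective⟩

theorem mem_S (g : G) : g ∈ S ↔ ∃ p, gen p = g := by
  unfold S; simp

theorem gen_mem_S (p : (Fin 6 → Bool) × Bool) : gen p ∈ S := by
  rw [mem_S]
  exact Exists.intro p rfl

theorem one_mem_S : (1 : G) ∈ S := by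
  rw [mem_S]
  refine ⟨(fun _ => false, false), ?_⟩
  apply G.ext
  · funext i; simp [gen, one_q]
  · simp [gen, one_f]
  · rfl

theorem card_S : S.card = 128 := by
  unfold S
  rw [Finset.card_map]
  simp

theorem closure_S : Subgroup.closure (S : Set G) = ⊤ := by
  set H := Subgroup.closure (S : Set G) with hH
  have hS : ∀ p, gen p ∈ H := by
    intro p
    exact Subgroup.subset_closure (gen_mem_S p)
  -- translations
  have hadd : ∀ p q : V, (⟨p + q, 0, 0⟩ : G) = ⟨p, 0, 0⟩ * ⟨q, 0, 0⟩ := by
    intro p q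
    apply G.ext
    · rfl
    · simp [mul_f, sh_zero]
    · simp [mul_c, ph_zero_left]
  let A : AddSubgroup V :=
    { carrier := {q | (⟨q, 0, 0⟩ : G) ∈ H}
      add_mem' := by
        intro p q hp hq
        change (⟨p + q, 0, 0⟩ : G) ∈ H
        rw [hadd]
        exact H.mul_mem hp hq
      zero_mem' := H.one_mem
      neg_mem' := by
        intro q hq
        change (⟨-q, 0, 0⟩ : G) ∈ H
        have : (⟨-q, 0, 0⟩ : G) = (⟨q, 0, 0⟩ : G)⁻¹ := by
          apply G.ext
          · rfl
          · simp [inv_f, sh_zero]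
          · simp [inv_c, ph_zero_left]
        rw [this]
        exact H.inv_mem hq }
  have hA1 : ∀ i : Fin 6, (Pi.single i 1 : V) ∈ A := by
    intro i
    change (⟨Pi.single i 1, 0, 0⟩ : G) ∈ H
    have h := hS (fun j => decide (j = i), false)
    have h2 : gen (fun j => decide (j = i), false) = ⟨Pi.single i 1, 0, 0⟩ := by
      apply G.ext
      · funext j
        simp [gen, Pi.single_apply]
      · simp [gen]
      · rfl
    rwa [h2] at h
  have hA : ∀ q : V, (⟨q, 0, 0⟩ : G) ∈ H := by
    intro q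
    have hq : q = ∑ i, q i • (Pi.single i 1 : V) := by
      funext j
      simp [Finset.sum_apply, Pi.single_apply]
    have : q ∈ A := by
      rw [hq]
      exact A.sum_mem fun i _ => A.zsmul_mem (hA1 i) _
    exact this
  have ha0 : (⟨0, Finsupp.single 0 1, 0⟩ : G) ∈ H := by
    have h := hS (fun _ => false, true)
    have h2 : gen (fun _ => false, true) = ⟨0, Finsupp.single 0 1, 0⟩ := by
      apply G.ext
      · funext j
        simp [gen]
      · simp [gen]
      · rfl
    rwa [h2] at h
  have ha : ∀ q : V, (⟨0, Finsupp.single q 1, 0⟩ : G) ∈ H := by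
    intro q
    have h := H.mul_mem (H.mul_mem (hA q) ha0) (H.inv_mem (hA q))
    have h2 : (⟨q, 0, 0⟩ : G) * ⟨0, Finsupp.single 0 1, 0⟩ * (⟨q, 0, 0⟩ : G)⁻¹
        = ⟨0, Finsupp.single q 1, 0⟩ := by
      apply G.ext
      · exact conj_q _ _ rfl
      · rw [conj_f _ _ rfl, sh_single]; simp
      · simp [mul_c, mul_f, mul_q, inv_f, inv_c, ph_zero_left, ph_zero_right, sh_zero]
    rwa [h2] at h
  have hz : (⟨0, 0, 1⟩ : G) ∈ H := by
    have h := H.mul_mem (H.mul_mem (ha 0) (ha e)) (H.mul_mem (H.inv_mem (ha 0)) (H.inv_mem (ha e)))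
    have h2 : (⟨0, Finsupp.single 0 1, 0⟩ : G) * ⟨0, Finsupp.single e 1, 0⟩ *
        ((⟨0, Finsupp.single 0 1, 0⟩ : G)⁻¹ * (⟨0, Finsupp.single e 1, 0⟩ : G)⁻¹)
        = ⟨0, 0, 1⟩ := by
      rw [← mul_assoc, ← commutatorElement_def, comm_B _ _ rfl rfl]
      have he : e + e ≠ 0 := by
        intro h; have := congrFun h 0; simp [e] at this
      have h1 : ph (Finsupp.single (0 : V) 1) (Finsupp.single e 1) = 1 := by
        unfold ph; simp
      have h2 : ph (Finsupp.single e 1) (Finsupp.single (0 : V) 1) = 0 := by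
        unfold ph
        rw [Finsupp.sum_single_index (by simp), Finsupp.single_apply, if_neg (Ne.symm he)]
        simp
      dsimp only
      rw [h1, h2, sub_zero]
    rwa [h2] at h
  have hc : ∀ c : ZMod 2, (⟨0, 0, c⟩ : G) ∈ H := by
    intro c
    have : c = 0 ∨ c = 1 := by
      revert c; decide
    rcases this with rfl | rfl
    · exact H.one_mem
    · exact hz
  have hmulB : ∀ f g : F, ∀ c d : ZMod 2, (⟨0, f, c⟩ : G) * ⟨0, g, d⟩ = ⟨0, f + g, c + d + ph f g⟩ := by
    intro f g c d
    apply G.ext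
    · simp [mul_q]
    · simp [mul_f, zero_sh]
    · simp [mul_c, zero_sh]
  have hf : ∀ f : F, ∃ c : ZMod 2, (⟨0, f, c⟩ : G) ∈ H := by
    intro f
    induction f using Finsupp.induction_linear with
    | zero => exact ⟨0, H.one_mem⟩
    | add f g hf hg =>
      obtain ⟨c, hc⟩ := hf
      obtain ⟨d, hd⟩ := hg
      refine ⟨c + d + ph f g, ?_⟩
      rw [← hmulB]
      exact H.mul_mem hc hd
    | single q a =>
      refine ⟨0, ?_⟩
      have : a = 0 ∨ a = 1 := by
        revert a; decide
      rcases this with rfl | rfl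
      · rw [Finsupp.single_zero]; exact H.one_mem
      · exact ha q
  rw [eq_top_iff]
  intro g _
  obtain ⟨c, hcf⟩ := hf g.f
  have h := H.mul_mem (H.mul_mem (hc (g.c - c)) hcf) (hA g.q)
  have h2 : (⟨0, 0, g.c - c⟩ : G) * ⟨0, g.f, c⟩ * ⟨g.q, 0, 0⟩ = g := by
    apply G.ext
    · simp [mul_q]
    · simp [mul_q, mul_f, zero_sh]
    · simp [mul_q, mul_f, mul_c, zero_sh, ph_zero_left, ph_zero_right]
  rwa [h2] at h

/-- The word is not a law. -/
theorem not_law : ∃ x : Fin 5 → G, wv x ≠ 1 := by
  refine ⟨![⟨0, Finsupp.single 0 1, 0⟩, ⟨fun _ => 10, 0, 0⟩, ⟨0, Finsupp.single 0 1, 0⟩,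
    ⟨fun _ => 20, 0, 0⟩, ⟨e, 0, 0⟩], ?_⟩
  rw [wv_eq]
  intro h
  have h := congrArg G.c h
  simp only [comm_f, Matrix.cons_val, sh_zero, add_zero, sub_zero, sh_single, one_c] at h
  have key : ∀ a b : ℤ, a ≠ b → ((fun _ => a : V) ≠ fun _ => b) := by
    intro a b hab h; exact hab (congrFun h 0)
  simp only [sub_eq_add_neg, sh_add, sh_neg, sh_single, ph_add_left, ph_add_right, ph_neg_left,
    ph_neg_right] at h
  have hph : ∀ p q : V, ph (Finsupp.single p 1) (Finsupp.single q 1) = if q = p + e then 1 else 0 := by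
    intro p q
    unfold ph
    rw [Finsupp.sum_single_index (by simp), Finsupp.single_apply]
    simp
  simp only [hph] at h
  have hV : ∀ a b : V, a 0 ≠ b 0 → ¬ (a = b) := by
    intro a b hab h; exact hab (congrFun h 0)
  have e0 : e 0 = 1 := rfl
  simp [funext_iff, e] at h

end Q30.WordWalk
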