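import Pool.Agent.Q30.WordWalk

/-!
# Counting walks for MP_ffcf77
-/

open scoped commutatorElement

namespace Q30.WordWalk

/-- codes of steps -/
abbrev C : Type := (Fin 6 → Bool) × Bool

/-- the end of a walk -/
noncomputable def walk {n : ℕ} (x : Fin n → C) : G := (List.ofFn fun j => gen (x j)).prod

theorem walk_zero (x : Fin 0 → C) : walk x = 1 := by simp [walk]

theorem walk_succ {n : ℕ} (x : Fin (n + 1) → C) :
    walk x = gen (x 0) * walk (fun j => x j.succ) := by
  simp [walk, List.ofFn_succ]

theorem walk_q {n : ℕ} (x : Fin n → C) (i : Fin 6) :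
    (walk x).q i = ((Finset.univ.filter (fun j => (x j).1 i = true)).card : ℤ) := by
  have h : ∀ (n : ℕ) (x : Fin n → C), (walk x).q i = ∑ j, if (x j).1 i = true then (1 : ℤ) else 0 := by
    intro n
    induction n with
    | zero => intro x; simp [walk_zero, one_q]
    | succ n ih =>
      intro x
      rw [walk_succ, mul_q, Pi.add_apply, ih, Fin.sum_univ_succ]
      rfl
  rw [h, Finset.card_filter]
  push_cast
  rfl

theorem walk_f {n : ℕ} (x : Fin n → C) : (walk x).f.support.card ≤ n := by
  have h : ∀ (n : ℕ) (x : Fin n → C), (walk x).f.support.card ≤ n := by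
    intro n
    induction n with
    | zero => intro x; simp [walk_zero, one_f]
    | succ n ih =>
      intro x
      rw [walk_succ, mul_f]
      refine (card_support_add _ _).trans ?_
      have h1 := card_support_sh (gen (x 0)).q (walk (fun j => x j.succ)).f
      have h2 := ih (fun j => x j.succ)
      have h3 : (gen (x 0)).f.support.card ≤ 1 := by
        unfold gen
        dsimp only
        split_ifs
        · exact (Finset.card_le_card Finsupp.support_single_subset).trans (by simp)
        · simp
      omega
  exact h n x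

/-- the number of walks with a given position -/
theorem count_pos (n : ℕ) (p : V) :
    (Finset.univ.filter (fun x : Fin n → C => (walk x).q = p)).card
      ≤ 2 ^ n * (n.choose (n / 2)) ^ 6 := by
  classical
  have h1 : (Finset.univ.filter (fun x : Fin n → C => (walk x).q = p)).card ≤
      ((Fintype.piFinset fun i : Fin 6 =>
        Finset.powersetCard (p i).toNat (Finset.univ : Finset (Fin n))) ×ˢ
        (Finset.univ : Finset (Fin n → Bool))).card := by
    apply Finset.card_le_card_of_injOn
      (fun x => ((fun i => Finset.univ.filter (fun j => (x j).1 i = true)), fun j => (x j).2))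
    · intro x hx
      have hx' : (walk x).q = p := by simpa using hx
      simp only [Finset.coe_product, Finset.coe_univ, Set.mem_prod, Finset.mem_coe,
        Fintype.mem_piFinset, Finset.mem_powersetCard, Set.mem_univ, and_true]
      intro i
      refine ⟨Finset.subset_univ _, ?_⟩
      rw [← hx', walk_q]
      simp
    · intro x _ y _ hxy
      simp only [Prod.mk.injEq] at hxy
      obtain ⟨ha, hb⟩ := hxy
      funext j
      apply Prod.ext
      · funext i
        have := congrFun ha i
        have h2 : j ∈ Finset.univ.filter (fun j => (x j).1 i = true) ↔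
            j ∈ Finset.univ.filter (fun j => (y j).1 i = true) := by rw [this]
        simp only [Finset.mem_filter, Finset.mem_univ, true_and] at h2
        exact Bool.eq_iff_iff.2 h2
      · exact congrFun hb j
  refine h1.trans ?_
  rw [Finset.card_product, Fintype.card_piFinset, mul_comm]
  have h2 : (Finset.univ : Finset (Fin n → Bool)).card = 2 ^ n := by simp
  rw [h2]
  apply Nat.mul_le_mul_left
  have h3 : ∀ i : Fin 6, (Finset.powersetCard (p i).toNat (Finset.univ : Finset (Fin n))).card ≤
      n.choose (n / 2) := by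
    intro i
    rw [Finset.card_powersetCard]
    simp only [Finset.card_univ, Fintype.card_fin]
    exact Nat.choose_le_middle _ _
  calc ∏ i : Fin 6, (Finset.powersetCard (p i).toNat (Finset.univ : Finset (Fin n))).card
      ≤ ∏ _i : Fin 6, n.choose (n / 2) := Finset.prod_le_prod' fun i _ => h3 i
    _ = (n.choose (n / 2)) ^ 6 := by simp

theorem count_pos_mem (n : ℕ) (D : Finset V) :
    (Finset.univ.filter (fun x : Fin n → C => (walk x).q ∈ D)).card
      ≤ 2 ^ n * (n.choose (n / 2)) ^ 6 * D.card := by
  classical
  refine (Finset.card_le_mul_card_image (f := fun x : Fin n → C => (walk x).q) _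
    (2 ^ n * (n.choose (n / 2)) ^ 6) ?_).trans ?_
  · intro p _
    refine (Finset.card_le_card ?_).trans (count_pos n p)
    intro x hx
    rw [Finset.mem_filter] at hx
    rw [Finset.mem_filter]
    exact ⟨Finset.mem_univ _, hx.2⟩
  · apply Nat.mul_le_mul_left
    apply Finset.card_le_card
    intro p hp
    rw [Finset.mem_image] at hp
    obtain ⟨x, hx, rfl⟩ := hp
    exact (Finset.mem_filter.1 hx).2

open Classical in
/-- The number of bad quintuples of walks. -/
theorem count_bad (n : ℕ) :
    (Finset.univ.filter (fun s : Fin 5 → Fin n → C => wv (fun i => walk (s i)) ≠ 1)).card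
      ≤ 2 ^ n * (n.choose (n / 2)) ^ 6 * (32 * n ^ 2) * (128 ^ n) ^ 4 := by
  refine (Finset.card_le_mul_card_image
    (f := fun (s : Fin 5 → Fin n → C) (i : Fin 4) => s i.castSucc) _
    (2 ^ n * (n.choose (n / 2)) ^ 6 * (32 * n ^ 2)) ?_).trans ?_
  · intro t _
    set D : Finset V := bad (⁅walk (t 0), walk (t 1)⁆ : G).f (⁅walk (t 2), walk (t 3)⁆ : G).f
      with hD
    have hDc : D.card ≤ 32 * n ^ 2 := by
      refine (card_bad _ _).trans ?_
      have h1 := card_support_comm (walk (t 0)) (walk (t 1)) n (walk_f _) (walk_f _)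
      have h2 := card_support_comm (walk (t 2)) (walk (t 3)) n (walk_f _) (walk_f _)
      calc _ ≤ 2 * ((4 * n) * (4 * n)) := Nat.mul_le_mul_left _ (Nat.mul_le_mul h1 h2)
        _ = 32 * n ^ 2 := by ring
    refine le_trans ?_ ((count_pos_mem n D).trans (Nat.mul_le_mul_left _ hDc))
    apply Finset.card_le_card_of_injOn (fun s => s 4)
    · intro s hs
      have hs' : s ∈ Finset.filter
          (fun x : Fin 5 → Fin n → C => (fun i : Fin 4 => x i.castSucc) = t)
          (Finset.univ.filter (fun s : Fin 5 → Fin n → C => wv (fun i => walk (s i)) ≠ 1)) := hs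
      rw [Finset.mem_filter, Finset.mem_filter] at hs'
      obtain ⟨⟨_, h1⟩, h2⟩ := hs'
      have h3 := mem_bad _ h1
      have e0 : t 0 = s 0 := by rw [← h2]; rfl
      have e1 : t 1 = s 1 := by rw [← h2]; rfl
      have e2 : t 2 = s 2 := by rw [← h2]; rfl
      have e3 : t 3 = s 3 := by rw [← h2]; rfl
      have hg : (walk (s 4)).q ∈ D := by
        rw [hD, e0, e1, e2, e3]
        exact h3
      have : s 4 ∈ Finset.univ.filter (fun x : Fin n → C => (walk x).q ∈ D) := by
        rw [Finset.mem_filter]
        exact ⟨Finset.mem_univ _, hg⟩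
      exact this
    · intro s hs s' hs' h4
      have hs1 : s ∈ Finset.filter
          (fun x : Fin 5 → Fin n → C => (fun i : Fin 4 => x i.castSucc) = t)
          (Finset.univ.filter (fun s : Fin 5 → Fin n → C => wv (fun i => walk (s i)) ≠ 1)) := hs
      have hs2 : s' ∈ Finset.filter
          (fun x : Fin 5 → Fin n → C => (fun i : Fin 4 => x i.castSucc) = t)
          (Finset.univ.filter (fun s : Fin 5 → Fin n → C => wv (fun i => walk (s i)) ≠ 1)) := hs'
      rw [Finset.mem_filter] at hs1 hs2
      have h5 := hs1.2.trans hs2.2.symm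
      funext i
      refine Fin.lastCases ?_ ?_ i
      · exact h4
      · intro j
        exact congrFun h5 j
  · apply Nat.mul_le_mul_left
    refine (Finset.card_le_univ _).trans ?_
    simp [C]

theorem central (m : ℕ) : (m.centralBinom) ^ 2 * (2 * m + 1) ≤ 16 ^ m := by
  induction m with
  | zero => simp
  | succ m ih =>
    have h := Nat.succ_mul_centralBinom_succ m
    have h1 : (m + 1) ^ 2 * ((m + 1).centralBinom ^ 2 * (2 * (m + 1) + 1)) ≤
        (m + 1) ^ 2 * 16 ^ (m + 1) := by
      calc (m + 1) ^ 2 * ((m + 1).centralBinom ^ 2 * (2 * (m + 1) + 1))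
          = ((m + 1) * (m + 1).centralBinom) ^ 2 * (2 * m + 3) := by ring
        _ = (2 * (2 * m + 1) * m.centralBinom) ^ 2 * (2 * m + 3) := by rw [h]
        _ = 4 * (2 * m + 1) * (2 * m + 3) * (m.centralBinom ^ 2 * (2 * m + 1)) := by ring
        _ ≤ 4 * (2 * m + 1) * (2 * m + 3) * 16 ^ m := Nat.mul_le_mul_left _ ih
        _ ≤ (16 * (m + 1) ^ 2) * 16 ^ m := by
            apply Nat.mul_le_mul_right
            nlinarith
        _ = (m + 1) ^ 2 * 16 ^ (m + 1) := by ring
    exact Nat.le_of_mul_le_mul_left h1 (by positivity)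

theorem middle (n : ℕ) : (n.choose (n / 2)) ^ 2 * (n + 1) ≤ 4 ^ n := by
  rcases Nat.even_or_odd' n with ⟨m, rfl | rfl⟩
  · have h := central m
    have h2 : 2 * m / 2 = m := by omega
    rw [h2, ← Nat.centralBinom_eq_two_mul_choose]
    calc _ ≤ 16 ^ m := h
      _ = 4 ^ (2 * m) := by rw [pow_mul]; norm_num
  · have h := central (m + 1)
    have h2 : (2 * m + 1) / 2 = m := by omega
    rw [h2]
    have h3 : (m + 1).centralBinom = 2 * (2 * m + 1).choose m := by
      rw [Nat.centralBinom_eq_two_mul_choose, show 2 * (m + 1) = (2 * m + 1) + 1 by ring,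
        Nat.choose_succ_succ, Nat.choose_symm_half]
      ring
    rw [h3] at h
    have h4 : 4 * ((2 * m + 1).choose m ^ 2 * (2 * m + 1 + 1)) ≤ 4 * 4 ^ (2 * m + 1) := by
      calc 4 * ((2 * m + 1).choose m ^ 2 * (2 * m + 1 + 1))
          ≤ (2 * (2 * m + 1).choose m) ^ 2 * (2 * (m + 1) + 1) := by
            have : (2 * (2 * m + 1).choose m) ^ 2 * (2 * (m + 1) + 1) =
              4 * ((2 * m + 1).choose m ^ 2 * (2 * m + 1 + 1)) + 4 * (2 * m + 1).choose m ^ 2 := by
              ring
            omega
        _ ≤ 16 ^ (m + 1) := h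
        _ = 4 * 4 ^ (2 * m + 1) := by
            rw [show (16 : ℕ) = 4 ^ 2 by norm_num, ← pow_mul, ← pow_succ']
            congr 1
    exact Nat.le_of_mul_le_mul_left h4 (by norm_num)

end Q30.WordWalk
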